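import Pool.Agent.H27.RC.Defs

/-!
# Bad seeds (module RC-BAD)

`E_0 = ∅`; step `j` is bad if `#{y ∈ A | t ≤ rep A ((s j)⁻¹ y), (s j)⁻¹ y ∉ D(E_j)} * 4 > |A|` with
`D(E) = ⋃_{k ∈ E} (s k)⁻¹ A`; then `E_{j+1} = E_j ∪ {j}`, else `E_{j+1} = E_j`. With
`m = |A|`: each bad step adds more than `m / 4` popular quotients to `D(E)`; there are at most
`m² / t` popular quotients (`∑_d rep A d = m²`); so `|E| ≤ 4 m / t ≤ 128 K` (`Reg.tau`).
If step `j` is not bad: `#{y ∈ A | (s j)⁻¹ y ∈ D(E_j)} ≥ m - m/8 - m/4 = 5m/8`; so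
`E_j` is nonempty and some `k ∈ E_j` (so `k < j`) has
`#{y ∈ A | (s j)⁻¹ y ∈ (s k)⁻¹ A} ≥ 5 m / (8 * 128 K) ≥ m / (205 K)`; the map
`y ↦ s k * (s j)⁻¹ * y` is a bijection from this set to `{y' ∈ A | s j * (s k)⁻¹ * y' ∈ A}`.
-/

open Finset
open scoped Pointwise Classical

namespace RC

variable {G : Type*} [Group G]

namespace BadAux

/-- popular quotients -/
noncomputable def Pop (A : Finset G) (t : ℕ) : Finset G := (A⁻¹ * A).filter fun d => t ≤ rep A d

theorem pop_card (A : Finset G) (t : ℕ) : (Pop A t).card * t ≤ A.card * A.card := by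
  have h1 : (Pop A t).card * t ≤ ∑ d ∈ Pop A t, rep A d := by
    rw [← smul_eq_mul]
    apply Finset.card_nsmul_le_sum
    intro d hd
    exact (Finset.mem_filter.mp hd).2
  have h2 : ∑ d ∈ Pop A t, rep A d =
      ((Pop A t).sigma fun d => A.filter fun a => a * d ∈ A).card := by
    rw [Finset.card_sigma]
    rfl
  have h3 : ((Pop A t).sigma fun d => A.filter fun a => a * d ∈ A).card ≤ (A ×ˢ A).card := by
    apply Finset.card_le_card_of_injOn (fun x => (x.2, x.2 * x.1))
    · rintro ⟨d, a⟩ hx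
      simp only [Finset.coe_sigma, Set.mem_sigma_iff, Finset.mem_coe, Finset.mem_filter] at hx
      simp only [Finset.coe_product, Set.mem_prod, Finset.mem_coe]
      exact ⟨hx.2.1, hx.2.2⟩
    · rintro ⟨d, a⟩ _ ⟨d', a'⟩ _ h
      simp only [Prod.mk.injEq] at h
      obtain ⟨h1, h2⟩ := h
      subst h1
      have : d = d' := mul_left_cancel h2
      subst this
      rfl
  rw [Finset.card_product] at h3
  omega

theorem exists_E (A : Finset G) (t : ℕ) (s : ℕ → G) (hs : ∀ k, s k ∈ A) (J : ℕ) :
    ∃ E ⊆ range J,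
      E.card * A.card ≤ 4 * ((Pop A t).filter fun d => ∃ k ∈ E, s k * d ∈ A).card ∧
      ∀ j < J, j ∉ E → 4 * (A.filter fun y => t ≤ rep A ((s j)⁻¹ * y) ∧
        ¬ ∃ k ∈ E, k < j ∧ s k * ((s j)⁻¹ * y) ∈ A).card ≤ A.card := by
  induction J with
  | zero => exact ⟨∅, by simp, by simp, by simp⟩
  | succ J ih =>
    obtain ⟨E, hE, hc, hj⟩ := ih
    have hlt : ∀ k ∈ E, k < J := fun k hk => Finset.mem_range.mp (hE hk)
    by_cases hb : 4 * (A.filter fun y => t ≤ rep A ((s J)⁻¹ * y) ∧
        ¬ ∃ k ∈ E, k < J ∧ s k * ((s J)⁻¹ * y) ∈ A).card ≤ A.card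
    · refine ⟨E, hE.trans (Finset.range_mono (Nat.le_succ J)), hc, ?_⟩
      intro j hjl hjE
      rcases Nat.lt_succ_iff_lt_or_eq.mp hjl with h | h
      · exact hj j h hjE
      · subst h
        exact hb
    · rw [not_le] at hb
      refine ⟨insert J E, ?_, ?_, ?_⟩
      · intro k hk
        rcases Finset.mem_insert.mp hk with h | h
        · subst h
          simp
        · exact Finset.mem_range.mpr ((hlt k h).trans (Nat.lt_succ_self J))
      · have hJ : J ∉ E := fun h => (lt_irrefl J) (hlt J h)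
        rw [Finset.card_insert_of_notMem hJ]
        set B := A.filter fun y => t ≤ rep A ((s J)⁻¹ * y) ∧
          ¬ ∃ k ∈ E, k < J ∧ s k * ((s J)⁻¹ * y) ∈ A with hB
        have hdisj : Disjoint ((Pop A t).filter fun d => ∃ k ∈ E, s k * d ∈ A)
            (B.image fun y => (s J)⁻¹ * y) := by
          rw [Finset.disjoint_left]
          intro d hd hd'
          obtain ⟨y, hy, rfl⟩ := Finset.mem_image.mp hd'
          obtain ⟨_, k, hk, hk'⟩ := Finset.mem_filter.mp hd
          exact (Finset.mem_filter.mp hy).2.2 ⟨k, hk, hlt k hk, hk'⟩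
        have hsub : ((Pop A t).filter fun d => ∃ k ∈ E, s k * d ∈ A) ∪
            (B.image fun y => (s J)⁻¹ * y) ⊆
            (Pop A t).filter fun d => ∃ k ∈ insert J E, s k * d ∈ A := by
          intro d hd
          rcases Finset.mem_union.mp hd with h | h
          · obtain ⟨h1, k, hk, hk'⟩ := Finset.mem_filter.mp h
            exact Finset.mem_filter.mpr ⟨h1, k, Finset.mem_insert_of_mem hk, hk'⟩
          · obtain ⟨y, hy, rfl⟩ := Finset.mem_image.mp h
            have hy' := Finset.mem_filter.mp hy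
            refine Finset.mem_filter.mpr ⟨Finset.mem_filter.mpr ⟨?_, hy'.2.1⟩, J,
              Finset.mem_insert_self _ _, ?_⟩
            · exact Finset.mul_mem_mul (Finset.inv_mem_inv (hs J)) hy'.1
            · rw [mul_inv_cancel_left]
              exact hy'.1
        have hcard := Finset.card_le_card hsub
        rw [Finset.card_union_of_disjoint hdisj,
          Finset.card_image_of_injective _ (mul_right_injective _)] at hcard
        have : (E.card + 1) * A.card = E.card * A.card + A.card := by ring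
        rw [this]
        omega
      · intro j hjl hjE
        have hjne : j ≠ J := fun h => hjE (h ▸ Finset.mem_insert_self _ _)
        have hjlt : j < J := by omega
        have hjE' : j ∉ E := fun h => hjE (Finset.mem_insert_of_mem h)
        have := hj j hjlt hjE'
        refine le_trans (Nat.mul_le_mul_left 4 (Finset.card_le_card ?_)) this
        intro y hy
        have hy' := Finset.mem_filter.mp hy
        refine Finset.mem_filter.mpr ⟨hy'.1, hy'.2.1, ?_⟩
        rintro ⟨k, hk, hk'⟩
        exact hy'.2.2 ⟨k, Finset.mem_insert_of_mem hk, hk'⟩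

end BadAux

open BadAux

theorem bad_seeds {A : Finset G} {K t : ℕ} (h : Reg A K t) (s : ℕ → G) (hs : ∀ k, s k ∈ A)
    (J : ℕ) : ∃ E ⊆ range J, E.card ≤ 128 * K ∧ ∀ j < J, j ∉ E → ∃ k < j,
      A.card ≤ 205 * K * (A.filter fun y => s j * (s k)⁻¹ * y ∈ A).card := by
  obtain ⟨E, hE, hc, hj⟩ := exists_E A t s hs J
  have hm : 0 < A.card := Finset.card_pos.mpr h.ne
  have ht : 0 < t := h.tpos
  have hEcard : E.card ≤ 128 * K := by
    have h1 : E.card * A.card ≤ 4 * (Pop A t).card :=
      hc.trans (Nat.mul_le_mul_left 4 (Finset.card_le_card (Finset.filter_subset _ _)))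
    have h2 := pop_card A t
    have h3 := h.tau
    have h4 : E.card * A.card * t ≤ 4 * (A.card * A.card) := by
      calc E.card * A.card * t ≤ 4 * (Pop A t).card * t := Nat.mul_le_mul_right t h1
        _ = 4 * ((Pop A t).card * t) := by ring
        _ ≤ 4 * (A.card * A.card) := Nat.mul_le_mul_left 4 h2
    have h5 : (E.card * t) * A.card ≤ (128 * K * t) * A.card := by
      calc (E.card * t) * A.card = E.card * A.card * t := by ring
        _ ≤ 4 * (A.card * A.card) := h4
        _ ≤ 4 * ((32 * K * t) * A.card) :=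
            Nat.mul_le_mul_left 4 (Nat.mul_le_mul_right _ h3)
        _ = (128 * K * t) * A.card := by ring
    have h6 := Nat.le_of_mul_le_mul_right h5 hm
    exact Nat.le_of_mul_le_mul_right h6 ht
  refine ⟨E, hE, hEcard, ?_⟩
  intro j hjJ hjE
  by_contra hcon
  push Not at hcon
  have hKpos : 0 < K := by
    rcases Nat.eq_zero_or_pos K with h0 | h0
    · have := h.tau
      rw [h0, Nat.mul_zero, Nat.zero_mul] at this
      omega
    · exact h0
  have hbad := hj j hjJ hjE
  have hleft := h.left (s j) (hs j)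
  set R := A.filter fun y => ∃ k ∈ E, k < j ∧ s k * ((s j)⁻¹ * y) ∈ A with hR
  have hcover : A.card ≤ (A.filter fun y => rep A ((s j)⁻¹ * y) < t).card +
      ((A.filter fun y => t ≤ rep A ((s j)⁻¹ * y) ∧
        ¬ ∃ k ∈ E, k < j ∧ s k * ((s j)⁻¹ * y) ∈ A).card + R.card) := by
    have hsub : A ⊆ (A.filter fun y => rep A ((s j)⁻¹ * y) < t) ∪
        ((A.filter fun y => t ≤ rep A ((s j)⁻¹ * y) ∧
        ¬ ∃ k ∈ E, k < j ∧ s k * ((s j)⁻¹ * y) ∈ A) ∪ R) := by
      intro y hy
      by_cases h1 : rep A ((s j)⁻¹ * y) < t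
      · exact Finset.mem_union_left _ (Finset.mem_filter.mpr ⟨hy, h1⟩)
      · apply Finset.mem_union_right
        by_cases h2 : ∃ k ∈ E, k < j ∧ s k * ((s j)⁻¹ * y) ∈ A
        · exact Finset.mem_union_right _ (Finset.mem_filter.mpr ⟨hy, h2⟩)
        · exact Finset.mem_union_left _
            (Finset.mem_filter.mpr ⟨hy, not_lt.mp h1, h2⟩)
    refine (Finset.card_le_card hsub).trans ((Finset.card_union_le _ _).trans ?_)
    exact Nat.add_le_add_left (Finset.card_union_le _ _) _
  have hRle : R.card ≤ ∑ k ∈ E.filter (fun k => k < j),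
      (A.filter fun y => s k * ((s j)⁻¹ * y) ∈ A).card := by
    have hsub : R ⊆ (E.filter (fun k => k < j)).biUnion fun k =>
        A.filter fun y => s k * ((s j)⁻¹ * y) ∈ A := by
      intro y hy
      obtain ⟨hyA, k, hk, hkj, hk'⟩ := Finset.mem_filter.mp hy
      exact Finset.mem_biUnion.mpr ⟨k, Finset.mem_filter.mpr ⟨hk, hkj⟩,
        Finset.mem_filter.mpr ⟨hyA, hk'⟩⟩
    exact (Finset.card_le_card hsub).trans Finset.card_biUnion_le
  have hbij : ∀ k, (A.filter fun y => s k * ((s j)⁻¹ * y) ∈ A).card =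
      (A.filter fun y => s j * (s k)⁻¹ * y ∈ A).card := by
    intro k
    apply Finset.card_bij (fun y _ => s k * ((s j)⁻¹ * y))
    · intro y hy
      obtain ⟨h1, h2⟩ := Finset.mem_filter.mp hy
      refine Finset.mem_filter.mpr ⟨h2, ?_⟩
      have : s j * (s k)⁻¹ * (s k * ((s j)⁻¹ * y)) = y := by group
      rw [this]
      exact h1
    · intro y _ y' _ hyy
      exact mul_left_cancel (mul_left_cancel hyy)
    · intro y hy
      obtain ⟨h1, h2⟩ := Finset.mem_filter.mp hy
      refine ⟨s j * (s k)⁻¹ * y, Finset.mem_filter.mpr ⟨h2, ?_⟩, by group⟩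
      have : s k * ((s j)⁻¹ * (s j * (s k)⁻¹ * y)) = y := by group
      rw [this]
      exact h1
  have hsumle : 205 * K * R.card ≤ (E.filter (fun k => k < j)).card * A.card := by
    calc 205 * K * R.card ≤ 205 * K * ∑ k ∈ E.filter (fun k => k < j),
          (A.filter fun y => s k * ((s j)⁻¹ * y) ∈ A).card := Nat.mul_le_mul_left _ hRle
      _ = ∑ k ∈ E.filter (fun k => k < j),
          205 * K * (A.filter fun y => s k * ((s j)⁻¹ * y) ∈ A).card := by
          rw [Finset.mul_sum]
      _ ≤ ∑ _k ∈ E.filter (fun k => k < j), A.card := by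
          apply Finset.sum_le_sum
          intro k hk
          rw [hbij k]
          exact (hcon k (Finset.mem_filter.mp hk).2).le
      _ = (E.filter (fun k => k < j)).card * A.card := by
          rw [Finset.sum_const, smul_eq_mul]
  have hEj : (E.filter (fun k => k < j)).card * A.card ≤ 128 * K * A.card :=
    Nat.mul_le_mul_right _ ((Finset.card_le_card (Finset.filter_subset _ _)).trans hEcard)
  have h5 : 5 * A.card ≤ 8 * R.card := by omega
  have h6 : 205 * K * (5 * A.card) ≤ 205 * K * (8 * R.card) := Nat.mul_le_mul_left _ h5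
  have h7 : 205 * K * (8 * R.card) ≤ 8 * (128 * K * A.card) := by
    calc 205 * K * (8 * R.card) = 8 * (205 * K * R.card) := by ring
      _ ≤ 8 * (128 * K * A.card) := Nat.mul_le_mul_left 8 (hsumle.trans hEj)
  have h8 : 0 < K * A.card := Nat.mul_pos hKpos hm
  nlinarith

end RC
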