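import Pool.Agent.H27.RC.StepWt

/-!
# Cost of a cheap step (module RC-COST)

`lcl_restrict`, `close_restrict`: if `a.1` lies in the `r'`-class of `y0`, all moves from there stay
in that class, so only the used edges inside the class matter.

`cost_le`. `stepWt = ∏ w, swt w`, every `swt w > 0`, and `swt w = 1` unless `w` is minimal in its
orbit. Put `U i i' := (i, i') ∈ σ.used`, `x = (v y0)⁻¹ w`, `N = csz r' y0`, and let `O w` be the
size of the orbit of `w` (`orel`). Always `kap' ≥ 1 / (2 n)`, so `- log (swt w) ≤ log (2 n)`.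
The orbits of the minimal `w` are disjoint, so `∑ (w minimal), O w ≤ n`; in particular at most
`n / s'` minimal `w` have `O w ≥ s'`. For the other minimal `w` which are not FAR:
the locations `v q x`, `(q, _) ∈ rel`, all lie in the orbit of `w` (`v q x = v q ((v y0)⁻¹ w)`), so
their number is at most `O w`, and `hspread` gives `|Q| ≤ 4 * O w * mx (fun i => v i x) Q`.
Let `R` be the block of `y0` in the column `x` (class of `y0` for `bcl r v p U w x`) and `R1` the
block of `y1`. `Q ⊆ R` since `r q y0` for `q ∈ Q`; so `cmx R ≥ mx Q`. The `q'` with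
`v q' = p * v q`, `q ∈ Q`, lie in `R1` and have locations `p (v q x)`, so `cmx R1 ≥ mx Q`
(`q ↦ q'` is injective since `v` is determined by... `v q' = p * v q` and `v` injective).
Not FAR means `close`: there is `ℓ` with `cmx R ≤ 2 cfib R ℓ`, `cmx R1 ≤ 2 cfib R1 ℓ`.
Since `{i | lcl (i, ℓ) (y0, w)} = {i | i ∈ R, v i x = ℓ}` (`lcl_inv`: `(v i)⁻¹ ℓ = x`) and
`{i | lcl (i, ℓ) (y1, p w)} = {i | i ∈ R1, v i x = ℓ}` (`(v y1)⁻¹ (p w) = x`), we get
`kap ... w (p w) ≥ cfib R ℓ * cfib R1 ℓ / N ^ 2 ≥ cmx R * cmx R1 / (4 N ^ 2)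
 ≥ (|Q| / (4 O w)) ^ 2 / (4 N ^ 2)`, hence
`- log (swt w) ≤ log 128 + 2 log (N / |Q|) + 2 log (O w) ≤ 5 + 2 log (N / |Q|) + 2 * O w`
(`Q` is inside the `r'`-class of `y0` so `N / |Q| ≥ 1`). Sum over minimal `w`:
`≤ 5 n + 2 n log (N / |Q|) + 2 n`.
-/

open Finset
open scoped Classical

namespace RC

variable {V : Type*} [Fintype V] {n : ℕ}

theorem lcl_restrict {r r' : Setoid V} (hle : r ≤ r') {v : V → Equiv.Perm (Fin n)}
    {p : Equiv.Perm (Fin n)} {U : V → V → Prop} (hU : ∀ i i', U i i' → r' i i') (y0 : V) {w : ℕ}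
    {a b : V × Fin n} (ha : r' a.1 y0) :
    lcl r v p U w a b ↔ lcl r v p (fun i i' => U i i' ∧ r' i y0) w a b := by
  constructor
  · intro h
    have h' : Relation.EqvGen (lstep r v p U w) a b := h
    have key : ∀ a b : V × Fin n, Relation.EqvGen (lstep r v p U w) a b →
        (r' a.1 b.1 ∧ (r' a.1 y0 →
          Relation.EqvGen (lstep r v p (fun i i' => U i i' ∧ r' i y0) w) a b)) := by
      intro a b hab
      induction hab with
      | rel a b hab =>
        refine ⟨lcl_conn (v := v) (p := p) (w := w) hle hU (Relation.EqvGen.rel a b hab), ?_⟩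
        intro ha
        apply Relation.EqvGen.rel
        rcases hab with h1 | ⟨h1, h2, h3⟩
        · exact Or.inl h1
        · exact Or.inr ⟨⟨h1, ha⟩, h2, h3⟩
      | refl a => exact ⟨r'.refl _, fun _ => Relation.EqvGen.refl _⟩
      | symm a b _ ih =>
        refine ⟨r'.symm ih.1, fun hb => Relation.EqvGen.symm _ _ (ih.2 (r'.trans ih.1 hb))⟩
      | trans a b c _ _ ih1 ih2 =>
        refine ⟨r'.trans ih1.1 ih2.1, fun ha => Relation.EqvGen.trans _ _ _ (ih1.2 ha)
          (ih2.2 (r'.trans (r'.symm ih1.1) ha))⟩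
    exact (key a b h').2 ha
  · intro h
    have h' : Relation.EqvGen (lstep r v p (fun i i' => U i i' ∧ r' i y0) w) a b := h
    have key : ∀ a b : V × Fin n,
        Relation.EqvGen (lstep r v p (fun i i' => U i i' ∧ r' i y0) w) a b →
          Relation.EqvGen (lstep r v p U w) a b := by
      intro a b hab
      induction hab with
      | rel a b hab =>
        apply Relation.EqvGen.rel
        rcases hab with h1 | ⟨h1, h2, h3⟩
        · exact Or.inl h1
        · exact Or.inr ⟨h1.1, h2, h3⟩
      | refl a => exact Relation.EqvGen.refl _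
      | symm a b _ ih => exact Relation.EqvGen.symm _ _ ih
      | trans a b c _ _ ih1 ih2 => exact Relation.EqvGen.trans _ _ _ ih1 ih2
    exact key a b h'

theorem cfib_mk {β : Type*} [Fintype β] (loc : V → β) (R : Setoid V) (i : V) (ℓ : β) :
    cfib loc R (Quotient.mk R i) ℓ = (univ.filter fun i' : V => R i' i ∧ loc i' = ℓ).card := by
  unfold cfib
  congr 1
  ext i'
  simp only [mem_filter, mem_univ, true_and, Quotient.eq]

theorem cfib_restrict {r r' : Setoid V} (hle : r ≤ r') {v : V → Equiv.Perm (Fin n)}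
    {p : Equiv.Perm (Fin n)} {U : V → V → Prop} (hU : ∀ i i', U i i' → r' i i') {y0 y : V}
    (h01 : r' y y0) (w : ℕ) (x ℓ : Fin n) :
    cfib (fun i => v i x) (bcl r v p U w x) (Quotient.mk _ y) ℓ =
    cfib (fun i => v i x) (bcl r v p (fun i i' => U i i' ∧ r' i y0) w x) (Quotient.mk _ y) ℓ := by
  rw [cfib_mk, cfib_mk]
  congr 1
  ext i
  simp only [mem_filter, mem_univ, true_and]
  apply and_congr_left
  intro _
  constructor
  · intro h
    have h1 : lcl r v p U w (y, v y x) (i, v i x) := (lcl r v p U w).symm h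
    exact (lcl _ _ _ _ _).symm ((lcl_restrict hle hU y0 (a := (y, v y x)) h01).1 h1)
  · intro h
    have h1 : lcl r v p (fun i i' => U i i' ∧ r' i y0) w (y, v y x) (i, v i x) :=
      (lcl r v p _ w).symm h
    exact (lcl _ _ _ _ _).symm ((lcl_restrict hle hU y0 (a := (y, v y x)) h01).2 h1)

theorem close_restrict {r r' : Setoid V} (hle : r ≤ r') {v : V → Equiv.Perm (Fin n)}
    {p : Equiv.Perm (Fin n)} {U : V → V → Prop} (hU : ∀ i i', U i i' → r' i i') {y0 y1 : V}
    (h01 : r' y0 y1) (w : ℕ) (x : Fin n) :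
    close (fun i => v i x) (bcl r v p U w x) y0 y1 ↔
      close (fun i => v i x) (bcl r v p (fun i i' => U i i' ∧ r' i y0) w x) y0 y1 := by
  have e0 := cfib_restrict (p := p) (v := v) hle hU (r'.refl y0) w x
  have e1 := cfib_restrict (p := p) (v := v) hle hU (r'.symm h01) w x
  have f0 : cmx (fun i => v i x) (bcl r v p U w x) (Quotient.mk _ y0) =
      cmx (fun i => v i x) (bcl r v p (fun i i' => U i i' ∧ r' i y0) w x) (Quotient.mk _ y0) := by
    unfold cmx
    congr 1
    funext ℓ
    exact e0 ℓ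
  have f1 : cmx (fun i => v i x) (bcl r v p U w x) (Quotient.mk _ y1) =
      cmx (fun i => v i x) (bcl r v p (fun i i' => U i i' ∧ r' i y0) w x) (Quotient.mk _ y1) := by
    unfold cmx
    congr 1
    funext ℓ
    exact e1 ℓ
  unfold close
  simp only [e0, e1, f0, f1]

/-- the far positions for the reference vertices `y0, y1` -/
noncomputable def farSet (r : Setoid V) (v : V → Equiv.Perm (Fin n)) (p : Equiv.Perm (Fin n))
    (U : V → V → Prop) (y0 y1 : V) : Finset (Fin n) :=
  univ.filter fun w : Fin n =>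
    ¬ close (fun i => v i ((v y0)⁻¹ w)) (bcl r v p U w ((v y0)⁻¹ w)) y0 y1

theorem mx_le_cmx {β : Type*} [Fintype β] (loc : V → β) (R : Setoid V) (y : V) (Q : Finset V)
    (π : β → β) (g : V → V) (hg : ∀ q ∈ Q, R (g q) y) (hloc : ∀ q ∈ Q, loc (g q) = π (loc q))
    (hinj : ∀ q ∈ Q, ∀ q' ∈ Q, g q = g q' → q = q') : mx loc Q ≤ cmx loc R (Quotient.mk R y) := by
  unfold mx
  apply Finset.sup_le
  intro ℓ _
  have h1 : (Q.filter fun i => loc i = ℓ).card ≤ cfib loc R (Quotient.mk R y) (π ℓ) := by
    rw [cfib_mk]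
    apply Finset.card_le_card_of_injOn g
    · intro q hq
      simp only [coe_filter, Set.mem_ofPred_eq] at hq
      simp only [coe_filter, Set.mem_ofPred_eq, mem_univ, true_and]
      exact ⟨hg q hq.1, by rw [hloc q hq.1, hq.2]⟩
    · intro q hq q' hq' h
      simp only [coe_filter, Set.mem_ofPred_eq] at hq hq'
      exact hinj q hq.1 q' hq'.1 h
  exact h1.trans (Finset.le_sup (f := cfib loc R (Quotient.mk R y)) (mem_univ _))

theorem kap_ge {v : V → Equiv.Perm (Fin n)} {r : Setoid V} {p : Equiv.Perm (Fin n)}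
    {U : V → V → Prop} {y0 y1 : V} (hy : v y1 = p * v y0) (N : ℕ) (w ℓ : Fin n) :
    ((cfib (fun i => v i ((v y0)⁻¹ w)) (bcl r v p U w ((v y0)⁻¹ w)) (Quotient.mk _ y0) ℓ : ℕ) : ℝ) *
      ((cfib (fun i => v i ((v y0)⁻¹ w)) (bcl r v p U w ((v y0)⁻¹ w)) (Quotient.mk _ y1) ℓ : ℕ) : ℝ)
      / (N : ℝ) ^ 2 ≤ kap r v p U N y0 y1 w (p w) := by
  unfold kap
  apply div_le_div_of_nonneg_right _ (by positivity)
  have h0 : cfib (fun i => v i ((v y0)⁻¹ w)) (bcl r v p U w ((v y0)⁻¹ w)) (Quotient.mk _ y0) ℓ ≤
      (univ.filter fun i => lcl r v p U w (i, ℓ) (y0, w)).card := by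
    rw [cfib_mk]
    apply Finset.card_le_card
    intro i hi
    simp only [mem_filter, mem_univ, true_and] at hi ⊢
    obtain ⟨h1, h2⟩ := hi
    have h1' : lcl r v p U w (i, v i ((v y0)⁻¹ w)) (y0, v y0 ((v y0)⁻¹ w)) := h1
    rw [h2] at h1'
    simpa using h1'
  have h1 : cfib (fun i => v i ((v y0)⁻¹ w)) (bcl r v p U w ((v y0)⁻¹ w)) (Quotient.mk _ y1) ℓ ≤
      (univ.filter fun i => lcl r v p U w (i, ℓ) (y1, p w)).card := by
    rw [cfib_mk]
    apply Finset.card_le_card
    intro i hi
    simp only [mem_filter, mem_univ, true_and] at hi ⊢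
    obtain ⟨h1, h2⟩ := hi
    have h1' : lcl r v p U w (i, v i ((v y0)⁻¹ w)) (y1, v y1 ((v y0)⁻¹ w)) := h1
    rw [h2, hy] at h1'
    simpa using h1'
  calc _ ≤ ((univ.filter fun i => lcl r v p U w (i, ℓ) (y0, w)).card : ℝ) *
        ((univ.filter fun i => lcl r v p U w (i, ℓ) (y1, p w)).card : ℝ) := by
        apply mul_le_mul
        · exact_mod_cast h0
        · exact_mod_cast h1
        · positivity
        · positivity
    _ ≤ _ := Finset.single_le_sum (f := fun ℓ : Fin n =>
        ((univ.filter fun i => lcl r v p U w (i, ℓ) (y0, w)).card : ℝ) *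
        ((univ.filter fun i => lcl r v p U w (i, ℓ) (y1, p w)).card : ℝ))
        (fun ℓ _ => by positivity) (mem_univ ℓ)

theorem log_bound {q N o c c1 κ : ℝ} (hq : 0 < q) (hN : 0 < N) (ho : 1 ≤ o)
    (hqo : q ≤ 4 * o * c) (hc1 : c ≤ 2 * c1) (hκ : c1 * c1 / N ^ 2 / 2 ≤ κ) :
    - Real.log κ ≤ 5 + 2 * Real.log (N / q) + 2 * o := by
  have ho' : 0 < o := by linarith
  have h1 : q / (8 * o) ≤ c1 := by
    rw [div_le_iff₀ (by positivity)]
    nlinarith
  have h2 : (q / (8 * o)) ^ 2 / N ^ 2 / 2 ≤ κ := by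
    refine le_trans ?_ hκ
    apply div_le_div_of_nonneg_right _ (by norm_num)
    apply div_le_div_of_nonneg_right _ (by positivity)
    rw [← sq]
    exact pow_le_pow_left₀ (by positivity) h1 2
  have h3 : (q / (8 * o)) ^ 2 / N ^ 2 / 2 = (q / N) ^ 2 / (128 * o ^ 2) := by
    field_simp
    norm_num
  rw [h3] at h2
  have h4 : 0 < (q / N) ^ 2 / (128 * o ^ 2) := by positivity
  have h5 := Real.log_le_log h4 h2
  rw [Real.log_div (by positivity) (by positivity), Real.log_pow, Real.log_mul (by norm_num)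
    (by positivity), Real.log_pow, Real.log_div hq.ne' hN.ne'] at h5
  rw [Real.log_div hN.ne' hq.ne']
  have h6 : Real.log 128 ≤ 5 := by
    have : (128 : ℝ) = 2 ^ 7 := by norm_num
    rw [this, Real.log_pow]
    have := Real.log_two_lt_d9
    push_cast
    linarith
  have h7 : Real.log o ≤ o := by
    have := Real.log_le_sub_one_of_pos ho'
    linarith
  push_cast at h5
  linarith

theorem cost_le {v : V → Equiv.Perm (Fin n)} (hv : Function.Injective v) (hn : 0 < n)
    {r r' : Setoid V} {p : Equiv.Perm (Fin n)} {σ : SInfo V} (hok : StepOK r r' v p σ)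
    (Q : Finset V) (hQne : Q.Nonempty) (hQ : ∀ q ∈ Q, r q σ.y0 ∧ ∃ q', v q' = p * v q ∧ r q' σ.y1)
    (s' : ℕ) (hs' : 0 < s')
    (hspread : ∀ x : Fin n, s' ≤ (σ.rel.image fun e => v e.1 x).card ∨
      Q.card ≤ 4 * (σ.rel.image fun e => v e.1 x).card * mx (fun i => v i x) Q) :
    - Real.log (stepWt r r' v p σ) ≤
      (((farSet r v p (fun i i' => (i, i') ∈ σ.used) σ.y0 σ.y1).card : ℝ) + (n : ℝ) / s')
        * Real.log (2 * n) + 2 * n * Real.log ((csz r' σ.y0 : ℝ) / Q.card) + 7 * n := by
  have hn' : (0 : ℝ) < n := by exact_mod_cast hn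
  have hs'' : (0 : ℝ) < s' := by exact_mod_cast hs'
  set U : V → V → Prop := fun i i' => (i, i') ∈ σ.used with hUdef
  set N := csz r' σ.y0 with hNdef
  have hqpos : (0 : ℝ) < Q.card := by exact_mod_cast hQne.card_pos
  have hQN : Q.card ≤ N := by
    rw [hNdef]
    unfold csz
    apply Finset.card_le_card
    intro q hq
    simp only [mem_filter, mem_univ, true_and]
    exact r'.symm (hok.le (hQ q hq).1)
  have hQN' : (Q.card : ℝ) ≤ N := by exact_mod_cast hQN
  have hNpos : (0 : ℝ) < N := lt_of_lt_of_le hqpos hQN'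
  have hlogNQ : 0 ≤ Real.log ((N : ℝ) / Q.card) := by
    apply Real.log_nonneg
    rw [le_div_iff₀ hqpos]
    linarith
  have hlog2n : 0 ≤ Real.log (2 * n) := by
    apply Real.log_nonneg
    have : (1 : ℝ) ≤ n := by exact_mod_cast hn
    linarith
  let Oc : Fin n → ℕ := fun w =>
    (univ.filter fun i => isMin v σ.y0 σ.rel w ∧ orel v σ.y0 σ.rel w i).card
  have hOc : ∑ w, Oc w ≤ n := by
    have h := sum_card_filter_le (α := Fin n) (β := Fin n)
      (fun i w => isMin v σ.y0 σ.rel w ∧ orel v σ.y0 σ.rel w i) (fun _ => True)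
      (fun _ _ _ => trivial) (by
        intro i w w' h h'
        have e : orel v σ.y0 σ.rel w w' :=
          (orel v σ.y0 σ.rel).trans h.2 ((orel v σ.y0 σ.rel).symm h'.2)
        exact le_antisymm (h.1 w' e) (h'.1 w ((orel v σ.y0 σ.rel).symm e)))
    refine le_trans (le_of_eq ?_) (h.trans (le_of_eq (by simp)))
    apply Finset.sum_congr rfl
    intro w _
    simp only [Oc]
    congr
  have hOc' : ∑ w, (Oc w : ℝ) ≤ n := by exact_mod_cast hOc
  set F := farSet r v p U σ.y0 σ.y1 with hF
  have hpt : ∀ w : Fin n, - Real.log (swt r v p U N σ.y0 σ.y1 σ.rel w) ≤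
      ((if w ∈ F then (1 : ℝ) else 0) + (Oc w : ℝ) / s') * Real.log (2 * n) +
        (5 + 2 * Real.log ((N : ℝ) / Q.card) + 2 * (Oc w : ℝ)) := by
    intro w
    have hOcn : (0 : ℝ) ≤ Oc w := Nat.cast_nonneg _
    have hind : (0 : ℝ) ≤ (if w ∈ F then (1 : ℝ) else 0) := by split_ifs <;> norm_num
    have hA : 0 ≤ ((if w ∈ F then (1 : ℝ) else 0) + (Oc w : ℝ) / s') * Real.log (2 * n) := by
      positivity
    by_cases hm : isMin v σ.y0 σ.rel w
    · have hsw : swt r v p U N σ.y0 σ.y1 σ.rel w = kap' r v p U N σ.y0 σ.y1 w (p w) := by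
        unfold swt
        rw [if_pos hm]
      rw [hsw]
      have hkp := kap_nonneg r v p U N σ.y0 σ.y1 w (p w)
      have htriv : - Real.log (kap' r v p U N σ.y0 σ.y1 w (p w)) ≤ Real.log (2 * n) := by
        rw [neg_le, ← Real.log_inv]
        apply Real.log_le_log (by positivity)
        unfold kap'
        rw [one_div]
        linarith
      by_cases hf : w ∈ F
      · rw [if_pos hf]
        have : 0 ≤ (Oc w : ℝ) / s' * Real.log (2 * n) := by positivity
        nlinarith
      · rw [if_neg hf, zero_add]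
        by_cases hO : s' ≤ Oc w
        · have h1 : 1 ≤ (Oc w : ℝ) / s' := by
            rw [le_div_iff₀ hs'', one_mul]
            exact_mod_cast hO
          have : Real.log (2 * n) ≤ (Oc w : ℝ) / s' * Real.log (2 * n) := by
            nlinarith
          linarith
        · -- main case
          have hB : 0 ≤ (Oc w : ℝ) / s' * Real.log (2 * n) := by positivity
          have himg : (σ.rel.image fun e => v e.1 ((v σ.y0)⁻¹ w)).card ≤ Oc w := by
            apply Finset.card_le_card
            intro z hz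
            simp only [mem_image] at hz
            obtain ⟨e, he, rfl⟩ := hz
            simp only [mem_filter, mem_univ, true_and]
            refine ⟨hm, ?_⟩
            exact Relation.EqvGen.rel _ _ ⟨e, he, rfl⟩
          have hsp : Q.card ≤ 4 * Oc w * mx (fun i => v i ((v σ.y0)⁻¹ w)) Q := by
            rcases hspread ((v σ.y0)⁻¹ w) with h | h
            · exact absurd (h.trans himg) hO
            · refine h.trans ?_
              apply Nat.mul_le_mul_right
              apply Nat.mul_le_mul_left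
              exact himg
          have hOpos : 1 ≤ Oc w := by
            by_contra h
            have h0 : Oc w = 0 := by omega
            rw [h0] at hsp
            have := hQne.card_pos
            omega
          have hcl : close (fun i => v i ((v σ.y0)⁻¹ w)) (bcl r v p U w ((v σ.y0)⁻¹ w))
              σ.y0 σ.y1 := by
            by_contra h
            apply hf
            rw [hF]
            unfold farSet
            simp only [mem_filter, mem_univ, true_and]
            exact h
          obtain ⟨ℓ, h0, h1⟩ := hcl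
          have hm0 : mx (fun i => v i ((v σ.y0)⁻¹ w)) Q ≤
              cmx (fun i => v i ((v σ.y0)⁻¹ w)) (bcl r v p U w ((v σ.y0)⁻¹ w))
                (Quotient.mk _ σ.y0) := by
            apply mx_le_cmx _ _ _ _ id id
            · intro q hq
              apply Relation.EqvGen.rel
              left
              refine ⟨(hQ q hq).1, ?_⟩
              simp
            · intro q _; rfl
            · intro q _ q' _ h; exact h
          have hm1 : mx (fun i => v i ((v σ.y0)⁻¹ w)) Q ≤
              cmx (fun i => v i ((v σ.y0)⁻¹ w)) (bcl r v p U w ((v σ.y0)⁻¹ w))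
                (Quotient.mk _ σ.y1) := by
            choose! g hg1 hg2 using fun q hq => (hQ q hq).2
            apply mx_le_cmx _ _ _ _ p g
            · intro q hq
              apply Relation.EqvGen.rel
              left
              refine ⟨hg2 q hq, ?_⟩
              simp
            · intro q hq
              simp only [hg1 q hq, Equiv.Perm.mul_apply]
            · intro q hq q' hq' h
              apply hv
              apply mul_left_cancel (a := p)
              rw [← hg1 q hq, ← hg1 q' hq', h]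
          have hk := kap_ge (r := r) (U := U) hok.y1_eq N w ℓ
          set A := cfib (fun i => v i ((v σ.y0)⁻¹ w)) (bcl r v p U w ((v σ.y0)⁻¹ w))
            (Quotient.mk _ σ.y0) ℓ with hA
          set B := cfib (fun i => v i ((v σ.y0)⁻¹ w)) (bcl r v p U w ((v σ.y0)⁻¹ w))
            (Quotient.mk _ σ.y1) ℓ with hBd
          set M := mx (fun i => v i ((v σ.y0)⁻¹ w)) Q with hM
          have hMA : M ≤ 2 * A := hm0.trans h0
          have hMB : M ≤ 2 * B := hm1.trans h1
          have hMA' : (M : ℝ) ≤ 2 * A := by exact_mod_cast hMA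
          have hMB' : (M : ℝ) ≤ 2 * B := by exact_mod_cast hMB
          have hsp' : (Q.card : ℝ) ≤ 4 * Oc w * M := by exact_mod_cast hsp
          have hfin := log_bound (c1 := (M : ℝ) / 2) (c := M)
            (κ := kap' r v p U N σ.y0 σ.y1 w (p w)) hqpos hNpos
            (by exact_mod_cast hOpos : (1 : ℝ) ≤ Oc w) hsp' (by linarith) (by
              have hMn : (0 : ℝ) ≤ M := Nat.cast_nonneg _
              have h3 : (M : ℝ) / 2 * ((M : ℝ) / 2) / (N : ℝ) ^ 2 ≤ (A : ℝ) * B / (N : ℝ) ^ 2 := by
                apply div_le_div_of_nonneg_right _ (by positivity)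
                apply mul_le_mul (by linarith) (by linarith) (by positivity) (by positivity)
              unfold kap'
              have h4 : (0 : ℝ) ≤ 1 / (2 * n) := by positivity
              linarith)
          linarith
    · have hsw : swt r v p U N σ.y0 σ.y1 σ.rel w = 1 := by
        unfold swt
        rw [if_neg hm]
      rw [hsw, Real.log_one, neg_zero]
      positivity
  have hlog : - Real.log (stepWt r r' v p σ) =
      ∑ w : Fin n, - Real.log (swt r v p U N σ.y0 σ.y1 σ.rel w) := by
    unfold stepWt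
    rw [Real.log_prod (fun w _ => (swt_pos ..).ne'), ← Finset.sum_neg_distrib]
  rw [hlog]
  refine (Finset.sum_le_sum fun w _ => hpt w).trans ?_
  rw [Finset.sum_add_distrib, ← Finset.sum_mul, Finset.sum_add_distrib, Finset.sum_add_distrib,
    Finset.sum_const, Finset.card_univ, Fintype.card_fin, nsmul_eq_mul, ← Finset.mul_sum,
    ← Finset.sum_div]
  have hcard : ∑ w : Fin n, (if w ∈ F then (1 : ℝ) else 0) = F.card := by
    rw [Finset.sum_ite_mem, Finset.univ_inter, Finset.sum_const, nsmul_eq_mul, mul_one]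
  rw [hcard]
  have h1 : (∑ w, (Oc w : ℝ)) / s' ≤ (n : ℝ) / s' :=
    div_le_div_of_nonneg_right hOc' hs''.le
  have h2 : ((F.card : ℝ) + (∑ w, (Oc w : ℝ)) / s') * Real.log (2 * n) ≤
      ((F.card : ℝ) + (n : ℝ) / s') * Real.log (2 * n) := by
    apply mul_le_mul_of_nonneg_right _ hlog2n
    linarith
  nlinarith

end RC
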