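import Pool.Agent.H27.RC.Defs

/-!
# Weighted count of monotone parent functions (module RC-FC)

Let `w` be a weight on labels with total at most 1. The sum over the monotone partial functions
`par` of the product of the weights of the labels of the nonroots is at most `8 ^ m`:
the sum over the labels gives a factor `≤ 1` for each nonroot, so it is at most the number of
pairs (set of nonroots, monotone partial function `Fin m → Option (Fin m)`), and a monotone
partial function `f` is determined by its domain `R` and the monotone total function
`f̂ i = sup {f i' | i' ∈ R, i' ≤ i}` (0 if there is none), which is in turn determined by the set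
`{f̂ i + i | i} ⊆ {0, …, 2m - 1}` (`i ↦ f̂ i + i` is strictly increasing): at most
`2 ^ m * 4 ^ m`.
-/

open Finset
open scoped Classical

namespace RC

/-- weight of a parent function -/
noncomputable def parWt {m J : ℕ} (w : Fin J → Fin J → ℝ)
    (par : Fin m → Option (Fin m × Fin J × Fin J)) : ℝ :=
  ∏ i, match par i with
    | none => 1
    | some (_, k, l) => w k l

namespace ForestCount

/-- monotone partial functions -/
def PMono {m : ℕ} (f : Fin m → Option (Fin m)) : Prop :=
  ∀ i i' u u', i ≤ i' → f i = some u → f i' = some u' → u ≤ u'

/-- value of a partial function, `0` if undefined -/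
def val {m : ℕ} (f : Fin m → Option (Fin m)) (i : Fin m) : ℕ :=
  match f i with
  | none => 0
  | some u => u

/-- running maximum -/
noncomputable def hat {m : ℕ} (f : Fin m → Option (Fin m)) (i : Fin m) : ℕ :=
  (univ.filter (· ≤ i)).sup (val f)

theorem hat_mono {m : ℕ} (f : Fin m → Option (Fin m)) : Monotone (hat f) := by
  intro i j hij
  refine Finset.sup_mono fun x hx => ?_
  simp only [mem_filter, mem_univ, true_and] at hx ⊢
  exact hx.trans hij

theorem hat_lt {m : ℕ} (f : Fin m → Option (Fin m)) (i : Fin m) : hat f i < m := by
  have hm : 0 < m := i.pos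
  refine (Finset.sup_lt_iff (by simpa using hm)).2 fun j _ => ?_
  unfold val
  split
  · exact hm
  · exact Fin.is_lt _

theorem hat_eq {m : ℕ} {f : Fin m → Option (Fin m)} (hf : PMono f) {i u : Fin m}
    (h : f i = some u) : hat f i = u := by
  apply le_antisymm
  · refine Finset.sup_le fun j hj => ?_
    simp only [mem_filter, mem_univ, true_and] at hj
    unfold val
    split
    · exact Nat.zero_le _
    · rename_i u' hu'
      exact hf j i u' u hj hu' h
  · have h1 : val f i ≤ hat f i := Finset.le_sup (f := val f) (by simp)
    have h2 : val f i = u := by simp [val, h]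
    omega

theorem shift_strictMono {m : ℕ} (f : Fin m → Option (Fin m)) :
    StrictMono fun i : Fin m => hat f i + (i : ℕ) := by
  intro i j hij
  have h1 := hat_mono f hij.le
  have h2 : (i : ℕ) < j := hij
  simp only
  omega

theorem card_pmono (m : ℕ) :
    ((univ : Finset (Fin m → Option (Fin m))).filter PMono).card ≤ 8 ^ m := by
  have h8 : (8 : ℕ) ^ m = ((univ : Finset (Fin m)).powerset ×ˢ (range (2 * m)).powerset).card := by
    rw [card_product, card_powerset, card_powerset, card_univ, Fintype.card_fin, card_range,
      pow_mul, ← mul_pow]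
    norm_num
  rw [h8]
  refine Finset.card_le_card_of_injOn
    (fun f => (univ.filter fun i => f i ≠ none, univ.image fun i : Fin m => hat f i + (i : ℕ)))
    ?_ ?_
  · intro f hf
    simp only [coe_product, Set.mem_prod, mem_coe, mem_powerset]
    refine ⟨subset_univ _, ?_⟩
    intro x hx
    obtain ⟨i, -, rfl⟩ := mem_image.1 hx
    rw [mem_range]
    have h1 := hat_lt f i
    have h2 := i.is_lt
    omega
  · intro f hf g hg hfg
    simp only [coe_filter, mem_univ, true_and, Set.mem_ofPred_eq] at hf hg
    simp only [Prod.mk.injEq] at hfg
    obtain ⟨h1, h2⟩ := hfg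
    have h3 : Set.range (fun i : Fin m => hat f i + (i : ℕ)) =
        Set.range (fun i : Fin m => hat g i + (i : ℕ)) := by
      have := congrArg (fun s : Finset ℕ => (s : Set ℕ)) h2
      simpa using this
    have h4 := (StrictMono.range_inj (shift_strictMono f) (shift_strictMono g)).1 h3
    have h5 : ∀ i, hat f i = hat g i := by
      intro i
      have : hat f i + (i : ℕ) = hat g i + (i : ℕ) := congrFun h4 i
      omega
    funext i
    have h6 : (f i ≠ none) ↔ (g i ≠ none) := by
      have := congrArg (fun s : Finset (Fin m) => i ∈ s) h1
      simpa using this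
    rcases hfi : f i with _ | u
    · have : ¬ (g i ≠ none) := fun hh => (h6.2 hh) hfi
      push Not at this
      rw [this]
    · rcases hgi : g i with _ | u'
      · exact absurd hgi (h6.1 (by rw [hfi]; simp))
      · have e1 := hat_eq hf hfi
        have e2 := hat_eq hg hgi
        have : (u : ℕ) = u' := by rw [← e1, ← e2, h5]
        rw [Fin.ext this]

/-- weight of a label -/
noncomputable def lw {m J : ℕ} (w : Fin J → Fin J → ℝ) (o : Option (Fin m × Fin J × Fin J)) : ℝ :=
  match o with
  | none => 1
  | some (_, k, l) => w k l

theorem lw_nonneg {m J : ℕ} (w : Fin J → Fin J → ℝ) (hw : ∀ k l, 0 ≤ w k l)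
    (o : Option (Fin m × Fin J × Fin J)) : 0 ≤ lw w o := by
  unfold lw
  split
  · exact zero_le_one
  · exact hw _ _

theorem sum_lw_le {m J : ℕ} (w : Fin J → Fin J → ℝ) (hs : ∑ k, ∑ l, w k l ≤ 1)
    (a : Option (Fin m)) :
    ∑ o ∈ (univ : Finset (Option (Fin m × Fin J × Fin J))).filter
      (fun o => o.map Prod.fst = a), lw w o ≤ 1 := by
  rcases a with _ | u
  · have : (univ : Finset (Option (Fin m × Fin J × Fin J))).filter
        (fun o => o.map Prod.fst = none) = {none} := by
      ext o
      simp
    rw [this, sum_singleton]
    exact le_refl _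
  · have : (univ : Finset (Option (Fin m × Fin J × Fin J))).filter
        (fun o => o.map Prod.fst = some u) =
        (univ : Finset (Fin J × Fin J)).image (fun x => some (u, x)) := by
      ext o
      rcases o with _ | ⟨u', x⟩
      · simp
      · obtain ⟨k, l⟩ := x
        simp [eq_comm]
    rw [this, sum_image]
    · rw [← univ_product_univ, sum_product]
      exact hs
    · intro x _ y _ hxy
      simpa using hxy

end ForestCount

open ForestCount

theorem parWt_sum_le {m J : ℕ} (w : Fin J → Fin J → ℝ) (hw : ∀ k l, 0 ≤ w k l)
    (hs : ∑ k, ∑ l, w k l ≤ 1) :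
    ∑ par ∈ (univ : Finset (Fin m → Option (Fin m × Fin J × Fin J))).filter ParMono,
      parWt w par ≤ 8 ^ m := by
  have hwt : ∀ par : Fin m → Option (Fin m × Fin J × Fin J),
      parWt w par = ∏ i, lw w (par i) := fun par => rfl
  have hmaps : ∀ par ∈ (univ : Finset (Fin m → Option (Fin m × Fin J × Fin J))).filter ParMono,
      (fun i => (par i).map Prod.fst) ∈ (univ : Finset (Fin m → Option (Fin m))).filter PMono := by
    intro par hpar
    simp only [mem_filter, mem_univ, true_and] at hpar ⊢
    intro i i' u u' hii h1 h2
    simp only [Option.map_eq_some_iff] at h1 h2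
    obtain ⟨⟨a, k, l⟩, ha, rfl⟩ := h1
    obtain ⟨⟨a', k', l'⟩, ha', rfl⟩ := h2
    exact hpar i i' a k l a' k' l' hii ha ha'
  rw [← sum_fiberwise_of_maps_to hmaps]
  calc ∑ f ∈ (univ : Finset (Fin m → Option (Fin m))).filter PMono,
        ∑ par ∈ ((univ : Finset (Fin m → Option (Fin m × Fin J × Fin J))).filter ParMono).filter
          (fun par => (fun i => (par i).map Prod.fst) = f), parWt w par
      ≤ ∑ f ∈ (univ : Finset (Fin m → Option (Fin m))).filter PMono, (1 : ℝ) := by
        refine sum_le_sum fun f _ => ?_
        calc ∑ par ∈ ((univ : Finset (Fin m → Option (Fin m × Fin J × Fin J))).filter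
                ParMono).filter (fun par => (fun i => (par i).map Prod.fst) = f), parWt w par
            ≤ ∑ par ∈ Fintype.piFinset fun i =>
                (univ : Finset (Option (Fin m × Fin J × Fin J))).filter
                  (fun o => o.map Prod.fst = f i), ∏ i, lw w (par i) := by
              refine sum_le_sum_of_subset_of_nonneg ?_ fun par _ _ =>
                prod_nonneg fun i _ => lw_nonneg w hw _
              intro par hpar
              simp only [mem_filter, mem_univ, true_and, Fintype.mem_piFinset] at hpar ⊢
              exact fun i => congrFun hpar.2 i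
          _ = ∏ i, ∑ o ∈ (univ : Finset (Option (Fin m × Fin J × Fin J))).filter
                (fun o => o.map Prod.fst = f i), lw w o := by
              rw [prod_univ_sum]
          _ ≤ 1 := prod_le_one (fun i _ => sum_nonneg fun o _ => lw_nonneg w hw _)
              fun i _ => sum_lw_le w hs _
    _ = (((univ : Finset (Fin m → Option (Fin m))).filter PMono).card : ℝ) := by simp
    _ ≤ 8 ^ m := by exact_mod_cast card_pmono m

end RC
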