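import Pool.Agent.H27.RC.Forest
import Pool.Agent.H27.RC.ForestCount

/-!
# Label weights (module RC-LABEL)

`labw K k l = K / (4 (b + 1) (K + b)²)`, `b = max k l`.
`labw_sum`: the number of `(k, l)` with `max k l = b` is `2 b + 1 ≤ 2 (b + 1)`, so the sum is at most
`∑_b K / (2 (K + b)²) ≤ (1/2) (1 / K + 1) ≤ 1` (`∑_{b ≥ 1} 1/(K+b)² ≤ ∑ (1/(K+b-1) - 1/(K+b)) ≤ 1/K`).

`label_weight`: `- log (labw) = log 4 + log (b+1) + 2 log (K+b) - log K
 ≤ log 4 + 2 log K + 3 (log (K+b) - log K)`. For the nonroots `i` with `b_i = max k l`: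
`∑_i (log (K + b_i) - log K) = ∑_{1 ≤ j < J} #{i | b_i ≥ j} (log (K + j) - log (K + j - 1))
 ≤ ∑_{1 ≤ j < J} q_j / (K + j - 1) ≤ 2 ∑_j q_j / (K + j)`, by `late_edges`.
-/

open Finset
open scoped Classical

namespace RC

/-- weight of a label -/
noncomputable def labw {J : ℕ} (K : ℕ) (k l : Fin J) : ℝ :=
  (K : ℝ) / (4 * ((max (k : ℕ) l : ℕ) + 1) * ((K : ℝ) + (max (k : ℕ) l : ℕ)) ^ 2)

theorem labw_nonneg {J : ℕ} (K : ℕ) (k l : Fin J) : 0 ≤ labw K k l := by
  unfold labw
  positivity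

lemma sum_max (g : ℕ → ℝ) (J : ℕ) :
    ∑ k ∈ range J, ∑ l ∈ range J, g (max k l) = ∑ b ∈ range J, (2 * b + 1 : ℝ) * g b := by
  induction J with
  | zero => simp
  | succ J ih =>
    rw [sum_range_succ (fun b => (2 * b + 1 : ℝ) * g b), ← ih]
    have h1 : ∀ k ∈ range J, ∑ l ∈ range (J + 1), g (max k l) =
        ∑ l ∈ range J, g (max k l) + g J := by
      intro k hk
      rw [sum_range_succ, max_eq_right (mem_range.1 hk).le]
    have h2 : ∑ l ∈ range (J + 1), g (max J l) = (J + 1 : ℝ) * g J := by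
      have : ∀ l ∈ range (J + 1), g (max J l) = g J := by
        intro l hl
        rw [max_eq_left (Nat.lt_succ_iff.1 (mem_range.1 hl))]
      rw [sum_congr rfl this]
      simp
    rw [sum_range_succ (fun k => ∑ l ∈ range (J + 1), g (max k l)), sum_congr rfl h1, h2,
      sum_add_distrib]
    simp
    ring

lemma sum_inv_sq (K : ℕ) (hK : 1 ≤ K) (J : ℕ) :
    ∑ b ∈ range (J + 1), (K : ℝ) / (2 * ((K : ℝ) + b) ^ 2) ≤ 1 - (K : ℝ) / (2 * ((K : ℝ) + J)) := by
  have hK' : (1 : ℝ) ≤ K := by exact_mod_cast hK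
  induction J with
  | zero =>
    simp only [zero_add, range_one, sum_singleton, Nat.cast_zero, add_zero]
    have h1 : (K : ℝ) / (2 * (K : ℝ) ^ 2) = 1 / (2 * K) := by field_simp
    have h2 : (K : ℝ) / (2 * K) = 1 / 2 := by field_simp
    rw [h1, h2]
    have : 1 / (2 * (K : ℝ)) ≤ 1 / 2 := by
      apply one_div_le_one_div_of_le (by norm_num)
      linarith
    linarith
  | succ J ih =>
    rw [sum_range_succ]
    have hJ : (0 : ℝ) ≤ J := Nat.cast_nonneg J
    have h1 : (K : ℝ) / (2 * ((K : ℝ) + (J + 1 : ℕ)) ^ 2) ≤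
        (K : ℝ) / (2 * ((K : ℝ) + J)) - (K : ℝ) / (2 * ((K : ℝ) + (J + 1 : ℕ))) := by
      push_cast
      rw [div_sub_div _ _ (by positivity) (by positivity), div_le_div_iff₀ (by positivity)
        (by positivity)]
      have h3 : (0 : ℝ) ≤ K * (K + J) := by positivity
      nlinarith [h3, mul_nonneg h3 (by positivity : (0 : ℝ) ≤ K + J + 1)]
    linarith

theorem labw_sum {J : ℕ} (K : ℕ) (hK : 1 ≤ K) : ∑ k : Fin J, ∑ l : Fin J, labw K k l ≤ 1 := by
  have hK' : (1 : ℝ) ≤ K := by exact_mod_cast hK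
  set g : ℕ → ℝ := fun b => (K : ℝ) / (4 * ((b : ℝ) + 1) * ((K : ℝ) + b) ^ 2) with hg
  have h1 : ∑ k : Fin J, ∑ l : Fin J, labw K k l = ∑ k ∈ range J, ∑ l ∈ range J, g (max k l) := by
    rw [← Fin.sum_univ_eq_sum_range (fun k => ∑ l ∈ range J, g (max k l))]
    refine sum_congr rfl fun k _ => ?_
    rw [← Fin.sum_univ_eq_sum_range (fun l => g (max (k : ℕ) l))]
    rfl
  rw [h1, sum_max]
  rcases J with _ | J
  · simp
  · have h2 : ∀ b ∈ range (J + 1), (2 * b + 1 : ℝ) * g b ≤ (K : ℝ) / (2 * ((K : ℝ) + b) ^ 2) := by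
      intro b _
      have hb : (0 : ℝ) ≤ b := Nat.cast_nonneg b
      have h3 : (K : ℝ) / (2 * ((K : ℝ) + b) ^ 2) = (2 * ((b : ℝ) + 1)) * g b := by
        simp only [hg]
        field_simp
        norm_num
      rw [h3]
      apply mul_le_mul_of_nonneg_right (by linarith)
      simp only [hg]
      positivity
    calc ∑ b ∈ range (J + 1), (2 * b + 1 : ℝ) * g b
        ≤ ∑ b ∈ range (J + 1), (K : ℝ) / (2 * ((K : ℝ) + b) ^ 2) := sum_le_sum h2
      _ ≤ 1 - (K : ℝ) / (2 * ((K : ℝ) + J)) := sum_inv_sq K hK J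
      _ ≤ 1 := by
          have : (0 : ℝ) ≤ (K : ℝ) / (2 * ((K : ℝ) + J)) := by positivity
          linarith

lemma log_diff_le (K : ℕ) (hK : 1 ≤ K) (b : ℕ) :
    Real.log ((K : ℝ) + b) - Real.log K ≤ 2 * ∑ j ∈ range (b + 1), 1 / ((K : ℝ) + j) := by
  have hK' : (1 : ℝ) ≤ K := by exact_mod_cast hK
  induction b with
  | zero =>
    simp only [Nat.cast_zero, add_zero, sub_self]
    exact mul_nonneg (by norm_num) (sum_nonneg fun j _ => by positivity)
  | succ b ih =>
    rw [sum_range_succ]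
    have hb : (0 : ℝ) ≤ b := Nat.cast_nonneg b
    have hpos : (0 : ℝ) < (K : ℝ) + b := by linarith
    have h1 : Real.log ((K : ℝ) + (b + 1 : ℕ)) - Real.log ((K : ℝ) + b) ≤
        2 * (1 / ((K : ℝ) + (b + 1 : ℕ))) := by
      rw [← Real.log_div (by positivity) hpos.ne']
      have h2 := Real.log_le_sub_one_of_pos
        (show (0 : ℝ) < ((K : ℝ) + (b + 1 : ℕ)) / ((K : ℝ) + b) by positivity)
      refine h2.trans ?_
      push_cast
      rw [div_sub_one hpos.ne', mul_one_div, div_le_div_iff₀ hpos (by positivity)]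
      nlinarith
    linarith

lemma labw_lower {J : ℕ} (K : ℕ) (hK : 1 ≤ K) (k l : Fin J) :
    Real.exp (-((Real.log 4 + 2 * Real.log K) +
      6 * ∑ j ∈ range J, (if j ≤ (k : ℕ) ∨ j ≤ (l : ℕ) then 1 else 0 : ℝ) / (K + j))) ≤
      labw K k l := by
  have hK' : (1 : ℝ) ≤ K := by exact_mod_cast hK
  set b := max (k : ℕ) l with hb
  have hbJ : b < J := max_lt k.2 l.2
  have hb0 : (0 : ℝ) ≤ b := Nat.cast_nonneg b
  have hpos : (0 : ℝ) < (K : ℝ) + b := by linarith
  have hsum : ∑ j ∈ range J, (if j ≤ (k : ℕ) ∨ j ≤ (l : ℕ) then 1 else 0 : ℝ) / (K + j) =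
      ∑ j ∈ range (b + 1), 1 / ((K : ℝ) + j) := by
    have h1 : range (b + 1) = (range J).filter fun j => j ≤ (k : ℕ) ∨ j ≤ (l : ℕ) := by
      ext j
      simp only [mem_range, mem_filter, Nat.lt_succ_iff]
      constructor
      · intro h
        exact ⟨by omega, le_max_iff.1 h⟩
      · rintro ⟨_, h⟩
        exact le_max_iff.2 h
    rw [h1, sum_filter]
    refine sum_congr rfl fun j _ => ?_
    split_ifs <;> simp
  have hlw : 0 < labw K k l := by
    unfold labw
    positivity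
  rw [← Real.log_le_log_iff (Real.exp_pos _) hlw, Real.log_exp, hsum]
  have hlog : Real.log (labw K k l) =
      Real.log K - (Real.log 4 + Real.log ((b : ℝ) + 1) + 2 * Real.log ((K : ℝ) + b)) := by
    unfold labw
    rw [← hb, Real.log_div (by positivity) (by positivity), Real.log_mul (by positivity)
      (by positivity), Real.log_mul (by positivity) (by positivity), Real.log_pow]
    push_cast
    ring
  rw [hlog]
  have h1 : Real.log ((b : ℝ) + 1) ≤ Real.log ((K : ℝ) + b) :=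
    Real.log_le_log (by positivity) (by linarith)
  have h2 := log_diff_le K hK b
  linarith

theorem label_weight {m J : ℕ} (K : ℕ) (hK : 1 ≤ K) (q : ℕ → ℕ)
    (par : Fin m → Option (Fin m × Fin J × Fin J))
    (hq : ∀ j < J, (univ.filter fun i => ∃ u k l, par i = some (u, k, l) ∧
      (j ≤ (k : ℕ) ∨ j ≤ (l : ℕ))).card ≤ q j) :
    Real.exp (-(m * (Real.log 4 + 2 * Real.log K) +
      6 * ∑ j ∈ range J, (q j : ℝ) / (K + j))) ≤ parWt (labw K) par := by
  have hK' : (1 : ℝ) ≤ K := by exact_mod_cast hK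
  have hlogK : 0 ≤ Real.log K := Real.log_nonneg hK'
  have hlog4 : 0 ≤ Real.log 4 := Real.log_nonneg (by norm_num)
  set c : Fin m → ℕ → ℝ := fun i j =>
    if ∃ u k l, par i = some (u, k, l) ∧ (j ≤ (k : ℕ) ∨ j ≤ (l : ℕ)) then 1 else 0 with hc
  have hcn : ∀ i j, 0 ≤ c i j := by
    intro i j
    simp only [hc]
    split_ifs <;> norm_num
  have hterm : ∀ i, Real.exp (-((Real.log 4 + 2 * Real.log K) +
      6 * ∑ j ∈ range J, c i j / (K + j))) ≤
      (match par i with
        | none => (1 : ℝ)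
        | some (_, k, l) => labw K k l) := by
    intro i
    rcases hp : par i with _ | ⟨u, k, l⟩
    · simp only
      rw [Real.exp_le_one_iff]
      have : 0 ≤ ∑ j ∈ range J, c i j / ((K : ℝ) + j) :=
        sum_nonneg fun j _ => div_nonneg (hcn i j) (by positivity)
      linarith
    · simp only
      have h1 : ∀ j, c i j = (if j ≤ (k : ℕ) ∨ j ≤ (l : ℕ) then 1 else 0 : ℝ) := by
        intro j
        simp only [hc, hp]
        by_cases h : j ≤ (k : ℕ) ∨ j ≤ (l : ℕ)
        · rw [if_pos h, if_pos ⟨u, k, l, rfl, h⟩]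
        · rw [if_neg h, if_neg]
          rintro ⟨u', k', l', h2, h3⟩
          simp only [Option.some.injEq, Prod.mk.injEq] at h2
          obtain ⟨-, rfl, rfl⟩ := h2
          exact h h3
      simp only [h1]
      exact labw_lower K hK k l
  have hprod : ∏ i : Fin m, Real.exp (-((Real.log 4 + 2 * Real.log K) +
      6 * ∑ j ∈ range J, c i j / (K + j))) ≤ parWt (labw K) par := by
    unfold parWt
    exact prod_le_prod (fun i _ => (Real.exp_pos _).le) fun i _ => hterm i
  refine le_trans ?_ hprod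
  rw [← Real.exp_sum, Real.exp_le_exp]
  have h1 : ∑ i : Fin m, -((Real.log 4 + 2 * Real.log K) +
      6 * ∑ j ∈ range J, c i j / (K + j)) =
      -(m * (Real.log 4 + 2 * Real.log K) + 6 * ∑ j ∈ range J, (∑ i, c i j) / (K + j)) := by
    rw [sum_neg_distrib, sum_add_distrib]
    simp only [sum_const, card_univ, Fintype.card_fin, nsmul_eq_mul, ← mul_sum]
    rw [sum_comm]
    simp only [sum_div]
  rw [h1]
  have h2 : ∀ j ∈ range J, (∑ i, c i j) / ((K : ℝ) + j) ≤ (q j : ℝ) / (K + j) := by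
    intro j hj
    have h3 : ∑ i, c i j = ((univ.filter fun i => ∃ u k l, par i = some (u, k, l) ∧
      (j ≤ (k : ℕ) ∨ j ≤ (l : ℕ))).card : ℝ) := by
      simp only [hc]
      rw [sum_boole]
    rw [h3]
    apply div_le_div_of_nonneg_right _ (by positivity)
    exact_mod_cast hq j (mem_range.1 hj)
  have h3 := sum_le_sum h2
  linarith

end RC
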