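import Pool.Agent.H27.RC.Steps
import Pool.Agent.H27.RC.Label

/-!
# Counting the seeds and the sets described by a code
-/

open Finset
open scoped Pointwise Classical

namespace RC

/-- extension of a finite sequence of seeds -/
def ext {G : Type*} [One G] {J : ℕ} (a : Fin J → G) : ℕ → G :=
  fun j => if h : j < J then a ⟨j, h⟩ else 1

theorem ext_apply {G : Type*} [One G] {J : ℕ} (a : Fin J → G) {j : ℕ} (h : j < J) :
    ext a j = a ⟨j, h⟩ := by
  simp [ext, h]

theorem ext_coe {G : Type*} [One G] {J : ℕ} (a : Fin J → G) (j : Fin J) :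
    ext a j = a j := by
  simp [ext]

theorem rho_determined {G : Type*} [Group G] {m J : ℕ}
    {par : Fin m → Option (Fin m × Fin J × Fin J)} {s s' : ℕ → G} {v v' : Fin m → G}
    (h : ParOK s v par) (h' : ParOK s' v' par) {j : ℕ} (hs : ∀ k < j, s k = s' k) {i i' : Fin m}
    (hc : pconn par j i i') : v i' * (v i)⁻¹ = v' i' * (v' i)⁻¹ := by
  have hc' : Relation.EqvGen (fun i u => ∃ k l, par i = some (u, k, l) ∧ (k : ℕ) < j ∧
    (l : ℕ) < j) i i' := hc
  induction hc' with
  | rel x y hxy =>
    obtain ⟨k, l, hp, hk, hl⟩ := hxy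
    have e1 := h _ _ _ _ hp
    have e2 := h' _ _ _ _ hp
    have e3 : v y * (v x)⁻¹ = s l * (s k)⁻¹ := by
      have : v y = s l * ((s k)⁻¹ * v x) := by rw [e1]; group
      rw [this]; group
    have e4 : v' y * (v' x)⁻¹ = s' l * (s' k)⁻¹ := by
      have : v' y = s' l * ((s' k)⁻¹ * v' x) := by rw [e2]; group
      rw [this]; group
    rw [e3, e4, hs _ hk, hs _ hl]
  | refl x => simp
  | symm x y hxy ih =>
    have := ih hxy
    have h2 := congrArg (fun g => g⁻¹) this
    simpa using h2
  | trans x y z hxy hyz ih1 ih2 =>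
    have h1 := ih1 hxy
    have h2 := ih2 hyz
    calc v z * (v x)⁻¹ = (v z * (v y)⁻¹) * (v y * (v x)⁻¹) := by group
      _ = (v' z * (v' y)⁻¹) * (v' y * (v' x)⁻¹) := by rw [h1, h2]
      _ = _ := by group

variable {n m J : ℕ}

/-- a witness for a code and a sequence of seeds -/
structure Wit (par : Fin m → Option (Fin m × Fin J × Fin J))
    (steps : Fin J → Option (Fin J × SInfo (Fin m))) (s1 : ℕ) (X : ℝ)
    (a : ℕ → Equiv.Perm (Fin n)) (v : Fin m → Equiv.Perm (Fin n)) : Prop where
  par_ok : ParOK a v par
  steps_ok : StepsOK (pconn par) v a s1 steps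
  weight : Real.exp (-X) ≤ ∏ j, wt (pconn par) v a steps j

/-- the sequences of seeds that have a witness -/
noncomputable def seedSet (n : ℕ) (par : Fin m → Option (Fin m × Fin J × Fin J))
    (steps : Fin J → Option (Fin J × SInfo (Fin m))) (s1 : ℕ) (X : ℝ) :
    Finset (Fin J → Equiv.Perm (Fin n)) :=
  univ.filter fun a => ∃ v : Fin m → Equiv.Perm (Fin n), Wit par steps s1 X (ext a) v

theorem seedSet_card (par : Fin m → Option (Fin m × Fin J × Fin J))
    (steps : Fin J → Option (Fin J × SInfo (Fin m))) (s1 : ℕ) (X : ℝ) :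
    ((seedSet n par steps s1 X).card : ℝ) ≤ Real.exp X := by
  have hw : ∀ a : Fin J → Equiv.Perm (Fin n), ∃ v : Fin m → Equiv.Perm (Fin n),
      a ∈ seedSet n par steps s1 X → Wit par steps s1 X (ext a) v := by
    intro a
    by_cases ha : a ∈ seedSet n par steps s1 X
    · simp only [seedSet, mem_filter, mem_univ, true_and] at ha
      obtain ⟨v, hv⟩ := ha
      exact ⟨v, fun _ => hv⟩
    · exact ⟨fun _ => 1, fun h => absurd h ha⟩
  choose v hv using hw
  set ω : ℕ → (Fin J → Equiv.Perm (Fin n)) → ℝ := fun j a =>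
    if h : j < J then wt (pconn par) (v a) (ext a) steps ⟨j, h⟩ else 1 with hω
  have hmain := seq_weight J (seedSet n par steps s1 X) (fun a l => ext a l) ω ?_ ?_ ?_
  · have h1 : ∀ a ∈ seedSet n par steps s1 X, Real.exp (-X) ≤ ∏ i ∈ range J, ω i a := by
      intro a ha
      have := (hv a ha).weight
      rw [Finset.prod_range]
      refine this.trans (le_of_eq ?_)
      apply Finset.prod_congr rfl
      intro j _
      simp [hω]
    have h2 : ((seedSet n par steps s1 X).card : ℝ) * Real.exp (-X) ≤ 1 := by
      refine le_trans ?_ hmain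
      rw [← nsmul_eq_mul, ← Finset.sum_const]
      exact Finset.sum_le_sum h1
    calc ((seedSet n par steps s1 X).card : ℝ)
        = ((seedSet n par steps s1 X).card : ℝ) * Real.exp (-X) * Real.exp X := by
          rw [mul_assoc, ← Real.exp_add]; simp
      _ ≤ 1 * Real.exp X := mul_le_mul_of_nonneg_right h2 (Real.exp_pos _).le
      _ = Real.exp X := one_mul _
  · intro i a _
    simp only [hω]
    split
    · exact (wt_pos _ _ _ _ _).le
    · exact zero_le_one
  · intro a _ b _ hab
    funext j
    have := hab j j.2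
    rwa [ext_coe, ext_coe] at this
  · intro j hj T hT hag hinj
    simp only [hω, dif_pos hj]
    cases hst : steps ⟨j, hj⟩ with
    | none =>
      have : ∀ a ∈ T, wt (pconn par) (v a) (ext a) steps ⟨j, hj⟩ = 1 / (n.factorial : ℝ) := by
        intro a _
        unfold wt
        rw [hst]
      rw [Finset.sum_congr rfl this, Finset.sum_const, nsmul_eq_mul]
      have hc : T.card ≤ n.factorial := by
        have h1 : T.card ≤ (univ : Finset (Equiv.Perm (Fin n))).card := by
          apply Finset.card_le_card_of_injOn (fun a => ext a j)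
          · intro a _
            simp
          · intro a ha b hb hab
            exact hinj a ha b hb hab
        rw [Finset.card_univ, Fintype.card_perm, Fintype.card_fin] at h1
        exact h1
      have hf : (0 : ℝ) < n.factorial := by exact_mod_cast n.factorial_pos
      rw [mul_one_div, div_le_one hf]
      exact_mod_cast hc
    | some kσ =>
      obtain ⟨k, σ⟩ := kσ
      have hww : ∀ a ∈ T, wt (pconn par) (v a) (ext a) steps ⟨j, hj⟩ =
          stepWt (pconn par j) (pconn par (j + 1)) (v a) (ext a j * (ext a k)⁻¹) σ := by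
        intro a _
        unfold wt
        rw [hst]
      rw [Finset.sum_congr rfl hww]
      apply stepWt_sum_le_one T (fun a => ext a j * (ext a k)⁻¹) v
      · intro a ha
        exact ((hv a (hT ha)).steps_ok ⟨j, hj⟩ k σ hst).2.1
      · intro a ha b hb i i' hii
        exact rho_determined (hv a (hT ha)).par_ok (hv b (hT hb)).par_ok
          (fun l hl => hag a ha b hb l hl) hii
      · intro a ha b hb hab
        have hk : (k : ℕ) < j := ((hv a (hT ha)).steps_ok ⟨j, hj⟩ k σ hst).1
        have hk' := hag a ha b hb k hk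
        rw [hk'] at hab
        exact hinj a ha b hb (mul_right_cancel hab)

/-- the sets described by a code -/
noncomputable def codeSets (n : ℕ) {z : ℕ} (par : Fin m → Option (Fin m × Fin J × Fin J))
    (steps : Fin J → Option (Fin J × SInfo (Fin m))) (s1 : ℕ) (X : ℝ) (Z : Fin z → Fin m) :
    Finset (Finset (Equiv.Perm (Fin n))) :=
  univ.filter fun B => ∃ (a : Fin J → Equiv.Perm (Fin n)) (v : Fin m → Equiv.Perm (Fin n)),
    Wit par steps s1 X (ext a) v ∧ B = (univ.filter fun i => ∃ c, pconn par J i (Z c)).image v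

theorem codeSets_card {z : ℕ} (par : Fin m → Option (Fin m × Fin J × Fin J))
    (steps : Fin J → Option (Fin J × SInfo (Fin m))) (s1 : ℕ) (X : ℝ) (Z : Fin z → Fin m) :
    ((codeSets n par steps s1 X Z).card : ℝ) ≤ Real.exp X * (n.factorial : ℝ) ^ z := by
  have hw : ∀ B : Finset (Equiv.Perm (Fin n)), ∃ (av : (Fin J → Equiv.Perm (Fin n)) ×
      (Fin m → Equiv.Perm (Fin n))), B ∈ codeSets n par steps s1 X Z →
      Wit par steps s1 X (ext av.1) av.2 ∧
        B = (univ.filter fun i => ∃ c, pconn par J i (Z c)).image av.2 := by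
    intro B
    by_cases hB : B ∈ codeSets n par steps s1 X Z
    · simp only [codeSets, mem_filter, mem_univ, true_and] at hB
      obtain ⟨a, v, h1, h2⟩ := hB
      exact ⟨(a, v), fun _ => ⟨h1, h2⟩⟩
    · exact ⟨(fun _ => 1, fun _ => 1), fun h => absurd h hB⟩
  choose f hf using hw
  have h1 : (codeSets n par steps s1 X Z).card ≤
      (seedSet n par steps s1 X ×ˢ (univ : Finset (Fin z → Equiv.Perm (Fin n)))).card := by
    apply Finset.card_le_card_of_injOn (fun B => ((f B).1, fun c => (f B).2 (Z c)))
    · intro B hB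
      have hB' := hf B hB
      simp only [coe_product, Set.mem_prod, mem_coe, coe_univ, Set.mem_univ, and_true]
      simp only [seedSet, mem_filter, mem_univ, true_and]
      exact ⟨(f B).2, hB'.1⟩
    · intro B hB B' hB' hBB
      simp only [Prod.mk.injEq] at hBB
      obtain ⟨e1, e2⟩ := hBB
      have hB1 := hf B hB
      have hB2 := hf B' hB'
      rw [hB1.2, hB2.2]
      apply Finset.image_congr
      intro i hi
      simp only [coe_filter, mem_univ, true_and, Set.mem_ofPred_eq] at hi
      obtain ⟨c, hc⟩ := hi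
      have hr := rho_determined hB1.1.par_ok hB2.1.par_ok (j := J) (fun l _ => by rw [e1])
        ((pconn par J).symm hc)
      have e3 : (f B).2 (Z c) = (f B').2 (Z c) := congrFun e2 c
      rw [e3] at hr
      exact mul_right_cancel hr
  have h2 : ((codeSets n par steps s1 X Z).card : ℝ) ≤
      ((seedSet n par steps s1 X).card : ℝ) * (n.factorial : ℝ) ^ z := by
    rw [Finset.card_product, Finset.card_univ, Fintype.card_fun, Fintype.card_perm,
      Fintype.card_fin, Fintype.card_fin] at h1
    exact_mod_cast h1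
  refine h2.trans ?_
  exact mul_le_mul_of_nonneg_right (seedSet_card par steps s1 X) (by positivity)

/-! ### all the codes -/

noncomputable instance {V : Type*} [Fintype V] : Fintype (SInfo V) :=
  Fintype.ofInjective (fun σ : SInfo V => (σ.y0, σ.y1, σ.used, σ.rel)) (by
    intro σ σ' h
    cases σ
    cases σ'
    simp only [Prod.mk.injEq] at h
    obtain ⟨rfl, rfl, rfl, rfl⟩ := h
    rfl)

theorem card_small_sets {α : Type*} [Fintype α] (s : ℕ) :
    ((univ : Finset (Finset α)).filter fun U => U.card ≤ s).card ≤ (Fintype.card α + 1) ^ s := by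
  have h1 : ((univ : Finset (Finset α)).filter fun U => U.card ≤ s) ⊆
      (univ : Finset (Fin s → Option α)).image fun f => univ.filter fun x => ∃ i, f i = some x := by
    intro U hU
    simp only [mem_filter, mem_univ, true_and] at hU
    simp only [mem_image, mem_univ, true_and]
    refine ⟨fun i => if h : (i : ℕ) < U.card then some (U.equivFin.symm ⟨i, h⟩ : α) else none, ?_⟩
    ext x
    simp only [mem_filter, mem_univ, true_and]
    constructor
    · rintro ⟨i, hi⟩
      split at hi
      · simp only [Option.some.injEq] at hi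
        rw [← hi]
        exact (U.equivFin.symm _).2
      · simp at hi
    · intro hx
      refine ⟨⟨U.equivFin ⟨x, hx⟩, (U.equivFin ⟨x, hx⟩).2.trans_le hU⟩, ?_⟩
      simp
  refine (Finset.card_le_card h1).trans (Finset.card_image_le.trans ?_)
  rw [Finset.card_univ, Fintype.card_fun, Fintype.card_option, Fintype.card_fin]

theorem card_sinfo {V : Type*} [Fintype V] (s1 : ℕ) :
    ((univ : Finset (SInfo V)).filter fun σ => σ.used.card ≤ s1 ∧ σ.rel.card ≤ s1).card ≤
      Fintype.card V ^ 2 * ((Fintype.card V ^ 2 + 1) ^ s1) ^ 2 := by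
  have h1 : ((univ : Finset (SInfo V)).filter fun σ => σ.used.card ≤ s1 ∧ σ.rel.card ≤ s1).card ≤
      ((univ : Finset V) ×ˢ ((univ : Finset V) ×ˢ
        (((univ : Finset (Finset (V × V))).filter fun U => U.card ≤ s1) ×ˢ
        ((univ : Finset (Finset (V × V))).filter fun U => U.card ≤ s1)))).card := by
    apply Finset.card_le_card_of_injOn (fun σ : SInfo V => (σ.y0, σ.y1, σ.used, σ.rel))
    · intro σ hσ
      simp only [coe_filter, mem_univ, true_and, Set.mem_ofPred_eq] at hσ
      simp only [coe_product, Set.mem_prod, mem_coe, mem_univ, true_and, mem_filter]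
      exact hσ
    · intro σ _ σ' _ h
      cases σ
      cases σ'
      simp only [Prod.mk.injEq] at h
      obtain ⟨rfl, rfl, rfl, rfl⟩ := h
      rfl
  refine h1.trans ?_
  rw [Finset.card_product, Finset.card_product, Finset.card_product, Finset.card_univ]
  have h2 := card_small_sets (α := V × V) s1
  rw [Fintype.card_prod] at h2
  have h3 : Fintype.card V * Fintype.card V + 1 = Fintype.card V ^ 2 + 1 := by ring
  rw [h3] at h2
  calc _ ≤ Fintype.card V * (Fintype.card V * (((Fintype.card V ^ 2 + 1) ^ s1) *
        ((Fintype.card V ^ 2 + 1) ^ s1))) := by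
        exact Nat.mul_le_mul_left _ (Nat.mul_le_mul_left _ (Nat.mul_le_mul h2 h2))
    _ = _ := by ring

/-- the step codes -/
noncomputable def stepCodes (m J s1 : ℕ) : Finset (Fin J → Option (Fin J × SInfo (Fin m))) :=
  Fintype.piFinset fun _ => univ.filter fun o => ∀ k σ, o = some (k, σ) →
    σ.used.card ≤ s1 ∧ σ.rel.card ≤ s1

theorem stepCodes_card (m J s1 : ℕ) :
    (stepCodes m J s1).card ≤ (1 + J * (m ^ 2 * ((m ^ 2 + 1) ^ s1) ^ 2)) ^ J := by
  unfold stepCodes
  rw [Fintype.card_piFinset, Finset.prod_const, Finset.card_univ, Fintype.card_fin]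
  apply Nat.pow_le_pow_left
  have h1 : (univ.filter fun o : Option (Fin J × SInfo (Fin m)) => ∀ k σ, o = some (k, σ) →
      σ.used.card ≤ s1 ∧ σ.rel.card ≤ s1) ⊆
      insert none (((univ : Finset (Fin J)) ×ˢ ((univ : Finset (SInfo (Fin m))).filter fun σ =>
        σ.used.card ≤ s1 ∧ σ.rel.card ≤ s1)).image some) := by
    intro o ho
    simp only [mem_filter, mem_univ, true_and] at ho
    cases o with
    | none => simp
    | some kσ =>
      obtain ⟨k, σ⟩ := kσ
      simp only [mem_insert, mem_image, reduceCtorEq, false_or]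
      exact ⟨(k, σ), by simpa using ho k σ rfl, rfl⟩
  refine (Finset.card_le_card h1).trans ((Finset.card_insert_le _ _).trans ?_)
  rw [add_comm]
  apply Nat.add_le_add_left
  refine Finset.card_image_le.trans ?_
  rw [Finset.card_product, Finset.card_univ, Fintype.card_fin]
  apply Nat.mul_le_mul_left
  have := card_sinfo (V := Fin m) s1
  rwa [Fintype.card_fin] at this

/-- the parent codes -/
noncomputable def parCodes (m J K : ℕ) (X : ℝ) : Finset (Fin m → Option (Fin m × Fin J × Fin J)) :=
  univ.filter fun par => ParMono par ∧ Real.exp (-X) ≤ parWt (labw K) par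

theorem parCodes_card (m J K : ℕ) (hK : 1 ≤ K) (X : ℝ) :
    ((parCodes m J K X).card : ℝ) ≤ 8 ^ m * Real.exp X := by
  have h1 := parWt_sum_le (m := m) (J := J) (labw K) (labw_nonneg K) (labw_sum K hK)
  have h2 : ((parCodes m J K X).card : ℝ) * Real.exp (-X) ≤ 8 ^ m := by
    refine le_trans ?_ h1
    rw [← nsmul_eq_mul, ← Finset.sum_const]
    calc ∑ _par ∈ parCodes m J K X, Real.exp (-X)
        ≤ ∑ par ∈ parCodes m J K X, parWt (labw K) par := by
          apply Finset.sum_le_sum
          intro par hpar
          simp only [parCodes, mem_filter, mem_univ, true_and] at hpar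
          exact hpar.2
      _ ≤ _ := by
          apply Finset.sum_le_sum_of_subset_of_nonneg
          · intro par hpar
            simp only [parCodes, mem_filter, mem_univ, true_and] at hpar ⊢
            exact hpar.1
          · intro par _ _
            unfold parWt
            apply Finset.prod_nonneg
            intro i _
            split
            · exact zero_le_one
            · exact labw_nonneg _ _ _
  calc ((parCodes m J K X).card : ℝ)
      = ((parCodes m J K X).card : ℝ) * Real.exp (-X) * Real.exp X := by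
        rw [mul_assoc, ← Real.exp_add]; simp
    _ ≤ 8 ^ m * Real.exp X := mul_le_mul_of_nonneg_right h2 (Real.exp_pos _).le

/-- all the sets described by codes with given parameters -/
noncomputable def allSets (n m J K z s1 : ℕ) (X X2 : ℝ) : Finset (Finset (Equiv.Perm (Fin n))) :=
  (parCodes m J K X2 ×ˢ (stepCodes m J s1 ×ˢ (univ : Finset (Fin z → Fin m)))).biUnion
    fun c => codeSets n c.1 c.2.1 s1 X c.2.2

theorem allSets_card (n m J K z s1 : ℕ) (hK : 1 ≤ K) (X X2 : ℝ) :
    ((allSets n m J K z s1 X X2).card : ℝ) ≤ (8 ^ m * Real.exp X2) *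
      ((1 + J * (m ^ 2 * ((m ^ 2 + 1) ^ s1) ^ 2) : ℝ) ^ J * (m : ℝ) ^ z) *
      (Real.exp X * (n.factorial : ℝ) ^ z) := by
  have h1 : ((allSets n m J K z s1 X X2).card : ℝ) ≤
      ∑ c ∈ parCodes m J K X2 ×ˢ (stepCodes m J s1 ×ˢ (univ : Finset (Fin z → Fin m))),
        ((codeSets n c.1 c.2.1 s1 X c.2.2).card : ℝ) := by
    exact_mod_cast Finset.card_biUnion_le
  refine h1.trans ?_
  calc _ ≤ ∑ _c ∈ parCodes m J K X2 ×ˢ (stepCodes m J s1 ×ˢ (univ : Finset (Fin z → Fin m))),
        (Real.exp X * (n.factorial : ℝ) ^ z) := by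
        apply Finset.sum_le_sum
        intro c _
        exact codeSets_card _ _ _ _ _
    _ = ((parCodes m J K X2).card : ℝ) * (((stepCodes m J s1).card : ℝ) * (m : ℝ) ^ z) *
        (Real.exp X * (n.factorial : ℝ) ^ z) := by
        rw [Finset.sum_const, nsmul_eq_mul, Finset.card_product, Finset.card_product,
          Finset.card_univ, Fintype.card_fun, Fintype.card_fin, Fintype.card_fin]
        push_cast
        ring
    _ ≤ _ := by
        have e1 := parCodes_card m J K hK X2
        have e2 : ((stepCodes m J s1).card : ℝ) ≤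
            (1 + J * (m ^ 2 * ((m ^ 2 + 1) ^ s1) ^ 2) : ℝ) ^ J := by
          exact_mod_cast stepCodes_card m J s1
        gcongr

end RC
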