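import Mathlib

/-!
# Ramsey Cayley graphs of symmetric groups: definitions (problem MP_1a9c16_co)

Group part: regular sets, merging of classes by seeds.
Kernel part: location blocks, the kernel, weights of a step.
-/

open Finset
open scoped Pointwise Classical

namespace RC

noncomputable section

/-! ## Group part -/

section Group

variable {G : Type*} [Group G]

/-- number of representations `d = a⁻¹ * y` with `a, y ∈ A`. -/
def rep (A : Finset G) (d : G) : ℕ := (A.filter fun a => a * d ∈ A).card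

/-- Regular sets. -/
structure Reg (A : Finset G) (K t : ℕ) : Prop where
  ne : A.Nonempty
  tpos : 0 < t
  quo_le : (A⁻¹ * A).card ≤ K * A.card
  tau : A.card ≤ 32 * K * t
  left : ∀ v ∈ A, 8 * (A.filter fun y => rep A (v⁻¹ * y) < t).card ≤ A.card
  right : ∀ v ∈ A, 8 * (A.filter fun a => rep A (a⁻¹ * v) < t).card ≤ A.card

/-- Two elements of `A` are adjacent at time `j` if some seeds `s k, s l` with `k, l < j` give the
same quotient. -/
def adj (A : Finset G) (s : ℕ → G) (j : ℕ) (y y' : G) : Prop :=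
  y ∈ A ∧ y' ∈ A ∧ ∃ k < j, ∃ l < j, (s k)⁻¹ * y = (s l)⁻¹ * y'

/-- The partition of `A` at time `j` (trivial outside `A`). -/
def conn (A : Finset G) (s : ℕ → G) (j : ℕ) : Setoid G := Relation.EqvGen.setoid (adj A s j)

/-- the class of `y` in `A` at time `j`. -/
def cls (A : Finset G) (s : ℕ → G) (j : ℕ) (y : G) : Finset G := A.filter fun y' => conn A s j y y'

/-- number of classes in `A`. -/
def numCls (A : Finset G) (s : ℕ → G) (j : ℕ) : ℕ := (A.image (cls A s j)).card

/-- quotients reached by the first `j` seeds. -/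
def Dset (A : Finset G) (s : ℕ → G) (j : ℕ) : Finset G :=
  (A⁻¹ * A).filter fun d => ∃ k < j, s k * d ∈ A

/-- the class in `A` attached to a quotient `d` (empty if `d` is not reached). -/
def dcls (A : Finset G) (s : ℕ → G) (j : ℕ) (d : G) : Finset G :=
  A.filter fun y => ∃ k < j, s k * d ∈ A ∧ conn A s j (s k * d) y

/-- the `y ∈ A` that the new seed `a` joins to a different class. -/
def hits (A : Finset G) (s : ℕ → G) (j : ℕ) (a : G) : Finset G :=
  A.filter fun y => a⁻¹ * y ∈ Dset A s j ∧ y ∉ dcls A s j (a⁻¹ * y)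

/-- pairs `(b, y)` with popular quotient not yet reached. -/
def Ups (A : Finset G) (t : ℕ) (s : ℕ → G) (j : ℕ) : Finset (G × G) :=
  (A ×ˢ A).filter fun x => t ≤ rep A (x.1⁻¹ * x.2) ∧ x.1⁻¹ * x.2 ∉ Dset A s j

end Group

/-! ## Class sizes, fibres -/

section Fib

variable {V : Type*} [Fintype V] {β : Type*} [Fintype β]

/-- class size -/
def csz (r : Setoid V) (i : V) : ℕ := (univ.filter fun i' => r i i').card

/-- number of elements of the `R`-class `c` with location `ℓ`. -/
def cfib (loc : V → β) (R : Setoid V) (c : Quotient R) (ℓ : β) : ℕ :=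
  (univ.filter fun i : V => (Quotient.mk R i) = c ∧ loc i = ℓ).card

/-- largest fibre of a class -/
def cmx (loc : V → β) (R : Setoid V) (c : Quotient R) : ℕ := univ.sup (cfib loc R c)

/-- sum over the classes of the largest fibre -/
def Psi (loc : V → β) (R : Setoid V) : ℕ := ∑ c : Quotient R, cmx loc R c

/-- two classes are close if some location is at least half of the largest fibre in both. -/
def close (loc : V → β) (R : Setoid V) (i i' : V) : Prop :=
  ∃ ℓ, cmx loc R (Quotient.mk R i) ≤ 2 * cfib loc R (Quotient.mk R i) ℓ ∧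
    cmx loc R (Quotient.mk R i') ≤ 2 * cfib loc R (Quotient.mk R i') ℓ

/-- largest fibre of a finite set -/
def mx (loc : V → β) (Q : Finset V) : ℕ := univ.sup fun ℓ => (Q.filter fun i => loc i = ℓ).card

end Fib

/-! ## Kernel part -/

section Kernel

variable {V : Type*} [Fintype V] {n : ℕ}

/-- elementary moves between located ids. -/
def lstep (r : Setoid V) (v : V → Equiv.Perm (Fin n)) (p : Equiv.Perm (Fin n)) (U : V → V → Prop)
    (w : ℕ) (a b : V × Fin n) : Prop :=
  (r a.1 b.1 ∧ b.2 = v b.1 ((v a.1)⁻¹ a.2)) ∨ (U a.1 b.1 ∧ (a.2 : ℕ) < w ∧ b.2 = p a.2)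

/-- location classes when the values of `p` on `ℓ < w` are known. -/
def lcl (r : Setoid V) (v : V → Equiv.Perm (Fin n)) (p : Equiv.Perm (Fin n)) (U : V → V → Prop)
    (w : ℕ) : Setoid (V × Fin n) := Relation.EqvGen.setoid (lstep r v p U w)

/-- blocks in the column `x`. -/
def bcl (r : Setoid V) (v : V → Equiv.Perm (Fin n)) (p : Equiv.Perm (Fin n)) (U : V → V → Prop)
    (w : ℕ) (x : Fin n) : Setoid V := (lcl r v p U w).comap fun i => (i, v i x)

/-- the kernel: predicted probability that `p w = z`. -/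
def kap (r : Setoid V) (v : V → Equiv.Perm (Fin n)) (p : Equiv.Perm (Fin n)) (U : V → V → Prop)
    (N : ℕ) (y0 y1 : V) (w z : Fin n) : ℝ :=
  (∑ ℓ : Fin n, ((univ.filter fun i => lcl r v p U w (i, ℓ) (y0, w)).card : ℝ) *
    ((univ.filter fun i => lcl r v p U w (i, ℓ) (y1, z)).card : ℝ)) / (N : ℝ) ^ 2

/-- smoothed kernel -/
def kap' (r : Setoid V) (v : V → Equiv.Perm (Fin n)) (p : Equiv.Perm (Fin n)) (U : V → V → Prop)
    (N : ℕ) (y0 y1 : V) (w z : Fin n) : ℝ :=
  1 / (2 * n) + 1 / 2 * kap r v p U N y0 y1 w z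

/-- orbits of locations under the known relations. -/
def orel (v : V → Equiv.Perm (Fin n)) (y0 : V) (rel : Finset (V × V)) : Setoid (Fin n) :=
  Relation.EqvGen.setoid fun w w' => ∃ e ∈ rel, w' = v e.1 ((v y0)⁻¹ w)

/-- minimal element of its orbit -/
def isMin (v : V → Equiv.Perm (Fin n)) (y0 : V) (rel : Finset (V × V)) (w : Fin n) : Prop :=
  ∀ w', orel v y0 rel w w' → w ≤ w'

/-- weight of the value `p w` -/
def swt (r : Setoid V) (v : V → Equiv.Perm (Fin n)) (p : Equiv.Perm (Fin n)) (U : V → V → Prop)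
    (N : ℕ) (y0 y1 : V) (rel : Finset (V × V)) (w : Fin n) : ℝ :=
  if isMin v y0 rel w then kap' r v p U N y0 y1 w (p w) else 1

/-- location potential -/
def Phi (r : Setoid V) (v : V → Equiv.Perm (Fin n)) : ℕ := ∑ x : Fin n, Psi (fun i => v i x) r

end Kernel

/-! ## Step information -/

/-- Information describing a cheap step. -/
structure SInfo (V : Type*) where
  y0 : V
  y1 : V
  used : Finset (V × V)
  rel : Finset (V × V)

variable {V : Type*} [Fintype V] {n : ℕ}

/-- validity of the information of a step, for `p = (new seed) * (old seed)⁻¹`. -/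
structure StepOK (r r' : Setoid V) (v : V → Equiv.Perm (Fin n)) (p : Equiv.Perm (Fin n))
    (σ : SInfo V) : Prop where
  le : r ≤ r'
  y1_eq : v σ.y1 = p * v σ.y0
  conn01 : r' σ.y0 σ.y1
  used_eq : ∀ e ∈ σ.used, v e.2 = p * v e.1
  used_conn : ∀ e ∈ σ.used, r' e.1 e.2
  rel_eq : ∀ e ∈ σ.rel, v e.2 = p * v e.1
  rel_0 : ∀ e ∈ σ.rel, r e.1 σ.y0
  rel_1 : ∀ e ∈ σ.rel, r e.2 σ.y1

/-- the weight of a cheap step. -/
def stepWt (r r' : Setoid V) (v : V → Equiv.Perm (Fin n)) (p : Equiv.Perm (Fin n))
    (σ : SInfo V) : ℝ :=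
  ∏ w : Fin n, swt r v p (fun i i' => (i, i') ∈ σ.used) (csz r' σ.y0) σ.y0 σ.y1 σ.rel w

/-! ## Parent functions -/

section Par

variable {G : Type*} [Group G] {m J : ℕ}

/-- validity of a parent function with labels -/
def ParOK (s : ℕ → G) (v : Fin m → G) (par : Fin m → Option (Fin m × Fin J × Fin J)) : Prop :=
  ∀ i u k l, par i = some (u, k, l) → (s k)⁻¹ * v i = (s l)⁻¹ * v u

/-- monotone parent functions -/
def ParMono (par : Fin m → Option (Fin m × Fin J × Fin J)) : Prop :=
  ∀ i i' u k l u' k' l', i ≤ i' → par i = some (u, k, l) → par i' = some (u', k', l') → u ≤ u'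

/-- classes generated by parent edges with both labels `< j` -/
def pconn (par : Fin m → Option (Fin m × Fin J × Fin J)) (j : ℕ) : Setoid (Fin m) :=
  Relation.EqvGen.setoid fun i u => ∃ k l, par i = some (u, k, l) ∧ (k : ℕ) < j ∧ (l : ℕ) < j

end Par

end

end RC
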