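import Pool.Agent.H27.RC.Defs

/-!
# The far inequality (module RC-FAR)

`far_le`. For an `R'`-class `c'`, a union of `R`-classes `c_1, …, c_s`, let `f_i` be the fibre
counts and `M_i = cmx` of `c_i`, and let `ℓ*` be a location with
`M(c') = ∑ f_i (ℓ*)` (the fibre of `c'` over `ℓ*` is the union of the fibres of the `c_i`).
The deficit of `c'` is `∑ (M_i - f_i ℓ*) = ∑ M_i - M(c')`. Call `c_i` good if
`M_i ≤ 2 * f_i ℓ*`. Two good classes are close. So for `y ∈ Y ∩ c'` the class of `y` or the class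
of `τ y` is not good. The `y ∈ Y` in a class `c_i` all have the same location, so there are at most
`M_i` of them, and `M_i ≤ 2 * (M_i - f_i ℓ*)` when `c_i` is not good; the same for `τ y` (`τ` is
injective on `Y` and the `τ y` have the same location). Hence `|Y ∩ c'| ≤ 4 * deficit (c')`; sum
over `c'`.

`far_sum`. Fix a column `x`, write `R_w = bcl r v p U w x` and `loc i = v i x`. `R_w` increases
with `w`; `R_0 = r` (at `w = 0` there are only moves of the first kind: by `lstep`,
`(i, v i x)` and `(i', v i' x)` are `lcl`-equivalent iff `r i i'`), and `R_w ≤ r'` for all `w`. For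
`w = 0, …, n - 1` let `Y_w` be the set of the `y ∈ 𝒰` with `v y x = w` that are far
(`¬ close loc R_w y (τ y)`) and satisfy `R_{w+1} y (τ y)`. `far_le` gives
`|Y_w| + 4 * Psi loc R_{w+1} ≤ 4 * Psi loc R_w` (`loc` is constant on `Y_w`; `loc (τ y) = p w`;
`τ` is injective on `𝒰` because `v (τ y) = p * v y` and `v` is injective).
Sum over `w`, then over `x`; the pairs `(y, w)` with `y ∈ 𝒰` correspond to pairs `(y, x)` with
`x = (v y)⁻¹ w`; the far pairs that are not in any `Y_w` are counted by the last term.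
-/

open Finset
open scoped Classical

namespace RC

section aux

variable {V β : Type*} [Fintype V] [Fintype β]

/-- the class of `R'` containing a class of `R` -/
def up {R R' : Setoid V} (hle : R ≤ R') : Quotient R → Quotient R' :=
  Quotient.map' id (fun _ _ h => hle h)

theorem up_mk {R R' : Setoid V} (hle : R ≤ R') (i : V) :
    up hle (Quotient.mk R i) = Quotient.mk R' i := rfl

theorem cfib_le_cmx (loc : V → β) (R : Setoid V) (c : Quotient R) (ℓ : β) :
    cfib loc R c ℓ ≤ cmx loc R c := Finset.le_sup (f := cfib loc R c) (mem_univ ℓ)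

theorem cfib_up (loc : V → β) {R R' : Setoid V} (hle : R ≤ R') (c' : Quotient R') (ℓ : β) :
    cfib loc R' c' ℓ = ∑ c ∈ univ.filter (fun c => up hle c = c'), cfib loc R c ℓ := by
  unfold cfib
  rw [Finset.card_eq_sum_card_fiberwise (f := fun i => Quotient.mk R i)
    (t := univ.filter (fun c => up hle c = c'))]
  · refine Finset.sum_congr rfl fun c hc => ?_
    rw [mem_filter] at hc
    congr 1
    ext i
    simp only [mem_filter, mem_univ, true_and]
    constructor
    · rintro ⟨⟨h1, h2⟩, h3⟩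
      exact ⟨h3, h2⟩
    · rintro ⟨h1, h2⟩
      refine ⟨⟨?_, h2⟩, h1⟩
      rw [← up_mk hle, h1, hc.2]
  · intro i hi
    simp only [coe_filter, mem_univ, true_and, Set.mem_setOf_eq] at hi ⊢
    rw [up_mk]
    exact hi.1

/-- one side of the far inequality inside one class of `R'` -/
theorem far_aux (loc : V → β) (R R' : Setoid V) (hle : R ≤ R') (c' : Quotient R') (ℓs : β)
    (T : Finset V) (hT : ∀ i ∈ T, Quotient.mk R' i = c') (hl : ∀ i ∈ T, ∀ i' ∈ T, loc i = loc i')
    (hbad : ∀ i ∈ T, ¬ cmx loc R (Quotient.mk R i) ≤ 2 * cfib loc R (Quotient.mk R i) ℓs) :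
    T.card + 2 * cfib loc R' c' ℓs ≤ 2 * ∑ c ∈ univ.filter (fun c => up hle c = c'),
      cmx loc R c := by
  rw [cfib_up loc hle, Finset.card_eq_sum_card_fiberwise (f := fun i => Quotient.mk R i)
    (t := univ.filter (fun c => up hle c = c')), Finset.mul_sum, Finset.mul_sum,
    ← Finset.sum_add_distrib]
  · refine Finset.sum_le_sum fun c _ => ?_
    rcases (T.filter fun i => Quotient.mk R i = c).eq_empty_or_nonempty with h0 | ⟨i0, h0⟩
    · rw [h0, card_empty, zero_add]
      exact Nat.mul_le_mul_left 2 (cfib_le_cmx loc R c ℓs)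
    · rw [mem_filter] at h0
      have h1 := hbad i0 h0.1
      rw [h0.2, not_le] at h1
      have h2 : (T.filter fun i => Quotient.mk R i = c).card ≤ cfib loc R c (loc i0) := by
        refine Finset.card_le_card fun i hi => ?_
        rw [mem_filter] at hi
        simp only [mem_filter, mem_univ, true_and]
        exact ⟨hi.2, hl i hi.1 i0 h0.1⟩
      have h3 := cfib_le_cmx loc R c (loc i0)
      omega
  · intro i hi
    simp only [coe_filter, mem_univ, true_and, Set.mem_setOf_eq]
    rw [up_mk]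
    exact hT i hi

theorem Psi_up (loc : V → β) (R R' : Setoid V) (hle : R ≤ R') :
    Psi loc R = ∑ c' : Quotient R', ∑ c ∈ univ.filter (fun c => up hle c = c'), cmx loc R c := by
  unfold Psi
  rw [Finset.sum_fiberwise]

end aux

theorem far_le {V β : Type*} [Fintype V] [Fintype β] (loc : V → β) (R R' : Setoid V)
    (hle : R ≤ R') (Y : Finset V) (τ : V → V) (hτ : Set.InjOn τ Y)
    (h1 : ∀ i ∈ Y, ∀ i' ∈ Y, loc i = loc i') (h2 : ∀ i ∈ Y, ∀ i' ∈ Y, loc (τ i) = loc (τ i'))
    (hR' : ∀ i ∈ Y, R' i (τ i)) (hfar : ∀ i ∈ Y, ¬ close loc R i (τ i)) :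
    Y.card + 4 * Psi loc R' ≤ 4 * Psi loc R := by
  rw [Psi_up loc R R' hle, Finset.card_eq_sum_card_fiberwise (f := fun i => Quotient.mk R' i)
    (t := univ) (fun i _ => mem_univ _)]
  unfold Psi
  rw [Finset.mul_sum, Finset.mul_sum, ← Finset.sum_add_distrib]
  refine Finset.sum_le_sum fun c' _ => ?_
  obtain ⟨i0, hi0⟩ := Quotient.exists_rep c'
  haveI : Nonempty β := ⟨loc i0⟩
  obtain ⟨ℓs, -, hℓs⟩ := Finset.exists_mem_eq_sup (univ : Finset β) univ_nonempty
    (cfib loc R' c')
  have hcm : cmx loc R' c' = cfib loc R' c' ℓs := hℓs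
  rw [hcm]
  set Yc := Y.filter (fun i => Quotient.mk R' i = c') with hYc
  set bad : V → Prop := fun i => ¬ cmx loc R (Quotient.mk R i) ≤
    2 * cfib loc R (Quotient.mk R i) ℓs with hbad
  have hsub : Yc ⊆ (Yc.filter bad) ∪ (Yc.filter fun i => bad (τ i)) := by
    intro i hi
    have hiY : i ∈ Y := (mem_filter.1 hi).1
    by_cases h3 : bad i
    · exact mem_union_left _ (mem_filter.2 ⟨hi, h3⟩)
    · by_cases h4 : bad (τ i)
      · exact mem_union_right _ (mem_filter.2 ⟨hi, h4⟩)
      · exact absurd ⟨ℓs, not_not.1 h3, not_not.1 h4⟩ (hfar i hiY)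
  have hcard := (Finset.card_le_card hsub).trans (Finset.card_union_le _ _)
  have e1 := far_aux loc R R' hle c' ℓs (Yc.filter bad)
    (fun i hi => (mem_filter.1 (mem_filter.1 hi).1).2)
    (fun i hi i' hi' => h1 i (mem_filter.1 (mem_filter.1 hi).1).1 i'
      (mem_filter.1 (mem_filter.1 hi').1).1)
    (fun i hi => (mem_filter.1 hi).2)
  have e2 := far_aux loc R R' hle c' ℓs ((Yc.filter fun i => bad (τ i)).image τ)
    (by
      intro j hj
      obtain ⟨i, hi, rfl⟩ := mem_image.1 hj
      have hi1 := mem_filter.1 (mem_filter.1 hi).1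
      rw [← hi1.2]
      exact Quotient.sound (R'.symm (hR' i hi1.1)))
    (by
      intro j hj j' hj'
      obtain ⟨i, hi, rfl⟩ := mem_image.1 hj
      obtain ⟨i', hi', rfl⟩ := mem_image.1 hj'
      exact h2 i (mem_filter.1 (mem_filter.1 hi).1).1 i' (mem_filter.1 (mem_filter.1 hi').1).1)
    (by
      intro j hj
      obtain ⟨i, hi, rfl⟩ := mem_image.1 hj
      exact (mem_filter.1 hi).2)
  have e3 : ((Yc.filter fun i => bad (τ i)).image τ).card =
      (Yc.filter fun i => bad (τ i)).card :=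
    Finset.card_image_of_injOn (hτ.mono fun i hi =>
      (mem_filter.1 (mem_filter.1 (mem_coe.1 hi)).1).1)
  omega

theorem Psi_anti {V β : Type*} [Fintype V] [Fintype β] (loc : V → β) {R R' : Setoid V}
    (h : R ≤ R') : Psi loc R' ≤ Psi loc R := by
  have := far_le loc R R' h ∅ id (by simp) (by simp) (by simp) (by simp) (by simp)
  simp only [card_empty, zero_add] at this
  omega

section blocks

variable {V : Type*} [Fintype V] {n : ℕ} {v : V → Equiv.Perm (Fin n)} {r r' : Setoid V}
  {p : Equiv.Perm (Fin n)} {U : V → V → Prop}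

theorem lcl_mono {w w' : ℕ} (h : w ≤ w') : lcl r v p U w ≤ lcl r v p U w' := by
  intro a b hab
  have key : ∀ a b, Relation.EqvGen (lstep r v p U w) a b →
      Relation.EqvGen (lstep r v p U w') a b := by
    intro a b hab
    induction hab with
    | rel a b h' =>
      refine Relation.EqvGen.rel _ _ ?_
      rcases h' with h1 | ⟨h1, h2, h3⟩
      · exact Or.inl h1
      · exact Or.inr ⟨h1, h2.trans_le h, h3⟩
    | refl a => exact Relation.EqvGen.refl _
    | symm a b _ ih => exact Relation.EqvGen.symm _ _ ih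
    | trans a b c _ _ ih1 ih2 => exact Relation.EqvGen.trans _ _ _ ih1 ih2
  exact key a b hab

theorem bcl_mono {w w' : ℕ} (h : w ≤ w') (x : Fin n) : bcl r v p U w x ≤ bcl r v p U w' x :=
  fun _ _ hab => lcl_mono h hab

theorem le_bcl (w : ℕ) (x : Fin n) : r ≤ bcl r v p U w x := by
  intro i i' h
  refine Relation.EqvGen.rel _ _ (Or.inl ⟨h, ?_⟩)
  simp

theorem lcl_fst (hle : r ≤ r') (hU : ∀ i i', U i i' → v i' = p * v i ∧ r' i i') (w : ℕ)
    (a b : V × Fin n) (h : lcl r v p U w a b) : r' a.1 b.1 := by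
  induction h with
  | rel a b h =>
    rcases h with ⟨h1, -⟩ | ⟨h1, -⟩
    · exact hle h1
    · exact (hU _ _ h1).2
  | refl a => exact r'.refl _
  | symm a b _ ih => exact r'.symm ih
  | trans a b c _ _ ih1 ih2 => exact r'.trans ih1 ih2

theorem bcl_le (hle : r ≤ r') (hU : ∀ i i', U i i' → v i' = p * v i ∧ r' i i') (w : ℕ)
    (x : Fin n) : bcl r v p U w x ≤ r' :=
  fun _ _ h => lcl_fst hle hU w _ _ h

end blocks

theorem far_sum {V : Type*} [Fintype V] {n : ℕ} {v : V → Equiv.Perm (Fin n)}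
    (hv : Function.Injective v) {r r' : Setoid V} (hle : r ≤ r') {p : Equiv.Perm (Fin n)}
    {U : V → V → Prop} (hU : ∀ i i', U i i' → v i' = p * v i ∧ r' i i')
    (Us : Finset V) (τ : V → V) (hτ : ∀ y ∈ Us, v (τ y) = p * v y) :
    (∑ y ∈ Us, (univ.filter fun w : Fin n =>
        ¬ close (fun i => v i ((v y)⁻¹ w)) (bcl r v p U w ((v y)⁻¹ w)) y (τ y)).card)
      + 4 * Phi r' v
    ≤ 4 * Phi r v +
      ((Us ×ˢ (univ : Finset (Fin n))).filter fun e =>
        ¬ bcl r v p U (((v e.1 e.2 : Fin n) : ℕ) + 1) e.2 e.1 (τ e.1)).card := by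
  -- the sets `Y w x`
  let Y : ℕ → Fin n → Finset V := fun w x => Us.filter fun y =>
    ((v y x : Fin n) : ℕ) = w ∧ ¬ close (fun i => v i x) (bcl r v p U w x) y (τ y) ∧
      bcl r v p U (w + 1) x y (τ y)
  have hY : ∀ (w : ℕ) (x : Fin n), (Y w x).card + 4 * Psi (fun i => v i x) (bcl r v p U (w + 1) x) ≤
      4 * Psi (fun i => v i x) (bcl r v p U w x) := by
    intro w x
    have hmem : ∀ i ∈ Y w x, i ∈ Us ∧ ((v i x : Fin n) : ℕ) = w ∧
        ¬ close (fun i => v i x) (bcl r v p U w x) i (τ i) ∧ bcl r v p U (w + 1) x i (τ i) :=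
      fun i hi => mem_filter.1 hi
    refine far_le _ _ _ (bcl_mono (Nat.le_succ w) x) (Y w x) τ ?_ ?_ ?_ ?_ ?_
    · intro i hi i' hi' heq
      have h1 := hτ i (hmem i hi).1
      have h2 := hτ i' (hmem i' hi').1
      rw [heq, h2] at h1
      exact (hv (mul_left_cancel h1)).symm
    · intro i hi i' hi'
      apply Fin.ext
      show ((v i x : Fin n) : ℕ) = ((v i' x : Fin n) : ℕ)
      rw [(hmem i hi).2.1, (hmem i' hi').2.1]
    · intro i hi i' hi'
      have h3 : v i x = v i' x := by
        apply Fin.ext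
        rw [(hmem i hi).2.1, (hmem i' hi').2.1]
      show v (τ i) x = v (τ i') x
      rw [hτ i (hmem i hi).1, hτ i' (hmem i' hi').1, Equiv.Perm.mul_apply, Equiv.Perm.mul_apply, h3]
    · intro i hi
      exact (hmem i hi).2.2.2
    · intro i hi
      exact (hmem i hi).2.2.1
  have htel : ∀ (x : Fin n) (N : ℕ), (∑ w ∈ range N, (Y w x).card) +
      4 * Psi (fun i => v i x) (bcl r v p U N x) ≤ 4 * Psi (fun i => v i x) (bcl r v p U 0 x) := by
    intro x N
    induction N with
    | zero => simp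
    | succ N ih =>
      rw [Finset.sum_range_succ]
      have := hY N x
      omega
  have hcol : ∀ x : Fin n, (∑ w ∈ range n, (Y w x).card) + 4 * Psi (fun i => v i x) r' ≤
      4 * Psi (fun i => v i x) r := by
    intro x
    have h1 := htel x n
    have h2 := Psi_anti (fun i => v i x) (bcl_le (r' := r') hle hU n x)
    have h3 := Psi_anti (fun i => v i x) (le_bcl (r := r) (v := v) (p := p) (U := U) 0 x)
    omega
  have hsum : (∑ x : Fin n, ∑ w ∈ range n, (Y w x).card) + 4 * Phi r' v ≤ 4 * Phi r v := by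
    unfold Phi
    rw [Finset.mul_sum, Finset.mul_sum, ← Finset.sum_add_distrib]
    exact Finset.sum_le_sum fun x _ => hcol x
  -- the far pairs
  have hre : (∑ y ∈ Us, (univ.filter fun w : Fin n =>
        ¬ close (fun i => v i ((v y)⁻¹ w)) (bcl r v p U w ((v y)⁻¹ w)) y (τ y)).card) =
      ∑ y ∈ Us, (univ.filter fun x : Fin n =>
        ¬ close (fun i => v i x) (bcl r v p U ((v y x : Fin n) : ℕ) x) y (τ y)).card := by
    refine Finset.sum_congr rfl fun y _ => ?_
    refine Finset.card_bij' (fun w _ => (v y)⁻¹ w) (fun x _ => v y x) ?_ ?_ ?_ ?_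
    · intro w hw
      rw [mem_filter] at hw ⊢
      refine ⟨mem_univ _, ?_⟩
      simpa using hw.2
    · intro x hx
      rw [mem_filter] at hx ⊢
      refine ⟨mem_univ _, ?_⟩
      simpa using hx.2
    · intro w _
      simp
    · intro x _
      simp
  have hYY : (∑ x : Fin n, ∑ w ∈ range n, (Y w x).card) = ∑ y ∈ Us, (univ.filter fun x : Fin n =>
      ¬ close (fun i => v i x) (bcl r v p U ((v y x : Fin n) : ℕ) x) y (τ y) ∧
        bcl r v p U (((v y x : Fin n) : ℕ) + 1) x y (τ y)).card := by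
    have h1 : ∀ x : Fin n, ∑ w ∈ range n, (Y w x).card = (Us.filter fun y =>
      ¬ close (fun i => v i x) (bcl r v p U ((v y x : Fin n) : ℕ) x) y (τ y) ∧
        bcl r v p U (((v y x : Fin n) : ℕ) + 1) x y (τ y)).card := by
      intro x
      rw [Finset.card_eq_sum_card_fiberwise (f := fun y => ((v y x : Fin n) : ℕ))
        (t := range n) (fun y _ => mem_coe.2 (mem_range.2 (v y x).isLt))]
      refine Finset.sum_congr rfl fun w _ => ?_
      congr 1
      ext y
      simp only [Y, mem_filter]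
      constructor
      · rintro ⟨h1, h2, h3, h4⟩
        subst h2
        exact ⟨⟨h1, h3, h4⟩, rfl⟩
      · rintro ⟨⟨h1, h3, h4⟩, h2⟩
        subst h2
        exact ⟨h1, rfl, h3, h4⟩
    simp_rw [h1, Finset.card_filter]
    rw [Finset.sum_comm]
  have hprod : ((Us ×ˢ (univ : Finset (Fin n))).filter fun e =>
        ¬ bcl r v p U (((v e.1 e.2 : Fin n) : ℕ) + 1) e.2 e.1 (τ e.1)).card =
      ∑ y ∈ Us, (univ.filter fun x : Fin n =>
        ¬ bcl r v p U (((v y x : Fin n) : ℕ) + 1) x y (τ y)).card := by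
    rw [Finset.card_filter, Finset.sum_product]
    refine Finset.sum_congr rfl fun y _ => ?_
    rw [Finset.card_filter]
  rw [hre, hprod]
  have hfin : ∑ y ∈ Us, (univ.filter fun x : Fin n =>
        ¬ close (fun i => v i x) (bcl r v p U ((v y x : Fin n) : ℕ) x) y (τ y)).card ≤
      ∑ y ∈ Us, (univ.filter fun x : Fin n =>
      ¬ close (fun i => v i x) (bcl r v p U ((v y x : Fin n) : ℕ) x) y (τ y) ∧
        bcl r v p U (((v y x : Fin n) : ℕ) + 1) x y (τ y)).card +
      ∑ y ∈ Us, (univ.filter fun x : Fin n =>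
        ¬ bcl r v p U (((v y x : Fin n) : ℕ) + 1) x y (τ y)).card := by
    rw [← Finset.sum_add_distrib]
    refine Finset.sum_le_sum fun y _ => ?_
    refine (Finset.card_le_card ?_).trans (Finset.card_union_le _ _)
    intro x hx
    rw [mem_union, mem_filter, mem_filter]
    rw [mem_filter] at hx
    by_cases hb : bcl r v p U (((v y x : Fin n) : ℕ) + 1) x y (τ y)
    · exact Or.inl ⟨mem_univ _, hx.2, hb⟩
    · exact Or.inr ⟨mem_univ _, hb⟩
  rw [← hYY] at hfin
  omega

theorem Psi_le_card {V β : Type*} [Fintype V] [Fintype β] (loc : V → β) (R : Setoid V) :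
    Psi loc R ≤ Fintype.card V := by
  unfold Psi
  rw [← Finset.card_univ, Finset.card_eq_sum_card_fiberwise (f := fun i => Quotient.mk R i)
    (t := univ) (fun i _ => mem_univ _)]
  refine Finset.sum_le_sum fun c _ => ?_
  refine Finset.sup_le fun ℓ _ => ?_
  refine Finset.card_le_card fun i hi => ?_
  rw [mem_filter] at hi ⊢
  exact ⟨hi.1, hi.2.1⟩

theorem Phi_bot_le {V : Type*} [Fintype V] {n : ℕ} (v : V → Equiv.Perm (Fin n)) (r : Setoid V) :
    Phi r v ≤ n * Fintype.card V := by
  unfold Phi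
  calc ∑ x : Fin n, Psi (fun i => v i x) r ≤ ∑ _x : Fin n, Fintype.card V :=
        Finset.sum_le_sum fun x _ => Psi_le_card _ _
    _ = n * Fintype.card V := by simp

theorem Phi_anti {V : Type*} [Fintype V] {n : ℕ} (v : V → Equiv.Perm (Fin n)) {r r' : Setoid V}
    (h : r ≤ r') : Phi r' v ≤ Phi r v :=
  Finset.sum_le_sum fun _ _ => Psi_anti _ h

end RC
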