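import Pool.Agent.H27.RC.Defs

/-!
# Existence of a monotone parent function (module RC-FOREST)

Only the following is used: `A` is a finite set of size `m`; `adj A s j` increases with `j` and is
symmetric.

Step 1 (Prim's algorithm). We build the parent function by adding the vertices one by one. Let `S`
be the set of the vertices treated so far. If some pair `x ∈ A \ S`, `y ∈ S` is adjacent at some
time `j ≤ J`, take such a pair with the least `j` and make `y` the parent of `x`. Otherwise let
`x ∈ A \ S` be any vertex without parent. The invariant is: for all `j ≤ J`, two vertices of `S`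
connected at time `j` are connected by parent edges with both labels `< j`. For the induction step
note that if `x` and a vertex of `S` are connected at time `j` then some edge at time `j` leaves
`S`, thus the chosen edge exists at time `j` too.

Step 2 (enumeration with monotone parents). Let `f : A → {0, …, m-1}` be any bijection and define
`key y = f y + 1` for a root, and `key y = (m + 1) * key (π y) + (f y + 1)` otherwise. Then
`key y / (m + 1) = key (π y)` for nonroots and `key y % (m + 1) = f y + 1`, so `key` is injective.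
Enumerate `A` by increasing `key`: `v : Fin m → A`. If `i ≤ i'` are nonroots then
`key (π (v i)) = key (v i) / (m + 1) ≤ key (v i') / (m + 1) = key (π (v i'))`.
-/

open Finset
open scoped Pointwise Classical

namespace RC

variable {G : Type*} [Group G]

theorem adj_symm {A : Finset G} {s : ℕ → G} {j : ℕ} {y y' : G} (h : adj A s j y y') :
    adj A s j y' y := by
  obtain ⟨h1, h2, k, hk, l, hl, e⟩ := h
  exact ⟨h2, h1, l, hl, k, hk, e.symm⟩

/-- If a point of `S` is connected to a point outside of `S`, some edge leaves `S`. -/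
theorem crossing {A : Finset G} {s : ℕ → G} {j : ℕ} (S : Finset G) {y x : G}
    (h : conn A s j y x) (hy : y ∈ S) (hx : x ∉ S) :
    ∃ a ∈ S, ∃ b, b ∉ S ∧ adj A s j b a := by
  by_contra hcon
  push Not at hcon
  have key : ∀ a b, Relation.EqvGen (adj A s j) a b → (a ∈ S ↔ b ∈ S) := by
    intro a b hab
    induction hab with
    | rel a b hab =>
      constructor
      · intro ha
        by_contra hb
        exact hcon a ha b hb (adj_symm hab)
      · intro hb
        by_contra ha
        exact hcon b hb a ha hab
    | refl a => exact Iff.rfl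
    | symm a b _ ih => exact ih.symm
    | trans a b c _ _ ih1 ih2 => exact ih1.trans ih2
  exact hx ((key y x h).1 hy)

/-- the relation generated by parent edges -/
def pe (S : Finset G) (par : G → Option (G × ℕ × ℕ)) (j : ℕ) (a b : G) : Prop :=
  a ∈ S ∧ ∃ k l, par a = some (b, k, l) ∧ k < j ∧ l < j

/-- the invariant of Prim's algorithm -/
structure Good (A : Finset G) (s : ℕ → G) (J m : ℕ) (f : G → ℕ) (S : Finset G)
    (par : G → Option (G × ℕ × ℕ)) (key : G → ℕ) : Prop where
  kmod : ∀ y ∈ S, key y % (m + 1) = f y + 1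
  pmem : ∀ y ∈ S, ∀ u k l, par y = some (u, k, l) → u ∈ S ∧ key y / (m + 1) = key u ∧
    k < J ∧ l < J ∧ (s k)⁻¹ * y = (s l)⁻¹ * u
  gen : ∀ j ≤ J, ∀ y ∈ S, ∀ y' ∈ S, conn A s j y y' → Relation.EqvGen (pe S par j) y y'

theorem prim_step {A : Finset G} {s : ℕ → G} {J m : ℕ} {f : G → ℕ}
    (hf : ∀ y ∈ A, f y < m) {S : Finset G} (hS : S ⊆ A) (hne : S ≠ A)
    {par : G → Option (G × ℕ × ℕ)} {key : G → ℕ} (hg : Good A s J m f S par key) :
    ∃ x ∈ A, x ∉ S ∧ ∃ par' key', Good A s J m f (insert x S) par' key' := by
  by_cases hex : ∃ j, j ≤ J ∧ ∃ x ∈ A, x ∉ S ∧ ∃ y ∈ S, adj A s j x y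
  · obtain ⟨j₀, hj₀, hmin⟩ : ∃ j₀, (j₀ ≤ J ∧ ∃ x ∈ A, x ∉ S ∧ ∃ y ∈ S, adj A s j₀ x y) ∧
        ∀ j, (j ≤ J ∧ ∃ x ∈ A, x ∉ S ∧ ∃ y ∈ S, adj A s j x y) → j₀ ≤ j :=
      ⟨Nat.find hex, Nat.find_spec hex, fun j hj => Nat.find_min' hex hj⟩
    obtain ⟨hJ, x, hxA, hxS, y, hyS, _, _, k, hk, l, hl, e⟩ := hj₀
    have hxy : ∀ z ∈ S, z ≠ x := fun z hz h => hxS (h ▸ hz)
    refine ⟨x, hxA, hxS, Function.update par x (some (y, k, l)),
      Function.update key x ((m + 1) * key y + (f x + 1)), ?_, ?_, ?_⟩
    · intro z hz
      rcases Finset.mem_insert.1 hz with rfl | hz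
      · rw [Function.update_self, Nat.mul_add_mod, Nat.mod_eq_of_lt]
        have := hf _ hxA
        omega
      · rw [Function.update_of_ne (hxy z hz)]
        exact hg.kmod z hz
    · intro z hz u k' l' hp
      rcases Finset.mem_insert.1 hz with rfl | hz
      · rw [Function.update_self] at hp
        simp only [Option.some.injEq, Prod.mk.injEq] at hp
        obtain ⟨rfl, rfl, rfl⟩ := hp
        refine ⟨Finset.mem_insert_of_mem hyS, ?_, by omega, by omega, e⟩
        rw [Function.update_self, Function.update_of_ne (hxy _ hyS)]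
        have := hf _ hxA
        rw [Nat.mul_add_div (by omega), Nat.div_eq_of_lt (by omega), add_zero]
      · rw [Function.update_of_ne (hxy z hz)] at hp
        obtain ⟨h1, h2, h3⟩ := hg.pmem z hz u k' l' hp
        refine ⟨Finset.mem_insert_of_mem h1, ?_, h3⟩
        rw [Function.update_of_ne (hxy z hz), Function.update_of_ne (hxy u h1)]
        exact h2
    · intro j hj
      have hmono : ∀ a b, pe S par j a b →
          pe (insert x S) (Function.update par x (some (y, k, l))) j a b := by
        rintro a b ⟨ha, k', l', hp, hk', hl'⟩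
        exact ⟨Finset.mem_insert_of_mem ha, k', l', by rw [Function.update_of_ne (hxy a ha)]; exact hp,
          hk', hl'⟩
      have hside : ∀ z ∈ S, conn A s j z x →
          Relation.EqvGen (pe (insert x S) (Function.update par x (some (y, k, l))) j) z x := by
        intro z hz hzx
        obtain ⟨a, ha, b, hb, hab⟩ := crossing S hzx hz hxS
        have hjj : j₀ ≤ j := hmin j ⟨hj, b, hab.1, hb, a, ha, hab⟩
        have h1 : conn A s j x y :=
          Relation.EqvGen.rel _ _ ⟨hxA, hS hyS, k, by omega, l, by omega, e⟩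
        have h2 : conn A s j z y := (conn A s j).trans' hzx h1
        refine Relation.EqvGen.trans _ _ _ ((hg.gen j hj z hz y hyS h2).mono hmono)
          (Relation.EqvGen.symm _ _ (Relation.EqvGen.rel _ _ ?_))
        exact ⟨Finset.mem_insert_self _ _, k, l, Function.update_self _ _ _, by omega, by omega⟩
      intro z hz z' hz' hzz
      rcases Finset.mem_insert.1 hz with rfl | hz
      · rcases Finset.mem_insert.1 hz' with rfl | hz'
        · exact Relation.EqvGen.refl _
        · exact Relation.EqvGen.symm _ _ (hside z' hz' ((conn A s j).symm' hzz))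
      · rcases Finset.mem_insert.1 hz' with h' | hz'
        · rw [h'] at hzz ⊢
          exact hside z hz hzz
        · exact (hg.gen j hj z hz z' hz' hzz).mono hmono
  · obtain ⟨x, hxA, hxS⟩ : ∃ x ∈ A, x ∉ S := by
      by_contra hcon
      push Not at hcon
      exact hne (Finset.Subset.antisymm hS hcon)
    have hxy : ∀ z ∈ S, z ≠ x := fun z hz h => hxS (h ▸ hz)
    refine ⟨x, hxA, hxS, Function.update par x none,
      Function.update key x (f x + 1), ?_, ?_, ?_⟩
    · intro z hz
      rcases Finset.mem_insert.1 hz with rfl | hz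
      · rw [Function.update_self, Nat.mod_eq_of_lt]
        have := hf _ hxA
        omega
      · rw [Function.update_of_ne (hxy z hz)]
        exact hg.kmod z hz
    · intro z hz u k' l' hp
      rcases Finset.mem_insert.1 hz with rfl | hz
      · rw [Function.update_self] at hp
        exact absurd hp (by simp)
      · rw [Function.update_of_ne (hxy z hz)] at hp
        obtain ⟨h1, h2, h3⟩ := hg.pmem z hz u k' l' hp
        refine ⟨Finset.mem_insert_of_mem h1, ?_, h3⟩
        rw [Function.update_of_ne (hxy z hz), Function.update_of_ne (hxy u h1)]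
        exact h2
    · intro j hj
      have hmono : ∀ a b, pe S par j a b →
          pe (insert x S) (Function.update par x none) j a b := by
        rintro a b ⟨ha, k', l', hp, hk', hl'⟩
        exact ⟨Finset.mem_insert_of_mem ha, k', l', by rw [Function.update_of_ne (hxy a ha)]; exact hp,
          hk', hl'⟩
      have hside : ∀ z ∈ S, ¬ conn A s j z x := by
        intro z hz hzx
        obtain ⟨a, ha, b, hb, hab⟩ := crossing S hzx hz hxS
        exact hex ⟨j, hj, b, hab.1, hb, a, ha, hab⟩
      intro z hz z' hz' hzz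
      rcases Finset.mem_insert.1 hz with rfl | hz
      · rcases Finset.mem_insert.1 hz' with rfl | hz'
        · exact Relation.EqvGen.refl _
        · exact absurd ((conn A s j).symm' hzz) (hside z' hz')
      · rcases Finset.mem_insert.1 hz' with h' | hz'
        · rw [h'] at hzz
          exact absurd hzz (hside z hz)
        · exact (hg.gen j hj z hz z' hz' hzz).mono hmono

theorem prim {A : Finset G} {s : ℕ → G} {J m : ℕ} {f : G → ℕ} (hf : ∀ y ∈ A, f y < m) :
    ∃ par key, Good A s J m f A par key := by
  have h : ∀ n ≤ A.card, ∃ S ⊆ A, S.card = n ∧ ∃ par key, Good A s J m f S par key := by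
    intro n
    induction n with
    | zero =>
      intro _
      exact ⟨∅, Finset.empty_subset _, rfl, fun _ => none, fun _ => 0, by simp, by simp, by simp⟩
    | succ n ih =>
      intro hn
      obtain ⟨S, hS, hc, par, key, hg⟩ := ih (by omega)
      obtain ⟨x, hxA, hxS, par', key', hg'⟩ := prim_step hf hS (by rintro rfl; omega) hg
      exact ⟨insert x S, Finset.insert_subset hxA hS, by rw [Finset.card_insert_of_notMem hxS, hc],
        par', key', hg'⟩
  obtain ⟨S, hS, hc, par, key, hg⟩ := h A.card le_rfl
  obtain rfl := Finset.eq_of_subset_of_card_le hS hc.ge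
  exact ⟨par, key, hg⟩

theorem forest_exists (A : Finset G) (s : ℕ → G) (J m : ℕ) (hm : A.card = m) :
    ∃ (v : Fin m → G) (par : Fin m → Option (Fin m × Fin J × Fin J)),
      Function.Injective v ∧ univ.image v = A ∧ ParOK s v par ∧ ParMono par ∧
      ∀ j ≤ J, ∀ i i', conn A s j (v i) (v i') ↔ pconn par j i i' := by
  let e : A ≃ Fin m := Finset.equivFinOfCardEq hm
  let f : G → ℕ := fun y => if h : y ∈ A then (e ⟨y, h⟩ : ℕ) else 0
  have hfA : ∀ y (h : y ∈ A), f y = (e ⟨y, h⟩ : ℕ) := fun y h => by simp [f, h]
  have hf : ∀ y ∈ A, f y < m := fun y h => by rw [hfA y h]; exact (e ⟨y, h⟩).2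
  have hfinj : ∀ y ∈ A, ∀ y' ∈ A, f y = f y' → y = y' := by
    intro y h y' h' hh
    rw [hfA y h, hfA y' h'] at hh
    have := e.injective (Fin.ext hh)
    exact congrArg Subtype.val this
  obtain ⟨par, key, hg⟩ := prim (A := A) (s := s) (J := J) (m := m) (f := f) hf
  have hkinj : ∀ y ∈ A, ∀ y' ∈ A, key y = key y' → y = y' := by
    intro y h y' h' hh
    refine hfinj y h y' h' ?_
    have h1 := hg.kmod y h
    have h2 := hg.kmod y' h'
    rw [hh] at h1
    omega
  have hcard : (A.image key).card = m := by
    rw [Finset.card_image_of_injOn (fun y h y' h' hh => hkinj y h y' h' hh), hm]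
  let em : Fin m ↪o ℕ := (A.image key).orderEmbOfFin hcard
  have hem : ∀ i, ∃ y ∈ A, key y = em i := by
    intro i
    exact Finset.mem_image.1 ((A.image key).orderEmbOfFin_mem hcard i)
  choose v hvA hvk using hem
  have hvinj : Function.Injective v := by
    intro i i' h
    apply em.injective
    rw [← hvk i, ← hvk i', h]
  have himg : univ.image v = A := by
    refine Finset.eq_of_subset_of_card_le ?_ ?_
    · intro y hy
      obtain ⟨i, _, rfl⟩ := Finset.mem_image.1 hy
      exact hvA i
    · rw [Finset.card_image_of_injective _ hvinj, Finset.card_univ, Fintype.card_fin, hm]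
  let par' : Fin m → Option (Fin m × Fin J × Fin J) := fun i =>
    if h : ∃ t : Fin m × Fin J × Fin J, par (v i) = some (v t.1, (t.2.1 : ℕ), (t.2.2 : ℕ))
    then some h.choose else none
  have hpar' : ∀ i u k l, par' i = some (u, k, l) ↔ par (v i) = some (v u, (k : ℕ), (l : ℕ)) := by
    intro i u k l
    constructor
    · intro h
      by_cases hh : ∃ t : Fin m × Fin J × Fin J, par (v i) = some (v t.1, (t.2.1 : ℕ), (t.2.2 : ℕ))
      · have h1 : par' i = some hh.choose := by simp only [par', dif_pos hh]
        rw [h1] at h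
        have h2 := hh.choose_spec
        rw [Option.some.inj h] at h2
        exact h2
      · have h1 : par' i = none := by simp only [par', dif_neg hh]
        rw [h1] at h
        exact absurd h (by simp)
    · intro h
      have hh : ∃ t : Fin m × Fin J × Fin J,
          par (v i) = some (v t.1, (t.2.1 : ℕ), (t.2.2 : ℕ)) := ⟨(u, k, l), h⟩
      have h1 : par' i = some hh.choose := by simp only [par', dif_pos hh]
      have h2 := h.symm.trans hh.choose_spec
      rw [h1]
      simp only [Option.some.injEq, Prod.mk.injEq] at h2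
      obtain ⟨e1, e2, e3⟩ := h2
      refine congrArg some ?_
      exact Prod.ext (hvinj e1.symm) (Prod.ext (Fin.ext e2.symm) (Fin.ext e3.symm))
  have hidx : ∀ y ∈ A, ∃ i, v i = y := by
    intro y hy
    rw [← himg] at hy
    obtain ⟨i, _, h⟩ := Finset.mem_image.1 hy
    exact ⟨i, h⟩
  refine ⟨v, par', hvinj, himg, ?_, ?_, ?_⟩
  · intro i u k l h
    exact (hg.pmem (v i) (hvA i) _ _ _ ((hpar' i u k l).1 h)).2.2.2.2
  · intro i i' u k l u' k' l' hii h h'
    have h1 := (hg.pmem (v i) (hvA i) _ _ _ ((hpar' i u k l).1 h)).2.1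
    have h2 := (hg.pmem (v i') (hvA i') _ _ _ ((hpar' i' u' k' l').1 h')).2.1
    rw [hvk, hvk] at h1 h2
    have h3 : em i ≤ em i' := em.monotone hii
    have h4 : em u ≤ em u' := by
      rw [← h1, ← h2]
      exact Nat.div_le_div_right h3
    exact em.le_iff_le.1 h4
  · intro j hj i i'
    constructor
    · intro h
      have h1 := hg.gen j hj (v i) (hvA i) (v i') (hvA i') h
      have key' : ∀ a b, Relation.EqvGen (pe A par j) a b →
          a = b ∨ ∃ i i', v i = a ∧ v i' = b ∧ pconn par' j i i' := by
        intro a b hab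
        induction hab with
        | rel a b hab =>
          obtain ⟨ha, k, l, hp, hk, hl⟩ := hab
          obtain ⟨i, rfl⟩ := hidx a ha
          obtain ⟨hb, -, hkJ, hlJ, -⟩ := hg.pmem _ ha _ _ _ hp
          obtain ⟨i', rfl⟩ := hidx b hb
          refine Or.inr ⟨i, i', rfl, rfl, Relation.EqvGen.rel _ _ ⟨⟨k, hkJ⟩, ⟨l, hlJ⟩, ?_, hk, hl⟩⟩
          exact (hpar' _ _ _ _).2 hp
        | refl a => exact Or.inl rfl
        | symm a b _ ih =>
          rcases ih with rfl | ⟨i, i', h1, h2, h3⟩
          · exact Or.inl rfl
          · exact Or.inr ⟨i', i, h2, h1, (pconn par' j).symm' h3⟩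
        | trans a b c _ _ ih1 ih2 =>
          rcases ih1 with rfl | ⟨i, i', h1, h2, h3⟩
          · exact ih2
          · rcases ih2 with rfl | ⟨i₂, i₂', h1', h2', h3'⟩
            · exact Or.inr ⟨i, i', h1, h2, h3⟩
            · obtain rfl : i' = i₂ := hvinj (by rw [h2, h1'])
              exact Or.inr ⟨i, i₂', h1, h2', (pconn par' j).trans' h3 h3'⟩
      rcases key' _ _ h1 with h2 | ⟨a, b, ha, hb, hab⟩
      · rw [hvinj h2]
      · rw [← hvinj ha, ← hvinj hb]
        exact hab
    · intro h
      have key' : ∀ a b, Relation.EqvGen (fun i u => ∃ k l, par' i = some (u, k, l) ∧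
          (k : ℕ) < j ∧ (l : ℕ) < j) a b → conn A s j (v a) (v b) := by
        intro a b hab
        induction hab with
        | rel a b hab =>
          obtain ⟨k, l, hp, hk, hl⟩ := hab
          have h2 := hg.pmem (v a) (hvA a) _ _ _ ((hpar' a b k l).1 hp)
          exact Relation.EqvGen.rel _ _ ⟨hvA a, hvA b, k, hk, l, hl, h2.2.2.2.2⟩
        | refl a => exact (conn A s j).refl' _
        | symm a b _ ih => exact (conn A s j).symm' ih
        | trans a b c _ _ ih1 ih2 => exact (conn A s j).trans' ih1 ih2
      exact key' i i' h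

/-- number of classes at time `j` bounds the number of late edges. -/
theorem late_edges {A : Finset G} {s : ℕ → G} {J m : ℕ} (hm : A.card = m) {v : Fin m → G}
    {par : Fin m → Option (Fin m × Fin J × Fin J)} (hv : Function.Injective v)
    (hA : univ.image v = A)
    (hc : ∀ j ≤ J, ∀ i i', conn A s j (v i) (v i') ↔ pconn par j i i') (j : ℕ) (hj : j ≤ J) :
    (univ.filter fun i => ∃ u k l, par i = some (u, k, l) ∧ (j ≤ (k : ℕ) ∨ j ≤ (l : ℕ))).card ≤
      numCls A s j := by
  let R : Fin m → Fin m → Prop := fun i u => ∃ k l, par i = some (u, k, l) ∧ (k : ℕ) < j ∧ (l : ℕ) < j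
  have hdet : ∀ a b c, R a b → R a c → ∃ d, Relation.ReflGen R b d ∧ Relation.ReflTransGen R c d := by
    rintro a b c ⟨k, l, h, -⟩ ⟨k', l', h', -⟩
    rw [h] at h'
    simp only [Option.some.injEq, Prod.mk.injEq] at h'
    obtain ⟨rfl, -⟩ := h'
    exact ⟨b, Relation.ReflGen.refl, Relation.ReflTransGen.refl⟩
  have heq := Relation.equivalence_join_reflTransGen hdet
  have hjoin : ∀ a b, Relation.EqvGen R a b → Relation.Join (Relation.ReflTransGen R) a b := by
    intro a b hab
    refine (Equivalence.eqvGen_iff heq).1 (hab.mono ?_)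
    intro a b h
    exact ⟨b, Relation.ReflTransGen.single h, Relation.ReflTransGen.refl⟩
  have hlate : ∀ a c, (∃ u k l, par a = some (u, k, l) ∧ (j ≤ (k : ℕ) ∨ j ≤ (l : ℕ))) →
      Relation.ReflTransGen R a c → c = a := by
    rintro a c ⟨u, k, l, h, hkl⟩ hac
    rcases Relation.ReflTransGen.cases_head hac with rfl | ⟨b, ⟨k', l', h', h1, h2⟩, -⟩
    · rfl
    · rw [h] at h'
      simp only [Option.some.injEq, Prod.mk.injEq] at h'
      obtain ⟨-, rfl, rfl⟩ := h'
      omega
  have hvA : ∀ i, v i ∈ A := fun i => by
    rw [← hA]; exact Finset.mem_image_of_mem _ (Finset.mem_univ i)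
  refine Finset.card_le_card_of_injOn (fun i => cls A s j (v i)) ?_ ?_
  · intro i _
    exact Finset.mem_coe.2 (Finset.mem_image_of_mem _ (hvA i))
  · intro i hi i' hi' h
    have hi := (Finset.mem_filter.1 (Finset.mem_coe.1 hi)).2
    have hi' := (Finset.mem_filter.1 (Finset.mem_coe.1 hi')).2
    have h1 : v i' ∈ cls A s j (v i') :=
      Finset.mem_filter.2 ⟨hvA i', (conn A s j).refl' _⟩
    have h2 : v i' ∈ cls A s j (v i) := by
      have h' : cls A s j (v i) = cls A s j (v i') := h
      rw [h']; exact h1
    have h3 : conn A s j (v i) (v i') := (Finset.mem_filter.1 h2).2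
    have h4 : Relation.EqvGen R i i' := (hc j hj i i').1 h3
    obtain ⟨c, hc1, hc2⟩ := hjoin i i' h4
    rw [← hlate i c hi hc1, ← hlate i' c hi' hc2]

end RC
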