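import Pool.Agent.H27.RC.Defs

/-!
# Growth of the classes: one step (module RC-GR1b, helper79)

See `Growth.lean` for the notation and the paper proof.
-/

open Finset
open scoped Pointwise Classical

namespace RC

variable {G : Type*} [Group G]

namespace GB

theorem conn_mem {A : Finset G} {s : ℕ → G} {j : ℕ} {y y' : G} (h : conn A s j y y') :
    y ∈ A ↔ y' ∈ A := by
  change Relation.EqvGen (adj A s j) y y' at h
  induction h with
  | rel x y h => exact ⟨fun _ => h.2.1, fun _ => h.1⟩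
  | refl x => exact Iff.rfl
  | symm x y _ ih => exact ih.symm
  | trans x y z _ _ ih1 ih2 => exact ih1.trans ih2

theorem conn_mono {A : Finset G} {s s' : ℕ → G} {j j' : ℕ} (hj : j ≤ j')
    (h : ∀ k < j, s k = s' k) {y y' : G} (hc : conn A s j y y') : conn A s' j' y y' := by
  change Relation.EqvGen (adj A s j) y y' at hc
  change Relation.EqvGen (adj A s' j') y y'
  refine Relation.EqvGen.mono ?_ _ _ hc
  rintro a b ⟨ha, hb, k, hk, l, hl, he⟩
  refine ⟨ha, hb, k, hk.trans_le hj, l, hl.trans_le hj, ?_⟩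
  rw [← h k hk, ← h l hl]
  exact he

theorem mem_cls {A : Finset G} {s : ℕ → G} {j : ℕ} {y y' : G} :
    y' ∈ cls A s j y ↔ y' ∈ A ∧ conn A s j y y' := by
  simp [cls]

theorem self_mem_cls {A : Finset G} {s : ℕ → G} {j : ℕ} {y : G} (hy : y ∈ A) :
    y ∈ cls A s j y := mem_cls.2 ⟨hy, (conn A s j).refl y⟩

theorem cls_eq {A : Finset G} {s : ℕ → G} {j : ℕ} {y y' : G} (h : conn A s j y y') :
    cls A s j y = cls A s j y' := by
  ext z
  rw [mem_cls, mem_cls]
  constructor
  · rintro ⟨hz, h1⟩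
    exact ⟨hz, (conn A s j).trans ((conn A s j).symm h) h1⟩
  · rintro ⟨hz, h1⟩
    exact ⟨hz, (conn A s j).trans h h1⟩

theorem conn_of_cls_eq {A : Finset G} {s : ℕ → G} {j : ℕ} {y y' : G} (hy' : y' ∈ A)
    (h : cls A s j y = cls A s j y') : conn A s j y y' := by
  have := self_mem_cls (s := s) (j := j) hy'
  rw [← h, mem_cls] at this
  exact this.2

theorem dcls_eq {A : Finset G} {s : ℕ → G} {j : ℕ} {d : G} {k : ℕ} (hk : k < j)
    (hd : s k * d ∈ A) : dcls A s j d = cls A s j (s k * d) := by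
  ext y
  rw [mem_cls, dcls, mem_filter]
  refine and_congr_right fun _ => ⟨?_, fun h => ⟨k, hk, hd, h⟩⟩
  rintro ⟨l, hl, hld, hc⟩
  refine (conn A s j).trans ?_ hc
  refine Relation.EqvGen.rel _ _ ⟨hd, hld, k, hk, l, hl, ?_⟩
  group

theorem mem_dcls_iff {A : Finset G} {s : ℕ → G} {j : ℕ} {d : G} (hd : d ∈ Dset A s j) {y : G}
    (hy : y ∈ A) : y ∈ dcls A s j d ↔ dcls A s j d = cls A s j y := by
  obtain ⟨-, k, hk, hkd⟩ := mem_filter.1 hd
  rw [dcls_eq hk hkd, mem_cls]
  constructor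
  · rintro ⟨-, h⟩
    exact cls_eq h
  · intro h
    exact ⟨hy, conn_of_cls_eq hy h⟩

theorem filter_dcls {A : Finset G} {s : ℕ → G} {j : ℕ} {y : G} (hy : y ∈ A) :
    ((Dset A s j).filter fun d => y ∈ dcls A s j d) =
      (Dset A s j).filter fun d => dcls A s j d = cls A s j y :=
  filter_congr fun _ hd => mem_dcls_iff hd hy

end GB

open GB

/-- the elements of `A` in a D-large class -/
noncomputable def bigset (A : Finset G) (s : ℕ → G) (j : ℕ) : Finset G :=
  A.filter fun y => A.card < 4 * ((Dset A s j).filter fun d => y ∈ dcls A s j d).card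

theorem bigset_classes {A : Finset G} {K t : ℕ} (h : Reg A K t) (s : ℕ → G) (j : ℕ) :
    ((bigset A s j).image (cls A s j)).card ≤ 4 * K := by
  set T := (bigset A s j).image (cls A s j) with hT
  have h1 : ∀ c ∈ T, A.card ≤ 4 * ((Dset A s j).filter fun d => dcls A s j d = c).card := by
    intro c hc
    obtain ⟨y, hy, rfl⟩ := mem_image.1 hc
    obtain ⟨hyA, hy⟩ := mem_filter.1 hy
    rw [filter_dcls hyA] at hy
    exact hy.le
  have h2 : ∑ c ∈ T, ((Dset A s j).filter fun d => dcls A s j d = c).card ≤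
      (Dset A s j).card := by
    rw [← card_biUnion]
    · exact card_le_card (biUnion_subset.2 fun c _ => filter_subset _ _)
    · intro c _ c' _ hcc
      refine Finset.disjoint_left.2 ?_
      intro d hd hd'
      exact hcc ((mem_filter.1 hd).2.symm.trans (mem_filter.1 hd').2)
  have h3 : (Dset A s j).card ≤ K * A.card := (card_le_card (filter_subset _ _)).trans h.quo_le
  have h4 : T.card * A.card ≤ 4 * (K * A.card) := by
    calc T.card * A.card = ∑ _c ∈ T, A.card := by rw [sum_const, smul_eq_mul]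
      _ ≤ ∑ c ∈ T, 4 * ((Dset A s j).filter fun d => dcls A s j d = c).card := sum_le_sum h1
      _ = 4 * ∑ c ∈ T, ((Dset A s j).filter fun d => dcls A s j d = c).card := by
        rw [mul_sum]
      _ ≤ 4 * (K * A.card) := Nat.mul_le_mul_left _ (h2.trans h3)
  have h5 : 0 < A.card := card_pos.2 h.ne
  rw [← mul_assoc] at h4
  exact Nat.le_of_mul_le_mul_right h4 h5

theorem bigset_closed (A : Finset G) (s : ℕ → G) (j : ℕ) {y : G} (hy : y ∈ bigset A s j) :
    cls A s j y ⊆ bigset A s j := by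
  intro y' hy'
  obtain ⟨hyA, hy⟩ := mem_filter.1 hy
  obtain ⟨hyA', hc⟩ := mem_cls.1 hy'
  refine mem_filter.2 ⟨hyA', ?_⟩
  rw [filter_dcls hyA', ← cls_eq hc, ← filter_dcls hyA]
  exact hy

namespace GB

/-- the pairs which are not hits, first kind -/
theorem count_right {A : Finset G} {K t : ℕ} (h : Reg A K t) (s : ℕ → G) (j : ℕ) {y : G}
    (hy : y ∈ A) :
    8 * (A.filter fun a => a⁻¹ * y ∉ Dset A s j).card ≤
      8 * (A.filter fun a => (a, y) ∈ Ups A t s j).card + A.card := by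
  have h1 : (A.filter fun a => a⁻¹ * y ∉ Dset A s j) ⊆
      (A.filter fun a => (a, y) ∈ Ups A t s j) ∪ (A.filter fun a => rep A (a⁻¹ * y) < t) := by
    intro a ha
    obtain ⟨haA, ha⟩ := mem_filter.1 ha
    rw [mem_union, mem_filter, mem_filter]
    by_cases hr : rep A (a⁻¹ * y) < t
    · exact Or.inr ⟨haA, hr⟩
    · refine Or.inl ⟨haA, mem_filter.2 ⟨mem_product.2 ⟨haA, hy⟩, not_lt.1 hr, ha⟩⟩
  have h2 := (card_le_card h1).trans (card_union_le _ _)
  have h3 := h.right y hy
  omega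

theorem count_left {A : Finset G} {K t : ℕ} (h : Reg A K t) (s : ℕ → G) (j : ℕ) {a : G}
    (ha : a ∈ A) :
    8 * (A.filter fun y => a⁻¹ * y ∉ Dset A s j).card ≤
      8 * (A.filter fun y => (a, y) ∈ Ups A t s j).card + A.card := by
  have h1 : (A.filter fun y => a⁻¹ * y ∉ Dset A s j) ⊆
      (A.filter fun y => (a, y) ∈ Ups A t s j) ∪ (A.filter fun y => rep A (a⁻¹ * y) < t) := by
    intro y hy
    obtain ⟨hyA, hy⟩ := mem_filter.1 hy
    rw [mem_union, mem_filter, mem_filter]
    by_cases hr : rep A (a⁻¹ * y) < t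
    · exact Or.inr ⟨hyA, hr⟩
    · refine Or.inl ⟨hyA, mem_filter.2 ⟨mem_product.2 ⟨ha, hyA⟩, not_lt.1 hr, hy⟩⟩
  have h2 := (card_le_card h1).trans (card_union_le _ _)
  have h3 := h.left a ha
  omega

/-- the pairs which are not hits, second kind -/
theorem count_inner (A : Finset G) (s : ℕ → G) (j : ℕ) (y : G) :
    (A.filter fun a => a⁻¹ * y ∈ Dset A s j ∧ y ∈ dcls A s j (a⁻¹ * y)).card ≤
      ((Dset A s j).filter fun d => y ∈ dcls A s j d).card := by
  refine card_le_card_of_injOn (fun a => a⁻¹ * y) ?_ ?_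
  · intro a ha
    have ha := mem_filter.1 (mem_coe.1 ha)
    exact mem_coe.2 (mem_filter.2 ⟨ha.2.1, ha.2.2⟩)
  · intro a _ b _ hab
    simpa using hab

omit [Group G] in
theorem sum_card_comm (A : Finset G) (P : G → G → Prop) [∀ a, DecidablePred (P a)]
    [∀ y, DecidablePred fun a => P a y] :
    ∑ a ∈ A, (A.filter fun y => P a y).card = ∑ y ∈ A, (A.filter fun a => P a y).card := by
  simp_rw [card_filter]
  rw [sum_comm]

theorem Ups_card (A : Finset G) (t : ℕ) (s : ℕ → G) (j : ℕ) :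
    ∑ a ∈ A, (A.filter fun y => (a, y) ∈ Ups A t s j).card = (Ups A t s j).card := by
  have : Ups A t s j = (A ×ˢ A).filter fun x => x ∈ Ups A t s j := by
    ext x
    rw [mem_filter]
    exact ⟨fun h => ⟨(mem_filter.1 h).1, h⟩, fun h => h.2⟩
  conv_rhs => rw [this]
  rw [card_filter, sum_product]
  simp_rw [card_filter]

theorem Ups_card' (A : Finset G) (t : ℕ) (s : ℕ → G) (j : ℕ) :
    ∑ y ∈ A, (A.filter fun a => (a, y) ∈ Ups A t s j).card = (Ups A t s j).card := by
  rw [← Ups_card, sum_card_comm A fun a y => (a, y) ∈ Ups A t s j]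

/-- decomposition of `A` according to the behaviour of `a⁻¹ y` (`a` fixed). -/
theorem hits_split (A : Finset G) (s : ℕ → G) (j : ℕ) (a : G) :
    A.card = (hits A s j a).card + (A.filter fun y => a⁻¹ * y ∉ Dset A s j).card +
      (A.filter fun y => a⁻¹ * y ∈ Dset A s j ∧ y ∈ dcls A s j (a⁻¹ * y)).card := by
  rw [hits]
  simp_rw [card_filter]
  rw [card_eq_sum_ones, ← sum_add_distrib, ← sum_add_distrib]
  refine sum_congr rfl fun y _ => ?_
  by_cases h1 : a⁻¹ * y ∈ Dset A s j <;> by_cases h2 : y ∈ dcls A s j (a⁻¹ * y) <;> simp [h1, h2]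

theorem hits_split' (A : Finset G) (s : ℕ → G) (j : ℕ) {y : G} (hy : y ∈ A) :
    A.card = (A.filter fun a => y ∈ hits A s j a).card +
      (A.filter fun a => a⁻¹ * y ∉ Dset A s j).card +
      (A.filter fun a => a⁻¹ * y ∈ Dset A s j ∧ y ∈ dcls A s j (a⁻¹ * y)).card := by
  simp_rw [card_filter]
  rw [card_eq_sum_ones, ← sum_add_distrib, ← sum_add_distrib]
  refine sum_congr rfl fun a _ => ?_
  by_cases h1 : a⁻¹ * y ∈ Dset A s j <;> by_cases h2 : y ∈ dcls A s j (a⁻¹ * y) <;>
    simp [h1, h2, hits, hy]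

end GB

theorem sum_hits {A : Finset G} {K t : ℕ} (h : Reg A K t) (s : ℕ → G) (j : ℕ)
    (hb : 2 * (bigset A s j).card < A.card) :
    (A.card : ℝ) ^ 2 / 4 - (Ups A t s j).card ≤ ∑ a ∈ A, ((hits A s j a).card : ℝ) := by
  have e1 : ∑ a ∈ A, A.card = ∑ a ∈ A, (hits A s j a).card +
      ∑ a ∈ A, (A.filter fun y => a⁻¹ * y ∉ Dset A s j).card +
      ∑ a ∈ A, (A.filter fun y => a⁻¹ * y ∈ Dset A s j ∧ y ∈ dcls A s j (a⁻¹ * y)).card := by
    rw [← sum_add_distrib, ← sum_add_distrib]
    exact sum_congr rfl fun a _ => hits_split A s j a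
  have e2 : 8 * ∑ a ∈ A, (A.filter fun y => a⁻¹ * y ∉ Dset A s j).card ≤
      8 * (Ups A t s j).card + A.card * A.card := by
    calc 8 * ∑ a ∈ A, (A.filter fun y => a⁻¹ * y ∉ Dset A s j).card
        = ∑ a ∈ A, 8 * (A.filter fun y => a⁻¹ * y ∉ Dset A s j).card := by rw [mul_sum]
      _ ≤ ∑ a ∈ A, (8 * (A.filter fun y => (a, y) ∈ Ups A t s j).card + A.card) :=
          sum_le_sum fun a ha => count_left h s j ha
      _ = 8 * (Ups A t s j).card + A.card * A.card := by
          rw [sum_add_distrib, ← mul_sum, Ups_card, sum_const, smul_eq_mul]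
  have e3 : 4 * ∑ a ∈ A,
      (A.filter fun y => a⁻¹ * y ∈ Dset A s j ∧ y ∈ dcls A s j (a⁻¹ * y)).card ≤
      3 * ((bigset A s j).card * A.card) + A.card * A.card := by
    rw [sum_card_comm A fun a y => a⁻¹ * y ∈ Dset A s j ∧ y ∈ dcls A s j (a⁻¹ * y), mul_sum]
    calc ∑ y ∈ A, 4 * (A.filter fun a => a⁻¹ * y ∈ Dset A s j ∧ y ∈ dcls A s j (a⁻¹ * y)).card
        ≤ ∑ y ∈ A, ((if y ∈ bigset A s j then 3 * A.card else 0) + A.card) := by
          refine sum_le_sum fun y hy => ?_
          by_cases hyb : y ∈ bigset A s j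
          · rw [if_pos hyb]
            have := card_le_card (filter_subset
              (fun a => a⁻¹ * y ∈ Dset A s j ∧ y ∈ dcls A s j (a⁻¹ * y)) A)
            omega
          · rw [if_neg hyb]
            have h1 := count_inner A s j y
            have h2 : ¬ (A.card < 4 * ((Dset A s j).filter fun d => y ∈ dcls A s j d).card) :=
              fun hh => hyb (mem_filter.2 ⟨hy, hh⟩)
            omega
      _ = 3 * ((bigset A s j).card * A.card) + A.card * A.card := by
          rw [sum_add_distrib, sum_const, smul_eq_mul, ← sum_filter]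
          have : A.filter (fun y => y ∈ bigset A s j) = bigset A s j := by
            ext y
            rw [mem_filter]
            exact ⟨fun h => h.2, fun h => ⟨(mem_filter.1 h).1, h⟩⟩
          rw [this, sum_const, smul_eq_mul]
          ring
  rw [sum_const, smul_eq_mul] at e1
  have e4 : 2 * ((bigset A s j).card * A.card) ≤ A.card * A.card := by
    rw [← mul_assoc]
    exact Nat.mul_le_mul_right _ hb.le
  have e1' : (A.card : ℝ) * A.card = ∑ a ∈ A, ((hits A s j a).card : ℝ) +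
      ((∑ a ∈ A, (A.filter fun y => a⁻¹ * y ∉ Dset A s j).card : ℕ) : ℝ) +
      ((∑ a ∈ A, (A.filter fun y => a⁻¹ * y ∈ Dset A s j ∧ y ∈ dcls A s j (a⁻¹ * y)).card : ℕ) :
        ℝ) := by
    rw [← Nat.cast_sum]
    exact_mod_cast e1
  have e2' : 8 * ((∑ a ∈ A, (A.filter fun y => a⁻¹ * y ∉ Dset A s j).card : ℕ) : ℝ) ≤
      8 * ((Ups A t s j).card : ℝ) + (A.card : ℝ) * A.card := by exact_mod_cast e2
  have e3' : 4 * ((∑ a ∈ A, (A.filter fun y => a⁻¹ * y ∈ Dset A s j ∧
      y ∈ dcls A s j (a⁻¹ * y)).card : ℕ) : ℝ) ≤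
      3 * (((bigset A s j).card : ℝ) * A.card) + (A.card : ℝ) * A.card := by exact_mod_cast e3
  have e4' : 2 * (((bigset A s j).card : ℝ) * A.card) ≤ (A.card : ℝ) * A.card := by
    exact_mod_cast e4
  nlinarith [e1', e2', e3', e4']

namespace GB

theorem mem_Dset {A : Finset G} {s : ℕ → G} {j : ℕ} {d : G} :
    d ∈ Dset A s j ↔ d ∈ A⁻¹ * A ∧ ∃ k < j, s k * d ∈ A := by
  rw [Dset, mem_filter]

/-- the quotients reached after the seed `a` -/
theorem mem_Dset_update {A : Finset G} {s : ℕ → G} {j : ℕ} {a d : G} :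
    d ∈ Dset A (Function.update s j a) (j + 1) ↔
      d ∈ A⁻¹ * A ∧ ((∃ k < j, s k * d ∈ A) ∨ a * d ∈ A) := by
  rw [mem_Dset]
  refine and_congr_right fun _ => ⟨?_, ?_⟩
  · rintro ⟨k, hk, hd⟩
    rcases Nat.lt_succ_iff_lt_or_eq.1 hk with hk | rfl
    · rw [Function.update_of_ne hk.ne] at hd
      exact Or.inl ⟨k, hk, hd⟩
    · rw [Function.update_self] at hd
      exact Or.inr hd
  · rintro (⟨k, hk, hd⟩ | hd)
    · exact ⟨k, hk.trans (Nat.lt_succ_self j), by rwa [Function.update_of_ne hk.ne]⟩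
    · exact ⟨j, Nat.lt_succ_self j, by rwa [Function.update_self]⟩

theorem Ups_update {A : Finset G} {t : ℕ} {s : ℕ → G} {j : ℕ} {a : G} :
    Ups A t (Function.update s j a) (j + 1) =
      (Ups A t s j).filter fun x => ¬ (a * (x.1⁻¹ * x.2) ∈ A) := by
  ext ⟨b, y⟩
  simp only [Ups, mem_filter, mem_product]
  constructor
  · rintro ⟨⟨hb, hy⟩, hr, hd⟩
    rw [mem_Dset_update] at hd
    have hby : b⁻¹ * y ∈ A⁻¹ * A := mul_mem_mul (inv_mem_inv hb) hy
    refine ⟨⟨⟨hb, hy⟩, hr, ?_⟩, fun h => hd ⟨hby, Or.inr h⟩⟩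
    rw [mem_Dset]
    exact fun h => hd ⟨h.1, Or.inl h.2⟩
  · rintro ⟨⟨⟨hb, hy⟩, hr, hd⟩, hn⟩
    refine ⟨⟨hb, hy⟩, hr, ?_⟩
    rw [mem_Dset_update]
    rintro ⟨h1, h2 | h2⟩
    · exact hd (mem_Dset.2 ⟨h1, h2⟩)
    · exact hn h2

end GB

theorem sum_ups (A : Finset G) (t : ℕ) (s : ℕ → G) (j : ℕ) :
    (t : ℝ) * (Ups A t s j).card ≤
      ∑ a ∈ A, (((Ups A t s j).card : ℝ) - (Ups A t (Function.update s j a) (j + 1)).card) := by
  have h1 : ∀ a ∈ A, (((Ups A t s j).card : ℝ) -
      (Ups A t (Function.update s j a) (j + 1)).card) =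
      (((Ups A t s j).filter fun x => a * (x.1⁻¹ * x.2) ∈ A).card : ℝ) := by
    intro a _
    rw [Ups_update]
    have := card_filter_add_card_filter_not (s := Ups A t s j)
      (fun x => a * (x.1⁻¹ * x.2) ∈ A)
    rw [← this]
    push_cast
    ring
  rw [sum_congr rfl h1]
  have h2 : ∑ a ∈ A, ((Ups A t s j).filter fun x => a * (x.1⁻¹ * x.2) ∈ A).card =
      ∑ x ∈ Ups A t s j, rep A (x.1⁻¹ * x.2) := by
    simp_rw [rep, card_filter]
    rw [sum_comm]
  have h3 : (Ups A t s j).card * t ≤ ∑ x ∈ Ups A t s j, rep A (x.1⁻¹ * x.2) := by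
    rw [← smul_eq_mul, ← sum_const]
    exact sum_le_sum fun x hx => (mem_filter.1 hx).2.1
  rw [← h2] at h3
  have h4 : ((Ups A t s j).card : ℝ) * t ≤
      ∑ a ∈ A, (((Ups A t s j).filter fun x => a * (x.1⁻¹ * x.2) ∈ A).card : ℝ) := by
    exact_mod_cast h3
  rw [mul_comm]
  exact h4

namespace GB

/-- counting lemma: fibres of a map with at least two elements -/
theorem card_image_fibres {α β : Type*} [DecidableEq α] [DecidableEq β] (S R : Finset α)
    (f : α → β) (hR : R ⊆ S) (h : ∀ c ∈ R, ∃ c' ∈ S, c' ≠ c ∧ f c' = f c) :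
    2 * (S.image f).card + R.card ≤ 2 * S.card := by
  have h1 : S.card = ∑ b ∈ S.image f, (S.filter fun a => f a = b).card :=
    card_eq_sum_card_image f S
  have h2 : R.card = ∑ b ∈ S.image f, (R.filter fun a => f a = b).card :=
    card_eq_sum_card_fiberwise fun a ha => mem_coe.2 (mem_image_of_mem f (hR ha))
  have h3 : ∀ b ∈ S.image f, 2 + (R.filter fun a => f a = b).card ≤
      2 * (S.filter fun a => f a = b).card := by
    intro b hb
    have h4 : (R.filter fun a => f a = b).card ≤ (S.filter fun a => f a = b).card :=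
      card_le_card (filter_subset_filter _ hR)
    rcases (R.filter fun a => f a = b).eq_empty_or_nonempty with he | ⟨c, hc⟩
    · rw [he, card_empty]
      obtain ⟨a, ha, rfl⟩ := mem_image.1 hb
      have : 0 < (S.filter fun a' => f a' = f a).card := card_pos.2 ⟨a, mem_filter.2 ⟨ha, rfl⟩⟩
      omega
    · obtain ⟨hcR, hcb⟩ := mem_filter.1 hc
      obtain ⟨c', hc'S, hne, hf⟩ := h c hcR
      have : 1 < (S.filter fun a => f a = b).card := by
        refine one_lt_card.2 ⟨c', mem_filter.2 ⟨hc'S, hf.trans hcb⟩, c,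
          mem_filter.2 ⟨hR hcR, hcb⟩, hne⟩
      omega
  have h5 := sum_le_sum h3
  rw [sum_add_distrib, sum_const, smul_eq_mul, ← mul_sum, ← h1, ← h2] at h5
  omega

/-- the new class as a function of the old class -/
theorem numCls_update (A : Finset G) (s : ℕ → G) (j : ℕ) (a : G) :
    2 * numCls A (Function.update s j a) (j + 1) +
      ((hits A s j a).image (cls A s j)).card ≤ 2 * numCls A s j := by
  set s' := Function.update s j a with hs'
  have hss : ∀ k < j, s k = s' k := fun k hk => by rw [hs', Function.update_of_ne hk.ne]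
  have hmono : ∀ {y y' : G}, conn A s j y y' → conn A s' (j + 1) y y' := fun h =>
    conn_mono (Nat.le_succ j) hss h
  -- a map sending an old class to the new class containing it
  let f : Finset G → Finset G := fun c => if h : c.Nonempty then cls A s' (j + 1) h.choose else ∅
  have hf : ∀ y ∈ A, f (cls A s j y) = cls A s' (j + 1) y := by
    intro y hy
    have hne : (cls A s j y).Nonempty := ⟨y, self_mem_cls hy⟩
    have h1 : f (cls A s j y) = cls A s' (j + 1) hne.choose := dif_pos hne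
    rw [h1]
    exact (cls_eq (hmono (mem_cls.1 hne.choose_spec).2)).symm
  have himg : (A.image (cls A s j)).image f = A.image (cls A s' (j + 1)) := by
    rw [image_image]
    exact image_congr fun y hy => hf y hy
  have key := card_image_fibres (A.image (cls A s j)) ((hits A s j a).image (cls A s j)) f
    (image_subset_image (filter_subset _ _)) ?_
  · rw [himg] at key
    exact key
  · intro c hc
    obtain ⟨y, hy, rfl⟩ := mem_image.1 hc
    obtain ⟨hyA, hyD, hyn⟩ := mem_filter.1 hy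
    obtain ⟨-, k, hk, hkd⟩ := mem_Dset.1 hyD
    refine ⟨cls A s j (s k * (a⁻¹ * y)), mem_image_of_mem _ hkd, ?_, ?_⟩
    · intro he
      apply hyn
      rw [mem_dcls_iff hyD hyA, dcls_eq hk hkd, he]
    · rw [hf _ hkd, hf _ hyA]
      refine cls_eq (Relation.EqvGen.rel _ _ ⟨hkd, hyA, k, hk.trans (Nat.lt_succ_self j), j,
        Nat.lt_succ_self j, ?_⟩)
      rw [← hss k hk, hs', Function.update_self]
      group

end GB

theorem sum_drop {A : Finset G} {K t : ℕ} (h : Reg A K t) (s : ℕ → G) (j : ℕ) :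
    (5 / 16 : ℝ) * A.card * ((numCls A s j : ℝ) - 4 * K) - (Ups A t s j).card / 2 ≤
      ∑ a ∈ A, ((numCls A s j : ℝ) - numCls A (Function.update s j a) (j + 1)) := by
  -- classes which are not D-large
  set T := (A.image (cls A s j)) \ ((bigset A s j).image (cls A s j)) with hT
  have hTcard : (numCls A s j : ℝ) - 4 * K ≤ T.card := by
    have h1 := bigset_classes h s j
    have h2 : numCls A s j ≤ T.card + ((bigset A s j).image (cls A s j)).card := by
      rw [hT]
      have := card_le_card_sdiff_add_card (s := A.image (cls A s j))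
        (t := (bigset A s j).image (cls A s j))
      exact this
    have h3 : numCls A s j ≤ T.card + 4 * K := by omega
    have h4 : (numCls A s j : ℝ) ≤ T.card + 4 * K := by exact_mod_cast h3
    linarith
  -- representatives
  have hrep : ∀ c ∈ T, ∃ y ∈ A, y ∉ bigset A s j ∧ cls A s j y = c := by
    intro c hc
    obtain ⟨h1, h2⟩ := mem_sdiff.1 hc
    obtain ⟨y, hy, rfl⟩ := mem_image.1 h1
    exact ⟨y, hy, fun hb => h2 (mem_image_of_mem _ hb), rfl⟩
  choose! ρ hρA hρb hρc using hrep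
  have hρinj : Set.InjOn ρ T := fun c hc c' hc' he => by
    rw [← hρc c hc, ← hρc c' hc', he]
  -- count for one class
  have hone : ∀ c ∈ T, 5 * A.card ≤ 8 * (A.filter fun a => ρ c ∈ hits A s j a).card +
      8 * (A.filter fun a => (a, ρ c) ∈ Ups A t s j).card := by
    intro c hc
    have h1 := hits_split' A s j (hρA c hc)
    have h2 := count_right h s j (hρA c hc)
    have h3 := count_inner A s j (ρ c)
    have h4 : ¬ (A.card < 4 * ((Dset A s j).filter fun d => ρ c ∈ dcls A s j d).card) :=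
      fun hh => hρb c hc (mem_filter.2 ⟨hρA c hc, hh⟩)
    omega
  have hsum1 : T.card * (5 * A.card) ≤
      8 * ∑ c ∈ T, (A.filter fun a => ρ c ∈ hits A s j a).card +
      8 * ∑ c ∈ T, (A.filter fun a => (a, ρ c) ∈ Ups A t s j).card := by
    rw [mul_sum, mul_sum, ← sum_add_distrib, ← smul_eq_mul, ← sum_const]
    exact sum_le_sum hone
  have hsum2 : ∑ c ∈ T, (A.filter fun a => (a, ρ c) ∈ Ups A t s j).card ≤
      (Ups A t s j).card := by
    rw [← Ups_card' A t s j, ← sum_image (f := fun y => (A.filter fun a => (a, y) ∈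
      Ups A t s j).card) hρinj]
    refine sum_le_sum_of_subset ?_
    intro y hy
    obtain ⟨c, hc, rfl⟩ := mem_image.1 hy
    exact hρA c hc
  have hsum3 : ∑ c ∈ T, (A.filter fun a => ρ c ∈ hits A s j a).card ≤
      ∑ a ∈ A, ((hits A s j a).image (cls A s j)).card := by
    simp_rw [card_filter]
    rw [sum_comm]
    refine sum_le_sum fun a _ => ?_
    rw [← card_filter]
    refine card_le_card ?_
    intro c hc
    obtain ⟨hcT, hc⟩ := mem_filter.1 hc
    rw [← hρc c hcT]
    exact mem_image_of_mem _ hc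
  have hsum4 : ∑ a ∈ A, (2 * numCls A (Function.update s j a) (j + 1) +
      ((hits A s j a).image (cls A s j)).card) ≤ ∑ _a ∈ A, 2 * numCls A s j :=
    sum_le_sum fun a _ => numCls_update A s j a
  rw [sum_add_distrib, ← mul_sum, sum_const, smul_eq_mul] at hsum4
  have r1 : (T.card : ℝ) * (5 * A.card) ≤
      8 * ((∑ c ∈ T, (A.filter fun a => ρ c ∈ hits A s j a).card : ℕ) : ℝ) +
      8 * ((∑ c ∈ T, (A.filter fun a => (a, ρ c) ∈ Ups A t s j).card : ℕ) : ℝ) := by
    exact_mod_cast hsum1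
  have r2 : ((∑ c ∈ T, (A.filter fun a => (a, ρ c) ∈ Ups A t s j).card : ℕ) : ℝ) ≤
      (Ups A t s j).card := by exact_mod_cast hsum2
  have r3 : ((∑ c ∈ T, (A.filter fun a => ρ c ∈ hits A s j a).card : ℕ) : ℝ) ≤
      ((∑ a ∈ A, ((hits A s j a).image (cls A s j)).card : ℕ) : ℝ) := by exact_mod_cast hsum3
  have r4 : 2 * ((∑ a ∈ A, numCls A (Function.update s j a) (j + 1) : ℕ) : ℝ) +
      ((∑ a ∈ A, ((hits A s j a).image (cls A s j)).card : ℕ) : ℝ) ≤
      A.card * (2 * numCls A s j) := by exact_mod_cast hsum4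
  rw [sum_sub_distrib, sum_const, nsmul_eq_mul, ← Nat.cast_sum]
  have r5 : (A.card : ℝ) * ((numCls A s j : ℝ) - 4 * K) ≤ A.card * T.card :=
    mul_le_mul_of_nonneg_left hTcard (Nat.cast_nonneg _)
  nlinarith [r1, r2, r3, r4, r5]

end RC
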