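import Pool.Agent.H27.RC.GrowthA
import Pool.Agent.H27.RC.GrowthB

/-!
# Growth of the classes: one step (module RC-GR1)

Notation `m = |A|`; `q_j = numCls A s j`; `Υ_j = |Ups A t s j|`.

`hits_le_pot` (potential, pointwise then summed). Let `a = s j`. For `y ∈ hits A s j a`, let
`α = |cls A s j y|`, `α' = |dcls A s j (a⁻¹ y)|` (a class of `A` at time `j`, different from the
class of `y`), `u = |cls A s (j+1) y| = |dcls A s (j+1) (a⁻¹ y)|`. The two classes are disjoint and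
both inside the class at time `j + 1`, so `α + α' ≤ u`. If `u/α' ≥ Λ` then
`log (u/α') / log Λ ≥ 1`. Otherwise `α ≤ u - α' < u (1 - 1/Λ)` and
`Λ * log (u/α) ≥ Λ * (- log (1 - 1/Λ)) ≥ 1`. So in all cases
`1 ≤ Λ * (log |cls (j+1) y| - log |cls j y|) + (log |dcls (j+1) d| - log |dcls j d|) / log Λ`,
`d = a⁻¹ y`. Sum over the hits; the map `y ↦ a⁻¹ y` is injective into `A⁻¹ * A`, all the other terms
are nonnegative (`Real.log 0 = 0`, `cls`, `dcls` are monotone in `j`).

`sum_hits`. `∑_{a ∈ A} |hits a| = #{(a, y) ∈ A² | a⁻¹ y ∈ Dset, y ∉ dcls (a⁻¹ y)}`.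
The pairs with `a⁻¹ y ∉ Dset` number at most `Υ + m²/8` (unpopular ones: `Reg.left` for every `a`).
The pairs with `a⁻¹ y ∈ Dset`, `y ∈ dcls (a⁻¹ y)`: for given `y` the map `a ↦ a⁻¹ y` is an
injection into `{d ∈ Dset | y ∈ dcls d}`; this is at most `m/4` if `y ∉ Bset`, and at most `m` if
`y ∈ Bset`; where `Bset` is the set of the `y ∈ A` with `4 * #{d ∈ Dset | y ∈ dcls d} > m`. As
`2 * |Bset| < m`: total `≤ (m/2) m + (m/2) (m/4)` (careful with the exact inequality:
`|Bset| m + (m - |Bset|) m / 4 ≤ m²/2 + m²/8`). So `∑ ≥ m² - Υ - m²/8 - 5 m²/8 = m²/4 - Υ`.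

`sum_ups`. `∑_{a ∈ A} (Υ_j - Υ_{j+1}(a)) = ∑_{(b,y) ∈ Ups} #{a ∈ A | a b⁻¹ y ∈ A} = ∑ rep (b⁻¹ y) ≥
t Υ`, where `Υ_{j+1}(a)` is for the sequence `Function.update s j a`:
`Ups A t (update s j a) (j+1) = Ups A t s j` minus the pairs with `a * (b⁻¹ y) ∈ A`.

`sum_drop`. `drop (a) = q_j - q_{j+1}(a)`. At most `4 K` classes are D-large, i.e.
`4 * #{d ∈ Dset | y ∈ dcls d} > m` for `y` in the class (the sets `{d ∈ Dset | y ∈ dcls d}` of
distinct classes are disjoint subsets of `A⁻¹A`, `|A⁻¹A| ≤ K m`). For a class `c` that is not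
D-large and `y ∈ c`: `#{a ∈ A | y ∈ hits a} ≥ m - m/8 - u_y - m/4`, with
`u_y = #{a ∈ A | (a, y) ∈ Ups}` (`Reg.right`). So the number of pairs `(a, c)` such that the class
`c` is joined to another class by `a` is at least `(5/8) m (q - 4K) - ∑_y u_y = (5/8) m (q - 4K) - Υ`
(take one `y` for each `c`). If `r(a)` classes at time `j` are joined to other classes (i.e. are not
classes at time `j+1`) then `q_{j+1}(a) ≤ q_j - r(a)/2`, as each class at time `j + 1` that contains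
at least two old classes contains them all. So `2 ∑_a drop (a) ≥ (5/8) m (q - 4K) - Υ`.
-/

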