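import Pool.Agent.H27.RC.Growth

/-!
# Growth of the classes: choice of the seeds (module RC-GR2)

Everything here follows from the lemmas of `Growth.lean` by arithmetic. Put `m = |A|`, `L = log m`,
`κ = log K` (`K ≥ 4`, so `κ ≥ 1.38`; `m ≥ K`), `P = 3 K L / κ` (`≥ 3 K`), `Λ = √K ≥ 2`,
`lam = min (1/10) (P/m)`, `lam_j = lam / (K + j)`.
Choose `s` greedily: given `s k`, `k < j`, let `s j ∈ A` maximize
`G_j (a) = |hits a| / m + υ(a) / (t m) + lam_j (drop a + υ a / (2 t))`, where
`υ a = Υ_j - Υ_{j+1}(a)`, `drop a = q_j - q_{j+1}(a)`. (All these only depend on the seeds before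
`j`: `conn_congr`.) As long as `2 |bigset| < m` the average over `A` of `G_j` is at least
`1/4 + (5/16) lam_j (q_j - 4 K)` by `sum_hits, sum_ups, sum_drop`.
Sum over `j < J`, where `2 |bigset| < m` for all `j < J`:
`J/4 + (5/16) ∑ lam_j (q_j - 4K) ≤ pot_J / m + m / t + (lam / K) (m + m² / (2 t))
  ≤ P + 32 K + (lam / K)(m + 16 K m) ≤ P + 32 K + 17 lam m ≤ 18 P + 32 K ≤ 29 P`
using `pot_J ≤ (Λ m + K m / log Λ) L`, `log Λ = κ / 2`, `√K κ ≤ K` so
`Λ + K / log Λ = √K + 2 K / κ ≤ 3 K / κ`; `Υ_0 ≤ m²`, `m ≤ 32 K t`; `q_0 ≤ m`;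
`lam_j ≤ lam / K`. And `(5/16) 4 K ∑ lam_j ≤ (5/4) lam J ≤ J / 8`. So
`J / 8 + (5/16) ∑ lam_j q_j ≤ 29 P`, i.e. `J ≤ 232 P = 696 K L / κ` and
`∑ q_j / (K + j) ≤ (16/5) 29 P / lam ≤ 93 P max (10, m / P) ≤ 930 P + 93 m = 2790 K L/κ + 93 m`.
Since `J` is bounded there is a first `J` with `2 |bigset A s J| ≥ m`.
-/

open Finset
open scoped Pointwise Classical

namespace RC

variable {G : Type*} [Group G]

/-- greedy choice of a sequence -/
theorem exists_greedy {G : Type*} (A : Finset G) (hA : A.Nonempty)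
    (P : ℕ → (ℕ → G) → Prop) (hP : ∀ j s s', (∀ k < j + 1, s k = s' k) → P j s → P j s')
    (h : ∀ j s, (∀ k, s k ∈ A) → ∃ a ∈ A, P j (Function.update s j a)) :
    ∃ s : ℕ → G, (∀ k, s k ∈ A) ∧ ∀ j, P j s := by
  obtain ⟨a0, ha0⟩ := hA
  have h' : ∀ (j : ℕ) (s : ℕ → G), ∃ a ∈ A, (∀ k, s k ∈ A) → P j (Function.update s j a) := by
    intro j s
    by_cases hs : ∀ k, s k ∈ A
    · obtain ⟨a, ha, hp⟩ := h j s hs
      exact ⟨a, ha, fun _ => hp⟩
    · exact ⟨a0, ha0, fun hc => (hs hc).elim⟩
  choose c hcA hcP using h'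
  let T : ℕ → (ℕ → G) := fun j =>
    Nat.rec (fun _ => a0) (fun j s => Function.update s j (c j s)) j
  have hTs : ∀ j, T (j + 1) = Function.update (T j) j (c j (T j)) := fun j => rfl
  have hTA : ∀ j k, T j k ∈ A := by
    intro j
    induction j with
    | zero => exact fun _ => ha0
    | succ j ih =>
      intro k
      rw [hTs]
      by_cases hk : k = j
      · subst hk
        rw [Function.update_self]
        exact hcA _ _
      · rw [Function.update_of_ne hk]
        exact ih k
  have hTst : ∀ k j, k + 1 ≤ j → T j k = T (k + 1) k := by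
    intro k j hj
    induction j, hj using Nat.le_induction with
    | base => rfl
    | succ j hj ih =>
      rw [hTs, Function.update_of_ne (by omega), ih]
  refine ⟨fun k => T (k + 1) k, fun k => hTA (k + 1) k, fun j => ?_⟩
  refine hP j (T (j + 1)) _ (fun k hk => hTst k (j + 1) (by omega)) ?_
  rw [hTs]
  exact hcP j (T j) (hTA j)

section congr

variable (A : Finset G) {s s' : ℕ → G} {j : ℕ}

theorem cls_congr (h : ∀ k < j, s k = s' k) : cls A s j = cls A s' j := by
  funext y
  refine Finset.filter_congr fun z _ => ?_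
  rw [conn_congr A h]

theorem numCls_congr (h : ∀ k < j, s k = s' k) : numCls A s j = numCls A s' j := by
  simp only [numCls, cls_congr A h]

theorem Dset_congr (h : ∀ k < j, s k = s' k) : Dset A s j = Dset A s' j := by
  refine Finset.filter_congr fun d _ => ⟨?_, ?_⟩
  · rintro ⟨k, hk, hd⟩
    exact ⟨k, hk, by rwa [← h k hk]⟩
  · rintro ⟨k, hk, hd⟩
    exact ⟨k, hk, by rwa [h k hk]⟩

theorem dcls_congr (h : ∀ k < j, s k = s' k) : dcls A s j = dcls A s' j := by
  funext d
  refine Finset.filter_congr fun y _ => ⟨?_, ?_⟩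
  · rintro ⟨k, hk, hd, hc⟩
    rw [conn_congr A h, h k hk] at hc
    rw [h k hk] at hd
    exact ⟨k, hk, hd, hc⟩
  · rintro ⟨k, hk, hd, hc⟩
    rw [← conn_congr A h, ← h k hk] at hc
    rw [← h k hk] at hd
    exact ⟨k, hk, hd, hc⟩

theorem hits_congr (h : ∀ k < j, s k = s' k) (a : G) : hits A s j a = hits A s' j a := by
  simp only [hits, Dset_congr A h, dcls_congr A h]

theorem Ups_congr (t : ℕ) (h : ∀ k < j, s k = s' k) : Ups A t s j = Ups A t s' j := by
  simp only [Ups, Dset_congr A h]

theorem bigset_congr (h : ∀ k < j, s k = s' k) : bigset A s j = bigset A s' j := by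
  simp only [bigset, Dset_congr A h, dcls_congr A h]

end congr

/-- Abel summation inequality -/
theorem sum_mul_drop_le (lam f : ℕ → ℝ) (hl : Antitone lam) (hl0 : ∀ j, 0 ≤ lam j)
    (hf : ∀ j, 0 ≤ f j) (J : ℕ) :
    ∑ j ∈ range J, lam j * (f j - f (j + 1)) ≤ lam 0 * f 0 := by
  have key : ∑ j ∈ range J, lam j * (f j - f (j + 1)) ≤ lam 0 * f 0 - lam J * f J := by
    induction J with
    | zero => simp
    | succ J ih =>
      rw [Finset.sum_range_succ]
      have h1 : lam (J + 1) * f (J + 1) ≤ lam J * f (J + 1) :=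
        mul_le_mul_of_nonneg_right (hl (Nat.le_succ J)) (hf _)
      have h2 : lam J * (f J - f (J + 1)) = lam J * f J - lam J * f (J + 1) := by ring
      rw [h2]
      linarith
  have := mul_nonneg (hl0 J) (hf J)
  linarith

theorem log_le_half {y : ℝ} (hy : 0 < y) : Real.log y ≤ y / 2 := by
  have h1 : Real.log (y / 2) ≤ y / 2 - 1 := Real.log_le_sub_one_of_pos (by positivity)
  rw [Real.log_div hy.ne' (by norm_num)] at h1
  have h2 : Real.log 2 ≤ 1 := by
    have := Real.log_two_lt_d9
    linarith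
  linarith

/-- the gain of the step `j` -/
noncomputable def gain (A : Finset G) (t : ℕ) (lam : ℕ → ℝ) (s : ℕ → G) (j : ℕ) : ℝ :=
  ((hits A s j (s j)).card : ℝ) / A.card +
    (((Ups A t s j).card : ℝ) - (Ups A t s (j + 1)).card) / (t * A.card) +
    lam j * (((numCls A s j : ℝ) - numCls A s (j + 1)) +
      (((Ups A t s j).card : ℝ) - (Ups A t s (j + 1)).card) / (2 * t))

theorem gain_congr (A : Finset G) (t : ℕ) (lam : ℕ → ℝ) {s s' : ℕ → G} {j : ℕ}
    (h : ∀ k < j + 1, s k = s' k) : gain A t lam s j = gain A t lam s' j := by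
  have h' : ∀ k < j, s k = s' k := fun k hk => h k (by omega)
  simp only [gain, hits_congr A h', Ups_congr A t h', Ups_congr A t h, numCls_congr A h',
    numCls_congr A h, h j (by omega)]

/-- averaging -/
theorem exists_gain {A : Finset G} {K t : ℕ} (h : Reg A K t) (lam : ℕ → ℝ) (hl : ∀ j, 0 ≤ lam j)
    (j : ℕ) (s : ℕ → G) :
    ∃ a ∈ A, 2 * (bigset A (Function.update s j a) j).card < A.card →
      1 / 4 + 5 / 16 * lam j * ((numCls A (Function.update s j a) j : ℝ) - 4 * K) ≤
        gain A t lam (Function.update s j a) j := by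
  obtain ⟨a0, ha0⟩ := h.ne
  have hu : ∀ a : G, ∀ k < j, Function.update s j a k = s k := fun a k hk =>
    Function.update_of_ne (by omega) _ _
  by_cases hb : 2 * (bigset A s j).card < A.card
  swap
  · exact ⟨a0, ha0, fun hc => (hb (by rwa [bigset_congr A (hu a0)] at hc)).elim⟩
  have hm : (0 : ℝ) < A.card := Nat.cast_pos.2 (Finset.card_pos.2 h.ne)
  have ht : (0 : ℝ) < t := Nat.cast_pos.2 h.tpos
  have h1 := sum_hits h s j hb
  have h2 := sum_ups A t s j
  have h3 := sum_drop h s j
  have hsum : ∑ _a ∈ A, (1 / 4 + 5 / 16 * lam j * ((numCls A s j : ℝ) - 4 * K)) ≤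
      ∑ a ∈ A, gain A t lam (Function.update s j a) j := by
    have he : ∀ a ∈ A, gain A t lam (Function.update s j a) j =
        ((hits A s j a).card : ℝ) / A.card +
        (((Ups A t s j).card : ℝ) - (Ups A t (Function.update s j a) (j + 1)).card) /
          (t * A.card) +
        (lam j * ((numCls A s j : ℝ) - numCls A (Function.update s j a) (j + 1)) +
          lam j * ((((Ups A t s j).card : ℝ) - (Ups A t (Function.update s j a) (j + 1)).card) /
            (2 * t))) := by
      intro a _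
      simp only [gain, hits_congr A (hu a), Ups_congr A t (hu a), numCls_congr A (hu a),
        Function.update_self]
      ring
    rw [Finset.sum_const, nsmul_eq_mul, Finset.sum_congr rfl he, Finset.sum_add_distrib,
      Finset.sum_add_distrib, Finset.sum_add_distrib, ← Finset.sum_div, ← Finset.sum_div,
      ← Finset.mul_sum, ← Finset.mul_sum, ← Finset.sum_div]
    set H := ∑ a ∈ A, ((hits A s j a).card : ℝ) with hH
    set Y := ∑ a ∈ A, (((Ups A t s j).card : ℝ) -
      (Ups A t (Function.update s j a) (j + 1)).card) with hY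
    set D := ∑ a ∈ A, ((numCls A s j : ℝ) - numCls A (Function.update s j a) (j + 1)) with hD
    set U : ℝ := ((Ups A t s j).card : ℝ) with hU
    set m : ℝ := (A.card : ℝ) with hm'
    have e1 : m / 4 - U / m ≤ H / m := by
      have : m / 4 - U / m = (m ^ 2 / 4 - U) / m := by field_simp
      rw [this]
      exact div_le_div_of_nonneg_right h1 hm.le
    have e2 : U / m ≤ Y / (t * m) := by
      have : U / m = t * U / (t * m) := by field_simp
      rw [this]
      exact div_le_div_of_nonneg_right h2 (by positivity)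
    have e3 : U / 2 ≤ Y / (2 * t) := by
      have : U / 2 = t * U / (2 * t) := by field_simp
      rw [this]
      exact div_le_div_of_nonneg_right h2 (by positivity)
    have e4 : lam j * (5 / 16 * m * ((numCls A s j : ℝ) - 4 * K)) ≤
        lam j * D + lam j * (Y / (2 * t)) := by
      rw [← mul_add]
      exact mul_le_mul_of_nonneg_left (by linarith) (hl j)
    have e5 : m * (1 / 4 + 5 / 16 * lam j * ((numCls A s j : ℝ) - 4 * K)) =
        m / 4 + lam j * (5 / 16 * m * ((numCls A s j : ℝ) - 4 * K)) := by ring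
    rw [e5]
    linarith
  obtain ⟨a, ha, hle⟩ := Finset.exists_le_of_sum_le h.ne hsum
  refine ⟨a, ha, fun _ => ?_⟩
  rw [numCls_congr A (hu a)]
  exact hle

theorem growth {A : Finset G} {K t : ℕ} (h : Reg A K t) (hK : 4 ≤ K) (hKm : K ≤ A.card) :
    ∃ (J : ℕ) (s : ℕ → G), (∀ k, s k ∈ A) ∧
      (J : ℝ) ≤ 700 * K * Real.log A.card / Real.log K ∧
      A.card ≤ 2 * (bigset A s J).card ∧
      ∑ j ∈ range J, (numCls A s j : ℝ) / (K + j) ≤
        100 * A.card + 3000 * K * Real.log A.card / Real.log K := by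
  have hm : (0 : ℝ) < A.card := Nat.cast_pos.2 (Finset.card_pos.2 h.ne)
  have ht : (0 : ℝ) < t := Nat.cast_pos.2 h.tpos
  have hK4 : (4 : ℝ) ≤ K := by exact_mod_cast hK
  have hK0 : (0 : ℝ) < K := by linarith
  have hKmr : (K : ℝ) ≤ A.card := by exact_mod_cast hKm
  have hκ : 0 < Real.log K := Real.log_pos (by linarith)
  have hLκ : Real.log K ≤ Real.log A.card := Real.log_le_log hK0 hKmr
  have h5 : ((A⁻¹ * A).card : ℝ) ≤ K * A.card := by exact_mod_cast h.quo_le
  have htau : (A.card : ℝ) ≤ 32 * K * t := by exact_mod_cast h.tau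
  have hQ0 : ∀ s : ℕ → G, (numCls A s 0 : ℝ) ≤ A.card := by
    intro s
    have : numCls A s 0 ≤ A.card := Finset.card_image_le
    exact_mod_cast this
  set m : ℝ := (A.card : ℝ) with hm'
  set L : ℝ := Real.log m with hL
  set κ : ℝ := Real.log K with hκ'
  have hL0 : 0 < L := lt_of_lt_of_le hκ hLκ
  set P : ℝ := 3 * K * L / κ with hP
  have hP3 : 3 * K ≤ P := by
    rw [hP, le_div_iff₀ hκ]
    exact mul_le_mul_of_nonneg_left hLκ (by positivity)
  have hP0 : 0 < P := by linarith
  set lam0 : ℝ := min (1 / 10) (P / m) with hlam0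
  have hlam0p : 0 < lam0 := lt_min (by norm_num) (by positivity)
  have hlam1 : lam0 ≤ 1 / 10 := min_le_left _ _
  have hlam2 : lam0 * m ≤ P := by
    have : lam0 ≤ P / m := min_le_right _ _
    rwa [le_div_iff₀ hm] at this
  set lam : ℕ → ℝ := fun j => lam0 / (K + j) with hlam
  have hKj : ∀ j : ℕ, (0 : ℝ) < K + j := fun j => by positivity
  have hlpos : ∀ j, 0 ≤ lam j := fun j => (div_pos hlam0p (hKj j)).le
  have hanti : Antitone lam := by
    intro i j hij
    refine div_le_div_of_nonneg_left hlam0p.le (hKj i) ?_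
    have : (i : ℝ) ≤ j := by exact_mod_cast hij
    linarith
  have hl0 : lam 0 = lam0 / K := by simp [hlam]
  -- greedy choice
  obtain ⟨s, hsA, hs⟩ := exists_greedy A h.ne
    (fun j s => 2 * (bigset A s j).card < A.card →
      1 / 4 + 5 / 16 * lam j * ((numCls A s j : ℝ) - 4 * K) ≤ gain A t lam s j)
    (by
      intro j s s' hss hp hb
      have hss' : ∀ k < j, s k = s' k := fun k hk => hss k (by omega)
      rw [← bigset_congr A hss'] at hb
      rw [← gain_congr A t lam hss, ← numCls_congr A hss']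
      exact hp hb)
    (fun j s _ => exists_gain h lam hlpos j s)
  -- the potential
  set Λ : ℝ := Real.sqrt K with hΛ
  have hΛ2 : 2 ≤ Λ := by
    rw [hΛ]
    refine Real.le_sqrt_of_sq_le ?_
    linarith
  have hΛsq : Λ * Λ = K := Real.mul_self_sqrt hK0.le
  have hlogΛ : Real.log Λ = κ / 2 := Real.log_sqrt hK0.le
  have hΛκ : Λ * κ ≤ K := by
    have h1 : κ / 2 ≤ Λ / 2 := by
      rw [← hlogΛ]
      exact log_le_half (by linarith)
    have h2 : κ ≤ Λ := by linarith
    calc Λ * κ ≤ Λ * Λ := mul_le_mul_of_nonneg_left h2 (by linarith)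
      _ = K := hΛsq
  have hhits : ∀ J, ∑ j ∈ range J, ((hits A s j (s j)).card : ℝ) ≤ m * P := by
    intro J
    have h1 : ∑ j ∈ range J, ((hits A s j (s j)).card : ℝ) ≤
        ∑ j ∈ range J, (pot A Λ s (j + 1) - pot A Λ s j) :=
      Finset.sum_le_sum fun j _ => hits_le_pot A s j (hsA j) Λ (by linarith)
    rw [Finset.sum_range_sub] at h1
    have h2 := pot_nonneg A s 0 Λ (by linarith)
    have h3 := pot_le A s J Λ (by linarith)
    have h4 : Λ * A.card + ((A⁻¹ * A).card : ℝ) / Real.log Λ ≤ m * (3 * K / κ) := by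
      have h6 : ((A⁻¹ * A).card : ℝ) / Real.log Λ ≤ m * (2 * K / κ) := by
        rw [hlogΛ, div_le_iff₀ (by positivity)]
        have : m * (2 * K / κ) * (κ / 2) = K * m := by field_simp
        rw [this]
        exact h5
      have h7 : Λ ≤ K / κ := by rwa [le_div_iff₀ hκ]
      have h8 : Λ * (A.card : ℝ) ≤ m * (K / κ) := by
        rw [mul_comm]
        exact mul_le_mul_of_nonneg_left h7 hm.le
      have h9 : m * (3 * K / κ) = m * (K / κ) + m * (2 * K / κ) := by ring
      rw [h9]
      exact add_le_add h8 h6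
    have h10 : (Λ * A.card + ((A⁻¹ * A).card : ℝ) / Real.log Λ) * Real.log A.card ≤ m * P := by
      calc _ ≤ m * (3 * K / κ) * L := mul_le_mul_of_nonneg_right h4 hL0.le
        _ = m * P := by rw [hP]; ring
    linarith
  have hU0 : ((Ups A t s 0).card : ℝ) ≤ m ^ 2 := by
    have : (Ups A t s 0).card ≤ A.card * A.card := by
      refine (Finset.card_filter_le _ _).trans ?_
      rw [Finset.card_product]
    have h' : ((Ups A t s 0).card : ℝ) ≤ A.card * A.card := by exact_mod_cast this
    rw [pow_two]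
    exact h'
  have hq0 : (numCls A s 0 : ℝ) ≤ m := hQ0 s
  -- main inequality
  have hmain : ∀ J : ℕ, (∀ j < J, 2 * (bigset A s j).card < A.card) →
      (J : ℝ) / 8 + 5 / 16 * ∑ j ∈ range J, lam j * (numCls A s j : ℝ) ≤ 29 * P := by
    intro J hJ
    have hlow : ∑ j ∈ range J, (1 / 4 + 5 / 16 * lam j * ((numCls A s j : ℝ) - 4 * K)) ≤
        ∑ j ∈ range J, gain A t lam s j :=
      Finset.sum_le_sum fun j hj => hs j (hJ j (Finset.mem_range.1 hj))
    have hlow2 : (J : ℝ) / 8 + 5 / 16 * ∑ j ∈ range J, lam j * (numCls A s j : ℝ) ≤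
        ∑ j ∈ range J, (1 / 4 + 5 / 16 * lam j * ((numCls A s j : ℝ) - 4 * K)) := by
      have hc : (J : ℝ) / 8 = ∑ _j ∈ range J, (1 / 8 : ℝ) := by
        rw [Finset.sum_const, Finset.card_range, nsmul_eq_mul]
        ring
      rw [hc, Finset.mul_sum, ← Finset.sum_add_distrib]
      refine Finset.sum_le_sum fun j _ => ?_
      have hb : lam j * K ≤ 1 / 10 := by
        have : lam j * K ≤ lam0 := by
          rw [hlam]
          simp only
          rw [div_mul_eq_mul_div, div_le_iff₀ (hKj j)]
          have : (0 : ℝ) ≤ j := Nat.cast_nonneg j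
          exact mul_le_mul_of_nonneg_left (by linarith) hlam0p.le
        linarith
      have he : 1 / 4 + 5 / 16 * lam j * ((numCls A s j : ℝ) - 4 * K) =
          1 / 4 + 5 / 16 * (lam j * (numCls A s j : ℝ)) - 5 / 4 * (lam j * K) := by ring
      rw [he]
      linarith
    have hup : ∑ j ∈ range J, gain A t lam s j ≤ 29 * P := by
      have he : ∑ j ∈ range J, gain A t lam s j =
          (∑ j ∈ range J, ((hits A s j (s j)).card : ℝ)) / m +
          (∑ j ∈ range J, 1 * (((Ups A t s j).card : ℝ) - (Ups A t s (j + 1)).card)) / (t * m) +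
          (∑ j ∈ range J, lam j * ((numCls A s j : ℝ) - numCls A s (j + 1)) +
          (∑ j ∈ range J, lam j * (((Ups A t s j).card : ℝ) - (Ups A t s (j + 1)).card)) /
            (2 * t)) := by
        rw [Finset.sum_div, Finset.sum_div, Finset.sum_div, ← Finset.sum_add_distrib,
          ← Finset.sum_add_distrib, ← Finset.sum_add_distrib]
        refine Finset.sum_congr rfl fun j _ => ?_
        simp only [gain]
        ring
      rw [he]
      have g1 : (∑ j ∈ range J, ((hits A s j (s j)).card : ℝ)) / m ≤ P := by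
        rw [div_le_iff₀ hm, mul_comm]
        exact hhits J
      have g2 := sum_mul_drop_le (fun _ => 1) (fun j => ((Ups A t s j).card : ℝ))
        antitone_const (fun _ => zero_le_one) (fun j => Nat.cast_nonneg _) J
      have g3 := sum_mul_drop_le lam (fun j => (numCls A s j : ℝ))
        hanti hlpos (fun j => Nat.cast_nonneg _) J
      have g4 := sum_mul_drop_le lam (fun j => ((Ups A t s j).card : ℝ))
        hanti hlpos (fun j => Nat.cast_nonneg _) J
      have f2 : (∑ j ∈ range J, 1 * (((Ups A t s j).card : ℝ) -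
          (Ups A t s (j + 1)).card)) / (t * m) ≤ 32 * K := by
        rw [div_le_iff₀ (by positivity)]
        calc _ ≤ 1 * ((Ups A t s 0).card : ℝ) := g2
          _ ≤ m ^ 2 := by rw [one_mul]; exact hU0
          _ = m * m := pow_two m
          _ ≤ (32 * K * t) * m := mul_le_mul_of_nonneg_right htau hm.le
          _ = 32 * K * (t * m) := by ring
      have f3 : ∑ j ∈ range J, lam j * ((numCls A s j : ℝ) - numCls A s (j + 1)) ≤ lam0 * m := by
        refine g3.trans ?_
        rw [hl0]
        have : lam0 / K ≤ lam0 := div_le_self hlam0p.le (by linarith)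
        exact mul_le_mul this hq0 (Nat.cast_nonneg _) hlam0p.le
      have f4 : (∑ j ∈ range J, lam j * (((Ups A t s j).card : ℝ) -
          (Ups A t s (j + 1)).card)) / (2 * t) ≤ 16 * (lam0 * m) := by
        rw [div_le_iff₀ (by positivity)]
        calc _ ≤ lam 0 * ((Ups A t s 0).card : ℝ) := g4
          _ ≤ lam0 / K * m ^ 2 := by
            rw [hl0]
            exact mul_le_mul_of_nonneg_left hU0 (by positivity)
          _ = lam0 / K * m * m := by ring
          _ ≤ lam0 / K * m * (32 * K * t) := mul_le_mul_of_nonneg_left htau (by positivity)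
          _ = 16 * (lam0 * m) * (2 * t) := by field_simp; ring
      linarith
    linarith
  -- existence of J
  have hex : ∃ j, A.card ≤ 2 * (bigset A s j).card := by
    by_contra hcon
    push Not at hcon
    obtain ⟨J, hJ⟩ := exists_nat_gt (8 * (29 * P))
    have h1 := hmain J fun j _ => hcon j
    have h2 : 0 ≤ ∑ j ∈ range J, lam j * (numCls A s j : ℝ) :=
      Finset.sum_nonneg fun j _ => mul_nonneg (hlpos j) (Nat.cast_nonneg _)
    linarith
  have hJm := hmain (Nat.find hex) fun j hj => not_le.1 (Nat.find_min hex hj)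
  have hS0 : 0 ≤ ∑ j ∈ range (Nat.find hex), lam j * (numCls A s j : ℝ) :=
    Finset.sum_nonneg fun j _ => mul_nonneg (hlpos j) (Nat.cast_nonneg _)
  refine ⟨Nat.find hex, s, hsA, ?_, Nat.find_spec hex, ?_⟩
  · have e1 : 700 * K * L / κ = 700 / 3 * P := by rw [hP]; ring
    rw [e1]
    linarith
  · have e1 : 3000 * K * L / κ = 1000 * P := by rw [hP]; ring
    rw [e1]
    have e2 : ∑ j ∈ range (Nat.find hex), lam j * (numCls A s j : ℝ) =
        lam0 * ∑ j ∈ range (Nat.find hex), (numCls A s j : ℝ) / (K + j) := by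
      rw [Finset.mul_sum]
      refine Finset.sum_congr rfl fun j _ => ?_
      rw [hlam]
      simp only
      ring
    rw [e2] at hJm hS0
    set S := ∑ j ∈ range (Nat.find hex), (numCls A s j : ℝ) / (K + j) with hS
    have hSnn : 0 ≤ S := Finset.sum_nonneg fun j _ => div_nonneg (Nat.cast_nonneg _) (hKj j).le
    have hJ0 : (0 : ℝ) ≤ (Nat.find hex : ℕ) := Nat.cast_nonneg _
    have e3 : lam0 * S ≤ 93 * P := by linarith
    rcases min_choice (1 / 10 : ℝ) (P / m) with hc | hc
    · rw [hlam0, hc] at e3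
      linarith
    · rw [hlam0, hc, div_mul_eq_mul_div, div_le_iff₀ hm] at e3
      have e4 : P * S ≤ P * (93 * m) := by linarith
      have e5 := le_of_mul_le_mul_left e4 hP0
      linarith

end RC
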