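import Pool.Agent.H27.RC.Defs

/-!
# Growth of the classes: monotonicity and the potential (module RC-GR1a)
-/

open Finset
open scoped Pointwise Classical

namespace RC

variable {G : Type*} [Group G]

theorem adj_mono (A : Finset G) (s : ℕ → G) {j j' : ℕ} (h : j ≤ j') (y y' : G)
    (hy : adj A s j y y') : adj A s j' y y' := by
  obtain ⟨h1, h2, k, hk, l, hl, he⟩ := hy
  exact ⟨h1, h2, k, hk.trans_le h, l, hl.trans_le h, he⟩

theorem conn_mono (A : Finset G) (s : ℕ → G) {j j' : ℕ} (h : j ≤ j') {y y' : G}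
    (hy : conn A s j y y') : conn A s j' y y' :=
  Relation.EqvGen.mono (fun a b hab => adj_mono A s h a b hab) _ _ hy

theorem conn_of_adj (A : Finset G) (s : ℕ → G) {j : ℕ} {y y' : G}
    (hy : adj A s j y y') : conn A s j y y' :=
  Relation.EqvGen.rel _ _ hy

theorem cls_subset_succ (A : Finset G) (s : ℕ → G) {j j' : ℕ} (h : j ≤ j') (y : G) :
    cls A s j y ⊆ cls A s j' y := by
  intro z hz
  rw [cls, mem_filter] at hz ⊢
  exact ⟨hz.1, conn_mono A s h hz.2⟩

theorem dcls_subset_succ (A : Finset G) (s : ℕ → G) {j j' : ℕ} (h : j ≤ j') (d : G) :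
    dcls A s j d ⊆ dcls A s j' d := by
  intro z hz
  rw [dcls, mem_filter] at hz ⊢
  obtain ⟨h1, k, hk, h2, h3⟩ := hz
  exact ⟨h1, k, hk.trans_le h, h2, conn_mono A s h h3⟩

/-- everything at time `j` only depends on the seeds before `j`. -/
theorem conn_congr (A : Finset G) {s s' : ℕ → G} {j : ℕ} (h : ∀ k < j, s k = s' k) :
    conn A s j = conn A s' j := by
  have hadj : adj A s j = adj A s' j := by
    funext y y'
    apply propext
    constructor
    · rintro ⟨h1, h2, k, hk, l, hl, he⟩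
      exact ⟨h1, h2, k, hk, l, hl, by rw [← h k hk, ← h l hl]; exact he⟩
    · rintro ⟨h1, h2, k, hk, l, hl, he⟩
      exact ⟨h1, h2, k, hk, l, hl, by rw [h k hk, h l hl]; exact he⟩
  unfold conn
  rw [hadj]

/-- the potential -/
noncomputable def pot (A : Finset G) (Λ : ℝ) (s : ℕ → G) (j : ℕ) : ℝ :=
  Λ * ∑ y ∈ A, Real.log ((cls A s j y).card : ℝ) +
    (∑ d ∈ A⁻¹ * A, Real.log ((dcls A s j d).card : ℝ)) / Real.log Λ

theorem log_nat_mono {a b : ℕ} (h : a ≤ b) : Real.log (a : ℝ) ≤ Real.log (b : ℝ) := by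
  rcases Nat.eq_zero_or_pos a with ha | ha
  · rw [ha, Nat.cast_zero, Real.log_zero]
    exact Real.log_natCast_nonneg b
  · exact Real.log_le_log (by exact_mod_cast ha) (by exact_mod_cast h)

theorem hit_one (A : Finset G) (s : ℕ → G) (j : ℕ) (Λ : ℝ) (hΛ : 1 < Λ) (y : G)
    (hy : y ∈ hits A s j (s j)) :
    1 ≤ Λ * (Real.log ((cls A s (j + 1) y).card : ℝ) - Real.log ((cls A s j y).card : ℝ)) +
      (Real.log ((dcls A s (j + 1) ((s j)⁻¹ * y)).card : ℝ) -
        Real.log ((dcls A s j ((s j)⁻¹ * y)).card : ℝ)) / Real.log Λ := by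
  rw [hits, mem_filter, Dset, mem_filter] at hy
  obtain ⟨hyA, ⟨hd, k, hk, hkA⟩, hyd⟩ := hy
  have hlogΛ : 0 < Real.log Λ := Real.log_pos hΛ
  have hΛ0 : 0 < Λ := by linarith
  -- connection of the two classes at time j + 1
  have hconn : conn A s (j + 1) y (s k * ((s j)⁻¹ * y)) := by
    apply conn_of_adj
    refine ⟨hyA, hkA, j, Nat.lt_succ_self j, k, by omega, ?_⟩
    group
  -- sizes
  have hα : 0 < (cls A s j y).card := by
    apply card_pos.2
    exact ⟨y, by rw [cls, mem_filter]; exact ⟨hyA, (conn A s j).refl y⟩⟩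
  have hα' : 0 < (dcls A s j ((s j)⁻¹ * y)).card := by
    apply card_pos.2
    refine ⟨s k * ((s j)⁻¹ * y), ?_⟩
    rw [dcls, mem_filter]
    exact ⟨hkA, k, hk, hkA, (conn A s j).refl _⟩
  have hsum : (cls A s j y).card + (dcls A s j ((s j)⁻¹ * y)).card ≤
      (cls A s (j + 1) y).card := by
    rw [← card_union_of_disjoint]
    · apply card_le_card
      apply union_subset (cls_subset_succ A s (Nat.le_succ j) y)
      intro z hz
      rw [dcls, mem_filter] at hz
      obtain ⟨hzA, k', hk', hk'A, hz'⟩ := hz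
      rw [cls, mem_filter]
      refine ⟨hzA, ?_⟩
      have h1 : conn A s (j + 1) y (s k' * ((s j)⁻¹ * y)) := by
        apply conn_of_adj
        refine ⟨hyA, hk'A, j, Nat.lt_succ_self j, k', by omega, ?_⟩
        group
      exact (conn A s (j + 1)).trans h1 (conn_mono A s (Nat.le_succ j) hz')
    · rw [disjoint_left]
      intro z hz hz'
      rw [cls, mem_filter] at hz
      rw [dcls, mem_filter] at hz'
      obtain ⟨-, k', hk', hk'A, hz''⟩ := hz'
      apply hyd
      rw [dcls, mem_filter]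
      exact ⟨hyA, k', hk', hk'A, (conn A s j).trans hz'' ((conn A s j).symm hz.2)⟩
  have hsub : (cls A s (j + 1) y).card ≤ (dcls A s (j + 1) ((s j)⁻¹ * y)).card := by
    apply card_le_card
    intro z hz
    rw [cls, mem_filter] at hz
    rw [dcls, mem_filter]
    have h1 : s j * ((s j)⁻¹ * y) = y := by group
    refine ⟨hz.1, j, Nat.lt_succ_self j, ?_, ?_⟩
    · rw [h1]; exact hyA
    · rw [h1]; exact hz.2
  set α : ℝ := ((cls A s j y).card : ℝ) with hαdef
  set α' : ℝ := ((dcls A s j ((s j)⁻¹ * y)).card : ℝ) with hα'def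
  set u : ℝ := ((cls A s (j + 1) y).card : ℝ) with hudef
  have hαpos : 0 < α := by rw [hαdef]; exact_mod_cast hα
  have hα'pos : 0 < α' := by rw [hα'def]; exact_mod_cast hα'
  have hsum' : α + α' ≤ u := by rw [hαdef, hα'def, hudef]; exact_mod_cast hsum
  have hupos : 0 < u := by linarith
  have hlogD : Real.log u ≤ Real.log ((dcls A s (j + 1) ((s j)⁻¹ * y)).card : ℝ) :=
    log_nat_mono hsub
  have hlog1 : Real.log α ≤ Real.log u := Real.log_le_log hαpos (by linarith)
  have hlog2 : Real.log α' ≤ Real.log u := Real.log_le_log hα'pos (by linarith)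
  have hB : (Real.log u - Real.log α') / Real.log Λ ≤
      (Real.log ((dcls A s (j + 1) ((s j)⁻¹ * y)).card : ℝ) - Real.log α') / Real.log Λ := by
    apply div_le_div_of_nonneg_right _ hlogΛ.le
    linarith
  by_cases hcase : Λ * α' ≤ u
  · have h1 : Real.log (Λ * α') ≤ Real.log u := Real.log_le_log (by positivity) hcase
    rw [Real.log_mul hΛ0.ne' hα'pos.ne'] at h1
    have h2 : 1 ≤ (Real.log u - Real.log α') / Real.log Λ := by
      rw [le_div_iff₀ hlogΛ]
      linarith
    have h3 : 0 ≤ Λ * (Real.log u - Real.log α) := mul_nonneg hΛ0.le (by linarith)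
    linarith
  · have hcase' : u < Λ * α' := not_le.1 hcase
    have h1 : Real.log (α / u) ≤ α / u - 1 := Real.log_le_sub_one_of_pos (by positivity)
    rw [Real.log_div hαpos.ne' hupos.ne'] at h1
    have h2 : α / u - 1 ≤ - (α' / u) := by
      rw [← sub_nonneg]
      have : -(α' / u) - (α / u - 1) = (u - (α + α')) / u := by
        field_simp
        ring
      rw [this]
      exact div_nonneg (by linarith) hupos.le
    have h3 : 1 ≤ Λ * (α' / u) := by
      rw [← mul_div_assoc, le_div_iff₀ hupos]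
      linarith
    have h4 : Λ * (α' / u) ≤ Λ * (Real.log u - Real.log α) :=
      mul_le_mul_of_nonneg_left (by linarith) hΛ0.le
    have h5 : 0 ≤ (Real.log u - Real.log α') / Real.log Λ :=
      div_nonneg (by linarith) hlogΛ.le
    linarith

theorem hits_le_pot (A : Finset G) (s : ℕ → G) (j : ℕ) (hs : s j ∈ A) (Λ : ℝ) (hΛ : 1 < Λ) :
    ((hits A s j (s j)).card : ℝ) ≤ pot A Λ s (j + 1) - pot A Λ s j := by
  have hlogΛ : 0 < Real.log Λ := Real.log_pos hΛ
  have hΛ0 : 0 < Λ := by linarith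
  have hdiff : pot A Λ s (j + 1) - pot A Λ s j =
      Λ * ∑ y ∈ A, (Real.log ((cls A s (j + 1) y).card : ℝ) -
        Real.log ((cls A s j y).card : ℝ)) +
      (∑ d ∈ A⁻¹ * A, (Real.log ((dcls A s (j + 1) d).card : ℝ) -
        Real.log ((dcls A s j d).card : ℝ))) / Real.log Λ := by
    unfold pot
    rw [sum_sub_distrib, sum_sub_distrib]
    ring
  have hH : hits A s j (s j) ⊆ A := filter_subset _ _
  have h1 : ∑ y ∈ hits A s j (s j), (Real.log ((cls A s (j + 1) y).card : ℝ) -
        Real.log ((cls A s j y).card : ℝ)) ≤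
      ∑ y ∈ A, (Real.log ((cls A s (j + 1) y).card : ℝ) -
        Real.log ((cls A s j y).card : ℝ)) := by
    apply sum_le_sum_of_subset_of_nonneg hH
    intro y _ _
    have := log_nat_mono (card_le_card (cls_subset_succ A s (Nat.le_succ j) y))
    linarith
  have h2 : ∑ y ∈ hits A s j (s j), (Real.log ((dcls A s (j + 1) ((s j)⁻¹ * y)).card : ℝ) -
        Real.log ((dcls A s j ((s j)⁻¹ * y)).card : ℝ)) ≤
      ∑ d ∈ A⁻¹ * A, (Real.log ((dcls A s (j + 1) d).card : ℝ) -
        Real.log ((dcls A s j d).card : ℝ)) := by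
    have hinj : Set.InjOn (fun y : G => (s j)⁻¹ * y) (hits A s j (s j) : Set G) :=
      fun a _ b _ hab => mul_left_cancel hab
    rw [← sum_image (f := fun d => Real.log ((dcls A s (j + 1) d).card : ℝ) -
        Real.log ((dcls A s j d).card : ℝ)) hinj]
    apply sum_le_sum_of_subset_of_nonneg
    · intro d hd
      obtain ⟨y, hy, rfl⟩ := mem_image.1 hd
      exact mul_mem_mul (inv_mem_inv hs) (hH hy)
    · intro d _ _
      have := log_nat_mono (card_le_card (dcls_subset_succ A s (Nat.le_succ j) d))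
      linarith
  have h3 : ((hits A s j (s j)).card : ℝ) ≤
      ∑ y ∈ hits A s j (s j), (Λ * (Real.log ((cls A s (j + 1) y).card : ℝ) -
        Real.log ((cls A s j y).card : ℝ)) +
      (Real.log ((dcls A s (j + 1) ((s j)⁻¹ * y)).card : ℝ) -
        Real.log ((dcls A s j ((s j)⁻¹ * y)).card : ℝ)) / Real.log Λ) := by
    have := card_nsmul_le_sum (hits A s j (s j)) (fun y => Λ *
      (Real.log ((cls A s (j + 1) y).card : ℝ) -
        Real.log ((cls A s j y).card : ℝ)) +
      (Real.log ((dcls A s (j + 1) ((s j)⁻¹ * y)).card : ℝ) -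
        Real.log ((dcls A s j ((s j)⁻¹ * y)).card : ℝ)) / Real.log Λ) 1
        (fun y hy => hit_one A s j Λ hΛ y hy)
    simpa using this
  rw [hdiff]
  refine h3.trans ?_
  rw [sum_add_distrib, ← mul_sum, ← sum_div]
  exact add_le_add (mul_le_mul_of_nonneg_left h1 hΛ0.le)
    (div_le_div_of_nonneg_right h2 hlogΛ.le)

theorem pot_nonneg (A : Finset G) (s : ℕ → G) (j : ℕ) (Λ : ℝ) (hΛ : 1 < Λ) : 0 ≤ pot A Λ s j := by
  have hlogΛ : 0 < Real.log Λ := Real.log_pos hΛ
  unfold pot
  refine add_nonneg (mul_nonneg (by linarith) (sum_nonneg fun y _ => Real.log_natCast_nonneg _)) ?_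
  exact div_nonneg (sum_nonneg fun y _ => Real.log_natCast_nonneg _) hlogΛ.le

theorem pot_le (A : Finset G) (s : ℕ → G) (j : ℕ) (Λ : ℝ) (hΛ : 1 < Λ) :
    pot A Λ s j ≤ (Λ * A.card + ((A⁻¹ * A).card : ℝ) / Real.log Λ) * Real.log A.card := by
  have hlogΛ : 0 < Real.log Λ := Real.log_pos hΛ
  have hΛ0 : 0 < Λ := by linarith
  have h1 : ∑ y ∈ A, Real.log ((cls A s j y).card : ℝ) ≤ A.card * Real.log A.card := by
    rw [← nsmul_eq_mul]
    exact sum_le_card_nsmul _ _ _ fun y _ => log_nat_mono (card_le_card (filter_subset _ _))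
  have h2 : ∑ d ∈ A⁻¹ * A, Real.log ((dcls A s j d).card : ℝ) ≤
      (A⁻¹ * A).card * Real.log A.card := by
    rw [← nsmul_eq_mul]
    exact sum_le_card_nsmul _ _ _ fun y _ => log_nat_mono (card_le_card (filter_subset _ _))
  unfold pot
  have h3 : (Λ * A.card + ((A⁻¹ * A).card : ℝ) / Real.log Λ) * Real.log A.card =
      Λ * (A.card * Real.log A.card) + ((A⁻¹ * A).card * Real.log A.card) / Real.log Λ := by
    ring
  rw [h3]
  exact add_le_add (mul_le_mul_of_nonneg_left h1 hΛ0.le)
    (div_le_div_of_nonneg_right h2 hlogΛ.le)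

end RC
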