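import Pool.Agent.H27.RC.Defs

/-!
# The entropy inequality (module RC-JENSEN)

`Q y = Ap.filter (fun i => r i y ∧ r (τ i) (τ y))`. With `U(y)` the `r`-class of `y`, `V(y)` the
`r`-class of `τ y`, `W(y)` the `r'`-class of `y` (which is also that of `τ y`), Jensen (concavity of
`log`) gives
`∑_{y ∈ Ap} log (|U||V| / (|Q||W|)) ≤ |Ap| * log ((1/|Ap|) * ∑_{y ∈ Ap} |U||V| / (|Q||W|))`
and `∑_{y ∈ Ap} |U||V| / (|Q||W|) ≤ |V|` (total): the sets `Q y` partition `Ap`, one for each pair
(class of `y`, class of `τ y`), and the sum over `Q y` of the constant term is `|U||V|/|W|`; summing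
over all pairs of `r`-classes inside a given `r'`-class `W` gives at most `|W|^2/|W| = |W|`.
Then `log (|W|/|Q|) = log (|U||V|/(|Q||W|)) + log (|W|/|U|) + log (|W|/|V|)`, and
`∑_{y ∈ Ap} log (|W(y)|/|U(y)|) ≤ ∑_i log (csz r' i / csz r i)`,
`∑_{y ∈ Ap} log (|W(τ y)|/|V(y)|) ≤ ∑_i log (csz r' i / csz r i)` (`τ` injective on `Ap`, all terms
are nonnegative as `r ≤ r'`).
-/

open Finset
open scoped Classical

namespace RC

namespace JensenAux

variable {V : Type*} [Fintype V]

theorem csz_pos (r : Setoid V) (i : V) : 0 < csz r i := by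
  unfold csz
  exact Finset.card_pos.mpr ⟨i, by simp⟩

theorem csz_congr (r : Setoid V) {i j : V} (h : r i j) : csz r i = csz r j := by
  unfold csz
  congr 1
  ext k
  simp only [mem_filter, mem_univ, true_and]
  exact ⟨fun hk => r.trans (r.symm h) hk, fun hk => r.trans h hk⟩

theorem csz_mono {r r' : Setoid V} (hle : r ≤ r') (i : V) : csz r i ≤ csz r' i := by
  unfold csz
  apply Finset.card_le_card
  intro k
  simp only [mem_filter, mem_univ, true_and]
  exact fun hk => hle hk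

theorem inner_le {r r' : Setoid V} (hle : r ≤ r') (Ap : Finset V) (τ : V → V)
    (hτ : ∀ y ∈ Ap, r' y (τ y)) (a b : V) :
    ∑ y ∈ Ap.filter (fun y => r y a ∧ r (τ y) b),
      (1 : ℝ) / (((Ap.filter fun i => r i y ∧ r (τ i) (τ y)).card : ℝ) * (csz r' y : ℝ)) ≤
      if r' a b then 1 / (csz r' a : ℝ) else 0 := by
  set S := Ap.filter (fun y => r y a ∧ r (τ y) b) with hS
  rcases S.eq_empty_or_nonempty with he | hne
  · rw [he, Finset.sum_empty]
    split_ifs <;> positivity
  obtain ⟨y0, hy0⟩ := hne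
  have hy0' := (Finset.mem_filter.mp hy0)
  have hab : r' a b :=
    r'.trans (r'.symm (hle hy0'.2.1)) (r'.trans (hτ y0 hy0'.1) (hle hy0'.2.2))
  rw [if_pos hab]
  have hterm : ∀ y ∈ S,
      (1 : ℝ) / (((Ap.filter fun i => r i y ∧ r (τ i) (τ y)).card : ℝ) * (csz r' y : ℝ)) =
      1 / ((S.card : ℝ) * (csz r' a : ℝ)) := by
    intro y hy
    have hy' := Finset.mem_filter.mp hy
    have h1 : (Ap.filter fun i => r i y ∧ r (τ i) (τ y)) = S := by
      rw [hS]
      apply Finset.filter_congr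
      intro i _
      constructor
      · rintro ⟨h1, h2⟩
        exact ⟨r.trans h1 hy'.2.1, r.trans h2 hy'.2.2⟩
      · rintro ⟨h1, h2⟩
        exact ⟨r.trans h1 (r.symm hy'.2.1), r.trans h2 (r.symm hy'.2.2)⟩
    rw [h1, csz_congr r' (hle hy'.2.1)]
  rw [Finset.sum_congr rfl hterm, Finset.sum_const, nsmul_eq_mul]
  have hSpos : (0 : ℝ) < S.card := by
    exact_mod_cast Finset.card_pos.mpr ⟨y0, hy0⟩
  have hapos : (0 : ℝ) < csz r' a := by exact_mod_cast csz_pos r' a
  apply le_of_eq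
  field_simp

theorem sum_ratio_le {r r' : Setoid V} (hle : r ≤ r') (Ap : Finset V) (τ : V → V)
    (hτ : ∀ y ∈ Ap, r' y (τ y)) :
    ∑ y ∈ Ap, ((csz r y : ℝ) * (csz r (τ y) : ℝ)) /
      (((Ap.filter fun i => r i y ∧ r (τ i) (τ y)).card : ℝ) * (csz r' y : ℝ)) ≤
      (Fintype.card V : ℝ) := by
  have h1 : ∀ y ∈ Ap, ((csz r y : ℝ) * (csz r (τ y) : ℝ)) /
      (((Ap.filter fun i => r i y ∧ r (τ i) (τ y)).card : ℝ) * (csz r' y : ℝ)) =
      ∑ a : V, ∑ b : V, if (r y a ∧ r (τ y) b) then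
        (1 : ℝ) / (((Ap.filter fun i => r i y ∧ r (τ i) (τ y)).card : ℝ) * (csz r' y : ℝ))
        else 0 := by
    intro y _
    set c : ℝ := (1 : ℝ) /
      (((Ap.filter fun i => r i y ∧ r (τ i) (τ y)).card : ℝ) * (csz r' y : ℝ)) with hc
    have h2 : ∀ a b : V, (if (r y a ∧ r (τ y) b) then c else 0) =
        (if r y a then (1 : ℝ) else 0) * ((if r (τ y) b then (1 : ℝ) else 0) * c) := by
      intro a b
      by_cases ha : r y a <;> by_cases hb : r (τ y) b <;> simp [ha, hb]
    simp_rw [h2, ← Finset.mul_sum, ← Finset.sum_mul]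
    have h3 : ∀ i : V, (∑ a : V, if r i a then (1 : ℝ) else 0) = (csz r i : ℝ) := by
      intro i
      rw [Finset.sum_boole]
      rfl
    rw [h3, h3, hc]
    ring
  rw [Finset.sum_congr rfl h1, Finset.sum_comm]
  have h4 : ∀ a : V, ∑ y ∈ Ap, ∑ b : V, (if (r y a ∧ r (τ y) b) then
        (1 : ℝ) / (((Ap.filter fun i => r i y ∧ r (τ i) (τ y)).card : ℝ) * (csz r' y : ℝ))
        else 0) ≤ 1 := by
    intro a
    rw [Finset.sum_comm]
    have h5 : ∀ b ∈ (Finset.univ : Finset V), ∑ y ∈ Ap, (if (r y a ∧ r (τ y) b) then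
        (1 : ℝ) / (((Ap.filter fun i => r i y ∧ r (τ i) (τ y)).card : ℝ) * (csz r' y : ℝ))
        else 0) ≤ if r' a b then 1 / (csz r' a : ℝ) else 0 := by
      intro b _
      rw [← Finset.sum_filter]
      exact inner_le hle Ap τ hτ a b
    refine (Finset.sum_le_sum h5).trans ?_
    rw [← Finset.sum_filter, Finset.sum_const, nsmul_eq_mul]
    have hapos : (0 : ℝ) < csz r' a := by exact_mod_cast csz_pos r' a
    have h6 : ((Finset.univ.filter fun b => r' a b).card : ℝ) = (csz r' a : ℝ) := rfl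
    rw [h6]
    apply le_of_eq
    field_simp
  calc ∑ a : V, ∑ y ∈ Ap, ∑ b : V, _ ≤ ∑ _a : V, (1 : ℝ) := Finset.sum_le_sum fun a _ => h4 a
    _ = (Fintype.card V : ℝ) := by simp

end JensenAux

open JensenAux

theorem jensen {V : Type*} [Fintype V] {r r' : Setoid V} (hle : r ≤ r') (Ap : Finset V)
    (hne : Ap.Nonempty) (τ : V → V) (hinj : Set.InjOn τ Ap) (hτ : ∀ y ∈ Ap, r' y (τ y)) :
    ∑ y ∈ Ap, Real.log ((csz r' y : ℝ) / ((Ap.filter fun i => r i y ∧ r (τ i) (τ y)).card : ℝ)) ≤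
      Ap.card * Real.log ((Fintype.card V : ℝ) / Ap.card) +
        2 * ∑ i, Real.log ((csz r' i : ℝ) / csz r i) := by
  have hcard : (0 : ℝ) < Ap.card := by exact_mod_cast Finset.card_pos.mpr hne
  have hV : (0 : ℝ) < Fintype.card V := by
    obtain ⟨y, _⟩ := hne
    exact_mod_cast Fintype.card_pos_iff.mpr ⟨y⟩
  set c : ℝ := (Fintype.card V : ℝ) / Ap.card with hc
  have hcpos : 0 < c := by positivity
  set X : V → ℝ := fun y => ((csz r y : ℝ) * (csz r (τ y) : ℝ)) /
      (((Ap.filter fun i => r i y ∧ r (τ i) (τ y)).card : ℝ) * (csz r' y : ℝ)) with hX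
  have hQpos : ∀ y ∈ Ap, (0 : ℝ) < ((Ap.filter fun i => r i y ∧ r (τ i) (τ y)).card : ℝ) := by
    intro y hy
    have h : 0 < (Ap.filter fun i => r i y ∧ r (τ i) (τ y)).card :=
      Finset.card_pos.mpr ⟨y, Finset.mem_filter.mpr ⟨hy, r.refl _, r.refl _⟩⟩
    exact_mod_cast h
  have hsz : ∀ (q : Setoid V) (i : V), (0 : ℝ) < (csz q i : ℝ) := fun q i => by
    exact_mod_cast csz_pos q i
  have hXpos : ∀ y ∈ Ap, 0 < X y := by
    intro y hy
    have := hQpos y hy
    have h1 := hsz r y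
    have h2 := hsz r (τ y)
    have h3 := hsz r' y
    simp only [hX]
    positivity
  -- tangent line
  have htan : ∀ y ∈ Ap, Real.log (X y) ≤ X y / c - 1 + Real.log c := by
    intro y hy
    have h1 := Real.log_le_sub_one_of_pos (div_pos (hXpos y hy) hcpos)
    rw [Real.log_div (hXpos y hy).ne' hcpos.ne'] at h1
    linarith
  have hsum1 : ∑ y ∈ Ap, Real.log (X y) ≤ Ap.card * Real.log c := by
    calc ∑ y ∈ Ap, Real.log (X y) ≤ ∑ y ∈ Ap, (X y / c - 1 + Real.log c) :=
          Finset.sum_le_sum htan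
      _ = (∑ y ∈ Ap, X y) / c - Ap.card + Ap.card * Real.log c := by
          rw [Finset.sum_add_distrib, Finset.sum_sub_distrib, ← Finset.sum_div]
          simp
      _ ≤ (Fintype.card V : ℝ) / c - Ap.card + Ap.card * Real.log c := by
          have := sum_ratio_le hle Ap τ hτ
          gcongr
      _ = Ap.card * Real.log c := by
          rw [hc]
          field_simp
          ring
  -- nonnegative terms
  have hnn : ∀ i : V, 0 ≤ Real.log ((csz r' i : ℝ) / csz r i) := by
    intro i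
    apply Real.log_nonneg
    rw [le_div_iff₀ (hsz r i), one_mul]
    exact_mod_cast csz_mono hle i
  have hB : ∑ y ∈ Ap, Real.log ((csz r' y : ℝ) / csz r y) ≤
      ∑ i, Real.log ((csz r' i : ℝ) / csz r i) :=
    Finset.sum_le_sum_of_subset_of_nonneg (Finset.subset_univ _) fun i _ _ => hnn i
  have hC : ∑ y ∈ Ap, Real.log ((csz r' (τ y) : ℝ) / csz r (τ y)) ≤
      ∑ i, Real.log ((csz r' i : ℝ) / csz r i) := by
    rw [← Finset.sum_image (g := τ) (f := fun i => Real.log ((csz r' i : ℝ) / csz r i)) hinj]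
    exact Finset.sum_le_sum_of_subset_of_nonneg (Finset.subset_univ _) fun i _ _ => hnn i
  have hsplit : ∀ y ∈ Ap,
      Real.log ((csz r' y : ℝ) / ((Ap.filter fun i => r i y ∧ r (τ i) (τ y)).card : ℝ)) =
      Real.log (X y) + Real.log ((csz r' y : ℝ) / csz r y) +
        Real.log ((csz r' (τ y) : ℝ) / csz r (τ y)) := by
    intro y hy
    have h0 := hQpos y hy
    have h1 := hsz r y
    have h2 := hsz r (τ y)
    have h3 := hsz r' y
    have h4 : csz r' (τ y) = csz r' y := (csz_congr r' (hτ y hy)).symm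
    rw [h4]
    simp only [hX]
    rw [← Real.log_mul (by positivity) (by positivity), ← Real.log_mul (by positivity)
      (by positivity)]
    congr 1
    field_simp
  rw [Finset.sum_congr rfl hsplit, Finset.sum_add_distrib, Finset.sum_add_distrib]
  linarith

end RC
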