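import Mathlib

/-!
# Few sets of small doubling contain a given large set (module RC-LF)

For `g : G` let `rep' g = #{b' ∈ B | g * b' ∈ B}`; `∑_g rep' g = |B|²`.
Let `A₀` be as in the statement. Choose greedily `T ⊆ A₀`: a maximal (by cardinality) list
`t₁, …, t_k ∈ A₀` such that `|B⁻¹ t_i \ ⋃_{j<i} B⁻¹ t_j| ≥ |B| / 2`. All these sets are in
`A₀⁻¹ A₀` so `k |B| / 2 ≤ K₀ m₀ ≤ 4 K₀ |B|`, i.e. `k ≤ 8 K₀`. By maximality each `a ∈ A₀` satisfies
`|B⁻¹ a ∩ ⋃ B⁻¹ t_j| ≥ |B| / 2`, so some `j` has `|B⁻¹ a ∩ B⁻¹ t_j| ≥ |B| / (2 k) ≥ |B|/(16 K₀)`,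
and `b⁻¹ a = b'⁻¹ t_j` gives `a t_j⁻¹ = b b'⁻¹`; so `rep' (a t_j⁻¹) * 16 K₀ ≥ |B|`. Hence
`A₀ ⊆ P * T` with `P = {g | |B| ≤ 16 K₀ rep' g}`, `|P| ≤ 16 K₀ |B| ≤ 16 K₀ m₀`,
`|P * T| ≤ 128 K₀² m₀`. So `A₀` is determined by `T` (a set of at most `8 K₀` elements of `G`; at
most `(|G| + 1) ^ (8 K₀)` of them, being images of functions `Fin (8 K₀) → Option G`) and a subset
of size `m₀` of `P * T`: at most `choose (128 K₀² m₀) m₀ ≤ (128 K₀² m₀) ^ m₀ / m₀! ≤
(128 * e * K₀²) ^ m₀ ≤ (350 K₀²) ^ m₀` as `m₀! ≥ (m₀ / e) ^ m₀`.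
-/

open Finset
open scoped Pointwise Classical

namespace RC

variable {G : Type*} [Group G] [Fintype G]

/-- representations of `g` as a quotient `b * b'⁻¹` -/
noncomputable def lfRep (B : Finset G) (g : G) : ℕ := (B.filter fun b' => g * b' ∈ B).card

/-- popular quotients -/
noncomputable def lfPop (B : Finset G) (K₀ : ℕ) : Finset G :=
  univ.filter fun g => B.card ≤ 16 * K₀ * lfRep B g

lemma lf_sum_rep (B : Finset G) : ∑ g : G, lfRep B g = B.card * B.card := by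
  unfold lfRep
  have h : ∀ g : G, (B.filter fun b' => g * b' ∈ B).card = ∑ b' ∈ B, if g * b' ∈ B then 1 else 0 := by
    intro g
    rw [Finset.card_filter]
  simp_rw [h]
  rw [Finset.sum_comm]
  have h2 : ∀ b' ∈ B, (∑ g : G, if g * b' ∈ B then 1 else 0) = B.card := by
    intro b' _
    rw [← Finset.card_filter]
    apply Finset.card_bij (fun g _ => g * b')
    · intro g hg
      simpa using hg
    · intro g _ g' _ h
      exact mul_right_cancel h
    · intro c hc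
      exact ⟨c * b'⁻¹, by simpa using hc, by simp⟩
  rw [Finset.sum_congr rfl h2]
  simp

lemma lf_pop_card (B : Finset G) (hB : 0 < B.card) (K₀ : ℕ) :
    (lfPop B K₀).card ≤ 16 * K₀ * B.card := by
  have h1 : (lfPop B K₀).card * B.card ≤ ∑ g ∈ lfPop B K₀, 16 * K₀ * lfRep B g := by
    rw [← smul_eq_mul]
    apply Finset.card_nsmul_le_sum
    intro g hg
    unfold lfPop at hg
    simpa using hg
  have h2 : ∑ g ∈ lfPop B K₀, 16 * K₀ * lfRep B g ≤ ∑ g : G, 16 * K₀ * lfRep B g :=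
    Finset.sum_le_sum_of_subset (Finset.subset_univ _)
  have h4 := h1.trans h2
  rw [← Finset.mul_sum, lf_sum_rep] at h4
  have h3 : (lfPop B K₀).card * B.card ≤ 16 * K₀ * B.card * B.card := by
    calc _ ≤ _ := h4
      _ = _ := by ring
  exact Nat.le_of_mul_le_mul_right h3 hB

omit [Fintype G] in
lemma lf_inter_le (B : Finset G) (a t : G) :
    ((B⁻¹ * {a}) ∩ (B⁻¹ * {t})).card ≤ lfRep B (a * t⁻¹) := by
  unfold lfRep
  apply Finset.card_le_card_of_injOn (fun x => t * x⁻¹)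
  · intro x hx
    simp only [Finset.coe_inter, Set.mem_inter_iff, Finset.mem_coe, Finset.mem_mul,
      Finset.mem_singleton, Finset.mem_inv] at hx
    obtain ⟨⟨y, ⟨b, hb, rfl⟩, z, rfl, rfl⟩, ⟨y', ⟨b', hb', rfl⟩, z', rfl, h⟩⟩ := hx
    simp only [Finset.coe_filter, Set.mem_ofPred_eq]
    constructor
    · rw [← h]; simpa using hb'
    · simpa using hb
  · intro x _ y _ h
    simpa using h

lemma lf_exists_T (B : Finset G) (K₀ m₀ : ℕ) (hB0 : 0 < B.card) (hB : m₀ ≤ 4 * B.card)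
    (A₀ : Finset G) (hBA : B ⊆ A₀) (hA : (A₀⁻¹ * A₀).card ≤ K₀ * m₀) :
    ∃ T : Finset G, T.card ≤ 8 * K₀ ∧ A₀ ⊆ lfPop B K₀ * T := by
  obtain ⟨T, hT, hmax⟩ := Finset.exists_max_image
    (A₀.powerset.filter fun T => T.card * B.card ≤ 2 * (B⁻¹ * T).card) Finset.card
    ⟨∅, by simp⟩
  simp only [Finset.mem_filter, Finset.mem_powerset] at hT hmax
  obtain ⟨hTA, hTc⟩ := hT
  have hTcard : T.card ≤ 8 * K₀ := by
    have h1 : (B⁻¹ * T).card ≤ (A₀⁻¹ * A₀).card := by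
      apply Finset.card_le_card
      exact Finset.mul_subset_mul (Finset.inv_subset_inv hBA) hTA
    have h2 : T.card * B.card ≤ (8 * K₀) * B.card := by
      calc T.card * B.card ≤ 2 * (B⁻¹ * T).card := hTc
        _ ≤ 2 * (K₀ * m₀) := by omega
        _ ≤ 2 * (K₀ * (4 * B.card)) := by gcongr
        _ = _ := by ring
    exact Nat.le_of_mul_le_mul_right h2 hB0
  refine ⟨T, hTcard, ?_⟩
  intro a ha
  have hin : B.card ≤ 2 * ((B⁻¹ * {a}) ∩ (B⁻¹ * T)).card := by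
    have hcard : (B⁻¹ * {a}).card = B.card := by
      rw [Finset.mul_singleton, Finset.card_smul_finset, Finset.card_inv]
    by_cases haT : a ∈ T
    · have h1 : B⁻¹ * {a} ⊆ B⁻¹ * T := Finset.mul_subset_mul_left (by simpa using haT)
      rw [Finset.inter_eq_left.2 h1, hcard]
      omega
    · by_contra hcon
      push Not at hcon
      have h1 : B⁻¹ * insert a T = (B⁻¹ * {a}) ∪ (B⁻¹ * T) := by
        rw [Finset.insert_eq, Finset.mul_union]
      have h2 : ((B⁻¹ * {a}) ∪ (B⁻¹ * T)).card + ((B⁻¹ * {a}) ∩ (B⁻¹ * T)).card =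
          (B⁻¹ * {a}).card + (B⁻¹ * T).card := Finset.card_union_add_card_inter _ _
      have h3 : (insert a T).card = T.card + 1 := Finset.card_insert_of_notMem haT
      have h4 := hmax (insert a T) ⟨Finset.insert_subset ha hTA, by
        rw [h3, h1]
        rw [hcard] at h2
        have : (T.card + 1) * B.card = T.card * B.card + B.card := by ring
        omega⟩
      omega
  have hsum : ((B⁻¹ * {a}) ∩ (B⁻¹ * T)).card ≤ ∑ t ∈ T, ((B⁻¹ * {a}) ∩ (B⁻¹ * {t})).card := by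
    have h1 : (B⁻¹ * {a}) ∩ (B⁻¹ * T) ⊆ T.biUnion fun t => (B⁻¹ * {a}) ∩ (B⁻¹ * {t}) := by
      intro x hx
      rw [Finset.mem_inter] at hx
      obtain ⟨hx1, hx2⟩ := hx
      rw [Finset.mem_mul] at hx2
      obtain ⟨y, hy, t, ht, rfl⟩ := hx2
      rw [Finset.mem_biUnion]
      exact ⟨t, ht, Finset.mem_inter.2 ⟨hx1, Finset.mul_mem_mul hy (by simp)⟩⟩
    exact (Finset.card_le_card h1).trans Finset.card_biUnion_le
  have hex : ∃ t ∈ T, B.card ≤ 16 * K₀ * ((B⁻¹ * {a}) ∩ (B⁻¹ * {t})).card := by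
    by_contra hcon
    push Not at hcon
    have hTne : T.Nonempty := by
      rw [Finset.nonempty_iff_ne_empty]
      rintro rfl
      simp at hin
      rw [hin] at hB0
      simp at hB0
    have h1 : ∑ t ∈ T, 16 * K₀ * ((B⁻¹ * {a}) ∩ (B⁻¹ * {t})).card < ∑ t ∈ T, B.card :=
      Finset.sum_lt_sum_of_nonempty hTne hcon
    rw [← Finset.mul_sum, Finset.sum_const, smul_eq_mul] at h1
    have h2 : T.card * B.card ≤ 8 * K₀ * B.card := Nat.mul_le_mul_right _ hTcard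
    have h3 : 8 * K₀ * B.card ≤ 8 * K₀ * (2 * ∑ t ∈ T, ((B⁻¹ * {a}) ∩ (B⁻¹ * {t})).card) := by
      apply Nat.mul_le_mul_left
      omega
    have h4 : 8 * K₀ * (2 * ∑ t ∈ T, ((B⁻¹ * {a}) ∩ (B⁻¹ * {t})).card) =
      16 * K₀ * ∑ t ∈ T, ((B⁻¹ * {a}) ∩ (B⁻¹ * {t})).card := by ring
    omega
  obtain ⟨t, ht, hle⟩ := hex
  rw [Finset.mem_mul]
  refine ⟨a * t⁻¹, ?_, t, ht, by simp⟩
  unfold lfPop
  simp only [Finset.mem_filter, Finset.mem_univ, true_and]
  exact hle.trans (Nat.mul_le_mul_left _ (lf_inter_le B a t))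

lemma lf_choose (K₀ m₀ N : ℕ) (hN : N ≤ 128 * K₀ ^ 2 * m₀) :
    N.choose m₀ ≤ (350 * K₀ ^ 2) ^ m₀ := by
  have h1 : ((N.choose m₀ : ℕ) : ℝ) ≤ (350 * (K₀ : ℝ) ^ 2) ^ m₀ := by
    have h2 : ((N.choose m₀ : ℕ) : ℝ) ≤ (N : ℝ) ^ m₀ / (m₀.factorial : ℝ) :=
      Nat.choose_le_pow_div m₀ N
    have h3 : (N : ℝ) ^ m₀ ≤ (128 * (K₀ : ℝ) ^ 2 * m₀) ^ m₀ := by
      apply pow_le_pow_left₀ (by positivity)
      exact_mod_cast hN
    have h4 : ((m₀ : ℝ)) ^ m₀ / (m₀.factorial : ℝ) ≤ Real.exp m₀ :=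
      Real.pow_div_factorial_le_exp _ (by positivity) _
    have h5 : Real.exp (m₀ : ℝ) = (Real.exp 1) ^ m₀ := by
      rw [← Real.exp_nat_mul]; simp
    have h6 : Real.exp 1 ≤ 2.7182818286 := Real.exp_one_lt_d9.le
    calc ((N.choose m₀ : ℕ) : ℝ) ≤ (N : ℝ) ^ m₀ / (m₀.factorial : ℝ) := h2
      _ ≤ (128 * (K₀ : ℝ) ^ 2 * m₀) ^ m₀ / (m₀.factorial : ℝ) := by gcongr
      _ = (128 * (K₀ : ℝ) ^ 2) ^ m₀ * ((m₀ : ℝ) ^ m₀ / (m₀.factorial : ℝ)) := by
        rw [mul_pow]; ring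
      _ ≤ (128 * (K₀ : ℝ) ^ 2) ^ m₀ * (Real.exp 1) ^ m₀ := by
        rw [← h5]; gcongr
      _ = (128 * (K₀ : ℝ) ^ 2 * Real.exp 1) ^ m₀ := by rw [mul_pow _ (Real.exp 1)]
      _ ≤ (350 * (K₀ : ℝ) ^ 2) ^ m₀ := by
        apply pow_le_pow_left₀ (by positivity)
        nlinarith [sq_nonneg (K₀ : ℝ)]
  exact_mod_cast h1

theorem lemmaF (B : Finset G) (K₀ m₀ : ℕ) (hK : 1 ≤ K₀) (hm : 0 < m₀) (hB : m₀ ≤ 4 * B.card) :
    ((univ : Finset (Finset G)).filter fun A₀ => A₀.card = m₀ ∧ B ⊆ A₀ ∧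
      (A₀⁻¹ * A₀).card ≤ K₀ * m₀).card ≤ (Fintype.card G + 1) ^ (8 * K₀) * (350 * K₀ ^ 2) ^ m₀ := by
  have hB0 : 0 < B.card := by omega
  by_cases hBm : m₀ < B.card
  · have : ((univ : Finset (Finset G)).filter fun A₀ => A₀.card = m₀ ∧ B ⊆ A₀ ∧
      (A₀⁻¹ * A₀).card ≤ K₀ * m₀) = ∅ := by
      rw [Finset.filter_eq_empty_iff]
      rintro A - ⟨h1, h2, -⟩
      have := Finset.card_le_card h2
      omega
    rw [this]
    simp
  push Not at hBm
  set F : (Fin (8 * K₀) → Option G) → Finset G := fun f => univ.filter fun g => ∃ i, f i = some g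
    with hF
  have hFcard : ∀ f, (F f).card ≤ 8 * K₀ := by
    intro f
    have h1 : ((F f).image some) ⊆ (univ : Finset (Fin (8 * K₀))).image f := by
      intro x hx
      simp only [hF, Finset.mem_image, Finset.mem_filter, Finset.mem_univ, true_and] at hx ⊢
      obtain ⟨g, ⟨i, hi⟩, rfl⟩ := hx
      exact ⟨i, hi⟩
    have h2 := Finset.card_le_card h1
    rw [Finset.card_image_of_injective _ (Option.some_injective G)] at h2
    exact h2.trans (Finset.card_image_le.trans (by simp))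
  have hsurj : ∀ T : Finset G, T.card ≤ 8 * K₀ → ∃ f, F f = T := by
    intro T hT
    obtain ⟨e⟩ : Nonempty (T ↪ Fin (8 * K₀)) := by
      apply Function.Embedding.nonempty_of_card_le
      simpa using hT
    refine ⟨fun i => if h : ∃ t : T, e t = i then some (h.choose : G) else none, ?_⟩
    ext g
    simp only [hF, Finset.mem_filter, Finset.mem_univ, true_and]
    constructor
    · rintro ⟨i, hi⟩
      split_ifs at hi with h
      · simp only [Option.some.injEq] at hi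
        rw [← hi]
        exact h.choose.2
    · intro hg
      refine ⟨e ⟨g, hg⟩, ?_⟩
      have h : ∃ t : T, e t = e ⟨g, hg⟩ := ⟨_, rfl⟩
      rw [dif_pos h]
      have := e.injective h.choose_spec
      rw [this]
  have hsub : ((univ : Finset (Finset G)).filter fun A₀ => A₀.card = m₀ ∧ B ⊆ A₀ ∧
      (A₀⁻¹ * A₀).card ≤ K₀ * m₀) ⊆
      (univ : Finset (Fin (8 * K₀) → Option G)).biUnion fun f =>
        Finset.powersetCard m₀ (lfPop B K₀ * F f) := by
    intro A₀ hA₀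
    simp only [Finset.mem_filter, Finset.mem_univ, true_and] at hA₀
    obtain ⟨h1, h2, h3⟩ := hA₀
    obtain ⟨T, hT1, hT2⟩ := lf_exists_T B K₀ m₀ hB0 hB A₀ h2 h3
    obtain ⟨f, rfl⟩ := hsurj T hT1
    simp only [Finset.mem_biUnion, Finset.mem_univ, true_and, Finset.mem_powersetCard]
    exact ⟨f, hT2, h1⟩
  calc _ ≤ _ := Finset.card_le_card hsub
    _ ≤ ∑ f : Fin (8 * K₀) → Option G, (Finset.powersetCard m₀ (lfPop B K₀ * F f)).card :=
      Finset.card_biUnion_le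
    _ ≤ ∑ f : Fin (8 * K₀) → Option G, (350 * K₀ ^ 2) ^ m₀ := by
      apply Finset.sum_le_sum
      intro f _
      rw [Finset.card_powersetCard]
      apply lf_choose
      calc (lfPop B K₀ * F f).card ≤ (lfPop B K₀).card * (F f).card := Finset.card_mul_le
        _ ≤ (16 * K₀ * B.card) * (8 * K₀) := Nat.mul_le_mul (lf_pop_card B hB0 K₀) (hFcard f)
        _ ≤ (16 * K₀ * m₀) * (8 * K₀) := by gcongr
        _ = _ := by ring
    _ = _ := by
      rw [Finset.sum_const, Finset.card_univ, smul_eq_mul]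
      simp [Fintype.card_option]

end RC
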