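import Mathlib

/-!
# The random Cayley graph (module RC-PROB)

Let `hT` give `C ≥ 1` (enlarge) and `n0`. All logs natural, `N = n!`.

Spreading lemma: if `X ⊆ G` is finite, `b ≤ |X|`, then there is `B ⊆ X` with `|B| = b` and
`|B⁻¹B| ≥ min (|X|/2) (b (b-1)/4)`: add elements one by one; if `|B| = k` and `|B⁻¹B| ≤ |X|/2`, then
`∑_{x ∈ X} |B⁻¹x ∩ B⁻¹B| ≤ |B| |B⁻¹B| ≤ k |X| / 2`, so some `x ∈ X` has
`|B⁻¹x \ B⁻¹B| ≥ k / 2` (if `k ≥ 1` this `x` is not in `B`; add it). Once `|B⁻¹B| > |X|/2` add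
arbitrary elements.

Fix `K₁` (a natural number, depending only on `C`) with `C log (K+1) ≤ K / 20` for all `K ≥ K₁`,
`K₁ ≥ 2`; `L₁ = 4 K₁`. Take `m = ⌈C₁ n log n⌉` with `C₁ = 40 C` (so that
`C (K+1) n log n ≤ 2 C K n log n ≤ K m / 20`) and `M = L₁ m`. For `n` large (in terms of `C`),
`m ^ 4 ≤ n ^ 5`, `m (m-1)/4 ≥ M/2`. If `X` is a clique (or independent) of size `≥ M` in `Cay(G, S)`,
take a subset of size `M` and then `B ⊆ X`, `|B| = m`, `|B⁻¹B| ≥ M/2 = 2 K₁ m ≥ K₁ m`; `B` is also a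
clique (independent).

Random `S`: choose a representative map `rep : G → G` with `rep g ∈ {g, g⁻¹}`,
`rep g⁻¹ = rep g`, and for `f : G → Bool` let `S_f = {g | f (rep g) = true}`, symmetric. For a fixed `B`,
`B` is a clique of `Cay(G, S_f)` iff `f = true` on `R = rep (B⁻¹B \ {1})`,
`|R| ≥ (|B⁻¹B| - 1)/2`, so the number of such `f` is `2 ^ (|G| - |R|)`; the same for independent
sets. So the proportion of `f` for which there is such a `B` is at most
`2 ∑_{K ≥ K₁} #{B | |B| = m, K m ≤ |B⁻¹B| < (K+1) m} 2 ^ (-(K m - 1)/2)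
 ≤ 2 ∑_{K ≥ K₁} exp (C ((K+1) n log n + m log (K+1)) - (log 2 / 2) (K m - 1))
 ≤ 4 ∑_{K ≥ 1} exp (- K m (0.34 - 0.05 - 0.05)) < 1`.
Hence for `n ≥ n1` there is `S` with all cliques and independent sets smaller than
`M ≤ C' n log n ≤ C'' log₂ (n!)`. For `n < n1` take `S = ∅`: sizes are at most `n1!`, and
`log₂ (n!) ≥ 1`.
-/

open Finset
open scoped Pointwise Classical

namespace RC

/-- spreading lemma -/
lemma pr_spread {G : Type*} [Group G] [DecidableEq G] (X : Finset G) (b : ℕ) (hb : b ≤ X.card) :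
    ∃ B ⊆ X, B.card = b ∧ (X.card ≤ 2 * (B⁻¹ * B).card ∨ b * (b - 1) ≤ 4 * (B⁻¹ * B).card) := by
  induction b with
  | zero => exact ⟨∅, by simp, by simp, Or.inr (by simp)⟩
  | succ b ih =>
    obtain ⟨B, hBX, hBc, hB⟩ := ih (by omega)
    have hmono : ∀ x, (B⁻¹ * B).card ≤ ((insert x B)⁻¹ * (insert x B)).card := fun x =>
      Finset.card_le_card (Finset.mul_subset_mul
        (Finset.inv_subset_inv (Finset.subset_insert x B)) (Finset.subset_insert x B))
    have hX : X.Nonempty := by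
      rw [← Finset.card_pos]; omega
    by_cases hc : X.card ≤ 2 * (B⁻¹ * B).card
    · obtain ⟨x, hx, hxB⟩ : ∃ x ∈ X, x ∉ B := by
        by_contra hcon
        push Not at hcon
        have : X.card ≤ B.card := Finset.card_le_card hcon
        omega
      refine ⟨insert x B, Finset.insert_subset hx hBX, ?_, Or.inl ?_⟩
      · rw [Finset.card_insert_of_notMem hxB, hBc]
      · have := hmono x
        omega
    · have hB' : b * (b - 1) ≤ 4 * (B⁻¹ * B).card := by
        rcases hB with h | h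
        · exact absurd h hc
        · exact h
      push Not at hc
      have hsing : ∀ x : G, (B⁻¹ * {x}).card = b := by
        intro x
        rw [Finset.mul_singleton, Finset.card_smul_finset, Finset.card_inv, hBc]
      have hsum : ∑ x ∈ X, ((B⁻¹ * {x}) ∩ (B⁻¹ * B)).card ≤ b * (B⁻¹ * B).card := by
        have h1 : ∀ x ∈ X, ((B⁻¹ * {x}) ∩ (B⁻¹ * B)).card ≤
            ∑ c ∈ B, if c⁻¹ * x ∈ B⁻¹ * B then 1 else 0 := by
          intro x _
          rw [← Finset.card_filter]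
          apply Finset.card_le_card_of_surjOn (fun c => c⁻¹ * x)
          intro y hy
          simp only [Finset.coe_inter, Set.mem_inter_iff, Finset.mem_coe] at hy
          obtain ⟨hy1, hy2⟩ := hy
          rw [Finset.mem_mul] at hy1
          obtain ⟨c, hc, z, hz, rfl⟩ := hy1
          rw [Finset.mem_singleton] at hz
          subst hz
          rw [Finset.mem_inv'] at hc
          refine ⟨c⁻¹, ?_, by simp⟩
          simp only [Finset.coe_filter, Set.mem_ofPred_eq, inv_inv]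
          exact ⟨hc, hy2⟩
        refine (Finset.sum_le_sum h1).trans ?_
        rw [Finset.sum_comm]
        have h2 : ∀ c ∈ B, (∑ x ∈ X, if c⁻¹ * x ∈ B⁻¹ * B then 1 else 0) ≤ (B⁻¹ * B).card := by
          intro c _
          rw [← Finset.card_filter]
          apply Finset.card_le_card_of_injOn (fun x => c⁻¹ * x)
          · intro x hx
            simp only [Finset.coe_filter, Set.mem_ofPred_eq] at hx
            exact hx.2
          · intro x _ y _ h
            simpa using h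
        refine (Finset.sum_le_sum h2).trans ?_
        rw [Finset.sum_const, hBc, smul_eq_mul]
      obtain ⟨x, hx, hxi⟩ : ∃ x ∈ X, 2 * ((B⁻¹ * {x}) ∩ (B⁻¹ * B)).card ≤ b := by
        by_contra hcon
        push Not at hcon
        have h1 : ∑ x ∈ X, b < ∑ x ∈ X, 2 * ((B⁻¹ * {x}) ∩ (B⁻¹ * B)).card :=
          Finset.sum_lt_sum_of_nonempty hX hcon
        rw [← Finset.mul_sum, Finset.sum_const, smul_eq_mul] at h1
        have h2 : b * (2 * (B⁻¹ * B).card) ≤ b * X.card := Nat.mul_le_mul_left _ hc.le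
        have h3 : b * (2 * (B⁻¹ * B).card) = 2 * (b * (B⁻¹ * B).card) := by ring
        have h4 : X.card * b = b * X.card := by ring
        omega
      have hxB : x ∉ B := by
        intro hxB
        have h1 : B⁻¹ * {x} ⊆ B⁻¹ * B := Finset.mul_subset_mul_left (by simpa using hxB)
        rw [Finset.inter_eq_left.2 h1, hsing] at hxi
        have : 0 < B.card := Finset.card_pos.2 ⟨x, hxB⟩
        omega
      refine ⟨insert x B, Finset.insert_subset hx hBX, ?_, Or.inr ?_⟩
      · rw [Finset.card_insert_of_notMem hxB, hBc]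
      · have h1 : (B⁻¹ * {x}) ∪ (B⁻¹ * B) ⊆ (insert x B)⁻¹ * (insert x B) := by
          apply Finset.union_subset
          · exact Finset.mul_subset_mul (Finset.inv_subset_inv (Finset.subset_insert x B))
              (by simp)
          · exact Finset.mul_subset_mul
              (Finset.inv_subset_inv (Finset.subset_insert x B)) (Finset.subset_insert x B)
        have h2 := Finset.card_le_card h1
        have h3 : ((B⁻¹ * {x}) ∪ (B⁻¹ * B)).card + ((B⁻¹ * {x}) ∩ (B⁻¹ * B)).card =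
          (B⁻¹ * {x}).card + (B⁻¹ * B).card := Finset.card_union_add_card_inter _ _
        rw [hsing] at h3
        have h4 : (b + 1) * (b + 1 - 1) = b * (b - 1) + 2 * b := by
          rcases b with _ | b
          · simp
          · simp only [Nat.add_sub_cancel]
            ring
        rw [h4]
        omega

/-- `g` and `g⁻¹` are identified. -/
def prSetoid (G : Type*) [Group G] : Setoid G where
  r g h := h = g ∨ h = g⁻¹
  iseqv :=
    { refl := fun g => Or.inl rfl
      symm := by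
        rintro g h (rfl | rfl)
        · exact Or.inl rfl
        · exact Or.inr (by simp)
      trans := by
        rintro g h k (rfl | rfl) (rfl | rfl)
        · exact Or.inl rfl
        · exact Or.inr rfl
        · exact Or.inr rfl
        · exact Or.inl (by simp) }

lemma pr_count {Q : Type*} [Fintype Q] (R : Finset Q) (c : Bool) :
    ((univ : Finset (Q → Bool)).filter fun f => ∀ q ∈ R, f q = c).card * 2 ^ R.card =
      2 ^ Fintype.card Q := by
  have h1 : ((univ : Finset (Q → Bool)).filter fun f => ∀ q ∈ R, f q = c) =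
      Fintype.piFinset (fun q => if q ∈ R then ({c} : Finset Bool) else univ) := by
    ext f
    simp only [Finset.mem_filter, Finset.mem_univ, true_and, Fintype.mem_piFinset]
    constructor
    · intro h q
      split_ifs with hq
      · simp [h q hq]
      · simp
    · intro h q hq
      have := h q
      rw [if_pos hq] at this
      simpa using this
  rw [h1, Fintype.card_piFinset]
  have h2 : ∀ q : Q, (if q ∈ R then ({c} : Finset Bool) else univ).card =
      if q ∈ R then 1 else 2 := by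
    intro q
    split_ifs <;> simp
  simp_rw [h2]
  have h3 : (2 : ℕ) ^ R.card = ∏ q : Q, if q ∈ R then 2 else 1 := by
    rw [Finset.prod_ite_mem]
    simp
  rw [h3, ← Finset.prod_mul_distrib]
  have h4 : ∀ q : Q, ((if q ∈ R then 1 else 2) * if q ∈ R then 2 else 1) = 2 := by
    intro q
    split_ifs <;> simp
  simp_rw [h4]
  simp

lemma pr_count_real {Q : Type*} [Fintype Q] (R : Finset Q) (c : Bool) (t : ℝ)
    (ht : t ≤ 2 * (R.card : ℝ)) :
    (((univ : Finset (Q → Bool)).filter fun f => ∀ q ∈ R, f q = c).card : ℝ) ≤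
      (2 : ℝ) ^ Fintype.card Q * Real.exp (-(Real.log 2 / 2) * t) := by
  have h4 := pr_count R c
  set N := ((univ : Finset (Q → Bool)).filter fun f => ∀ q ∈ R, f q = c).card with hN
  have h5 : (N : ℝ) * 2 ^ R.card = 2 ^ Fintype.card Q := by exact_mod_cast h4
  have h6 : (2 : ℝ) ^ R.card = Real.exp (Real.log 2 * R.card) := by
    rw [Real.exp_mul, Real.exp_log (by norm_num), Real.rpow_natCast]
  have h7 : (N : ℝ) = 2 ^ Fintype.card Q * Real.exp (-(Real.log 2 * R.card)) := by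
    rw [Real.exp_neg, ← h6, ← h5]
    field_simp
  rw [h7]
  have h8 : -(Real.log 2 * R.card) ≤ -(Real.log 2 / 2) * t := by
    have hl : 0 < Real.log 2 := Real.log_pos (by norm_num)
    nlinarith
  gcongr

/-- the first moment argument, for an abstract pairing of inverses -/
lemma pr_exists_aux {G : Type*} [Group G] [Fintype G] [DecidableEq G] {Q : Type*} [Fintype Q] (π : G → Q)
    (hinv : ∀ g, π g⁻¹ = π g) (hfib : ∀ g h, π g = π h → g = h ∨ g = h⁻¹)
    (𝓑 : Finset (Finset G))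
    (h : ∑ B ∈ 𝓑, 2 * Real.exp (-(Real.log 2 / 2) * (((B⁻¹ * B).card : ℝ) - 1)) < 1) :
    ∃ S : Set G, (∀ g ∈ S, g⁻¹ ∈ S) ∧ ∀ B ∈ 𝓑, ¬ ((∀ x ∈ B, ∀ y ∈ B, x ≠ y → x⁻¹ * y ∈ S) ∨
      (∀ x ∈ B, ∀ y ∈ B, x ≠ y → x⁻¹ * y ∉ S)) := by
  let S : (Q → Bool) → Set G := fun f => {g | f (π g) = true}
  have hSsymm : ∀ f, ∀ g ∈ S f, g⁻¹ ∈ S f := by
    intro f g hg
    simp only [S, Set.mem_ofPred_eq] at hg ⊢
    rw [hinv]
    exact hg
  let R : Finset G → Finset Q := fun B => ((B⁻¹ * B).erase 1).image π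
  have hR : ∀ B : Finset G, ((B⁻¹ * B).card : ℝ) - 1 ≤ 2 * ((R B).card : ℝ) := by
    intro B
    have h1 : ((B⁻¹ * B).erase 1).card ≤ 2 * (R B).card := by
      apply Finset.card_le_mul_card_image
      intro q hq
      rw [Finset.mem_image] at hq
      obtain ⟨g, -, rfl⟩ := hq
      have : (((B⁻¹ * B).erase 1).filter fun x => π x = π g) ⊆ {g, g⁻¹} := by
        intro x hx
        rw [Finset.mem_filter] at hx
        rcases hfib x g hx.2 with h3 | h3
        · simp [h3]
        · simp [h3]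
      exact (Finset.card_le_card this).trans Finset.card_le_two
    have h2 : (B⁻¹ * B).card - 1 ≤ ((B⁻¹ * B).erase 1).card := Finset.pred_card_le_card_erase
    have h3 : (B⁻¹ * B).card ≤ 2 * (R B).card + 1 := by omega
    have h4 : ((B⁻¹ * B).card : ℝ) ≤ 2 * ((R B).card : ℝ) + 1 := by exact_mod_cast h3
    linarith
  let Z : Finset G → Bool → Finset (Q → Bool) := fun B c =>
    (univ : Finset (Q → Bool)).filter fun f => ∀ q ∈ R B, f q = c
  by_contra hcon
  push Not at hcon
  have hbad : ∀ f : Q → Bool, ∃ B ∈ 𝓑, f ∈ Z B true ∪ Z B false := by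
    intro f
    obtain ⟨B, hB, hB'⟩ := hcon (S f) (hSsymm f)
    refine ⟨B, hB, ?_⟩
    rw [Finset.mem_union]
    simp only [Z, Finset.mem_filter, Finset.mem_univ, true_and]
    rcases hB' with h1 | h1
    · left
      intro q hq
      simp only [R, Finset.mem_image, Finset.mem_erase] at hq
      obtain ⟨g, ⟨hg1, hg2⟩, rfl⟩ := hq
      rw [Finset.mem_mul] at hg2
      obtain ⟨x, hx, y, hy, rfl⟩ := hg2
      rw [Finset.mem_inv'] at hx
      have h2 := h1 x⁻¹ hx y hy (by rintro rfl; simp at hg1)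
      simpa [S] using h2
    · right
      intro q hq
      simp only [R, Finset.mem_image, Finset.mem_erase] at hq
      obtain ⟨g, ⟨hg1, hg2⟩, rfl⟩ := hq
      rw [Finset.mem_mul] at hg2
      obtain ⟨x, hx, y, hy, rfl⟩ := hg2
      rw [Finset.mem_inv'] at hx
      have h2 := h1 x⁻¹ hx y hy (by rintro rfl; simp at hg1)
      simpa [S] using h2
  have hcov : (univ : Finset (Q → Bool)) ⊆ 𝓑.biUnion fun B => Z B true ∪ Z B false := by
    intro f _
    obtain ⟨B, hB, hB'⟩ := hbad f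
    rw [Finset.mem_biUnion]
    exact ⟨B, hB, hB'⟩
  have hcard : (2 : ℝ) ^ Fintype.card Q ≤ ∑ B ∈ 𝓑, 2 * ((2 : ℝ) ^ Fintype.card Q *
      Real.exp (-(Real.log 2 / 2) * (((B⁻¹ * B).card : ℝ) - 1))) := by
    have h1 : Fintype.card (Q → Bool) ≤ ∑ B ∈ 𝓑, (Z B true ∪ Z B false).card :=
      (Finset.card_le_card hcov).trans Finset.card_biUnion_le
    rw [Fintype.card_fun, Fintype.card_bool] at h1
    have h2 : (2 : ℝ) ^ Fintype.card Q ≤ ∑ B ∈ 𝓑, (((Z B true ∪ Z B false).card : ℕ) : ℝ) := by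
      exact_mod_cast h1
    refine h2.trans (Finset.sum_le_sum ?_)
    intro B _
    have h3 : (((Z B true ∪ Z B false).card : ℕ) : ℝ) ≤
        ((Z B true).card : ℝ) + ((Z B false).card : ℝ) := by
      exact_mod_cast Finset.card_union_le _ _
    have h5 : ((Z B true).card : ℝ) ≤ _ := pr_count_real (R B) true _ (hR B)
    have h6 : ((Z B false).card : ℝ) ≤ _ := pr_count_real (R B) false _ (hR B)
    linarith
  have h2 : ∑ B ∈ 𝓑, 2 * ((2 : ℝ) ^ Fintype.card Q *
      Real.exp (-(Real.log 2 / 2) * (((B⁻¹ * B).card : ℝ) - 1))) =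
      (2 : ℝ) ^ Fintype.card Q * ∑ B ∈ 𝓑, 2 * Real.exp (-(Real.log 2 / 2) *
        (((B⁻¹ * B).card : ℝ) - 1)) := by
    rw [Finset.mul_sum]
    apply Finset.sum_congr rfl
    intro B _
    ring
  rw [h2] at hcard
  have h3 : (0 : ℝ) < 2 ^ Fintype.card Q := by positivity
  nlinarith

/-- the first moment argument for random Cayley graphs -/
lemma pr_exists {G : Type*} [Group G] [Fintype G] [DecidableEq G] (𝓑 : Finset (Finset G))
    (h : ∑ B ∈ 𝓑, 2 * Real.exp (-(Real.log 2 / 2) * (((B⁻¹ * B).card : ℝ) - 1)) < 1) :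
    ∃ S : Set G, (∀ g ∈ S, g⁻¹ ∈ S) ∧ ∀ B ∈ 𝓑, ¬ ((∀ x ∈ B, ∀ y ∈ B, x ≠ y → x⁻¹ * y ∈ S) ∨
      (∀ x ∈ B, ∀ y ∈ B, x ≠ y → x⁻¹ * y ∉ S)) := by
  have : Fintype (Quotient (prSetoid G)) := Fintype.ofFinite _
  refine pr_exists_aux (Quotient.mk (prSetoid G)) ?_ ?_ 𝓑 h
  · intro g
    apply Quotient.sound
    exact Or.inr (by simp)
  · intro g h' hgh
    have h2 : (prSetoid G).r g h' := Quotient.exact hgh
    exact ((prSetoid G).symm h2)

/-- union bound over the small sets of large quotient set -/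
lemma pr_group {G : Type*} [Group G] [Fintype G] [DecidableEq G] (m K₁ : ℕ) (a C : ℝ)
    (hK₁ : 2 ≤ K₁) (hm : 200 ≤ m) (hm2 : 8 * K₁ + 1 ≤ m) (ha : a ≤ m / 40)
    (hlog : ∀ K : ℕ, K₁ ≤ K → C * Real.log ((K : ℝ) + 1) ≤ K / 20)
    (hcount : ∀ K : ℕ, 2 ≤ K → (((univ : Finset (Finset G)).filter fun A =>
        A.card = m ∧ (A⁻¹ * A).card ≤ K * m).card : ℝ) ≤
        Real.exp (K * a + m * (C * Real.log K))) :
    ∃ S : Set G, (∀ g ∈ S, g⁻¹ ∈ S) ∧ ∀ X : Finset G,
      ((∀ x ∈ X, ∀ y ∈ X, x ≠ y → x⁻¹ * y ∈ S) ∨ (∀ x ∈ X, ∀ y ∈ X, x ≠ y → x⁻¹ * y ∉ S)) →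
      X.card < 4 * K₁ * m := by
  set 𝓑 : Finset (Finset G) := univ.filter fun B => B.card = m ∧ K₁ * m ≤ (B⁻¹ * B).card with h𝓑
  have hm0 : 0 < m := by omega
  have hsum : ∑ B ∈ 𝓑, 2 * Real.exp (-(Real.log 2 / 2) * (((B⁻¹ * B).card : ℝ) - 1)) < 1 := by
    have hmaps : ∀ B ∈ 𝓑, (B⁻¹ * B).card / m ∈ Finset.range (m + 1) := by
      intro B hB
      rw [h𝓑, Finset.mem_filter] at hB
      obtain ⟨-, hB1, -⟩ := hB
      rw [Finset.mem_range]
      have h1 : (B⁻¹ * B).card ≤ B⁻¹.card * B.card := Finset.card_mul_le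
      rw [Finset.card_inv, hB1] at h1
      have h2 : (B⁻¹ * B).card / m ≤ m * m / m := Nat.div_le_div_right h1
      rw [Nat.mul_div_cancel _ hm0] at h2
      omega
    rw [← Finset.sum_fiberwise_of_maps_to hmaps]
    have hinner : ∀ K ∈ Finset.range (m + 1),
        ∑ B ∈ 𝓑 with (B⁻¹ * B).card / m = K,
          2 * Real.exp (-(Real.log 2 / 2) * (((B⁻¹ * B).card : ℝ) - 1)) ≤
        Real.exp (1.34 - 0.24 * m) := by
      intro K _
      by_cases hK : K < K₁
      · have : (𝓑.filter fun B => (B⁻¹ * B).card / m = K) = ∅ := by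
          rw [Finset.filter_eq_empty_iff]
          intro B hB hBK
          rw [h𝓑, Finset.mem_filter] at hB
          obtain ⟨-, -, hB2⟩ := hB
          have : K₁ ≤ (B⁻¹ * B).card / m := (Nat.le_div_iff_mul_le hm0).2 hB2
          omega
        rw [this, Finset.sum_empty]
        positivity
      push Not at hK
      have h1 : ∀ B ∈ 𝓑.filter fun B => (B⁻¹ * B).card / m = K,
          2 * Real.exp (-(Real.log 2 / 2) * (((B⁻¹ * B).card : ℝ) - 1)) ≤
          2 * Real.exp (-(Real.log 2 / 2) * ((K : ℝ) * m - 1)) := by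
        intro B hB
        rw [Finset.mem_filter] at hB
        have h2 : K * m ≤ (B⁻¹ * B).card := by
          rw [← Nat.le_div_iff_mul_le hm0]
          exact hB.2.ge
        have h3 : (K : ℝ) * m ≤ ((B⁻¹ * B).card : ℝ) := by exact_mod_cast h2
        have hl : 0 < Real.log 2 := Real.log_pos (by norm_num)
        have h4 : -(Real.log 2 / 2) * (((B⁻¹ * B).card : ℝ) - 1) ≤
            -(Real.log 2 / 2) * ((K : ℝ) * m - 1) := by nlinarith
        gcongr
      have h2 : ((𝓑.filter fun B => (B⁻¹ * B).card / m = K).card : ℝ) ≤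
          Real.exp (((K + 1 : ℕ) : ℝ) * a + m * (C * Real.log ((K + 1 : ℕ) : ℝ))) := by
        refine le_trans ?_ (hcount (K + 1) (by omega))
        have h3 : (𝓑.filter fun B => (B⁻¹ * B).card / m = K) ⊆
            ((univ : Finset (Finset G)).filter fun A =>
              A.card = m ∧ (A⁻¹ * A).card ≤ (K + 1) * m) := by
          intro B hB
          rw [Finset.mem_filter, h𝓑, Finset.mem_filter] at hB
          obtain ⟨⟨-, hB1, -⟩, hB2⟩ := hB
          simp only [Finset.mem_filter, Finset.mem_univ, true_and]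
          refine ⟨hB1, ?_⟩
          have := Nat.lt_mul_div_succ (B⁻¹ * B).card hm0
          rw [hB2] at this
          rw [mul_comm]
          exact this.le
        exact_mod_cast Finset.card_le_card h3
      have h3 : ∑ B ∈ 𝓑 with (B⁻¹ * B).card / m = K,
          2 * Real.exp (-(Real.log 2 / 2) * (((B⁻¹ * B).card : ℝ) - 1)) ≤
          ((𝓑.filter fun B => (B⁻¹ * B).card / m = K).card : ℝ) *
            (2 * Real.exp (-(Real.log 2 / 2) * ((K : ℝ) * m - 1))) := by
        have := Finset.sum_le_card_nsmul _ _ _ h1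
        rwa [nsmul_eq_mul] at this
      have hKR : (2 : ℝ) ≤ K := by exact_mod_cast hK₁.trans hK
      have hmR : (200 : ℝ) ≤ m := by exact_mod_cast hm
      have hKm : (m : ℝ) ≤ K * m := by nlinarith
      have h4 : ((K + 1 : ℕ) : ℝ) * a ≤ K * m / 20 := by
        push_cast
        nlinarith
      have h5 : (m : ℝ) * (C * Real.log ((K + 1 : ℕ) : ℝ)) ≤ K * m / 20 := by
        have := hlog K hK
        push_cast
        nlinarith
      have h6 : (0.6931471803 : ℝ) < Real.log 2 := Real.log_two_gt_d9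
      have h7 : -(Real.log 2 / 2) * ((K : ℝ) * m - 1) ≤ -0.34 * ((K : ℝ) * m - 1) := by
        nlinarith
      have h8 : (2 : ℝ) ≤ Real.exp 1 := by
        have := Real.add_one_le_exp (1 : ℝ)
        linarith
      calc _ ≤ _ := h3
        _ ≤ Real.exp (((K + 1 : ℕ) : ℝ) * a + m * (C * Real.log ((K + 1 : ℕ) : ℝ))) *
            (Real.exp 1 * Real.exp (-(Real.log 2 / 2) * ((K : ℝ) * m - 1))) := by
          gcongr
        _ = Real.exp (((K + 1 : ℕ) : ℝ) * a + m * (C * Real.log ((K + 1 : ℕ) : ℝ)) +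
            (1 + -(Real.log 2 / 2) * ((K : ℝ) * m - 1))) := by
          rw [← Real.exp_add, ← Real.exp_add]
        _ ≤ Real.exp (1.34 - 0.24 * m) := by
          apply Real.exp_le_exp.2
          nlinarith
    have h1 := Finset.sum_le_card_nsmul _ _ _ hinner
    rw [Finset.card_range, nsmul_eq_mul] at h1
    refine lt_of_le_of_lt h1 ?_
    have hmR : (200 : ℝ) ≤ m := by exact_mod_cast hm
    have h2 : 1 + (0.24 * (m : ℝ) - 1.34) + (0.24 * (m : ℝ) - 1.34) ^ 2 / 2 ≤
        Real.exp (0.24 * m - 1.34) := Real.quadratic_le_exp_of_nonneg (by linarith)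
    have h3 : Real.exp (1.34 - 0.24 * m) = (Real.exp (0.24 * m - 1.34))⁻¹ := by
      rw [← Real.exp_neg]
      congr 1
      ring
    rw [h3, ← div_eq_mul_inv, div_lt_one (Real.exp_pos _)]
    push_cast
    nlinarith
  obtain ⟨S, hS1, hS2⟩ := pr_exists 𝓑 hsum
  refine ⟨S, hS1, ?_⟩
  intro X hX
  by_contra hcon
  push Not at hcon
  have hmX : m ≤ X.card := by
    have : 1 * m ≤ 4 * K₁ * m := Nat.mul_le_mul_right _ (by omega)
    omega
  obtain ⟨B, hBX, hBc, hB⟩ := pr_spread X m hmX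
  have hBB : K₁ * m ≤ (B⁻¹ * B).card := by
    rcases hB with h | h
    · have : 4 * K₁ * m = 4 * (K₁ * m) := by ring
      omega
    · have h1 : 8 * K₁ * m ≤ m * (m - 1) := by
        rw [mul_comm]
        apply Nat.mul_le_mul_left
        omega
      have : 8 * K₁ * m = 8 * (K₁ * m) := by ring
      omega
  apply hS2 B (by rw [h𝓑, Finset.mem_filter]; exact ⟨Finset.mem_univ _, hBc, hBB⟩)
  rcases hX with h | h
  · exact Or.inl fun x hx y hy => h x (hBX hx) y (hBX hy)
  · exact Or.inr fun x hx y hy => h x (hBX hx) y (hBX hy)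

lemma pr_log_le (C : ℝ) (hC : 1 ≤ C) : ∃ K₁ : ℕ, 2 ≤ K₁ ∧
    ∀ K : ℕ, K₁ ≤ K → C * Real.log ((K : ℝ) + 1) ≤ K / 20 := by
  refine ⟨⌈(60 * C) ^ 2⌉₊ + 2, by omega, ?_⟩
  intro K hK
  have hK1 : (60 * C) ^ 2 ≤ (K : ℝ) := by
    have h1 : (60 * C) ^ 2 ≤ (⌈(60 * C) ^ 2⌉₊ : ℝ) := Nat.le_ceil _
    have h2 : ((⌈(60 * C) ^ 2⌉₊ + 2 : ℕ) : ℝ) ≤ K := by exact_mod_cast hK
    push_cast at h2
    linarith
  have hK0 : (0 : ℝ) < K := by
    have : 0 < (60 * C) ^ 2 := by positivity
    linarith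
  have hs : 60 * C ≤ Real.sqrt K := Real.le_sqrt_of_sq_le hK1
  have hs2 : Real.sqrt K * Real.sqrt K = K := Real.mul_self_sqrt hK0.le
  have hs3 : (60 : ℝ) ≤ Real.sqrt K := by linarith
  have h1 : Real.log ((K : ℝ) + 1) ≤ 3 * Real.sqrt K := by
    have h2 : (K : ℝ) + 1 ≤ (2 * Real.sqrt K) ^ 2 := by nlinarith
    calc Real.log ((K : ℝ) + 1) ≤ Real.log ((2 * Real.sqrt K) ^ 2) :=
          Real.log_le_log (by linarith) h2
      _ = 2 * Real.log (2 * Real.sqrt K) := by
          rw [Real.log_pow]; norm_num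
      _ = 2 * (Real.log 2 + Real.log (Real.sqrt K)) := by
          rw [Real.log_mul (by norm_num) (by positivity)]
      _ ≤ 2 * (1 + (Real.sqrt K - 1)) := by
          have h3 : Real.log (Real.sqrt K) ≤ Real.sqrt K - 1 :=
            Real.log_le_sub_one_of_pos (by positivity)
          have h4 : Real.log 2 ≤ 1 := by
            have := Real.log_two_lt_d9
            linarith
          linarith
      _ ≤ 3 * Real.sqrt K := by linarith
  have h2 : C * Real.log ((K : ℝ) + 1) ≤ C * (3 * Real.sqrt K) := by gcongr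
  nlinarith

lemma pr_pow_le (C : ℝ) (hC : 1 ≤ C) (x : ℝ) (hx : (328 * C) ^ 8 ≤ x) (m : ℝ) (hm0 : 0 ≤ m)
    (hm : m ≤ 41 * C * (x * Real.log x)) : m ^ 4 ≤ x ^ 5 := by
  have hx1 : (1 : ℝ) ≤ x := by
    have h1 : (1 : ℝ) ≤ 328 * C := by linarith
    exact (one_le_pow₀ h1).trans hx
  set y : ℝ := x ^ ((1 : ℝ) / 8) with hy
  have hy8 : y ^ 8 = x := by
    rw [hy, ← Real.rpow_natCast, ← Real.rpow_mul (by linarith)]
    norm_num
  have hy0 : 0 < y := Real.rpow_pos_of_pos (by linarith) _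
  have hyC : 328 * C ≤ y := by
    rw [← hy8] at hx
    exact le_of_pow_le_pow_left₀ (by norm_num) hy0.le hx
  have hlog : Real.log x ≤ 8 * y := by
    rw [← hy8, Real.log_pow]
    have : Real.log y ≤ y - 1 := Real.log_le_sub_one_of_pos hy0
    push_cast
    linarith
  have hm2 : m ≤ 328 * C * y ^ 9 := by
    calc m ≤ 41 * C * (x * Real.log x) := hm
      _ ≤ 41 * C * (x * (8 * y)) := by gcongr
      _ = 328 * C * y ^ 9 := by rw [← hy8]; ring
  calc m ^ 4 ≤ (328 * C * y ^ 9) ^ 4 := by gcongr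
    _ ≤ (y * y ^ 9) ^ 4 := by gcongr
    _ = x ^ 5 := by rw [← hy8]; ring

lemma pr_log_factorial (n : ℕ) (hn : 8 ≤ n) :
    (n : ℝ) * Real.log n ≤ 2 * Real.log (n.factorial : ℝ) := by
  have hnR : (8 : ℝ) ≤ n := by exact_mod_cast hn
  have h1 : ((n : ℝ)) ^ n / (n.factorial : ℝ) ≤ Real.exp n :=
    Real.pow_div_factorial_le_exp _ (by positivity) _
  have hf : (0 : ℝ) < n.factorial := by exact_mod_cast Nat.factorial_pos n
  have h2 : (n : ℝ) ^ n ≤ Real.exp n * n.factorial := by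
    rwa [div_le_iff₀ hf] at h1
  have h3 : Real.log ((n : ℝ) ^ n) ≤ Real.log (Real.exp n * n.factorial) :=
    Real.log_le_log (by positivity) h2
  rw [Real.log_pow, Real.log_mul (by positivity) (by positivity), Real.log_exp] at h3
  have h4 : (2 : ℝ) ≤ Real.log n := by
    have h5 : Real.log (8 : ℝ) ≤ Real.log n := Real.log_le_log (by norm_num) hnR
    have h6 : Real.log (8 : ℝ) = 3 * Real.log 2 := by
      rw [show (8 : ℝ) = 2 ^ 3 by norm_num, Real.log_pow]; norm_num
    have h7 : (0.6931471803 : ℝ) < Real.log 2 := Real.log_two_gt_d9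
    linarith
  nlinarith

theorem ramsey_of_count
    (hT : ∃ (C : ℝ) (n0 : ℕ), ∀ n ≥ n0, ∀ m K : ℕ, 2 ≤ K → m ^ 4 ≤ n ^ 5 →
      (((univ : Finset (Finset (Equiv.Perm (Fin n)))).filter fun A =>
        A.card = m ∧ (A⁻¹ * A).card ≤ K * m).card : ℝ) ≤
        Real.exp (C * (K * n * Real.log n + m * Real.log K))) :
    ∃ C : ℝ, ∀ n : ℕ, 2 ≤ n → ∃ S : Set (Equiv.Perm (Fin n)), (∀ g ∈ S, g⁻¹ ∈ S) ∧
      ∀ X : Finset (Equiv.Perm (Fin n)),
        ((∀ x ∈ X, ∀ y ∈ X, x ≠ y → x⁻¹ * y ∈ S) ∨ (∀ x ∈ X, ∀ y ∈ X, x ≠ y → x⁻¹ * y ∉ S)) →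
        (X.card : ℝ) ≤ C * Real.logb 2 (n.factorial : ℝ) := by
  obtain ⟨C₀, n0, hT⟩ := hT
  set C : ℝ := max C₀ 1 with hCdef
  have hC : 1 ≤ C := le_max_right _ _
  obtain ⟨K₁, hK₁, hlog⟩ := pr_log_le C hC
  set n1 : ℕ := n0 + 200 + 8 * K₁ + 1 + ⌈(328 * C) ^ 8⌉₊ with hn1
  refine ⟨328 * K₁ * C + (n1.factorial : ℝ), ?_⟩
  intro n hn
  have hfac : (2 : ℝ) ≤ (n.factorial : ℝ) := by
    have h1 : n ≤ n.factorial := Nat.self_le_factorial n
    exact_mod_cast hn.trans h1
  have hlogb : Real.log (n.factorial : ℝ) ≤ Real.logb 2 (n.factorial : ℝ) := by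
    rw [Real.logb, le_div_iff₀ (Real.log_pos (by norm_num))]
    have h1 : 0 ≤ Real.log (n.factorial : ℝ) := Real.log_nonneg (by linarith)
    have h2 : Real.log 2 ≤ 1 := by
      have := Real.log_two_lt_d9
      linarith
    nlinarith
  have hlogb1 : 1 ≤ Real.logb 2 (n.factorial : ℝ) := by
    rw [Real.le_logb_iff_rpow_le (by norm_num) (by linarith)]
    simpa using hfac
  by_cases hnn : n < n1
  · refine ⟨∅, by simp, ?_⟩
    intro X _
    have h1 : X.card ≤ n1.factorial := by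
      calc X.card ≤ Fintype.card (Equiv.Perm (Fin n)) := Finset.card_le_univ X
        _ = n.factorial := by rw [Fintype.card_perm, Fintype.card_fin]
        _ ≤ n1.factorial := Nat.factorial_le hnn.le
    have h2 : (X.card : ℝ) ≤ (n1.factorial : ℝ) := by exact_mod_cast h1
    have h3 : 0 ≤ 328 * K₁ * C := by positivity
    have h4 : (0 : ℝ) ≤ (n1.factorial : ℝ) := by positivity
    nlinarith
  push Not at hnn
  have hn0 : n0 ≤ n := by omega
  have hn200 : 200 ≤ n := by omega
  have hnK : 8 * K₁ + 1 ≤ n := by omega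
  have hnC : (328 * C) ^ 8 ≤ (n : ℝ) := by
    have h1 : (328 * C) ^ 8 ≤ (⌈(328 * C) ^ 8⌉₊ : ℝ) := Nat.le_ceil _
    have h2 : ⌈(328 * C) ^ 8⌉₊ ≤ n := by omega
    have h3 : (⌈(328 * C) ^ 8⌉₊ : ℝ) ≤ n := by exact_mod_cast h2
    linarith
  have hnR : (200 : ℝ) ≤ n := by exact_mod_cast hn200
  have hlogn : 1 ≤ Real.log n := by
    rw [Real.le_log_iff_exp_le (by linarith)]
    have := Real.exp_one_lt_d9
    linarith
  have hnl : 1 ≤ (n : ℝ) * Real.log n := by nlinarith
  set m : ℕ := ⌈40 * C * (n * Real.log n)⌉₊ with hmdef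
  have hm1 : 40 * C * (n * Real.log n) ≤ (m : ℝ) := Nat.le_ceil _
  have hm2 : (m : ℝ) ≤ 41 * C * (n * Real.log n) := by
    have h1 : (m : ℝ) < 40 * C * (n * Real.log n) + 1 := Nat.ceil_lt_add_one (by positivity)
    have h2 : 1 ≤ C * (n * Real.log n) := by nlinarith
    linarith
  have hnm : n ≤ m := by
    have h1 : (n : ℝ) ≤ m := by
      have h2 : (n : ℝ) ≤ n * Real.log n := by nlinarith
      have h3 : (n : ℝ) * Real.log n ≤ 40 * C * (n * Real.log n) := by nlinarith
      linarith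
    exact_mod_cast h1
  have hm4 : m ^ 4 ≤ n ^ 5 := by
    have h1 := pr_pow_le C hC n hnC m (by positivity) hm2
    exact_mod_cast h1
  obtain ⟨S, hS1, hS2⟩ := pr_group (G := Equiv.Perm (Fin n)) m K₁ (C * (n * Real.log n)) C
    hK₁ (by omega) (by omega) (by linarith) hlog (by
      intro K hK
      refine (hT n hn0 m K hK hm4).trans ?_
      apply Real.exp_le_exp.2
      have h1 : 0 ≤ (K : ℝ) * n * Real.log n + m * Real.log K := by
        have : 0 ≤ Real.log K := Real.log_nonneg (by exact_mod_cast (by omega : 1 ≤ K))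
        positivity
      calc C₀ * (K * n * Real.log n + m * Real.log K)
          ≤ C * (K * n * Real.log n + m * Real.log K) := by
            apply mul_le_mul_of_nonneg_right (le_max_left _ _) h1
        _ = _ := by ring)
  refine ⟨S, hS1, ?_⟩
  intro X hX
  have h1 : (X.card : ℝ) ≤ 4 * K₁ * m := by exact_mod_cast (hS2 X hX).le
  have h2 := pr_log_factorial n (by omega)
  have h3 : (m : ℝ) ≤ 82 * C * Real.logb 2 (n.factorial : ℝ) := by
    calc (m : ℝ) ≤ 41 * C * (n * Real.log n) := hm2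
      _ ≤ 41 * C * (2 * Real.logb 2 (n.factorial : ℝ)) :=
        mul_le_mul_of_nonneg_left (by linarith) (by positivity)
      _ = _ := by ring
  have h4 : (X.card : ℝ) ≤ 4 * K₁ * (82 * C * Real.logb 2 (n.factorial : ℝ)) := by
    refine h1.trans ?_
    gcongr
  have h5 : (0 : ℝ) ≤ (n1.factorial : ℝ) * Real.logb 2 (n.factorial : ℝ) := by positivity
  nlinarith

end RC
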