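import Pool.Agent.H27.RC.Defs

/-!
# Regularization (module RC-REG)

Let `m₀ = |A₀|`, `τ = m₀ / (64 K₀)` (natural division, `≥ 1`), `t = τ + 1`. Among all `A ⊆ A₀`
choose one maximizing `F A = m₀ * |A| - 16 * ∑_{d ∈ A₀⁻¹A₀} min (rep A d) τ` (integer valued).
`F A₀ ≥ m₀² - 16 K₀ m₀ τ ≥ m₀² - m₀²/4 = (3/4) m₀²`, so `m₀ |A| ≥ F A ≥ (3/4) m₀²`.
For `v ∈ A`, `F (A.erase v) ≤ F A` gives
`16 * ∑_d (min (rep A d) τ - min (rep (A.erase v) d) τ) ≤ m₀`. If `rep A d ≤ τ` and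
`d = v⁻¹ y` with `y ∈ A` then `rep (A.erase v) d < rep A d` (the representation `(v, y)` is lost),
so the summand is `≥ 1`; distinct `y` give distinct `d`; hence
`16 * #{y ∈ A | rep A (v⁻¹ y) ≤ τ} ≤ m₀ ≤ (4/3)|A| ≤ 2 |A|`. In the same way for `d = a⁻¹ v`.
`rep A d < t ↔ rep A d ≤ τ`. `|A⁻¹A| ≤ |A₀⁻¹A₀| ≤ K₀ m₀ ≤ K₀ (4/3) |A| ≤ 2 K₀ |A|`;
`|A| ≤ m₀ < 64 K₀ t = 32 (2 K₀) t`.
-/

open Finset
open scoped Pointwise Classical

namespace RC

variable {G : Type*} [Group G]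

theorem rep_erase_le (A : Finset G) (v d : G) : rep (A.erase v) d ≤ rep A d := by
  unfold rep
  apply card_le_card
  intro a ha
  simp only [mem_filter, mem_erase] at ha ⊢
  exact ⟨ha.1.2, ha.2.2⟩

theorem rep_erase_lt_left (A : Finset G) {v d : G} (hv : v ∈ A) (hd : v * d ∈ A) :
    rep (A.erase v) d < rep A d := by
  unfold rep
  apply card_lt_card
  refine ⟨?_, ?_⟩
  · intro a ha
    simp only [mem_filter, mem_erase] at ha ⊢
    exact ⟨ha.1.2, ha.2.2⟩
  · intro h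
    have h1 : v ∈ A.filter fun a => a * d ∈ A := by simp [hv, hd]
    have h2 := h h1
    simp at h2

theorem rep_erase_lt_right (A : Finset G) {v a d : G} (ha : a ∈ A) (hv : v ∈ A)
    (hd : a * d = v) : rep (A.erase v) d < rep A d := by
  unfold rep
  apply card_lt_card
  refine ⟨?_, ?_⟩
  · intro a ha
    simp only [mem_filter, mem_erase] at ha ⊢
    exact ⟨ha.1.2, ha.2.2⟩
  · intro h
    have h1 : a ∈ A.filter fun a => a * d ∈ A := by simp [ha, hd, hv]
    have h2 := h h1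
    simp [hd] at h2

theorem exists_reg (A₀ : Finset G) (K₀ : ℕ) (hK : 1 ≤ K₀) (h64 : 64 * K₀ ≤ A₀.card)
    (hquo : (A₀⁻¹ * A₀).card ≤ K₀ * A₀.card) :
    ∃ A ⊆ A₀, ∃ t, 3 * A₀.card ≤ 4 * A.card ∧ Reg A (2 * K₀) t := by
  set m₀ := A₀.card with hm₀
  set τ := m₀ / (64 * K₀) with hτ
  have hτm : 64 * K₀ * τ ≤ m₀ := Nat.mul_div_le m₀ (64 * K₀)
  have hτm' : m₀ < 64 * K₀ * (τ + 1) := Nat.lt_mul_div_succ m₀ (by omega)
  set S : Finset G → ℕ := fun A => ∑ d ∈ A₀⁻¹ * A₀, min (rep A d) τ with hS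
  obtain ⟨A, hA, hmax⟩ := exists_max_image A₀.powerset
    (fun A : Finset G => (m₀ : ℤ) * A.card - 16 * (S A : ℤ)) ⟨A₀, by simp⟩
  rw [mem_powerset] at hA
  have hm0pos : 0 < m₀ := by omega
  -- size
  have hSA₀ : S A₀ ≤ K₀ * m₀ * τ := by
    calc S A₀ ≤ ∑ d ∈ A₀⁻¹ * A₀, τ := sum_le_sum fun d _ => min_le_right _ _
      _ = (A₀⁻¹ * A₀).card * τ := by simp
      _ ≤ K₀ * m₀ * τ := Nat.mul_le_mul_right _ hquo
  have hsize : 3 * m₀ ≤ 4 * A.card := by
    have h1 := hmax A₀ (by simp)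
    have h2 : 64 * (S A₀) ≤ m₀ * m₀ := by
      calc 64 * S A₀ ≤ 64 * (K₀ * m₀ * τ) := Nat.mul_le_mul_left _ hSA₀
        _ = (64 * K₀ * τ) * m₀ := by ring
        _ ≤ m₀ * m₀ := Nat.mul_le_mul_right _ hτm
    have h2' : (64 : ℤ) * (S A₀ : ℤ) ≤ (m₀ : ℤ) * m₀ := by exact_mod_cast h2
    have h3 : (0 : ℤ) ≤ (S A : ℤ) := by positivity
    have h4 : (3 : ℤ) * m₀ * m₀ ≤ 4 * A.card * m₀ := by
      rw [← hm₀] at h1
      nlinarith
    have h5 : (0 : ℤ) < m₀ := by exact_mod_cast hm0pos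
    have h6 := le_of_mul_le_mul_right h4 h5
    exact_mod_cast h6
  -- deletion
  have hdel : ∀ v ∈ A, 16 * S A ≤ 16 * S (A.erase v) + m₀ := by
    intro v hv
    have h1 := hmax (A.erase v) (by
      rw [mem_powerset]
      exact (erase_subset _ _).trans hA)
    rw [card_erase_of_mem hv] at h1
    have h2 : 1 ≤ A.card := card_pos.2 ⟨v, hv⟩
    rw [Nat.cast_sub h2] at h1
    have : (16 : ℤ) * S A ≤ 16 * S (A.erase v) + m₀ := by
      push_cast at h1
      nlinarith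
    exact_mod_cast this
  -- counting
  have hcount : ∀ v ∈ A, ∀ B : Finset G, B ⊆ A → ∀ φ : G → G, Set.InjOn φ B →
      (∀ y ∈ B, φ y ∈ A₀⁻¹ * A₀) → (∀ y ∈ B, rep A (φ y) < τ + 1) →
      (∀ y ∈ B, rep (A.erase v) (φ y) < rep A (φ y)) → 8 * B.card ≤ A.card := by
    intro v hv B hBA φ hinj hmem hlow hlt
    have h1 : S (A.erase v) + B.card ≤ S A := by
      have hsub : B.image φ ⊆ A₀⁻¹ * A₀ := by
        intro d hd
        obtain ⟨y, hy, rfl⟩ := mem_image.1 hd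
        exact hmem y hy
      have hc : B.card = ∑ d ∈ A₀⁻¹ * A₀, if d ∈ B.image φ then 1 else 0 := by
        rw [sum_boole, filter_mem_eq_inter, inter_eq_right.2 hsub, card_image_of_injOn hinj]
        simp
      rw [hc, hS, ← sum_add_distrib]
      apply sum_le_sum
      intro d hd
      split_ifs with h
      · obtain ⟨y, hy, rfl⟩ := mem_image.1 h
        have h2 := hlow y hy
        have h3 := hlt y hy
        rw [min_eq_left (by omega), min_eq_left (by omega)]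
        omega
      · have h2 := rep_erase_le A v d
        rw [add_zero]
        exact min_le_min_right _ h2
    have h2 := hdel v hv
    omega
  have hne : A.Nonempty := by
    rw [← card_pos]
    omega
  refine ⟨A, hA, τ + 1, hsize, hne, Nat.succ_pos _, ?_, ?_, ?_, ?_⟩
  · calc (A⁻¹ * A).card ≤ (A₀⁻¹ * A₀).card :=
          card_le_card (mul_subset_mul (inv_subset_inv hA) hA)
      _ ≤ K₀ * m₀ := hquo
      _ ≤ K₀ * (2 * A.card) := Nat.mul_le_mul_left _ (by omega)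
      _ = 2 * K₀ * A.card := by ring
  · have : A.card ≤ m₀ := card_le_card hA
    calc A.card ≤ 64 * K₀ * (τ + 1) := by omega
      _ = 32 * (2 * K₀) * (τ + 1) := by ring
  · intro v hv
    refine hcount v hv _ (filter_subset _ _) (fun y => v⁻¹ * y) ?_ ?_ ?_ ?_
    · intro y _ y' _ h
      exact mul_left_cancel h
    · intro y hy
      exact mul_mem_mul (inv_mem_inv (hA hv)) (hA (mem_filter.1 hy).1)
    · intro y hy
      exact (mem_filter.1 hy).2
    · intro y hy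
      exact rep_erase_lt_left A hv (by simpa using (mem_filter.1 hy).1)
  · intro v hv
    refine hcount v hv _ (filter_subset _ _) (fun a => a⁻¹ * v) ?_ ?_ ?_ ?_
    · intro y _ y' _ h
      exact inv_injective (mul_right_cancel h)
    · intro y hy
      exact mul_mem_mul (inv_mem_inv (hA (mem_filter.1 hy).1)) (hA hv)
    · intro y hy
      exact (mem_filter.1 hy).2
    · intro y hy
      exact rep_erase_lt_right A (mem_filter.1 hy).1 hv (by simp)

end RC
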