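import Pool.Agent.H27.RC.Numeric
import Pool.Agent.H27.RC.Regular
import Pool.Agent.H27.RC.LemmaF
import Pool.Agent.H27.RC.Prob

/-!
# Theorem T and the answer
-/

open Finset
open scoped Pointwise Classical

namespace RC

/-- number of used edges allowed -/
noncomputable def sOne (n K : ℕ) : ℕ := if K ^ 8 < n then n / LL n else 0

/-- basic numerical facts -/
structure Basic (n m K : ℕ) : Prop where
  hn : 2 ^ 200 ≤ n
  hm : m ^ 4 ≤ n ^ 5
  hK : 4 ≤ K
  hKm : K ≤ m

namespace Basic

variable {n m K : ℕ}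

theorem n_pos (h : Basic n m K) : 1 ≤ n := Nat.one_le_two_pow.trans h.hn

theorem m_pos (h : Basic n m K) : 1 ≤ m := by
  have := h.hK
  have := h.hKm
  omega

theorem logK (h : Basic n m K) : 1 ≤ Real.log K := by
  have h1 : Real.log 4 ≤ Real.log K := Real.log_le_log (by norm_num) (by exact_mod_cast h.hK)
  have h2 : Real.log 4 = 2 * Real.log 2 := by
    rw [show (4 : ℝ) = 2 ^ 2 by norm_num, Real.log_pow]
    norm_num
  have h3 := Real.log_two_gt_d9
  linarith

theorem logm (h : Basic n m K) : Real.log m ≤ 5 / 4 * Real.log n := by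
  have h0 := h.m_pos
  have h1 : ((m : ℝ)) ^ 4 ≤ (n : ℝ) ^ 5 := by exact_mod_cast h.hm
  have h2 := Real.log_le_log (by positivity) h1
  rw [Real.log_pow, Real.log_pow] at h2
  push_cast at h2
  linarith

theorem logm0 (h : Basic n m K) : 0 ≤ Real.log m := Real.log_nonneg (by exact_mod_cast h.m_pos)

theorem logn (h : Basic n m K) : 100 ≤ Real.log n := by
  have h1 : Real.log ((2 : ℝ) ^ 200) ≤ Real.log n :=
    Real.log_le_log (by positivity) (by exact_mod_cast h.hn)
  rw [Real.log_pow] at h1
  have h3 := Real.log_two_gt_d9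
  push_cast at h1
  linarith

theorem logfac (h : Basic n m K) : Real.log n.factorial ≤ n * Real.log n := by
  have h1 : (n.factorial : ℝ) ≤ (n : ℝ) ^ n := by exact_mod_cast Nat.factorial_le_pow n
  have h2 := Real.log_le_log (by exact_mod_cast n.factorial_pos) h1
  rwa [Real.log_pow] at h2

theorem J_bounds (h : Basic n m K) {J : ℕ}
    (hJ : (J : ℝ) ≤ 700 * K * Real.log m / Real.log K) :
    (J : ℝ) * Real.log K ≤ 875 * K * Real.log n ∧ (J : ℝ) ≤ 875 * K * Real.log n := by
  have h1 := h.logK
  have h2 := h.logm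
  have h3 : (J : ℝ) * Real.log K ≤ 700 * K * Real.log m := by
    rwa [le_div_iff₀ (by linarith)] at hJ
  have hK0 : (0 : ℝ) ≤ K := Nat.cast_nonneg K
  have h4 : 700 * K * Real.log m ≤ 875 * K * Real.log n := by
    have := mul_le_mul_of_nonneg_left h2 (by positivity : (0 : ℝ) ≤ 700 * K)
    linarith
  have h5 : (J : ℝ) ≤ J * Real.log K := by
    have : (0 : ℝ) ≤ J := Nat.cast_nonneg J
    nlinarith
  exact ⟨h3.trans h4, h5.trans (h3.trans h4)⟩

theorem J_full (h : Basic n m K) {J : ℕ} (h8 : ¬ K ^ 8 < n)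
    (hJ : (J : ℝ) ≤ 700 * K * Real.log m / Real.log K) : (J : ℝ) ≤ 7000 * K := by
  have h1 := h.logK
  have h2 := h.logm
  have h3 : (J : ℝ) * Real.log K ≤ 700 * K * Real.log m := by
    rwa [le_div_iff₀ (by linarith)] at hJ
  have hK0 : (0 : ℝ) ≤ K := Nat.cast_nonneg K
  have h4 : Real.log n ≤ 8 * Real.log K := by
    have h5 : (n : ℝ) ≤ (K : ℝ) ^ 8 := by exact_mod_cast not_lt.1 h8
    have h6 := Real.log_le_log (by exact_mod_cast h.n_pos) h5
    rw [Real.log_pow] at h6
    exact_mod_cast h6
  have h5 : 700 * K * Real.log m ≤ 7000 * K * Real.log K := by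
    have : Real.log m ≤ 10 * Real.log K := by linarith
    have := mul_le_mul_of_nonneg_left this (by positivity : (0 : ℝ) ≤ 700 * K)
    linarith
  have h6 := h3.trans h5
  have h7 : (0 : ℝ) < Real.log K := by linarith
  exact le_of_mul_le_mul_right h6 h7

end Basic

/-- the total weight allowed for the seeds -/
noncomputable def X1 (n K : ℕ) : ℝ := 60000 * (K * n * Real.log n)

/-- the total weight allowed for the labels -/
noncomputable def X2 (n m K : ℕ) : ℝ := 30000 * (K * n * Real.log n + m * Real.log K)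

theorem log205 {n m K : ℕ} (h : Basic n m K) : Real.log (205 * K) ≤ 5 * Real.log K := by
  have hK : (4 : ℝ) ≤ K := by exact_mod_cast h.hK
  rw [show (5 : ℝ) * Real.log K = Real.log ((K : ℝ) ^ 5) by rw [Real.log_pow]; norm_num]
  apply Real.log_le_log (by positivity)
  have h1 : (256 : ℝ) ≤ (K : ℝ) ^ 4 := by
    calc (256 : ℝ) = 4 ^ 4 := by norm_num
      _ ≤ (K : ℝ) ^ 4 := pow_le_pow_left₀ (by norm_num) hK 4
  calc (205 : ℝ) * K ≤ (K : ℝ) ^ 4 * K := by nlinarith
    _ = (K : ℝ) ^ 5 := by ring

theorem reg_in_family {n m K t : ℕ} (h : Basic n m K) {A : Finset (Equiv.Perm (Fin n))}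
    (hA : A.card = m) (hReg : Reg A K t) :
    ∃ J : ℕ, (J : ℝ) ≤ 700 * K * Real.log m / Real.log K ∧
      ∃ B ∈ allSets n m J K (4 * K) (sOne n K) (X1 n K) (X2 n m K), B ⊆ A ∧ m ≤ 2 * B.card := by
  obtain ⟨J, s, hs, hJ, hb, hsum⟩ := growth hReg h.hK (by rw [hA]; exact h.hKm)
  rw [hA] at hJ hsum
  refine ⟨J, hJ, bigset A s J, ?_, Finset.filter_subset _ _, by rw [← hA]; exact hb⟩
  have hlogK := h.logK
  have hlogm := h.logm
  have hlogm0 := h.logm0
  have hlogn := h.logn
  have hlogfac := h.logfac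
  have hn1 : (1 : ℝ) ≤ n := by exact_mod_cast h.n_pos
  have hm1 : (1 : ℝ) ≤ m := by exact_mod_cast h.m_pos
  have hK4 : (4 : ℝ) ≤ K := by exact_mod_cast h.hK
  have hK0 : (0 : ℝ) ≤ K := by linarith
  obtain ⟨hJ1, hJ2⟩ := h.J_bounds hJ
  have hKn : (K : ℝ) * Real.log n ≤ K * n * Real.log n := by
    have : (0 : ℝ) ≤ K * Real.log n := by positivity
    nlinarith
  have hX2 : m * (Real.log 4 + 2 * Real.log K) +
      6 * (100 * m + 3000 * K * Real.log m / Real.log K) ≤ X2 n m K := by
    unfold X2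
    have h1 : 3000 * K * Real.log m / Real.log K ≤ 3750 * (K * Real.log n) := by
      rw [div_le_iff₀ (by linarith)]
      have h2 : 3000 * K * Real.log m ≤ 3000 * K * (5 / 4 * Real.log n) :=
        mul_le_mul_of_nonneg_left hlogm (by positivity)
      have h3 : (0 : ℝ) ≤ 3750 * (K * Real.log n) := by positivity
      nlinarith
    have h2 : Real.log 4 ≤ 2 := by
      have h2 : Real.log 4 = 2 * Real.log 2 := by
        rw [show (4 : ℝ) = 2 ^ 2 by norm_num, Real.log_pow]
        norm_num
      have h3 := Real.log_two_lt_d9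
      linarith
    have h3 : m * (Real.log 4 + 2 * Real.log K) + 600 * m ≤ 604 * (m * Real.log K) := by
      nlinarith
    have h4 : (0 : ℝ) ≤ m * Real.log K := by positivity
    linarith
  by_cases h8 : K ^ 8 < n
  · have hs1 : sOne n K = n / LL n := by simp [sOne, h8]
    rw [hs1]
    refine mem_cheap (by exact h.n_pos) hReg hA (by have := h.hK; omega) hs hb hsum hX2
      (params_exist h.hn h.hm) (J_le_qq h.hn h.hm h.m_pos h.hK h8 hJ) ?_
    unfold X1
    have h205 := log205 h
    have e1 : 948 * K * Real.log n.factorial ≤ 948 * (K * n * Real.log n) := by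
      have := mul_le_mul_of_nonneg_left hlogfac (by positivity : (0 : ℝ) ≤ 948 * K)
      linarith
    have e2 : J * (n * (8 * Real.log (205 * K) + 8)) ≤ 42000 * (K * n * Real.log n) := by
      have h1 : 8 * Real.log (205 * K) + 8 ≤ 48 * Real.log K := by linarith
      have h2 : (J : ℝ) * (n * (8 * Real.log (205 * K) + 8)) ≤ J * (n * (48 * Real.log K)) := by
        gcongr
      have h3 := mul_le_mul_of_nonneg_left hJ1 (by positivity : (0 : ℝ) ≤ 48 * n)
      linarith
    have e3 : 3280 * K * n * Real.log m ≤ 4100 * (K * n * Real.log n) := by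
      have := mul_le_mul_of_nonneg_left hlogm (by positivity : (0 : ℝ) ≤ 3280 * K * n)
      linarith
    have e4 : Real.log (2 * n) * (3280 * K * n + n) ≤ 6562 * (K * n * Real.log n) := by
      have h1 : Real.log (2 * n) ≤ 2 * Real.log n := by
        rw [Real.log_mul (by norm_num) (by positivity)]
        have := Real.log_two_lt_d9
        linarith
      have h2 : (3280 : ℝ) * K * n + n ≤ 3281 * (K * n) := by nlinarith
      calc Real.log (2 * n) * (3280 * K * n + n) ≤ (2 * Real.log n) * (3281 * (K * n)) := by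
            apply mul_le_mul h1 h2 (by positivity) (by positivity)
        _ = _ := by ring
    have h0 : (0 : ℝ) ≤ K * n * Real.log n := by positivity
    linarith
  · have hs1 : sOne n K = 0 := by simp [sOne, h8]
    rw [hs1]
    refine mem_full hReg hA (by have := h.hK; omega) hb hsum hX2 ?_
    unfold X1
    have hJ7 := h.J_full h8 hJ
    have h0 : (0 : ℝ) ≤ Real.log n.factorial := by
      apply Real.log_nonneg
      exact_mod_cast n.factorial_pos
    calc J * Real.log n.factorial ≤ (7000 * K) * (n * Real.log n) :=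
          mul_le_mul hJ7 hlogfac h0 (by positivity)
      _ ≤ _ := by
          have h0 : (0 : ℝ) ≤ K * n * Real.log n := by positivity
          linarith

theorem allSets_le {n m K J : ℕ} (h : Basic n m K)
    (hJ : (J : ℝ) ≤ 700 * K * Real.log m / Real.log K) :
    ((allSets n m J K (4 * K) (sOne n K) (X1 n K) (X2 n m K)).card : ℝ) ≤
      Real.exp (250000 * (K * n * Real.log n + m * Real.log K)) := by
  refine (allSets_card n m J K (4 * K) (sOne n K) (by have := h.hK; omega) _ _).trans ?_
  have hlogK := h.logK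
  have hlogm := h.logm
  have hlogm0 := h.logm0
  have hlogn := h.logn
  have hlogfac := h.logfac
  have hn1 : (1 : ℝ) ≤ n := by exact_mod_cast h.n_pos
  have hm1 : (1 : ℝ) ≤ m := by exact_mod_cast h.m_pos
  have hK4 : (4 : ℝ) ≤ K := by exact_mod_cast h.hK
  have hK0 : (0 : ℝ) ≤ K := by linarith
  obtain ⟨hJ1, hJ2⟩ := h.J_bounds hJ
  have hKn : (K : ℝ) * Real.log n ≤ K * n * Real.log n := by
    have : (0 : ℝ) ≤ K * Real.log n := by positivity
    nlinarith
  have hJ0 : (0 : ℝ) ≤ J := Nat.cast_nonneg J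
  -- factor 1
  have f1 : (8 : ℝ) ^ m ≤ Real.exp (3 * (m * Real.log K)) := by
    have h1 : (8 : ℝ) ≤ Real.exp 3 := by
      have := Real.exp_one_gt_d9
      have h2 : Real.exp 3 = Real.exp 1 ^ 3 := by rw [← Real.exp_nat_mul]; norm_num
      rw [h2]
      calc (8 : ℝ) = 2 ^ 3 := by norm_num
        _ ≤ Real.exp 1 ^ 3 := pow_le_pow_left₀ (by norm_num) (by linarith) 3
    calc (8 : ℝ) ^ m ≤ (Real.exp 3) ^ m := pow_le_pow_left₀ (by norm_num) h1 m
      _ = Real.exp (m * 3) := by rw [← Real.exp_nat_mul]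
      _ ≤ _ := by
        apply Real.exp_le_exp.2
        nlinarith
  -- factor for the steps
  have hbase : ∀ b : ℝ, (1 + J * (m ^ 2 * ((m ^ 2 + 1) ^ sOne n K) ^ 2) : ℝ) ≤ Real.exp b →
      J * b ≤ 120000 * (K * n * Real.log n) →
      (1 + J * (m ^ 2 * ((m ^ 2 + 1) ^ sOne n K) ^ 2) : ℝ) ^ J ≤
        Real.exp (120000 * (K * n * Real.log n)) := by
    intro b h1 h2
    calc _ ≤ (Real.exp b) ^ J := pow_le_pow_left₀ (by positivity) h1 J
      _ = Real.exp (J * b) := by rw [← Real.exp_nat_mul]
      _ ≤ _ := Real.exp_le_exp.2 h2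
  have hmexp : (m : ℝ) ^ 2 + 1 ≤ Real.exp (4 * Real.log n) := by
    have h1 : (m : ℝ) = Real.exp (Real.log m) := (Real.exp_log (by linarith)).symm
    have h2 : (m : ℝ) ^ 2 = Real.exp (2 * Real.log m) := by
      rw [h1, ← Real.exp_nat_mul, Real.log_exp]
      norm_num
    have h3 : (m : ℝ) ^ 2 ≤ Real.exp (5 / 2 * Real.log n) := by
      rw [h2]
      apply Real.exp_le_exp.2
      linarith
    have h4 : (1 : ℝ) ≤ Real.exp (5 / 2 * Real.log n) := by
      apply Real.one_le_exp
      positivity
    have h5 : (2 : ℝ) ≤ Real.exp (3 / 2 * Real.log n) := by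
      have := Real.add_one_le_exp (3 / 2 * Real.log n)
      linarith
    calc (m : ℝ) ^ 2 + 1 ≤ 2 * Real.exp (5 / 2 * Real.log n) := by linarith
      _ ≤ Real.exp (3 / 2 * Real.log n) * Real.exp (5 / 2 * Real.log n) := by
          apply mul_le_mul_of_nonneg_right h5 (Real.exp_pos _).le
      _ = _ := by rw [← Real.exp_add]; ring_nf
  have f3 : (1 + J * (m ^ 2 * ((m ^ 2 + 1) ^ sOne n K) ^ 2) : ℝ) ^ J ≤
        Real.exp (120000 * (K * n * Real.log n)) := by
    by_cases h8 : K ^ 8 < n
    · -- cheap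
      have hs1 : sOne n K = n / LL n := by simp [sOne, h8]
      apply hbase (J + 12 * n)
      · have hq1 : ((sOne n K : ℕ) : ℝ) * Real.log n ≤ n := by
          rw [hs1]
          have h1 := log_le_LL h.n_pos
          have h2 := Real.log_two_lt_d9
          have hL0 : (0 : ℝ) ≤ LL n := Nat.cast_nonneg _
          have h3 : Real.log n ≤ LL n := by
            have := mul_le_mul_of_nonneg_left h2.le hL0
            linarith
          have h4 : n / LL n * LL n ≤ n := Nat.div_mul_le_self _ _
          have h5 : ((n / LL n : ℕ) : ℝ) * LL n ≤ n := by exact_mod_cast h4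
          exact (mul_le_mul_of_nonneg_left h3 (Nat.cast_nonneg _)).trans h5
        have h1 : (m : ℝ) ^ 2 * ((m ^ 2 + 1) ^ sOne n K) ^ 2 ≤ Real.exp (12 * n) := by
          calc (m : ℝ) ^ 2 * ((m ^ 2 + 1) ^ sOne n K) ^ 2
              ≤ ((m : ℝ) ^ 2 + 1) * ((m ^ 2 + 1) ^ sOne n K) ^ 2 := by
                apply mul_le_mul_of_nonneg_right _ (by positivity)
                linarith
            _ = ((m : ℝ) ^ 2 + 1) ^ (2 * sOne n K + 1) := by ring
            _ ≤ (Real.exp (4 * Real.log n)) ^ (2 * sOne n K + 1) :=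
                pow_le_pow_left₀ (by positivity) hmexp _
            _ = Real.exp ((2 * sOne n K + 1 : ℕ) * (4 * Real.log n)) := by
                rw [← Real.exp_nat_mul]
            _ ≤ Real.exp (12 * n) := by
                apply Real.exp_le_exp.2
                push_cast
                have h9 : Real.log n ≤ n := by
                  have := Real.log_le_sub_one_of_pos (show (0 : ℝ) < n by linarith)
                  linarith
                nlinarith
        have h2 : (1 : ℝ) + J ≤ Real.exp J := by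
          have := Real.add_one_le_exp (J : ℝ)
          linarith
        have h3 : (1 : ℝ) ≤ Real.exp (12 * n) := Real.one_le_exp (by positivity)
        calc (1 + J * (m ^ 2 * ((m ^ 2 + 1) ^ sOne n K) ^ 2) : ℝ)
            ≤ Real.exp (12 * n) + J * Real.exp (12 * n) := by
              have := mul_le_mul_of_nonneg_left h1 hJ0
              linarith
          _ = (1 + J) * Real.exp (12 * n) := by ring
          _ ≤ Real.exp J * Real.exp (12 * n) :=
              mul_le_mul_of_nonneg_right h2 (Real.exp_pos _).le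
          _ = _ := by rw [← Real.exp_add]
      · have hJn : (J : ℝ) ≤ n := by
          have h1 := J_le_qq h.hn h.hm h.m_pos h.hK h8 hJ
          have h2 := qq_pow_le n
          have h3 : qq n ≤ qq n ^ 4 := Nat.le_self_pow (by norm_num) _
          exact_mod_cast h1.trans (h3.trans h2)
        have h4 := mul_le_mul_of_nonneg_right hJ2 (by positivity : (0 : ℝ) ≤ 13 * n)
        have h0 : (0 : ℝ) ≤ K * n * Real.log n := by positivity
        nlinarith
    · have hs1 : sOne n K = 0 := by simp [sOne, h8]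
      have hJ7 := h.J_full h8 hJ
      apply hbase (15 * Real.log n)
      · rw [hs1, pow_zero, one_pow, mul_one]
        have hKm : (K : ℝ) ≤ m := by exact_mod_cast h.hKm
        have h1 : (1 : ℝ) + J ≤ Real.exp (11 * Real.log n) := by
          have h2 : (m : ℝ) ≤ Real.exp (4 * Real.log n) := by nlinarith
          have h3 : (7001 : ℝ) ≤ Real.exp (7 * Real.log n) := by
            have h4 : (100 : ℝ) ≤ Real.exp (Real.log n) := by
              rw [Real.exp_log (by linarith)]
              have := Real.log_le_sub_one_of_pos (show (0 : ℝ) < n by linarith)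
              linarith
            have h5 : Real.exp (7 * Real.log n) = Real.exp (Real.log n) ^ 7 := by
              rw [← Real.exp_nat_mul]; norm_num
            rw [h5]
            calc (7001 : ℝ) ≤ 100 ^ 7 := by norm_num
              _ ≤ _ := pow_le_pow_left₀ (by norm_num) h4 7
          calc (1 : ℝ) + J ≤ 7001 * m := by linarith
            _ ≤ Real.exp (7 * Real.log n) * Real.exp (4 * Real.log n) :=
                mul_le_mul h3 h2 (by linarith) (Real.exp_pos _).le
            _ = _ := by rw [← Real.exp_add]; ring_nf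
        calc (1 : ℝ) + J * m ^ 2 ≤ (1 + J) * (m ^ 2 + 1) := by nlinarith
          _ ≤ Real.exp (11 * Real.log n) * Real.exp (4 * Real.log n) :=
              mul_le_mul h1 hmexp (by positivity) (Real.exp_pos _).le
          _ = _ := by rw [← Real.exp_add]; ring_nf
      · have h4 := mul_le_mul_of_nonneg_right hJ7 (by positivity : (0 : ℝ) ≤ 15 * Real.log n)
        linarith
  have f4 : (m : ℝ) ^ (4 * K) ≤ Real.exp (5 * (K * n * Real.log n)) := by
    have h1 : (m : ℝ) = Real.exp (Real.log m) := (Real.exp_log (by linarith)).symm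
    rw [h1, ← Real.exp_nat_mul]
    apply Real.exp_le_exp.2
    push_cast
    have := mul_le_mul_of_nonneg_left hlogm (by positivity : (0 : ℝ) ≤ 4 * K)
    linarith
  have f5 : (n.factorial : ℝ) ^ (4 * K) ≤ Real.exp (4 * (K * n * Real.log n)) := by
    have h1 : (n.factorial : ℝ) = Real.exp (Real.log n.factorial) :=
      (Real.exp_log (by exact_mod_cast n.factorial_pos)).symm
    rw [h1, ← Real.exp_nat_mul]
    apply Real.exp_le_exp.2
    push_cast
    have := mul_le_mul_of_nonneg_left hlogfac (by positivity : (0 : ℝ) ≤ 4 * K)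
    linarith
  calc _ ≤ (Real.exp (3 * (m * Real.log K)) * Real.exp (X2 n m K)) *
        (Real.exp (120000 * (K * n * Real.log n)) * Real.exp (5 * (K * n * Real.log n))) *
        (Real.exp (X1 n K) * Real.exp (4 * (K * n * Real.log n))) := by
        gcongr
    _ = Real.exp ((3 * (m * Real.log K) + X2 n m K) + (120000 * (K * n * Real.log n) +
        5 * (K * n * Real.log n)) + (X1 n K + 4 * (K * n * Real.log n))) := by
        rw [Real.exp_add, Real.exp_add, Real.exp_add, Real.exp_add, Real.exp_add]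
    _ ≤ _ := by
        apply Real.exp_le_exp.2
        unfold X1 X2
        have h0 : (0 : ℝ) ≤ K * n * Real.log n := by positivity
        have h0' : (0 : ℝ) ≤ m * Real.log K := by positivity
        linarith

section Fam

variable {G : Type*} [Group G]

/-- number of quotients -/
noncomputable def dbl (A : Finset G) : ℕ := (A⁻¹ * A).card

theorem card_quo_inst (i1 i2 : DecidableEq G) (A : Finset G) :
    (@HMul.hMul _ _ _ (@instHMul _ (@Finset.mul G i1 _)) (@Inv.inv _ (@Finset.inv G i1 _) A) A).card =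
    (@HMul.hMul _ _ _ (@instHMul _ (@Finset.mul G i2 _)) (@Inv.inv _ (@Finset.inv G i2 _) A) A).card := by
  have : i1 = i2 := Subsingleton.elim _ _
  subst this
  rfl

theorem dbl_eq (i1 : DecidableEq G) (A : Finset G) :
    (@HMul.hMul _ _ _ (@instHMul _ (@Finset.mul G i1 _)) (@Inv.inv _ (@Finset.inv G i1 _) A) A).card =
      dbl A := card_quo_inst _ _ _

theorem exists_reg' (A₀ : Finset G) (K₀ : ℕ) (hK : 1 ≤ K₀) (h64 : 64 * K₀ ≤ A₀.card)
    (hquo : dbl A₀ ≤ K₀ * A₀.card) :
    ∃ A ⊆ A₀, ∃ t, 3 * A₀.card ≤ 4 * A.card ∧ Reg A (2 * K₀) t :=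
  exists_reg A₀ K₀ hK h64 hquo

/-- the sets of size `m₀` and doubling `≤ K₀` that contain `B` -/
noncomputable def famB [Fintype G] (B : Finset G) (K₀ m₀ : ℕ) : Finset (Finset G) :=
  (univ : Finset (Finset G)).filter fun A₀ => A₀.card = m₀ ∧ B ⊆ A₀ ∧
    (A₀⁻¹ * A₀).card ≤ K₀ * m₀

theorem mem_famB [Fintype G] {B : Finset G} {K₀ m₀ : ℕ} {A₀ : Finset G} :
    A₀ ∈ famB B K₀ m₀ ↔ A₀.card = m₀ ∧ B ⊆ A₀ ∧ dbl A₀ ≤ K₀ * m₀ := by
  unfold famB dbl
  rw [mem_filter]
  exact ⟨fun h => h.2, fun h => ⟨mem_univ _, h⟩⟩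

theorem famB_card [Fintype G] (B : Finset G) (K₀ m₀ : ℕ) (hK : 1 ≤ K₀) (hm : 0 < m₀)
    (hB : m₀ ≤ 4 * B.card) :
    (famB B K₀ m₀).card ≤ (Fintype.card G + 1) ^ (8 * K₀) * (350 * K₀ ^ 2) ^ m₀ :=
  lemmaF B K₀ m₀ hK hm hB

end Fam

/-- the sets of size `m₀` and doubling `≤ K₀` -/
noncomputable def smallD (n m₀ K₀ : ℕ) : Finset (Finset (Equiv.Perm (Fin n))) :=
  (univ : Finset (Finset (Equiv.Perm (Fin n)))).filter fun A =>
    A.card = m₀ ∧ dbl A ≤ K₀ * m₀

theorem smallD_trivial (n m₀ K₀ : ℕ) : ((smallD n m₀ K₀).card : ℝ) ≤ (n.factorial : ℝ) ^ m₀ := by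
  have h1 : (smallD n m₀ K₀).card ≤
      ((univ : Finset (Equiv.Perm (Fin n))).powersetCard m₀).card := by
    apply Finset.card_le_card
    intro A hA
    simp only [smallD, mem_filter, mem_univ, true_and] at hA
    rw [Finset.mem_powersetCard]
    exact ⟨Finset.subset_univ _, hA.1⟩
  rw [Finset.card_powersetCard, Finset.card_univ, Fintype.card_perm, Fintype.card_fin] at h1
  exact_mod_cast h1.trans (Nat.choose_le_pow _ _)

theorem smallD_main {n m₀ K₀ : ℕ} (hn : 2 ^ 200 ≤ n) (hm : m₀ ^ 4 ≤ n ^ 5) (hK : 2 ≤ K₀)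
    (h64 : 64 * K₀ ≤ m₀) :
    ((smallD n m₀ K₀).card : ℝ) ≤
      Real.exp (1000000 * (K₀ * n * Real.log n + m₀ * Real.log K₀)) := by
  have hm0 : 0 < m₀ := by omega
  set K := 2 * K₀ with hKdef
  -- index set
  set Js : ℕ → Finset ℕ := fun m => (range (1750 * K₀ * n ^ 2 + 1)).filter fun J =>
    (J : ℝ) ≤ 700 * K * Real.log m / Real.log K with hJs
  set Ms : Finset ℕ := (range (m₀ + 1)).filter fun m => K ≤ m with hMs
  have hbasic : ∀ m ∈ Ms, Basic n m K := by
    intro m hmM
    simp only [hMs, mem_filter, mem_range] at hmM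
    exact ⟨hn, (Nat.pow_le_pow_left (by omega) 4).trans hm, by omega, hmM.2⟩
  have hsub : smallD n m₀ K₀ ⊆ Ms.biUnion fun m => (Js m).biUnion fun J =>
      ((allSets n m J K (4 * K) (sOne n K) (X1 n K) (X2 n m K)).filter fun B =>
        m₀ ≤ 4 * B.card).biUnion fun B => famB B K₀ m₀ := by
    intro A₀ hA₀
    simp only [smallD, mem_filter, mem_univ, true_and] at hA₀
    obtain ⟨hc, hq⟩ := hA₀
    obtain ⟨A, hAA, t, h34, hReg⟩ := exists_reg' A₀ K₀ (by omega) (by rw [hc]; exact h64)
      (by rw [hc]; exact hq)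
    have hAm : A.card ≤ m₀ := by rw [← hc]; exact Finset.card_le_card hAA
    rw [hc] at h34
    have hMm : A.card ∈ Ms := by
      simp only [hMs, mem_filter, mem_range]
      omega
    have hB := hbasic _ hMm
    obtain ⟨J, hJ, B, hBmem, hBA, hB2⟩ := reg_in_family hB rfl hReg
    simp only [mem_biUnion]
    refine ⟨A.card, hMm, J, ?_, B, ?_, ?_⟩
    · simp only [hJs, mem_filter, mem_range]
      refine ⟨?_, hJ⟩
      have h1 := (hB.J_bounds hJ).2
      have h2 : Real.log n ≤ n := by
        have := Real.log_le_sub_one_of_pos (show (0 : ℝ) < n by exact_mod_cast hB.n_pos)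
        linarith
      have h3 : (1 : ℝ) ≤ n := by exact_mod_cast hB.n_pos
      have h4 : (J : ℝ) ≤ 1750 * K₀ * n ^ 2 := by
        calc (J : ℝ) ≤ 875 * K * Real.log n := h1
          _ ≤ 875 * K * n := mul_le_mul_of_nonneg_left h2 (by positivity)
          _ = 1750 * K₀ * n := by rw [hKdef]; push_cast; ring
          _ ≤ 1750 * K₀ * n ^ 2 := by
            apply mul_le_mul_of_nonneg_left _ (by positivity)
            nlinarith
      have h5 : J ≤ 1750 * K₀ * n ^ 2 := by exact_mod_cast h4
      omega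
    · simp only [mem_filter]
      exact ⟨hBmem, by omega⟩
    · exact mem_famB.2 ⟨hc, hBA.trans hAA, hq⟩
  have hKmem : K ∈ Ms := by
    simp only [hMs, mem_filter, mem_range]
    omega
  have hB0 := hbasic _ hKmem
  have hn1 : (1 : ℝ) ≤ n := by exact_mod_cast hB0.n_pos
  have hlogn := hB0.logn
  have hlogfac := hB0.logfac
  have hK2 : (2 : ℝ) ≤ K₀ := by exact_mod_cast hK
  have hlog2 := Real.log_two_gt_d9
  have hlogK0 : Real.log 2 ≤ Real.log K₀ := Real.log_le_log (by norm_num) hK2
  have hlogK : Real.log K ≤ 2 * Real.log K₀ := by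
    rw [hKdef]
    push_cast
    rw [Real.log_mul (by norm_num) (by linarith)]
    linarith
  have hlogKpos := hB0.logK
  have hm0R : (1 : ℝ) ≤ m₀ := by exact_mod_cast hm0
  set R : ℝ := K₀ * n * Real.log n + m₀ * Real.log K₀ with hR
  have hKR : (K : ℝ) = 2 * K₀ := by rw [hKdef]; push_cast; ring
  -- the bound for one `B`
  have hone : ∀ B : Finset (Equiv.Perm (Fin n)), m₀ ≤ 4 * B.card →
      ((famB B K₀ m₀).card : ℝ) ≤ Real.exp (16 * R) := by
    intro B hB
    have h1 := famB_card B K₀ m₀ (by omega) hm0 hB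
    have h2 : ((famB B K₀ m₀).card : ℝ) ≤
        ((n.factorial : ℝ) + 1) ^ (8 * K₀) * (350 * (K₀ : ℝ) ^ 2) ^ m₀ := by
      rw [Fintype.card_perm, Fintype.card_fin] at h1
      exact_mod_cast h1
    refine h2.trans ?_
    have h3 : (n.factorial : ℝ) + 1 ≤ Real.exp (2 * (n * Real.log n)) := by
      have e1 : (n.factorial : ℝ) ≤ Real.exp (n * Real.log n) := by
        rw [← Real.log_le_iff_le_exp (by exact_mod_cast n.factorial_pos)]
        exact hlogfac
      have e0 : (0 : ℝ) ≤ n * Real.log n := by positivity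
      have e2 : (1 : ℝ) ≤ Real.exp (n * Real.log n) := Real.one_le_exp e0
      have e3 : (2 : ℝ) ≤ Real.exp (n * Real.log n) := by
        have := Real.add_one_le_exp (n * Real.log n)
        nlinarith
      calc (n.factorial : ℝ) + 1 ≤ 2 * Real.exp (n * Real.log n) := by linarith
        _ ≤ Real.exp (n * Real.log n) * Real.exp (n * Real.log n) :=
            mul_le_mul_of_nonneg_right e3 (Real.exp_pos _).le
        _ = _ := by rw [← Real.exp_add]; ring_nf
    have h4 : 350 * (K₀ : ℝ) ^ 2 ≤ Real.exp (11 * Real.log K₀) := by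
      have e1 : Real.exp (11 * Real.log K₀) = (K₀ : ℝ) ^ 11 := by
        rw [show (11 : ℝ) * Real.log K₀ = ((11 : ℕ) : ℝ) * Real.log K₀ by norm_num,
          Real.exp_nat_mul, Real.exp_log (by linarith)]
      rw [e1]
      have e2 : (350 : ℝ) ≤ (K₀ : ℝ) ^ 9 := by
        calc (350 : ℝ) ≤ 2 ^ 9 := by norm_num
          _ ≤ _ := pow_le_pow_left₀ (by norm_num) hK2 9
      calc 350 * (K₀ : ℝ) ^ 2 ≤ (K₀ : ℝ) ^ 9 * (K₀ : ℝ) ^ 2 :=
            mul_le_mul_of_nonneg_right e2 (by positivity)
        _ = _ := by ring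
    calc ((n.factorial : ℝ) + 1) ^ (8 * K₀) * (350 * (K₀ : ℝ) ^ 2) ^ m₀
        ≤ (Real.exp (2 * (n * Real.log n))) ^ (8 * K₀) * (Real.exp (11 * Real.log K₀)) ^ m₀ := by
          gcongr
      _ = Real.exp ((8 * K₀ : ℕ) * (2 * (n * Real.log n)) + m₀ * (11 * Real.log K₀)) := by
          rw [Real.exp_add, Real.exp_nat_mul, Real.exp_nat_mul]
      _ ≤ Real.exp (16 * R) := by
          apply Real.exp_le_exp.2
          push_cast
          have : (0 : ℝ) ≤ m₀ * Real.log K₀ := by
            have : 0 ≤ Real.log K₀ := by linarith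
            positivity
          rw [hR]
          linarith
  have hRn : (0 : ℝ) ≤ K₀ * n * Real.log n := by positivity
  have hRm : (0 : ℝ) ≤ m₀ * Real.log K₀ := by
    have : 0 ≤ Real.log K₀ := by linarith
    positivity
  have hall : ∀ m ∈ Ms, ∀ J ∈ Js m,
      ((allSets n m J K (4 * K) (sOne n K) (X1 n K) (X2 n m K)).card : ℝ) ≤
        Real.exp (500000 * R) := by
    intro m hmM J hJJ
    simp only [hJs, mem_filter, mem_range] at hJJ
    refine (allSets_le (hbasic m hmM) hJJ.2).trans ?_
    apply Real.exp_le_exp.2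
    simp only [hMs, mem_filter, mem_range] at hmM
    have h1 : (m : ℝ) ≤ m₀ := by exact_mod_cast (by omega : m ≤ m₀)
    have h2 : (m : ℝ) * Real.log K ≤ m₀ * (2 * Real.log K₀) :=
      mul_le_mul h1 hlogK (by linarith) (by linarith)
    have h3 : (K : ℝ) * n * Real.log n = 2 * (K₀ * n * Real.log n) := by rw [hKR]; ring
    rw [hR, h3]
    linarith
  -- total
  have htot : ((smallD n m₀ K₀).card : ℝ) ≤
      ∑ m ∈ Ms, ∑ J ∈ Js m, Real.exp (500000 * R) * Real.exp (16 * R) := by
    have h1 := (Finset.card_le_card hsub).trans Finset.card_biUnion_le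
    have h2 : ((smallD n m₀ K₀).card : ℝ) ≤ ∑ m ∈ Ms, ((((Js m).biUnion fun J =>
      ((allSets n m J K (4 * K) (sOne n K) (X1 n K) (X2 n m K)).filter fun B =>
        m₀ ≤ 4 * B.card).biUnion fun B =>
      famB B K₀ m₀).card : ℕ) : ℝ) := by exact_mod_cast h1
    refine h2.trans (Finset.sum_le_sum fun m hmM => ?_)
    have h3 : ((((Js m).biUnion fun J =>
      ((allSets n m J K (4 * K) (sOne n K) (X1 n K) (X2 n m K)).filter fun B =>
        m₀ ≤ 4 * B.card).biUnion fun B =>
      famB B K₀ m₀).card : ℕ) : ℝ) ≤ ∑ J ∈ Js m,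
      (((((allSets n m J K (4 * K) (sOne n K) (X1 n K) (X2 n m K)).filter fun B =>
        m₀ ≤ 4 * B.card).biUnion fun B =>
      famB B K₀ m₀).card : ℕ) : ℝ) := by
      exact_mod_cast Finset.card_biUnion_le
    refine h3.trans (Finset.sum_le_sum fun J hJJ => ?_)
    have h4 : (((((allSets n m J K (4 * K) (sOne n K) (X1 n K) (X2 n m K)).filter fun B =>
        m₀ ≤ 4 * B.card).biUnion fun B =>
      famB B K₀ m₀).card : ℕ) : ℝ) ≤
      ∑ B ∈ (allSets n m J K (4 * K) (sOne n K) (X1 n K) (X2 n m K)).filter fun B =>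
        m₀ ≤ 4 * B.card, ((famB B K₀ m₀).card : ℝ) := by
      exact_mod_cast Finset.card_biUnion_le
    refine h4.trans ?_
    calc _ ≤ ∑ B ∈ (allSets n m J K (4 * K) (sOne n K) (X1 n K) (X2 n m K)).filter fun B =>
          m₀ ≤ 4 * B.card, Real.exp (16 * R) := by
          apply Finset.sum_le_sum
          intro B hB
          simp only [mem_filter] at hB
          exact hone B hB.2
      _ = (((allSets n m J K (4 * K) (sOne n K) (X1 n K) (X2 n m K)).filter fun B =>
          m₀ ≤ 4 * B.card).card : ℝ) * Real.exp (16 * R) := by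
          rw [Finset.sum_const, nsmul_eq_mul]
      _ ≤ _ := by
          apply mul_le_mul_of_nonneg_right _ (Real.exp_pos _).le
          refine le_trans ?_ (hall m hmM J hJJ)
          exact_mod_cast Finset.card_filter_le _ _
  refine htot.trans ?_
  have hJc : ∀ m, ((Js m).card : ℝ) ≤ 1750 * K₀ * n ^ 2 + 1 := by
    intro m
    have h1 : (Js m).card ≤ 1750 * K₀ * n ^ 2 + 1 := by
      refine (Finset.card_filter_le _ _).trans ?_
      rw [Finset.card_range]
    exact_mod_cast h1
  have hMc : (Ms.card : ℝ) ≤ m₀ + 1 := by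
    have h1 : Ms.card ≤ m₀ + 1 := by
      refine (Finset.card_filter_le _ _).trans ?_
      rw [Finset.card_range]
    exact_mod_cast h1
  have hE : (0 : ℝ) < Real.exp (500000 * R) * Real.exp (16 * R) := by positivity
  calc ∑ m ∈ Ms, ∑ J ∈ Js m, Real.exp (500000 * R) * Real.exp (16 * R)
      ≤ ∑ m ∈ Ms, (1750 * K₀ * n ^ 2 + 1) * (Real.exp (500000 * R) * Real.exp (16 * R)) := by
        apply Finset.sum_le_sum
        intro m _
        rw [Finset.sum_const, nsmul_eq_mul]
        exact mul_le_mul_of_nonneg_right (hJc m) hE.le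
    _ ≤ (m₀ + 1) * ((1750 * K₀ * n ^ 2 + 1) * (Real.exp (500000 * R) * Real.exp (16 * R))) := by
        rw [Finset.sum_const, nsmul_eq_mul]
        exact mul_le_mul_of_nonneg_right hMc (by positivity)
    _ ≤ Real.exp (2 * R) * ((Real.exp (1750 * R)) * (Real.exp (500000 * R) *
          Real.exp (16 * R))) := by
        have h1 : (m₀ : ℝ) + 1 ≤ Real.exp (2 * R) := by
          have e1 := Real.add_one_le_exp (2 * R)
          have e2 : (m₀ : ℝ) ≤ 2 * R := by
            rw [hR]
            have : (m₀ : ℝ) * (2 * Real.log K₀) ≥ m₀ * 1 := by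
              apply mul_le_mul_of_nonneg_left _ (by positivity)
              linarith
            linarith
          linarith
        have h2 : 1750 * K₀ * (n : ℝ) ^ 2 + 1 ≤ Real.exp (1750 * R) := by
          have e0 : (n : ℝ) ^ 2 ≤ Real.exp (2 * (K₀ * n * Real.log n)) := by
            have : (n : ℝ) ^ 2 = Real.exp (2 * Real.log n) := by
              rw [show (2 : ℝ) * Real.log n = ((2 : ℕ) : ℝ) * Real.log n by norm_num,
                Real.exp_nat_mul, Real.exp_log (by linarith)]
            rw [this]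
            apply Real.exp_le_exp.2
            have : Real.log n ≤ K₀ * n * Real.log n := by
              have : (1 : ℝ) ≤ K₀ * n := by nlinarith
              nlinarith
            linarith
          have e1 : 1750 * (K₀ : ℝ) + 1 ≤ Real.exp (1748 * (K₀ * n * Real.log n)) := by
            have e2 := Real.add_one_le_exp (1748 * (K₀ * n * Real.log n))
            have e3 : 100 * (K₀ : ℝ) ≤ K₀ * n * Real.log n := by
              have : (100 : ℝ) ≤ n * Real.log n := by nlinarith
              nlinarith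
            linarith
          have e4 : (1 : ℝ) ≤ Real.exp (2 * (K₀ * n * Real.log n)) :=
            Real.one_le_exp (by positivity)
          calc 1750 * K₀ * (n : ℝ) ^ 2 + 1
              ≤ 1750 * K₀ * Real.exp (2 * (K₀ * n * Real.log n)) +
                Real.exp (2 * (K₀ * n * Real.log n)) := by
                have := mul_le_mul_of_nonneg_left e0 (by positivity : (0 : ℝ) ≤ 1750 * K₀)
                linarith
            _ = (1750 * K₀ + 1) * Real.exp (2 * (K₀ * n * Real.log n)) := by ring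
            _ ≤ Real.exp (1748 * (K₀ * n * Real.log n)) *
                Real.exp (2 * (K₀ * n * Real.log n)) :=
                mul_le_mul_of_nonneg_right e1 (Real.exp_pos _).le
            _ = Real.exp (1750 * (K₀ * n * Real.log n)) := by rw [← Real.exp_add]; ring_nf
            _ ≤ _ := by
                apply Real.exp_le_exp.2
                rw [hR]
                linarith
        gcongr
    _ = Real.exp (501768 * R) := by
        rw [← Real.exp_add, ← Real.exp_add, ← Real.exp_add]
        ring_nf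
    _ ≤ _ := by
        apply Real.exp_le_exp.2
        have : (0 : ℝ) ≤ R := by rw [hR]; linarith
        linarith

/-- Theorem T. -/
theorem theoremT : ∃ (C : ℝ) (n0 : ℕ), ∀ n ≥ n0, ∀ m K : ℕ, 2 ≤ K → m ^ 4 ≤ n ^ 5 →
      (((univ : Finset (Finset (Equiv.Perm (Fin n)))).filter fun A =>
        A.card = m ∧ (A⁻¹ * A).card ≤ K * m).card : ℝ) ≤
        Real.exp (C * (K * n * Real.log n + m * Real.log K)) := by
  refine ⟨1000000, 2 ^ 200, ?_⟩
  intro n hn m K hK hm
  have hset : ((univ : Finset (Finset (Equiv.Perm (Fin n)))).filter fun A =>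
        A.card = m ∧ (A⁻¹ * A).card ≤ K * m) = smallD n m K := by
    unfold smallD
    ext A
    rw [mem_filter, mem_filter, ← dbl_eq (inferInstance) A]
  rw [hset]
  by_cases h64 : 64 * K ≤ m
  · exact smallD_main hn hm hK h64
  · have h1 := smallD_trivial n m K
    refine h1.trans ?_
    have hn1 : 1 ≤ n := Nat.one_le_two_pow.trans hn
    have hlogfac : Real.log n.factorial ≤ n * Real.log n := by
      have h1 : (n.factorial : ℝ) ≤ (n : ℝ) ^ n := by exact_mod_cast Nat.factorial_le_pow n
      have h2 := Real.log_le_log (by exact_mod_cast n.factorial_pos) h1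
      rwa [Real.log_pow] at h2
    have h3 : (n.factorial : ℝ) = Real.exp (Real.log n.factorial) :=
      (Real.exp_log (by exact_mod_cast n.factorial_pos)).symm
    rw [h3, ← Real.exp_nat_mul]
    apply Real.exp_le_exp.2
    have h4 : (m : ℝ) ≤ 64 * K := by
      have : m ≤ 64 * K := by omega
      exact_mod_cast this
    have h5 : 0 ≤ Real.log n := Real.log_nonneg (by exact_mod_cast hn1)
    have h6 : 0 ≤ Real.log K := Real.log_nonneg (by exact_mod_cast (by omega : 1 ≤ K))
    calc (m : ℝ) * Real.log n.factorial ≤ m * (n * Real.log n) :=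
          mul_le_mul_of_nonneg_left hlogfac (Nat.cast_nonneg m)
      _ ≤ (64 * K) * (n * Real.log n) := mul_le_mul_of_nonneg_right h4 (by positivity)
      _ ≤ _ := by
          have h7 : (0 : ℝ) ≤ K * n * Real.log n := by positivity
          have h8 : (0 : ℝ) ≤ m * Real.log K := by positivity
          linarith

/-- Symmetric groups have Ramsey Cayley graphs. -/
theorem ramsey_cayley_perm : ∃ C : ℝ, ∀ n : ℕ, 2 ≤ n → ∃ S : Set (Equiv.Perm (Fin n)),
    (∀ g ∈ S, g⁻¹ ∈ S) ∧ ∀ X : Finset (Equiv.Perm (Fin n)),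
      ((∀ x ∈ X, ∀ y ∈ X, x ≠ y → x⁻¹ * y ∈ S) ∨ (∀ x ∈ X, ∀ y ∈ X, x ≠ y → x⁻¹ * y ∉ S)) →
      (X.card : ℝ) ≤ C * Real.logb 2 (n.factorial : ℝ) :=
  ramsey_of_count (by
    obtain ⟨C, n0, h⟩ := theoremT
    refine ⟨C, n0, fun n hn m K hK hm => ?_⟩
    convert h n hn m K hK hm)

end RC
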