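import Pool.Agent.H27.RC.Reg2

/-!
# Numerical parameters
-/

open Finset
open scoped Pointwise Classical

namespace RC

theorem pow16_bound : ∀ L : ℕ, 201 ≤ L → (32 * L ^ 4) ^ 4 ≤ 2 ^ (L - 1) := by
  intro L hL
  induction L, hL using Nat.le_induction with
  | base => norm_num
  | succ L hL ih =>
    have h1 : (L + 1) ^ 16 ≤ 2 * L ^ 16 := by
      have h2 : (L + 1) * 200 ≤ 201 * L := by omega
      have h3 := Nat.pow_le_pow_left h2 16
      rw [mul_pow, mul_pow] at h3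
      have h4 : (201 : ℕ) ^ 16 ≤ 2 * 200 ^ 16 := by norm_num
      have h5 : (L + 1) ^ 16 * 200 ^ 16 ≤ (2 * L ^ 16) * 200 ^ 16 := by
        calc (L + 1) ^ 16 * 200 ^ 16 ≤ 201 ^ 16 * L ^ 16 := h3
          _ ≤ (2 * 200 ^ 16) * L ^ 16 := Nat.mul_le_mul_right _ h4
          _ = _ := by ring
      exact Nat.le_of_mul_le_mul_right h5 (by norm_num)
    have h6 : (32 * (L + 1) ^ 4) ^ 4 ≤ 2 * (32 * L ^ 4) ^ 4 := by
      calc (32 * (L + 1) ^ 4) ^ 4 = 32 ^ 4 * (L + 1) ^ 16 := by ring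
        _ ≤ 32 ^ 4 * (2 * L ^ 16) := Nat.mul_le_mul_left _ h1
        _ = _ := by ring
    calc (32 * (L + 1) ^ 4) ^ 4 ≤ 2 * (32 * L ^ 4) ^ 4 := h6
      _ ≤ 2 * 2 ^ (L - 1) := Nat.mul_le_mul_left _ ih
      _ = 2 ^ (L + 1 - 1) := by
        rw [← pow_succ']
        congr 1
        omega

/-- number of binary digits -/
def LL (n : ℕ) : ℕ := Nat.log 2 n + 1

/-- about the fourth root -/
def qq (n : ℕ) : ℕ := Nat.sqrt (Nat.sqrt n)

theorem LL_ge {n : ℕ} (hn : 2 ^ 200 ≤ n) : 201 ≤ LL n := by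
  unfold LL
  have := Nat.log_mono_right (b := 2) hn
  rw [Nat.log_pow (by norm_num)] at this
  omega

theorem lt_two_pow_LL (n : ℕ) : n < 2 ^ LL n := Nat.lt_pow_succ_log_self (by norm_num) n

theorem qq_ge {n : ℕ} (hn : 2 ^ 200 ≤ n) : 32 * LL n ^ 4 ≤ qq n := by
  have h1 := pow16_bound (LL n) (LL_ge hn)
  have h2 : 2 ^ (LL n - 1) ≤ n := by
    unfold LL
    rw [Nat.add_sub_cancel]
    apply Nat.pow_log_le_self
    have := Nat.one_le_two_pow.trans hn
    exact Nat.one_le_iff_ne_zero.1 this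
  have h3 := h1.trans h2
  unfold qq
  rw [Nat.le_sqrt, Nat.le_sqrt]
  calc (32 * LL n ^ 4) * (32 * LL n ^ 4) * ((32 * LL n ^ 4) * (32 * LL n ^ 4))
      = (32 * LL n ^ 4) ^ 4 := by ring
    _ ≤ n := h3

theorem qq_pow_le (n : ℕ) : qq n ^ 4 ≤ n := by
  unfold qq
  have h1 := Nat.sqrt_le' (Nat.sqrt n)
  have h2 := Nat.sqrt_le' n
  calc Nat.sqrt (Nat.sqrt n) ^ 4 = (Nat.sqrt (Nat.sqrt n) ^ 2) ^ 2 := by ring
    _ ≤ (Nat.sqrt n) ^ 2 := Nat.pow_le_pow_left h1 2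
    _ ≤ n := h2

theorem lt_qq_succ_pow (n : ℕ) : n < (qq n + 1) ^ 4 := by
  unfold qq
  have h1 := Nat.lt_succ_sqrt' (Nat.sqrt n)
  have h2 := Nat.lt_succ_sqrt' n
  have h3 : Nat.sqrt n + 1 ≤ (Nat.sqrt (Nat.sqrt n) + 1) ^ 2 := h1
  calc n < (Nat.sqrt n + 1) ^ 2 := h2
    _ ≤ ((Nat.sqrt (Nat.sqrt n) + 1) ^ 2) ^ 2 := Nat.pow_le_pow_left h3 2
    _ = _ := by ring

theorem m_le {n m : ℕ} (h : m ^ 4 ≤ n ^ 5) : m ≤ n * (qq n + 1) := by
  have h1 := lt_qq_succ_pow n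
  have h2 : m ^ 4 ≤ (n * (qq n + 1)) ^ 4 := by
    calc m ^ 4 ≤ n ^ 5 := h
      _ = n ^ 4 * n := by ring
      _ ≤ n ^ 4 * (qq n + 1) ^ 4 := Nat.mul_le_mul_left _ h1.le
      _ = _ := by ring
  exact (Nat.pow_le_pow_iff_left (by norm_num)).1 h2

theorem log_le_LL {n : ℕ} (hn : 1 ≤ n) : Real.log n ≤ LL n * Real.log 2 := by
  have h1 : (n : ℝ) ≤ (2 : ℝ) ^ LL n := by exact_mod_cast (lt_two_pow_LL n).le
  have h2 := Real.log_le_log (by exact_mod_cast hn) h1
  rwa [Real.log_pow] at h2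

theorem params_exist {n m : ℕ} (hn : 2 ^ 200 ≤ n) (hm : m ^ 4 ≤ n ^ 5) :
    Params n m (n / LL n) (n / LL n) (qq n * LL n) (qq n) (LL n ^ 2) (LL n) := by
  have hL := LL_ge hn
  have hq := qq_ge hn
  have hq4 := qq_pow_le n
  have hmq := m_le hm
  have hn2 := lt_two_pow_LL n
  clear hn
  set L := LL n with hLdef
  set q := qq n with hqdef
  have hL1 : 1 ≤ L := by omega
  have hLpow : L ≤ L ^ 4 := by
    calc L = L ^ 1 := (pow_one L).symm
      _ ≤ L ^ 4 := Nat.pow_le_pow_right hL1 (by norm_num)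
  have hL3pow : L ^ 3 ≤ L ^ 4 := Nat.pow_le_pow_right hL1 (by norm_num)
  have hq1 : 1 ≤ q := by omega
  have hqn : q ≤ n := by
    calc q = q ^ 1 := (pow_one q).symm
      _ ≤ q ^ 4 := Nat.pow_le_pow_right hq1 (by norm_num)
      _ ≤ n := hq4
  have hLn : L ≤ n := by omega
  have hnpos : 0 < n := by omega
  have hs0 : 1 ≤ n / L := (Nat.one_le_div_iff hL1).2 hLn
  refine ⟨hL1, hq1, ?_, hs0, le_rfl, ?_, ?_, ?_, ?_⟩
  · -- hns
    have hLR : (0 : ℝ) < L := by exact_mod_cast hL1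
    have h1 : Real.log (2 * n) ≤ L := by
      rw [Real.log_mul (by norm_num) (by exact_mod_cast hnpos.ne')]
      have h2 := log_le_LL (n := n) hnpos
      rw [← hLdef] at h2
      have h3 := Real.log_two_lt_d9
      have h5 : (201 : ℝ) ≤ L := by exact_mod_cast hL
      have h6 := mul_le_mul_of_nonneg_left h3.le hLR.le
      linarith
    rw [div_mul_eq_mul_div, div_le_iff₀ hLR]
    exact mul_le_mul_of_nonneg_left h1 (Nat.cast_nonneg n)
  · -- hs1
    rw [Nat.le_div_iff_mul_le hL1]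
    calc L ^ 2 * L = L ^ 3 := by ring
      _ ≤ L ^ 4 := hL3pow
      _ ≤ n := by omega
  · -- hpairs
    have h1 : n < L * (n / L + 1) := Nat.lt_mul_div_succ n hL1
    have h2 : n ≤ 2 * L * (n / L) := by nlinarith
    have h3 : m / (n / L) ≤ 2 * L * (q + 1) := by
      apply Nat.div_le_of_le_mul
      calc m ≤ n * (q + 1) := hmq
        _ ≤ 2 * L * (n / L) * (q + 1) := Nat.mul_le_mul_right _ h2
        _ = _ := by ring
    have h4 : q + 1 ≤ 2 * q := by omega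
    rw [Nat.le_div_iff_mul_le hL1]
    calc q * L * (m / (n / L)) ^ 2 * L ≤ q * L * (2 * L * (q + 1)) ^ 2 * L := by
          gcongr
      _ ≤ q * L * (2 * L * (2 * q)) ^ 2 * L := by gcongr
      _ = 16 * L ^ 4 * q ^ 3 := by ring
      _ ≤ 32 * L ^ 4 * q ^ 3 := by
          apply Nat.mul_le_mul_right
          omega
      _ ≤ q * q ^ 3 := Nat.mul_le_mul_right _ hq
      _ = q ^ 4 := by ring
      _ ≤ n := hq4
  · -- hh
    have hqR : (0 : ℝ) < q := by exact_mod_cast hq1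
    have h1 : (1 - 1 / (q : ℝ)) ^ q ≤ Real.exp (-1) :=
      Real.one_sub_div_pow_le_exp_neg (by exact_mod_cast hq1)
    have h2 : Real.exp (-1) ≤ 1 / 2 := by
      rw [Real.exp_neg]
      have := Real.exp_one_gt_d9
      rw [inv_eq_one_div]
      apply one_div_le_one_div_of_le (by norm_num)
      linarith
    have h0 : (0 : ℝ) ≤ 1 - 1 / (q : ℝ) := by
      rw [sub_nonneg, div_le_one hqR]
      exact_mod_cast hq1
    have h3 : (1 - 1 / (q : ℝ)) ^ (q * L) ≤ (1 / 2) ^ L := by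
      rw [pow_mul]
      exact pow_le_pow_left₀ (pow_nonneg h0 _) (h1.trans h2) L
    have h4 : (n : ℝ) < 2 ^ L := by exact_mod_cast hn2
    calc (n : ℝ) * (1 - 1 / (q : ℝ)) ^ (q * L) ≤ n * (1 / 2) ^ L :=
          mul_le_mul_of_nonneg_left h3 (Nat.cast_nonneg n)
      _ < 2 ^ L * (1 / 2) ^ L := mul_lt_mul_of_pos_right h4 (by positivity)
      _ = 1 := by rw [← mul_pow]; norm_num
  · -- hspread
    calc n ^ (L + 1) < (2 ^ L) ^ (L + 1) := Nat.pow_lt_pow_left hn2 (by omega)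
      _ = 2 ^ (L * (L + 1)) := by rw [← pow_mul]
      _ ≤ 2 ^ (2 * L ^ 2) := Nat.pow_le_pow_right (by norm_num) (by nlinarith)
      _ = 4 ^ (L ^ 2) := by rw [pow_mul]; norm_num

theorem J_le_qq {n m K J : ℕ} (hn : 2 ^ 200 ≤ n) (hm : m ^ 4 ≤ n ^ 5) (hm1 : 1 ≤ m) (hK : 4 ≤ K)
    (hK8 : K ^ 8 < n) (hJ : (J : ℝ) ≤ 700 * K * Real.log m / Real.log K) : J ≤ qq n := by
  have hL := LL_ge hn
  have hq := qq_ge hn
  have hnpos : 1 ≤ n := Nat.one_le_two_pow.trans hn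
  have hlog := log_le_LL hnpos
  have hlt := lt_qq_succ_pow n
  clear hn
  set L := LL n with hLdef
  set q := qq n with hqdef
  have hKq : K ^ 2 ≤ q := by
    have h1 : (K ^ 2) ^ 4 < (q + 1) ^ 4 := by
      calc (K ^ 2) ^ 4 = K ^ 8 := by ring
        _ < n := hK8
        _ < (q + 1) ^ 4 := hlt
    have := lt_of_pow_lt_pow_left₀ 4 (Nat.zero_le _) h1
    omega
  have hlogm : Real.log m ≤ 5 / 4 * Real.log n := by
    have h1 : ((m : ℝ)) ^ 4 ≤ (n : ℝ) ^ 5 := by exact_mod_cast hm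
    have h2 := Real.log_le_log (by positivity) h1
    rw [Real.log_pow, Real.log_pow] at h2
    push_cast at h2
    linarith
  have hlogK : 1 ≤ Real.log K := by
    have h1 : Real.log 4 ≤ Real.log K := Real.log_le_log (by norm_num) (by exact_mod_cast hK)
    have h2 : Real.log 4 = 2 * Real.log 2 := by
      rw [show (4 : ℝ) = 2 ^ 2 by norm_num, Real.log_pow]
      norm_num
    have h3 := Real.log_two_gt_d9
    linarith
  have hlogm0 : 0 ≤ Real.log m := Real.log_nonneg (by exact_mod_cast hm1)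
  have hlog2 : Real.log n ≤ L := by
    have h3 := Real.log_two_lt_d9
    have h5 : (0 : ℝ) ≤ L := Nat.cast_nonneg L
    have h6 := mul_le_mul_of_nonneg_left h3.le h5
    linarith
  have hJ2 : (J : ℝ) ≤ 875 * K * L := by
    calc (J : ℝ) ≤ 700 * K * Real.log m / Real.log K := hJ
      _ ≤ 700 * K * Real.log m / 1 := by
          apply div_le_div_of_nonneg_left (by positivity) (by norm_num) hlogK
      _ ≤ 700 * K * (5 / 4 * L) := by
          rw [div_one]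
          apply mul_le_mul_of_nonneg_left _ (by positivity)
          linarith
      _ = 875 * K * L := by ring
  have hJ3 : J ≤ 875 * K * L := by exact_mod_cast hJ2
  have h4 : J ^ 2 ≤ q ^ 2 := by
    calc J ^ 2 ≤ (875 * K * L) ^ 2 := Nat.pow_le_pow_left hJ3 2
      _ = 765625 * L ^ 2 * K ^ 2 := by ring
      _ ≤ 765625 * L ^ 2 * q := Nat.mul_le_mul_left _ hKq
      _ ≤ q * q := by
          apply Nat.mul_le_mul_right
          refine le_trans ?_ hq
          have h5 : 201 ^ 2 ≤ L ^ 2 := Nat.pow_le_pow_left hL 2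
          calc 765625 * L ^ 2 ≤ 32 * 201 ^ 2 * L ^ 2 := Nat.mul_le_mul_right _ (by norm_num)
            _ ≤ 32 * L ^ 2 * L ^ 2 := by gcongr
            _ = 32 * L ^ 4 := by ring
      _ = q ^ 2 := by ring
  exact (Nat.pow_le_pow_iff_left (by norm_num)).1 h4

end RC
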