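import Pool.Agent.H27.RC.Count
import Pool.Agent.H27.RC.Growth2
import Pool.Agent.H27.RC.BadSeeds

/-!
# From a regular set to a code
-/

open Finset
open scoped Pointwise Classical

namespace RC

variable {n : ℕ}

/-- representatives of few classes -/
theorem exists_reps {A : Finset (Equiv.Perm (Fin n))} {s : ℕ → Equiv.Perm (Fin n)} {J m z : ℕ}
    {v : Fin m → Equiv.Perm (Fin n)} (hA : ∀ y, y ∈ A ↔ ∃ i, v i = y)
    {par : Fin m → Option (Fin m × Fin J × Fin J)}
    (hc : ∀ i i', conn A s J (v i) (v i') ↔ pconn par J i i')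
    (hne : (bigset A s J).Nonempty)
    {inst : DecidableEq (Finset (Equiv.Perm (Fin n)))}
    (hcl : (@Finset.image _ _ inst (cls A s J) (bigset A s J)).card ≤ z) :
    ∃ Z : Fin z → Fin m, bigset A s J = (univ.filter fun i => ∃ c, pconn par J i (Z c)).image v := by
  -- surjection from `Fin z` to the classes
  have hbA : bigset A s J ⊆ A := Finset.filter_subset _ _
  set C := @Finset.image _ _ inst (cls A s J) (bigset A s J) with hC
  obtain ⟨e⟩ : Nonempty (C ↪ Fin z) := by
    apply Function.Embedding.nonempty_of_card_le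
    simpa using hcl
  have hCne : C.Nonempty := hne.image _
  haveI : Nonempty C := hCne.to_subtype
  have hsurj := Function.invFun_surjective e.injective
  have hrep : ∀ c : C, ∃ i : Fin m, v i ∈ bigset A s J ∧ cls A s J (v i) = c := by
    rintro ⟨c, hc⟩
    simp only [hC, mem_image] at hc
    obtain ⟨y, hy, rfl⟩ := hc
    obtain ⟨i, rfl⟩ := (hA y).1 (hbA hy)
    exact ⟨i, hy, rfl⟩
  choose rp hrp1 hrp2 using hrep
  refine ⟨fun c => rp (Function.invFun e c), ?_⟩
  ext y
  simp only [mem_image, mem_filter, mem_univ, true_and]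
  constructor
  · intro hy
    obtain ⟨i, rfl⟩ := (hA y).1 (hbA hy)
    refine ⟨i, ?_, rfl⟩
    have hcC : cls A s J (v i) ∈ C := mem_image_of_mem _ hy
    obtain ⟨c, hc'⟩ := hsurj ⟨_, hcC⟩
    refine ⟨c, ?_⟩
    rw [← hc]
    have h2 := hrp2 (Function.invFun e c)
    have h2' : ((Function.invFun e c : C) : Finset (Equiv.Perm (Fin n))) = cls A s J (v i) := by
      rw [hc']
    have h3 : v (rp (Function.invFun e c)) ∈ cls A s J (v i) := by
      rw [← h2', ← h2]
      simp only [cls, mem_filter]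
      exact ⟨hbA (hrp1 _), (conn A s J).refl _⟩
    simp only [cls, mem_filter] at h3
    exact h3.2
  · rintro ⟨i, ⟨c, hc'⟩, rfl⟩
    rw [← hc] at hc'
    have h1 := bigset_closed A s J (hrp1 (Function.invFun e c))
    apply h1
    simp only [cls, mem_filter]
    exact ⟨(hA _).2 ⟨i, rfl⟩, (conn A s J).symm hc'⟩

theorem ApSet_card {A : Finset (Equiv.Perm (Fin n))} {m : ℕ} {v : Fin m → Equiv.Perm (Fin n)}
    (hv : Function.Injective v) (hA : ∀ y, y ∈ A ↔ ∃ i, v i = y) (p : Equiv.Perm (Fin n)) :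
    (ApSet v p).card = (A.filter fun y => p * y ∈ A).card := by
  apply Finset.card_bij (fun i _ => v i)
  · intro i hi
    simp only [ApSet, mem_filter, mem_univ, true_and] at hi ⊢
    exact ⟨(hA _).2 ⟨i, rfl⟩, (hA _).2 hi⟩
  · intro i _ i' _ h
    exact hv h
  · intro y hy
    simp only [mem_filter] at hy
    obtain ⟨h1, h2⟩ := hy
    obtain ⟨i, rfl⟩ := (hA y).1 h1
    refine ⟨i, ?_, rfl⟩
    simp only [ApSet, mem_filter, mem_univ, true_and]
    exact (hA _).1 h2

theorem pconn_mono {m J : ℕ} (par : Fin m → Option (Fin m × Fin J × Fin J)) (j : ℕ) :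
    pconn par j ≤ pconn par (j + 1) := by
  intro i i' h
  exact Relation.EqvGen.mono (fun _ _ ⟨k, l, h1, h2, h3⟩ =>
    ⟨k, l, h1, h2.trans (Nat.lt_succ_self _), h3.trans (Nat.lt_succ_self _)⟩) _ _ h

theorem bigset_mem_allSets {K t m J s1 : ℕ} {A : Finset (Equiv.Perm (Fin n))}
    (hReg : Reg A K t) (hm : A.card = m) (hK : 1 ≤ K)
    {s : ℕ → Equiv.Perm (Fin n)}
    (hb : A.card ≤ 2 * (bigset A s J).card) {Y X X2 : ℝ}
    (hY : ∑ j ∈ range J, (numCls A s j : ℝ) / (K + j) ≤ Y)
    (hX2 : m * (Real.log 4 + 2 * Real.log K) + 6 * Y ≤ X2)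
    (hsteps : ∀ (v : Fin m → Equiv.Perm (Fin n)) (par : Fin m → Option (Fin m × Fin J × Fin J)),
      Function.Injective v → (∀ y, y ∈ A ↔ ∃ i, v i = y) →
      (∀ j ≤ J, ∀ i i', conn A s j (v i) (v i') ↔ pconn par j i i') →
      ∃ steps : Fin J → Option (Fin J × SInfo (Fin m)),
        StepsOK (pconn par) v (ext fun j : Fin J => s j) s1 steps ∧
        ∑ j, - Real.log (wt (pconn par) v (ext fun j : Fin J => s j) steps j) ≤ X) :
    bigset A s J ∈ allSets n m J K (4 * K) s1 X X2 := by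
  obtain ⟨v, par, hv, hA, hpar, hmono, hc⟩ := forest_exists A s J m hm
  have hA' : ∀ y, y ∈ A ↔ ∃ i, v i = y := by
    intro y
    rw [← hA]
    simp
  obtain ⟨steps, hst, hcost⟩ := hsteps v par hv hA' hc
  have hmpos : 0 < A.card := hReg.ne.card_pos
  have hbne : (bigset A s J).Nonempty := by
    apply Finset.card_pos.1
    omega
  obtain ⟨Z, hZ⟩ := exists_reps (z := 4 * K) hA' (hc J le_rfl) hbne
    (bigset_classes hReg s J)
  have hlab := label_weight K hK (fun j => numCls A s j) par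
    (fun j hj => late_edges hm hv hA hc j hj.le)
  unfold allSets
  rw [mem_biUnion]
  refine ⟨(par, steps, Z), ?_, ?_⟩
  · rw [Finset.mem_product, Finset.mem_product]
    refine ⟨?_, ?_, mem_univ _⟩
    · simp only [parCodes, mem_filter, mem_univ, true_and]
      refine ⟨hmono, le_trans ?_ hlab⟩
      apply Real.exp_le_exp.2
      linarith
    · simp only [stepCodes, Fintype.mem_piFinset, mem_filter, mem_univ, true_and]
      intro j k σ hj
      exact (hst j k σ hj).2.2
  · simp only [codeSets, mem_filter, mem_univ, true_and]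
    refine ⟨fun j => s j, v, ⟨?_, hst, ?_⟩, hZ⟩
    · intro i u k l hp
      rw [ext_coe, ext_coe]
      exact hpar i u k l hp
    · have h1 : Real.log (∏ j, wt (pconn par) v (ext fun j : Fin J => s j) steps j) =
          ∑ j, Real.log (wt (pconn par) v (ext fun j : Fin J => s j) steps j) := by
        apply Real.log_prod
        intro j _
        exact (wt_pos _ _ _ _ _).ne'
      have h2 : 0 < ∏ j, wt (pconn par) v (ext fun j : Fin J => s j) steps j :=
        Finset.prod_pos fun j _ => wt_pos _ _ _ _ _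
      rw [← Real.log_le_log_iff (Real.exp_pos _) h2, Real.log_exp, h1]
      rw [Finset.sum_neg_distrib] at hcost
      linarith

/-- the step information for all steps at full cost -/
theorem steps_full {m J : ℕ} (v : Fin m → Equiv.Perm (Fin n)) (r : ℕ → Setoid (Fin m))
    (a : ℕ → Equiv.Perm (Fin n)) :
    ∃ steps : Fin J → Option (Fin J × SInfo (Fin m)), StepsOK r v a 0 steps ∧
      ∑ j, - Real.log (wt r v a steps j) ≤ J * Real.log n.factorial := by
  refine ⟨fun _ => none, ?_, ?_⟩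
  · intro j k σ h
    exact absurd h (by simp)
  · have : ∀ j : Fin J, - Real.log (wt r v a (fun _ => none) j) = Real.log n.factorial := by
      intro j
      unfold wt
      rw [Real.log_div one_ne_zero (by exact_mod_cast n.factorial_pos.ne'), Real.log_one]
      ring
    rw [Finset.sum_congr rfl fun j _ => this j]
    simp

theorem mem_full {K t m J : ℕ} {A : Finset (Equiv.Perm (Fin n))}
    (hReg : Reg A K t) (hm : A.card = m) (hK : 1 ≤ K) {s : ℕ → Equiv.Perm (Fin n)}
    (hb : A.card ≤ 2 * (bigset A s J).card) {Y X X2 : ℝ}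
    (hY : ∑ j ∈ range J, (numCls A s j : ℝ) / (K + j) ≤ Y)
    (hX2 : m * (Real.log 4 + 2 * Real.log K) + 6 * Y ≤ X2)
    (hX : J * Real.log n.factorial ≤ X) :
    bigset A s J ∈ allSets n m J K (4 * K) 0 X X2 := by
  apply bigset_mem_allSets hReg hm hK hb hY hX2
  intro v par _ _ _
  obtain ⟨steps, h1, h2⟩ := steps_full (J := J) v (pconn par) (ext fun j : Fin J => s j)
  exact ⟨steps, h1, h2.trans hX⟩

theorem mem_cheap {K t m J : ℕ} (hn : 0 < n) {A : Finset (Equiv.Perm (Fin n))}
    (hReg : Reg A K t) (hm : A.card = m) (hK : 1 ≤ K) {s : ℕ → Equiv.Perm (Fin n)}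
    (hs : ∀ k, s k ∈ A)
    (hb : A.card ≤ 2 * (bigset A s J).card) {Y X X2 : ℝ}
    (hY : ∑ j ∈ range J, (numCls A s j : ℝ) / (K + j) ≤ Y)
    (hX2 : m * (Real.log 4 + 2 * Real.log K) + 6 * Y ≤ X2)
    {s0 s1 h g ss s' : ℕ} (hP : Params n m s0 s1 h g ss s') (hJg : J ≤ g)
    (hX : 948 * K * Real.log n.factorial + J * (n * (8 * Real.log (205 * K) + 8)) +
        3280 * K * n * Real.log m + Real.log (2 * n) * (3280 * K * n + n) ≤ X) :
    bigset A s J ∈ allSets n m J K (4 * K) s1 X X2 := by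
  apply bigset_mem_allSets hReg hm hK hb hY hX2
  intro v par hv hA hc
  have hmpos : 0 < m := by
    rw [← hm]
    exact hReg.ne.card_pos
  obtain ⟨E, hE1, hE2, hE3⟩ := bad_seeds hReg s hs J
  have hp : ∀ j < J, ∀ k < j, ∀ i i', v i' = ((ext fun j : Fin J => s j) j *
      ((ext fun j : Fin J => s j) k)⁻¹) * v i → pconn par (j + 1) i i' := by
    intro j hj k hk i i' hii
    rw [ext_apply _ hj, ext_apply _ (hk.trans hj)] at hii
    rw [← hc (j + 1) hj]
    apply Relation.EqvGen.symm
    apply Relation.EqvGen.rel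
    refine ⟨?_, ?_, j, Nat.lt_succ_self _, k, hk.trans (Nat.lt_succ_self _), ?_⟩
    · exact (hA _).2 ⟨_, rfl⟩
    · exact (hA _).2 ⟨_, rfl⟩
    · rw [hii]; group
  have hE4 : ∀ j < J, j ∉ E → ∃ k < j, m ≤ 205 * K *
      (ApSet v ((ext fun j : Fin J => s j) j * ((ext fun j : Fin J => s j) k)⁻¹)).card := by
    intro j hj hjE
    obtain ⟨k, hk1, hk2⟩ := hE3 j hj hjE
    refine ⟨k, hk1, ?_⟩
    rw [ext_apply _ hj, ext_apply _ (hk1.trans hj), ApSet_card hv hA, ← hm]
    convert hk2
  obtain ⟨steps, h1, h2⟩ := steps_exist (J := J) hmpos hv hn (ext fun j : Fin J => s j)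
    (pconn par) (pconn_mono par) hp hP K hK E hE2 hE4 hJg
  exact ⟨steps, h1, h2.trans hX⟩

end RC
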