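import Pool.Agent.H27.RC.Defs

/-!
# Sampling lemmas (module RC-SAMPLE)

`sample_order`. Count the functions `σ : Fin h → Q`. For a fixed `x`, call `i ∈ Q` high if
`g * #{i' ∈ Q | f x i' < f x i} > |Q|`. If there are high elements, let `i₀` be a high element with the least
value of `f x`; the set `{i' | f x i' < f x i₀}` has more than `|Q| / g` elements, none of them high.
So the number of high elements is at most `|Q| (1 - 1/g)`. If `σ` is bad for `x` (i.e.
`g * #{i ∈ Q | ∀ a, f x i < f x (σ a)} > |Q|`) then all `σ a` are high. So at most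
`(|Q| (1 - 1 / g)) ^ h` functions are bad for `x`, in total fewer than `|Q| ^ h`.

`sample_spread`. For a fixed `x`, if `σ` is bad, let `B` be the image of `a ↦ f x (σ a)`, so
`|B| < s'`, `4 * |B| * mx < |Q|` and all `σ a` lie in `{i ∈ Q | f x i ∈ B}` which has at most
`|B| * mx < |Q| / 4` elements. There are at most `n ^ s'` nonempty sets `B ⊆ Fin n` of
size `≤ s'` (images of functions `Fin s' → Fin n`; `s > 0` so `B` is nonempty; note `n ^ (s'+1) < 4 ^ s`
forces `s > 0` if `n > 0`, and for `n = 0` the statement is trivial). So fewer than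
`n * n ^ s' * (|Q| / 4) ^ s ≤ |Q| ^ s` functions are bad.
-/

open Finset
open scoped Classical

namespace RC

/-- elements of `Q` with many smaller elements. -/
private theorem high_card {V : Type*} [Fintype V] (Q : Finset V) (f : V → ℕ) (g : ℕ) (hg : 1 ≤ g) :
    ((Q.filter fun i => Q.card < g * (Q.filter fun i' => f i' < f i).card).card : ℝ) ≤
      Q.card * (1 - 1 / (g : ℝ)) := by
  have hg' : (1 : ℝ) ≤ g := by exact_mod_cast hg
  have hg0 : (0 : ℝ) < g := by linarith
  set H := Q.filter fun i => Q.card < g * (Q.filter fun i' => f i' < f i).card with hH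
  rcases H.eq_empty_or_nonempty with h0 | hne
  · rw [h0]
    simp only [card_empty, Nat.cast_zero]
    apply mul_nonneg (by positivity)
    rw [sub_nonneg, div_le_one hg0]
    exact hg'
  · obtain ⟨i₀, hi₀, hmin⟩ := H.exists_min_image f hne
    set L := Q.filter fun i' => f i' < f i₀ with hL
    have hdisj : Disjoint H L := by
      rw [Finset.disjoint_left]
      intro i hiH hiL
      have h1 := hmin i hiH
      have h2 := (Finset.mem_filter.1 hiL).2
      omega
    have hsub : H ∪ L ⊆ Q := by
      intro i hi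
      rcases Finset.mem_union.1 hi with h | h
      · exact (Finset.mem_filter.1 h).1
      · exact (Finset.mem_filter.1 h).1
    have hc : H.card + L.card ≤ Q.card := by
      rw [← Finset.card_union_of_disjoint hdisj]
      exact Finset.card_le_card hsub
    have hbig : Q.card < g * L.card := (Finset.mem_filter.1 hi₀).2
    have hc' : (H.card : ℝ) + L.card ≤ Q.card := by exact_mod_cast hc
    have hbig' : (Q.card : ℝ) < g * L.card := by exact_mod_cast hbig
    have h3 : (Q.card : ℝ) / g < L.card := by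
      rw [div_lt_iff₀ hg0]
      linarith
    have h4 : (Q.card : ℝ) * (1 - 1 / (g : ℝ)) = Q.card - Q.card / g := by ring
    rw [h4]
    linarith

theorem sample_order {V : Type*} [Fintype V] {n : ℕ} (Q : Finset V) (hQ : Q.Nonempty)
    (f : Fin n → V → ℕ) (h g : ℕ) (hg : 1 ≤ g) (hh : (n : ℝ) * (1 - 1 / (g : ℝ)) ^ h < 1) :
    ∃ σ : Fin h → V, (∀ a, σ a ∈ Q) ∧
      ∀ x : Fin n, g * (Q.filter fun i => ∀ a, f x i < f x (σ a)).card ≤ Q.card := by
  by_contra hcon
  push Not at hcon
  set H : Fin n → Finset V := fun x =>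
    Q.filter fun i => Q.card < g * (Q.filter fun i' => f x i' < f x i).card with hH
  have hsub : (Fintype.piFinset fun _ : Fin h => Q) ⊆
      (univ : Finset (Fin n)).biUnion fun x => Fintype.piFinset fun _ : Fin h => H x := by
    intro σ hσ
    rw [Fintype.mem_piFinset] at hσ
    obtain ⟨x, hx⟩ := hcon σ hσ
    rw [Finset.mem_biUnion]
    refine ⟨x, Finset.mem_univ _, ?_⟩
    rw [Fintype.mem_piFinset]
    intro a
    rw [hH, Finset.mem_filter]
    refine ⟨hσ a, lt_of_lt_of_le hx ?_⟩
    apply Nat.mul_le_mul_left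
    apply Finset.card_le_card
    intro i hi
    rw [Finset.mem_filter] at hi ⊢
    exact ⟨hi.1, hi.2 a⟩
  have h1 := (Finset.card_le_card hsub).trans Finset.card_biUnion_le
  rw [Fintype.card_piFinset_const] at h1
  simp only [Fintype.card_piFinset_const] at h1
  have h2 : ((Q.card : ℝ)) ^ h ≤ ∑ x : Fin n, ((H x).card : ℝ) ^ h := by exact_mod_cast h1
  have h3 : ∑ x : Fin n, ((H x).card : ℝ) ^ h ≤
      ∑ _x : Fin n, (Q.card * (1 - 1 / (g : ℝ))) ^ h := by
    apply Finset.sum_le_sum
    intro x _
    apply pow_le_pow_left₀ (by positivity)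
    exact high_card Q (f x) g hg
  rw [Finset.sum_const, Finset.card_univ, Fintype.card_fin, nsmul_eq_mul, mul_pow] at h3
  have hQ0 : (0 : ℝ) < Q.card := by exact_mod_cast hQ.card_pos
  have hQh : (0 : ℝ) < (Q.card : ℝ) ^ h := by positivity
  have h4 : (n : ℝ) * ((Q.card : ℝ) ^ h * (1 - 1 / (g : ℝ)) ^ h) < (Q.card : ℝ) ^ h := by
    calc (n : ℝ) * ((Q.card : ℝ) ^ h * (1 - 1 / (g : ℝ)) ^ h)
        = (Q.card : ℝ) ^ h * ((n : ℝ) * (1 - 1 / (g : ℝ)) ^ h) := by ring
      _ < (Q.card : ℝ) ^ h * 1 := by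
          apply mul_lt_mul_of_pos_left hh hQh
      _ = (Q.card : ℝ) ^ h := mul_one _
  linarith

private theorem exists_image_eq {n s' : ℕ} (B : Finset (Fin n)) (hB : B.Nonempty)
    (hc : B.card ≤ s') : ∃ φ : Fin s' → Fin n, univ.image φ = B := by
  have h1 : Fintype.card B ≤ Fintype.card (Fin s') := by simpa using hc
  obtain ⟨e⟩ := Function.Embedding.nonempty_of_card_le h1
  have hne : Nonempty B := hB.to_subtype
  obtain ⟨g, hg⟩ : ∃ g : Fin s' → B, Function.Surjective g :=
    ⟨Function.invFun e, Function.invFun_surjective e.injective⟩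
  refine ⟨fun i => (g i : Fin n), ?_⟩
  ext b
  simp only [Finset.mem_image, Finset.mem_univ, true_and]
  constructor
  · rintro ⟨i, rfl⟩
    exact (g i).2
  · intro hb
    obtain ⟨i, hi⟩ := hg ⟨b, hb⟩
    exact ⟨i, by rw [hi]⟩

private theorem filter_mem_card {V : Type*} [Fintype V] {n : ℕ} (Q : Finset V) (f : V → Fin n)
    (B : Finset (Fin n)) : (Q.filter fun i => f i ∈ B).card ≤ B.card * mx f Q := by
  have h1 : (Q.filter fun i => f i ∈ B) ⊆ B.biUnion fun ℓ => Q.filter fun i => f i = ℓ := by
    intro i hi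
    rw [Finset.mem_filter] at hi
    rw [Finset.mem_biUnion]
    exact ⟨f i, hi.2, by rw [Finset.mem_filter]; exact ⟨hi.1, rfl⟩⟩
  refine (Finset.card_le_card h1).trans (Finset.card_biUnion_le_card_mul _ _ _ ?_)
  intro ℓ _
  have h2 := Finset.le_sup (f := fun ℓ => (Q.filter fun i => f i = ℓ).card) (Finset.mem_univ ℓ)
  unfold mx
  refine h2.trans (le_of_eq ?_)
  congr 1
  funext ℓ'
  congr

theorem sample_spread {V : Type*} [Fintype V] {n : ℕ} (Q : Finset V) (hQ : Q.Nonempty)
    (f : Fin n → V → Fin n) (s s' : ℕ) (hs : n ^ (s' + 1) < 4 ^ s) :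
    ∃ σ : Fin s → V, (∀ a, σ a ∈ Q) ∧
      ∀ x : Fin n, s' ≤ (univ.image fun a => f x (σ a)).card ∨
        Q.card ≤ 4 * (univ.image fun a => f x (σ a)).card * mx (f x) Q := by
  by_contra hcon
  push Not at hcon
  set T : Fin n × (Fin s' → Fin n) → Finset V := fun q =>
    if 4 * (univ.image q.2).card * mx (f q.1) Q < Q.card then
      Q.filter fun i => f q.1 i ∈ univ.image q.2 else ∅ with hT
  have hT4 : ∀ q, 4 * (T q).card ≤ Q.card := by
    intro q
    rw [hT]
    dsimp only
    split_ifs with hq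
    · have := filter_mem_card Q (f q.1) (univ.image q.2)
      calc 4 * (Q.filter fun i => f q.1 i ∈ univ.image q.2).card
          ≤ 4 * ((univ.image q.2).card * mx (f q.1) Q) := Nat.mul_le_mul_left _ this
        _ = 4 * (univ.image q.2).card * mx (f q.1) Q := by ring
        _ ≤ Q.card := hq.le
    · simp
  have hsub : (Fintype.piFinset fun _ : Fin s => Q) ⊆
      (univ : Finset (Fin n × (Fin s' → Fin n))).biUnion
        fun q => Fintype.piFinset fun _ : Fin s => T q := by
    intro σ hσ
    rw [Fintype.mem_piFinset] at hσ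
    obtain ⟨x, hx1, hx2⟩ := hcon σ hσ
    have hn : 0 < n := Fin.pos x
    have hs0 : 0 < s := by
      rcases Nat.eq_zero_or_pos s with h0 | h0
      · subst h0
        have : 1 ≤ n ^ (s' + 1) := Nat.one_le_pow _ _ hn
        simp at hs
        omega
      · exact h0
    set B := univ.image fun a => f x (σ a) with hB
    have hBne : B.Nonempty := by
      rw [hB, Finset.image_nonempty]
      exact ⟨⟨0, hs0⟩, Finset.mem_univ _⟩
    obtain ⟨φ, hφ⟩ := exists_image_eq B hBne hx1.le
    rw [Finset.mem_biUnion]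
    refine ⟨(x, φ), Finset.mem_univ _, ?_⟩
    rw [Fintype.mem_piFinset]
    intro a
    rw [hT]
    dsimp only
    rw [hφ, if_pos hx2, Finset.mem_filter]
    refine ⟨hσ a, ?_⟩
    rw [hB]
    exact Finset.mem_image_of_mem (fun a => f x (σ a)) (Finset.mem_univ a)
  have h1 := (Finset.card_le_card hsub).trans Finset.card_biUnion_le
  rw [Fintype.card_piFinset_const] at h1
  simp only [Fintype.card_piFinset_const] at h1
  have h2 : 4 ^ s * Q.card ^ s ≤ ∑ q : Fin n × (Fin s' → Fin n), (4 * (T q).card) ^ s := by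
    calc 4 ^ s * Q.card ^ s ≤ 4 ^ s * ∑ q : Fin n × (Fin s' → Fin n), (T q).card ^ s :=
          Nat.mul_le_mul_left _ h1
      _ = ∑ q : Fin n × (Fin s' → Fin n), (4 * (T q).card) ^ s := by
          rw [Finset.mul_sum]
          apply Finset.sum_congr rfl
          intro q _
          rw [mul_pow]
  have h3 : ∑ q : Fin n × (Fin s' → Fin n), (4 * (T q).card) ^ s ≤
      ∑ _q : Fin n × (Fin s' → Fin n), Q.card ^ s :=
    Finset.sum_le_sum fun q _ => Nat.pow_le_pow_left (hT4 q) s
  rw [Finset.sum_const, Finset.card_univ, Fintype.card_prod, Fintype.card_fin,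
    Fintype.card_fun, Fintype.card_fin, Fintype.card_fin, smul_eq_mul, ← pow_succ'] at h3
  have hQ0 : 0 < Q.card ^ s := by
    have := hQ.card_pos
    positivity
  have h4 : n ^ (s' + 1) * Q.card ^ s < 4 ^ s * Q.card ^ s := Nat.mul_lt_mul_of_pos_right hs hQ0
  omega

end RC
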