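import Mathlib

/-!
# Sequential weight lemma (module RC-SEQ)

Proof. Claim: for `i ≤ J` and `T ⊆ S` all of whose elements agree on the indices `< i`,
`∑ x ∈ T, ∏ l ∈ Ico i J, ω l x ≤ 1`. Backward induction on `i`. For `i = J`, `T` has at most one
element and the product is empty. For `i < J`, split `T` by the value `f x i`; the elements of each
part agree on the indices `< i + 1`; in each part choose `x` with the largest `ω i x`; these `x`
form a set as in `h`. So the sum is at most `∑ (chosen x), ω i x * 1 ≤ 1`.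
-/

open Finset

namespace RC

theorem seq_weight {ι α : Type*} (J : ℕ) (S : Finset ι) (f : ι → ℕ → α) (ω : ℕ → ι → ℝ)
    (hω : ∀ i, ∀ x ∈ S, 0 ≤ ω i x)
    (hinj : ∀ x ∈ S, ∀ y ∈ S, (∀ l < J, f x l = f y l) → x = y)
    (h : ∀ i < J, ∀ T ⊆ S, (∀ x ∈ T, ∀ y ∈ T, ∀ l < i, f x l = f y l) →
      (∀ x ∈ T, ∀ y ∈ T, f x i = f y i → x = y) → ∑ x ∈ T, ω i x ≤ 1) :
    ∑ x ∈ S, ∏ i ∈ range J, ω i x ≤ 1 := by
  classical
  have key : ∀ k i, i + k = J → ∀ T ⊆ S, (∀ x ∈ T, ∀ y ∈ T, ∀ l < i, f x l = f y l) →
      ∑ x ∈ T, ∏ l ∈ Ico i J, ω l x ≤ 1 := by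
    intro k
    induction k with
    | zero =>
      intro i hi T hT hag
      obtain rfl : i = J := by omega
      have hcard : T.card ≤ 1 := by
        rw [card_le_one]
        intro x hx y hy
        exact hinj x (hT hx) y (hT hy) (hag x hx y hy)
      simp only [Ico_self, prod_empty, sum_const, nsmul_eq_mul, mul_one]
      exact_mod_cast hcard
    | succ k ih =>
      intro i hi T hT hag
      have hiJ : i < J := by omega
      rcases T.eq_empty_or_nonempty with rfl | ⟨x0, _⟩
      · simp
      have hne : Nonempty ι := ⟨x0⟩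
      set I : Finset α := T.image fun x => f x i with hI
      have hmax : ∀ a ∈ I, ∃ g ∈ T.filter (fun x => f x i = a),
          ∀ x ∈ T.filter (fun x => f x i = a), ω i x ≤ ω i g := by
        intro a ha
        obtain ⟨x, hx, hxa⟩ := mem_image.1 ha
        exact exists_max_image _ _ ⟨x, mem_filter.2 ⟨hx, hxa⟩⟩
      choose! g hg1 hg2 using hmax
      have hgT : ∀ a ∈ I, g a ∈ T ∧ f (g a) i = a := fun a ha => mem_filter.1 (hg1 a ha)
      have h1 : ∑ x ∈ T, ∏ l ∈ Ico i J, ω l x =
          ∑ a ∈ I, ∑ x ∈ T.filter (fun x => f x i = a), ∏ l ∈ Ico i J, ω l x :=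
        (sum_fiberwise_of_maps_to (fun x hx => mem_image_of_mem _ hx) _).symm
      have hpnn : ∀ x ∈ T, 0 ≤ ∏ l ∈ Ico (i + 1) J, ω l x := fun x hx =>
        prod_nonneg fun l _ => hω l x (hT hx)
      have h2 : ∀ a ∈ I, ∑ x ∈ T.filter (fun x => f x i = a), ∏ l ∈ Ico i J, ω l x ≤
          ω i (g a) := by
        intro a ha
        have hsub : T.filter (fun x => f x i = a) ⊆ S := (filter_subset _ _).trans hT
        have h3 := ih (i + 1) (by omega) (T.filter (fun x => f x i = a)) hsub (by
          intro x hx y hy l hl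
          rw [mem_filter] at hx hy
          rcases Nat.lt_succ_iff_lt_or_eq.1 hl with hl' | rfl
          · exact hag x hx.1 y hy.1 l hl'
          · rw [hx.2, hy.2])
        have hgnn : 0 ≤ ω i (g a) := hω i _ (hT (hgT a ha).1)
        calc ∑ x ∈ T.filter (fun x => f x i = a), ∏ l ∈ Ico i J, ω l x
            ≤ ∑ x ∈ T.filter (fun x => f x i = a), ω i (g a) * ∏ l ∈ Ico (i + 1) J, ω l x := by
              refine sum_le_sum fun x hx => ?_
              rw [prod_eq_prod_Ico_succ_bot hiJ]
              exact mul_le_mul_of_nonneg_right (hg2 a ha x hx) (hpnn x (mem_filter.1 hx).1)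
          _ = ω i (g a) * ∑ x ∈ T.filter (fun x => f x i = a), ∏ l ∈ Ico (i + 1) J, ω l x := by
              rw [mul_sum]
          _ ≤ ω i (g a) * 1 := mul_le_mul_of_nonneg_left h3 hgnn
          _ = ω i (g a) := mul_one _
      have hginj : ∀ a ∈ I, ∀ b ∈ I, g a = g b → a = b := by
        intro a ha b hb hab
        rw [← (hgT a ha).2, ← (hgT b hb).2, hab]
      calc ∑ x ∈ T, ∏ l ∈ Ico i J, ω l x ≤ ∑ a ∈ I, ω i (g a) := by
            rw [h1]; exact sum_le_sum h2
        _ = ∑ x ∈ I.image g, ω i x := by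
            rw [sum_image hginj]
        _ ≤ 1 := by
            have hsubT : I.image g ⊆ T := by
              intro x hx
              obtain ⟨a, ha, rfl⟩ := mem_image.1 hx
              exact (hgT a ha).1
            refine h i hiJ _ (hsubT.trans hT) ?_ ?_
            · intro x hx y hy l hl
              exact hag x (hsubT hx) y (hsubT hy) l hl
            · intro x hx y hy hxy
              obtain ⟨a, ha, rfl⟩ := mem_image.1 hx
              obtain ⟨b, hb, rfl⟩ := mem_image.1 hy
              rw [(hgT a ha).2, (hgT b hb).2] at hxy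
              rw [hxy]
  have := key J 0 (by omega) S (Subset.refl _) (by intro x _ y _ l hl; omega)
  simpa only [Nat.Ico_zero_eq_range] using this

end RC
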