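import Pool.Agent.H27.RC.Cost
import Pool.Agent.H27.RC.Far
import Pool.Agent.H27.RC.Sample
import Pool.Agent.H27.RC.Jensen

/-!
# The step lemma: a cheap step has small cost
-/

open Finset
open scoped Classical

namespace RC

variable {V : Type*} [Fintype V] {n : ℕ}

/-- the sources of `p`-edges -/
noncomputable def ApSet (v : V → Equiv.Perm (Fin n)) (p : Equiv.Perm (Fin n)) : Finset V :=
  univ.filter fun i => ∃ i', v i' = p * v i

/-- the pairs with the same classes at both ends -/
noncomputable def Qset (r : Setoid V) (Ap : Finset V) (τ : V → V) (y : V) : Finset V :=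
  Ap.filter fun i => r i y ∧ r (τ i) (τ y)

theorem csz_pos (r : Setoid V) (i : V) : 0 < csz r i := by
  unfold csz
  exact Finset.card_pos.2 ⟨i, by simp only [mem_filter, mem_univ, true_and]; exact r.refl i⟩

theorem csz_le (r : Setoid V) (i : V) : csz r i ≤ Fintype.card V := by
  unfold csz
  exact Finset.card_le_univ _

theorem csz_mono {r r' : Setoid V} (h : r ≤ r') (i : V) : csz r i ≤ csz r' i := by
  unfold csz
  apply Finset.card_le_card
  intro j hj
  simp only [mem_filter, mem_univ, true_and] at hj ⊢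
  exact h hj

theorem csz_congr {r : Setoid V} {i j : V} (h : r i j) : csz r i = csz r j := by
  unfold csz
  congr 1
  ext k
  simp only [mem_filter, mem_univ, true_and]
  exact ⟨fun hk => r.trans (r.symm h) hk, fun hk => r.trans h hk⟩

theorem step_core {v : V → Equiv.Perm (Fin n)} (hv : Function.Injective v) (hn : 0 < n)
    {r r' : Setoid V} (hle : r ≤ r') {p : Equiv.Perm (Fin n)}
    (hp : ∀ i i', v i' = p * v i → r' i i') (s1 g s' : ℕ) (hs' : 0 < s') (hg : 1 ≤ g)
    (hns : (n : ℝ) / s' * Real.log (2 * n) ≤ n)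
    (τ : V → V) (hτ : ∀ y ∈ ApSet v p, v (τ y) = p * v y)
    (Us : Finset V) (hUs : Us ⊆ ApSet v p) (hUne : Us.Nonempty)
    (hU4 : (ApSet v p).card ≤ 4 * Us.card)
    (U : V → V → Prop) (hU : ∀ i i', U i i' → v i' = p * v i)
    (hUcard : ∀ y ∈ Us, ((univ : Finset (V × V)).filter fun e => U e.1 e.2 ∧ r' e.1 y).card ≤ s1)
    (herr : g * ((Us ×ˢ (univ : Finset (Fin n))).filter fun e =>
        ¬ bcl r v p U (((v e.1 e.2 : Fin n) : ℕ) + 1) e.2 e.1 (τ e.1)).card ≤ n * Us.card)
    (hrel : ∀ y ∈ Us, ∃ rel : Finset (V × V), rel.card ≤ s1 ∧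
      (∀ e ∈ rel, e.1 ∈ Qset r (ApSet v p) τ y ∧ e.2 = τ e.1) ∧
      ∀ x : Fin n, s' ≤ (rel.image fun e => v e.1 x).card ∨
        (Qset r (ApSet v p) τ y).card ≤
          4 * (rel.image fun e => v e.1 x).card * mx (fun i => v i x) (Qset r (ApSet v p) τ y)) :
    ∃ σ : SInfo V, StepOK r r' v p σ ∧ σ.used.card ≤ s1 ∧ σ.rel.card ≤ s1 ∧
      - Real.log (stepWt r r' v p σ) ≤
        n * (8 * Real.log ((Fintype.card V : ℝ) / (ApSet v p).card) + 8) +
        16 * n / (ApSet v p).card * ∑ i, Real.log ((csz r' i : ℝ) / csz r i) +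
        Real.log (2 * n) * (16 / (ApSet v p).card * ((Phi r v : ℝ) - Phi r' v) + (n : ℝ) / g) := by
  set Ap := ApSet v p with hAp
  have hApne : Ap.Nonempty := hUne.mono hUs
  have hinjτ : Set.InjOn τ Ap := by
    intro a ha b hb hab
    have h1 := hτ a ha
    have h2 := hτ b hb
    rw [hab, h2] at h1
    exact hv (mul_left_cancel h1).symm
  have hτr' : ∀ y ∈ Ap, r' y (τ y) := fun y hy => hp _ _ (hτ y hy)
  have hU' : ∀ i i', U i i' → v i' = p * v i ∧ r' i i' := fun i i' h => ⟨hU i i' h, hp _ _ (hU i i' h)⟩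
  have hJ := jensen hle Ap hApne τ hinjτ hτr'
  have hF := far_sum hv hle hU' Us τ (fun y hy => hτ y (hUs hy))
  have hlog : 0 ≤ Real.log (2 * n) := by
    apply Real.log_nonneg
    have : (1 : ℝ) ≤ n := by exact_mod_cast hn
    linarith
  -- cost function
  set far : V → ℕ := fun y => (farSet r v p U y (τ y)).card with hfar
  set f : V → ℝ := fun y => (far y : ℝ) * Real.log (2 * n) +
    2 * n * Real.log ((csz r' y : ℝ) / (Qset r Ap τ y).card) with hf
  have hUpos : (0 : ℝ) < Us.card := by exact_mod_cast hUne.card_pos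
  have hAppos : (0 : ℝ) < Ap.card := by exact_mod_cast hApne.card_pos
  have hgpos : (0 : ℝ) < g := by exact_mod_cast hg
  have hQsub : ∀ y ∈ Ap, (Qset r Ap τ y).card ≤ csz r' y := by
    intro y _
    unfold Qset csz
    apply Finset.card_le_card
    intro i hi
    simp only [mem_filter, mem_univ, true_and] at hi ⊢
    exact r'.symm (hle hi.2.1)
  have hQpos : ∀ y ∈ Ap, 0 < (Qset r Ap τ y).card := by
    intro y hy
    apply Finset.card_pos.2
    exact ⟨y, by simp only [Qset, mem_filter]; exact ⟨hy, r.refl _, r.refl _⟩⟩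
  have hlogQ : ∀ y ∈ Ap, 0 ≤ Real.log ((csz r' y : ℝ) / (Qset r Ap τ y).card) := by
    intro y hy
    apply Real.log_nonneg
    rw [le_div_iff₀ (by exact_mod_cast hQpos y hy), one_mul]
    exact_mod_cast hQsub y hy
  have hsumlog : ∑ y ∈ Us, Real.log ((csz r' y : ℝ) / (Qset r Ap τ y).card) ≤
      Ap.card * Real.log ((Fintype.card V : ℝ) / Ap.card) +
        2 * ∑ i, Real.log ((csz r' i : ℝ) / csz r i) := by
    refine le_trans (Finset.sum_le_sum_of_subset_of_nonneg hUs ?_) hJ
    intro y hy _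
    exact hlogQ y hy
  have hfarsum : (∑ y ∈ Us, (far y : ℝ)) ≤ 4 * ((Phi r v : ℝ) - Phi r' v) + n * Us.card / g := by
    have e1 : (((Us ×ˢ (univ : Finset (Fin n))).filter fun e =>
        ¬ bcl r v p U (((v e.1 e.2 : Fin n) : ℕ) + 1) e.2 e.1 (τ e.1)).card : ℝ) ≤
        n * Us.card / g := by
      rw [le_div_iff₀ hgpos, mul_comm]
      exact_mod_cast herr
    have e2 : ((∑ y ∈ Us, far y : ℕ) : ℝ) + 4 * (Phi r' v : ℝ) ≤ 4 * (Phi r v : ℝ) +
      (((Us ×ˢ (univ : Finset (Fin n))).filter fun e =>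
        ¬ bcl r v p U (((v e.1 e.2 : Fin n) : ℕ) + 1) e.2 e.1 (τ e.1)).card : ℝ) := by
      exact_mod_cast hF
    push_cast at e2
    linarith
  have hfsum : ∑ y ∈ Us, f y ≤ Real.log (2 * n) * (4 * ((Phi r v : ℝ) - Phi r' v) + n * Us.card / g)
      + 2 * n * (Ap.card * Real.log ((Fintype.card V : ℝ) / Ap.card) +
        2 * ∑ i, Real.log ((csz r' i : ℝ) / csz r i)) := by
    simp only [hf]
    rw [Finset.sum_add_distrib, ← Finset.sum_mul, ← Finset.mul_sum]
    have h1 := mul_le_mul_of_nonneg_left hfarsum hlog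
    have h2 := mul_le_mul_of_nonneg_left hsumlog (by positivity : (0 : ℝ) ≤ 2 * n)
    linarith
  obtain ⟨y0, hy0, hfy0⟩ : ∃ y ∈ Us, f y ≤ (∑ y ∈ Us, f y) / Us.card := by
    apply Finset.exists_le_of_sum_le hUne
    rw [Finset.sum_const, nsmul_eq_mul, mul_div_cancel₀ _ hUpos.ne']
  have hy0A : y0 ∈ Ap := hUs hy0
  obtain ⟨rel, hrelcard, hrelmem, hrelx⟩ := hrel y0 hy0
  set used : Finset (V × V) := (univ : Finset (V × V)).filter fun e => U e.1 e.2 ∧ r' e.1 y0
    with hused
  have hok : StepOK r r' v p ⟨y0, τ y0, used, rel⟩ := by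
    refine ⟨hle, hτ y0 hy0A, hτr' y0 hy0A, ?_, ?_, ?_, ?_, ?_⟩
    · intro e he
      simp only [hused, mem_filter, mem_univ, true_and] at he
      exact hU _ _ he.1
    · intro e he
      simp only [hused, mem_filter, mem_univ, true_and] at he
      exact (hU' _ _ he.1).2
    · intro e he
      obtain ⟨h1, h2⟩ := hrelmem e he
      rw [h2]
      simp only [Qset, mem_filter] at h1
      exact hτ _ h1.1
    · intro e he
      obtain ⟨h1, h2⟩ := hrelmem e he
      simp only [Qset, mem_filter] at h1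
      exact h1.2.1
    · intro e he
      obtain ⟨h1, h2⟩ := hrelmem e he
      simp only [Qset, mem_filter] at h1
      rw [h2]
      exact h1.2.2
  refine ⟨⟨y0, τ y0, used, rel⟩, hok, hUcard y0 hy0, hrelcard, ?_⟩
  have hc := cost_le hv hn hok (Qset r Ap τ y0) (Finset.card_pos.1 (hQpos y0 hy0A)) ?_ s' hs' hrelx
  swap
  · intro q hq
    simp only [Qset, mem_filter] at hq
    exact ⟨hq.2.1, τ q, hτ q hq.1, hq.2.2⟩
  have hfareq : farSet r v p (fun i i' => (i, i') ∈ used) y0 (τ y0) = farSet r v p U y0 (τ y0) := by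
    unfold farSet
    congr 1
    ext w
    rw [close_restrict hle (fun i i' h => (hU' i i' h).2) (hτr' y0 hy0A)]
    have : (fun i i' => (i, i') ∈ used) = (fun i i' => U i i' ∧ r' i y0) := by
      funext i i'
      simp [hused]
    rw [this]
  simp only at hc
  rw [hfareq] at hc
  refine hc.trans ?_
  have hfy : f y0 = (far y0 : ℝ) * Real.log (2 * n) +
    2 * n * Real.log ((csz r' y0 : ℝ) / (Qset r Ap τ y0).card) := rfl
  have hfar0 : ((farSet r v p U y0 (τ y0)).card : ℝ) = far y0 := rfl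
  rw [hfar0]
  have hPhi : (0 : ℝ) ≤ (Phi r v : ℝ) - Phi r' v := by
    have := Phi_anti v hle
    have : (Phi r' v : ℝ) ≤ Phi r v := by exact_mod_cast this
    linarith
  have hlogs : 0 ≤ ∑ i, Real.log ((csz r' i : ℝ) / csz r i) := by
    apply Finset.sum_nonneg
    intro i _
    apply Real.log_nonneg
    rw [le_div_iff₀ (by exact_mod_cast csz_pos r i), one_mul]
    exact_mod_cast csz_mono hle i
  have hlogV : 0 ≤ Real.log ((Fintype.card V : ℝ) / Ap.card) := by
    apply Real.log_nonneg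
    rw [le_div_iff₀ hAppos, one_mul]
    exact_mod_cast Finset.card_le_univ _
  have h4 : (Ap.card : ℝ) ≤ 4 * Us.card := by exact_mod_cast hU4
  have h5 : 1 / (Us.card : ℝ) ≤ 4 / Ap.card := by
    rw [div_le_div_iff₀ hUpos hAppos]
    linarith
  have hnpos : (0 : ℝ) ≤ n := Nat.cast_nonneg n
  -- bound on f y0
  have hb : f y0 ≤ Real.log (2 * n) * (16 / Ap.card * ((Phi r v : ℝ) - Phi r' v) + (n : ℝ) / g) +
      (8 * n * Real.log ((Fintype.card V : ℝ) / Ap.card) +
        16 * n / Ap.card * ∑ i, Real.log ((csz r' i : ℝ) / csz r i)) := by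
    refine hfy0.trans ?_
    rw [div_le_iff₀ hUpos]
    refine hfsum.trans ?_
    have e1 : 4 * ((Phi r v : ℝ) - Phi r' v) ≤
        16 / Ap.card * ((Phi r v : ℝ) - Phi r' v) * Us.card := by
      have : (4 : ℝ) ≤ 16 / Ap.card * Us.card := by
        rw [div_mul_eq_mul_div, le_div_iff₀ hAppos]
        linarith
      nlinarith
    have e2 : (2 : ℝ) * (Ap.card * Real.log ((Fintype.card V : ℝ) / Ap.card)) ≤
        8 * Real.log ((Fintype.card V : ℝ) / Ap.card) * Us.card := by
      nlinarith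
    have e3 : (4 : ℝ) * ∑ i, Real.log ((csz r' i : ℝ) / csz r i) ≤
        16 / Ap.card * (∑ i, Real.log ((csz r' i : ℝ) / csz r i)) * Us.card := by
      have : (4 : ℝ) ≤ 16 / Ap.card * Us.card := by
        rw [div_mul_eq_mul_div, le_div_iff₀ hAppos]
        linarith
      nlinarith
    have e1' := mul_le_mul_of_nonneg_left e1 hlog
    have e2' := mul_le_mul_of_nonneg_left e2 hnpos
    have e3' := mul_le_mul_of_nonneg_left e3 hnpos
    have : Real.log (2 * n) * (n * Us.card / g) = Real.log (2 * n) * (n / g) * Us.card := by ring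
    calc _ = Real.log (2 * n) * (4 * ((Phi r v : ℝ) - Phi r' v)) +
          Real.log (2 * n) * (n * Us.card / g) +
          n * (2 * (Ap.card * Real.log ((Fintype.card V : ℝ) / Ap.card))) +
          n * (4 * ∑ i, Real.log ((csz r' i : ℝ) / csz r i)) := by ring
      _ ≤ Real.log (2 * n) * (16 / Ap.card * ((Phi r v : ℝ) - Phi r' v) * Us.card) +
          Real.log (2 * n) * (n / g) * Us.card +
          n * (8 * Real.log ((Fintype.card V : ℝ) / Ap.card) * Us.card) +
          n * (16 / Ap.card * (∑ i, Real.log ((csz r' i : ℝ) / csz r i)) * Us.card) := by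
            rw [this]; linarith
      _ = _ := by ring
  have : ((far y0 : ℝ) + (n : ℝ) / s') * Real.log (2 * n) +
      2 * n * Real.log ((csz r' y0 : ℝ) / (Qset r Ap τ y0).card) + 7 * n ≤ f y0 + 8 * n := by
    rw [hfy]
    have := hns
    nlinarith
  refine this.trans ?_
  linarith

end RC
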