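import Pool.Agent.H27.RC.StepLemma

/-!
# The step lemma: the two kinds of cheap steps
-/

open Finset
open scoped Classical

namespace RC

variable {V : Type*} [Fintype V] {n : ℕ}

theorem exists_tau (v : V → Equiv.Perm (Fin n)) (p : Equiv.Perm (Fin n)) :
    ∃ τ : V → V, ∀ y ∈ ApSet v p, v (τ y) = p * v y := by
  refine ⟨fun y => if h : ∃ i', v i' = p * v y then h.choose else y, ?_⟩
  intro y hy
  simp only [ApSet, mem_filter, mem_univ, true_and] at hy
  simp only [dif_pos hy]
  exact hy.choose_spec

theorem fib_le_mx {β : Type*} [Fintype β] (loc : V → β) (Q : Finset V) (ℓ : β) :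
    (Q.filter fun i => loc i = ℓ).card ≤ mx loc Q :=
  Finset.le_sup (f := fun ℓ => (Q.filter fun i => loc i = ℓ).card) (mem_univ ℓ)

theorem step_gamma {v : V → Equiv.Perm (Fin n)} (hv : Function.Injective v) (hn : 0 < n)
    {r r' : Setoid V} (hle : r ≤ r') {p : Equiv.Perm (Fin n)}
    (hp : ∀ i i', v i' = p * v i → r' i i') (s0 s1 g s' : ℕ) (hs' : 0 < s') (hg : 1 ≤ g)
    (hns : (n : ℝ) / s' * Real.log (2 * n) ≤ n) (hs01 : s0 ≤ s1)
    (τ : V → V) (hτ : ∀ y ∈ ApSet v p, v (τ y) = p * v y)
    (hUne : ((ApSet v p).filter fun y => csz r' y ≤ s0).Nonempty)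
    (hU4 : (ApSet v p).card ≤ 4 * ((ApSet v p).filter fun y => csz r' y ≤ s0).card) :
    ∃ σ : SInfo V, StepOK r r' v p σ ∧ σ.used.card ≤ s1 ∧ σ.rel.card ≤ s1 ∧
      - Real.log (stepWt r r' v p σ) ≤
        n * (8 * Real.log ((Fintype.card V : ℝ) / (ApSet v p).card) + 8) +
        16 * n / (ApSet v p).card * ∑ i, Real.log ((csz r' i : ℝ) / csz r i) +
        Real.log (2 * n) * (16 / (ApSet v p).card * ((Phi r v : ℝ) - Phi r' v) + (n : ℝ) / g) := by
  refine step_core hv hn hle hp s1 g s' hs' hg hns τ hτ _ (Finset.filter_subset _ _) hUne hU4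
    (fun i i' => v i' = p * v i ∧ csz r' i ≤ s0) (fun i i' h => h.1) ?_ ?_ ?_
  · intro y hy
    simp only [mem_filter] at hy
    refine le_trans ?_ (hy.2.trans hs01)
    unfold csz
    apply Finset.card_le_card_of_injOn (fun e => e.1)
    · intro e he
      simp only [coe_filter, mem_univ, true_and, Set.mem_ofPred_eq] at he ⊢
      exact r'.symm he.2
    · intro e he e' he' hee
      simp only [coe_filter, mem_univ, true_and, Set.mem_ofPred_eq] at he he'
      have h1 := he.1.1
      have h2 := he'.1.1
      simp only at hee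
      rw [hee, ← h2] at h1
      exact Prod.ext hee (hv h1)
  · have : ((((ApSet v p).filter fun y => csz r' y ≤ s0) ×ˢ (univ : Finset (Fin n))).filter fun e =>
        ¬ bcl r v p (fun i i' => v i' = p * v i ∧ csz r' i ≤ s0)
          (((v e.1 e.2 : Fin n) : ℕ) + 1) e.2 e.1 (τ e.1)) = ∅ := by
      apply Finset.filter_eq_empty_iff.2
      intro e he hne
      apply hne
      simp only [mem_product, mem_filter, mem_univ, and_true] at he
      apply Relation.EqvGen.rel
      right
      refine ⟨⟨hτ _ he.1, he.2⟩, Nat.lt_succ_self _, ?_⟩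
      simp only
      rw [hτ _ he.1]
      rfl
    rw [this]
    simp
  · intro y hy
    simp only [mem_filter] at hy
    have hQs : (Qset r (ApSet v p) τ y).card ≤ s1 := by
      refine le_trans ?_ (hy.2.trans hs01)
      unfold Qset csz
      apply Finset.card_le_card
      intro i hi
      simp only [mem_filter, mem_univ, true_and] at hi ⊢
      exact r'.symm (hle hi.2.1)
    refine ⟨(Qset r (ApSet v p) τ y).image fun q => (q, τ q), ?_, ?_, ?_⟩
    · exact (Finset.card_image_le).trans hQs
    · intro e he
      simp only [mem_image] at he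
      obtain ⟨q, hq, rfl⟩ := he
      exact ⟨hq, rfl⟩
    · intro x
      right
      rw [Finset.image_image]
      have := Finset.card_le_mul_card_image (f := fun q => v q x) (Qset r (ApSet v p) τ y)
        (mx (fun i => v i x) (Qset r (ApSet v p) τ y)) (by
          intro a _
          convert fib_le_mx (fun i => v i x) (Qset r (ApSet v p) τ y) a)
      have e : ((fun e : V × V => v e.1 x) ∘ fun q => (q, τ q)) = fun q => v q x := rfl
      rw [e]
      nlinarith [this]

theorem card_large_classes (r : Setoid V) (s0 : ℕ) (h0 : 0 < s0) :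
    ((univ : Finset (Quotient r)).filter fun c =>
      s0 < (univ.filter fun i : V => Quotient.mk r i = c).card).card ≤ Fintype.card V / s0 := by
  rw [Nat.le_div_iff_mul_le h0]
  have h := Finset.card_eq_sum_card_fiberwise (s := (univ : Finset V))
    (t := (univ : Finset (Quotient r))) (f := fun i => Quotient.mk r i) (by intro i _; simp)
  rw [Finset.card_univ] at h
  rw [h, ← smul_eq_mul, ← Finset.sum_const]
  refine le_trans ?_ (Finset.sum_le_sum_of_subset (Finset.filter_subset
    (fun c : Quotient r => s0 < (univ.filter fun i : V => Quotient.mk r i = c).card) _))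
  apply Finset.sum_le_sum
  intro c hc
  simp only [mem_filter, mem_univ, true_and] at hc
  exact hc.le

theorem card_class_eq_csz (r : Setoid V) (i : V) :
    (univ.filter fun i' : V => Quotient.mk r i' = Quotient.mk r i).card = csz r i := by
  unfold csz
  congr 1
  ext i'
  simp only [mem_filter, mem_univ, true_and]
  rw [Quotient.eq]
  exact ⟨fun h => r.symm h, fun h => r.symm h⟩

theorem step_delta {v : V → Equiv.Perm (Fin n)} (hv : Function.Injective v) (hn : 0 < n)
    {r r' : Setoid V} (hle : r ≤ r') {p : Equiv.Perm (Fin n)}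
    (hp : ∀ i i', v i' = p * v i → r' i i') (s0 s1 h g s s' : ℕ) (hs' : 0 < s') (hg : 1 ≤ g)
    (hns : (n : ℝ) / s' * Real.log (2 * n) ≤ n) (h0 : 0 < s0) (hs1 : s ≤ s1)
    (hpairs : h * (Fintype.card V / s0) ^ 2 ≤ s1)
    (hh : (n : ℝ) * (1 - 1 / (g : ℝ)) ^ h < 1) (hspread : n ^ (s' + 1) < 4 ^ s)
    (τ : V → V) (hτ : ∀ y ∈ ApSet v p, v (τ y) = p * v y)
    (hUne : ((ApSet v p).filter fun y => s0 < csz r y ∧ s0 < csz r (τ y)).Nonempty)
    (hU4 : (ApSet v p).card ≤
      4 * ((ApSet v p).filter fun y => s0 < csz r y ∧ s0 < csz r (τ y)).card) :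
    ∃ σ : SInfo V, StepOK r r' v p σ ∧ σ.used.card ≤ s1 ∧ σ.rel.card ≤ s1 ∧
      - Real.log (stepWt r r' v p σ) ≤
        n * (8 * Real.log ((Fintype.card V : ℝ) / (ApSet v p).card) + 8) +
        16 * n / (ApSet v p).card * ∑ i, Real.log ((csz r' i : ℝ) / csz r i) +
        Real.log (2 * n) * (16 / (ApSet v p).card * ((Phi r v : ℝ) - Phi r' v) + (n : ℝ) / g) := by
  set Us := (ApSet v p).filter fun y => s0 < csz r y ∧ s0 < csz r (τ y) with hUs
  set Lc := (univ : Finset (Quotient r)).filter fun c =>
      s0 < (univ.filter fun i : V => Quotient.mk r i = c).card with hLc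
  set Qp : Quotient r × Quotient r → Finset V := fun b =>
    (ApSet v p).filter fun i => Quotient.mk r i = b.1 ∧ Quotient.mk r (τ i) = b.2 with hQp
  have hsamp : ∀ b : Quotient r × Quotient r, ∃ σ : Fin h → V, (Qp b).Nonempty →
      (∀ a, σ a ∈ Qp b) ∧ ∀ x : Fin n,
        g * ((Qp b).filter fun i => ∀ a, (v i x : ℕ) < (v (σ a) x : ℕ)).card ≤ (Qp b).card := by
    intro b
    by_cases hb : (Qp b).Nonempty
    · obtain ⟨σ, h1, h2⟩ := sample_order (Qp b) hb (fun x i => (v i x : ℕ)) h g hg hh
      exact ⟨σ, fun _ => ⟨h1, h2⟩⟩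
    · exact ⟨fun _ => hUne.choose, fun h => absurd h hb⟩
  choose samp hsamp using hsamp
  have hmemL : ∀ y, s0 < csz r y → Quotient.mk r y ∈ Lc := by
    intro y hy
    simp only [hLc, mem_filter, mem_univ, true_and]
    rw [card_class_eq_csz]
    exact hy
  have hLcsz : ∀ y, Quotient.mk r y ∈ Lc → s0 < csz r y := by
    intro y hy
    simp only [hLc, mem_filter, mem_univ, true_and] at hy
    rwa [card_class_eq_csz] at hy
  have hLcard : Lc.card ≤ Fintype.card V / s0 := card_large_classes r s0 h0
  refine step_core hv hn hle hp s1 g s' hs' hg hns τ hτ Us (Finset.filter_subset _ _) hUne hU4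
    (fun i i' => ∃ b ∈ Lc ×ˢ Lc, (Qp b).Nonempty ∧ ∃ a, i = samp b a ∧ i' = τ i) ?_ ?_ ?_ ?_
  · rintro i i' ⟨b, hb, hne, a, rfl, rfl⟩
    have := (hsamp b hne).1 a
    simp only [hQp, mem_filter] at this
    exact hτ _ this.1
  · intro y hy
    refine le_trans (Finset.card_le_card (t := ((Lc ×ˢ Lc) ×ˢ (univ : Finset (Fin h))).image
      fun c => (samp c.1 c.2, τ (samp c.1 c.2))) ?_) ?_
    · intro e he
      simp only [mem_filter, mem_univ, true_and] at he
      obtain ⟨⟨b, hb, hne, a, h1, h2⟩, _⟩ := he
      simp only [mem_image]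
      refine ⟨(b, a), ?_, ?_⟩
      · exact Finset.mem_product.2 ⟨hb, mem_univ _⟩
      · simp only
        rw [← h1, ← h2]
    refine Finset.card_image_le.trans ?_
    rw [Finset.card_product, Finset.card_product, Finset.card_univ, Fintype.card_fin]
    refine le_trans ?_ hpairs
    rw [mul_comm, sq]
    exact Nat.mul_le_mul_left _ (Nat.mul_le_mul hLcard hLcard)
  · -- the error count
    set U : V → V → Prop := fun i i' => ∃ b ∈ Lc ×ˢ Lc, (Qp b).Nonempty ∧
      ∃ a, i = samp b a ∧ i' = τ i with hU
    have hmap : ∀ y ∈ Us, (Quotient.mk r y, Quotient.mk r (τ y)) ∈ Lc ×ˢ Lc := by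
      intro y hy
      simp only [hUs, mem_filter] at hy
      exact Finset.mem_product.2 ⟨hmemL _ hy.2.1, hmemL _ hy.2.2⟩
    have hUsum : Us.card = ∑ b ∈ Lc ×ˢ Lc, (Qp b).card := by
      rw [Finset.card_eq_sum_card_fiberwise (f := fun y => (Quotient.mk r y, Quotient.mk r (τ y)))
        (t := Lc ×ˢ Lc) (fun y hy => hmap y hy)]
      apply Finset.sum_congr rfl
      intro b hb
      congr 1
      ext y
      simp only [hUs, hQp, mem_filter]
      constructor
      · rintro ⟨⟨h1, _⟩, h2⟩
        rw [← h2]
        exact ⟨h1, rfl, rfl⟩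
      · rintro ⟨h1, h2, h3⟩
        obtain ⟨hb1, hb2⟩ := Finset.mem_product.1 hb
        refine ⟨⟨h1, hLcsz _ ?_, hLcsz _ ?_⟩, ?_⟩
        · rw [h2]; exact hb1
        · rw [h3]; exact hb2
        · rw [h2, h3]
    -- for each column
    have hcol : ∀ x : Fin n, g * (Us.filter fun y =>
        ¬ bcl r v p U (((v y x : Fin n) : ℕ) + 1) x y (τ y)).card ≤ Us.card := by
      intro x
      rw [Finset.card_eq_sum_card_fiberwise
        (s := Us.filter fun y => ¬ bcl r v p U (((v y x : Fin n) : ℕ) + 1) x y (τ y))
        (f := fun y => (Quotient.mk r y, Quotient.mk r (τ y)))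
        (t := Lc ×ˢ Lc) (fun y hy => hmap y (by
          simp only [coe_filter, Set.mem_ofPred_eq] at hy
          exact hy.1)), hUsum, Finset.mul_sum]
      apply Finset.sum_le_sum
      intro b hb
      by_cases hne : (Qp b).Nonempty
      · refine le_trans (Nat.mul_le_mul_left _ (Finset.card_le_card ?_)) ((hsamp b hne).2 x)
        intro y hy
        simp only [mem_filter, hUs] at hy
        obtain ⟨⟨⟨hyA, _⟩, hnb⟩, hyb⟩ := hy
        have hyQ : y ∈ Qp b := by
          simp only [hQp, mem_filter]
          rw [← hyb]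
          exact ⟨hyA, rfl, rfl⟩
        simp only [mem_filter]
        refine ⟨hyQ, ?_⟩
        intro a
        by_contra hlt
        apply hnb
        have ha := (hsamp b hne).1 a
        have haQ := ha
        simp only [hQp, mem_filter] at ha hyQ
        have e1 : r y (samp b a) := by
          have := hyQ.2.1.trans ha.2.1.symm
          rw [Quotient.eq] at this
          exact this
        have e2 : r (τ (samp b a)) (τ y) := by
          have := ha.2.2.trans hyQ.2.2.symm
          rw [Quotient.eq] at this
          exact this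
        -- chain
        have c1 : lcl r v p U (((v y x : Fin n) : ℕ) + 1) (y, v y x)
            (samp b a, v (samp b a) x) := by
          apply Relation.EqvGen.rel
          left
          refine ⟨e1, ?_⟩
          simp
        have c2 : lcl r v p U (((v y x : Fin n) : ℕ) + 1) (samp b a, v (samp b a) x)
            (τ (samp b a), v (τ (samp b a)) x) := by
          apply Relation.EqvGen.rel
          right
          refine ⟨⟨b, hb, hne, a, rfl, rfl⟩, ?_, ?_⟩
          · simp only
            omega
          · simp only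
            rw [hτ _ ha.1]
            rfl
        have c3 : lcl r v p U (((v y x : Fin n) : ℕ) + 1) (τ (samp b a), v (τ (samp b a)) x)
            (τ y, v (τ y) x) := by
          apply Relation.EqvGen.rel
          left
          refine ⟨e2, ?_⟩
          simp
        exact (lcl r v p U (((v y x : Fin n) : ℕ) + 1)).trans
          ((lcl r v p U (((v y x : Fin n) : ℕ) + 1)).trans c1 c2) c3
      · rw [Finset.not_nonempty_iff_eq_empty] at hne
        have : ((Us.filter fun y => ¬ bcl r v p U (((v y x : Fin n) : ℕ) + 1) x y (τ y)).filter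
            fun y => (Quotient.mk r y, Quotient.mk r (τ y)) = b) = ∅ := by
          apply Finset.filter_eq_empty_iff.2
          intro y hy hyb
          simp only [mem_filter, hUs] at hy
          have : y ∈ Qp b := by
            simp only [hQp, mem_filter]
            rw [← hyb]
            exact ⟨hy.1.1, rfl, rfl⟩
          rw [hne] at this
          simp at this
        rw [this]
        simp
    have hcard : ((Us ×ˢ (univ : Finset (Fin n))).filter fun e =>
        ¬ bcl r v p U (((v e.1 e.2 : Fin n) : ℕ) + 1) e.2 e.1 (τ e.1)).card =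
        ∑ x : Fin n, (Us.filter fun y => ¬ bcl r v p U (((v y x : Fin n) : ℕ) + 1) x y (τ y)).card := by
      rw [Finset.card_eq_sum_card_fiberwise (f := fun e => e.2) (t := (univ : Finset (Fin n)))
        (by intro e _; simp)]
      apply Finset.sum_congr rfl
      intro x _
      apply Finset.card_bij (fun e _ => e.1)
      · intro e he
        simp only [mem_filter, mem_product, mem_univ, and_true] at he ⊢
        obtain ⟨⟨h1, h2⟩, h3⟩ := he
        rw [h3] at h2
        exact ⟨h1, h2⟩
      · intro e he e' he' hee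
        simp only [mem_filter, mem_product, mem_univ, and_true] at he he'
        exact Prod.ext hee (he.2.trans he'.2.symm)
      · intro y hy
        simp only [mem_filter] at hy
        refine ⟨(y, x), ?_, rfl⟩
        simp only [mem_filter, mem_product, mem_univ, and_true]
        exact hy
    rw [hcard, Finset.mul_sum]
    calc ∑ x : Fin n, g * (Us.filter fun y =>
          ¬ bcl r v p U (((v y x : Fin n) : ℕ) + 1) x y (τ y)).card
        ≤ ∑ _x : Fin n, Us.card := Finset.sum_le_sum fun x _ => hcol x
      _ = n * Us.card := by simp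
  · intro y hy
    have hyA : y ∈ ApSet v p := by
      simp only [hUs, mem_filter] at hy
      exact hy.1
    have hQne : (Qset r (ApSet v p) τ y).Nonempty :=
      ⟨y, by simp only [Qset, mem_filter]; exact ⟨hyA, r.refl _, r.refl _⟩⟩
    obtain ⟨σ, hσ1, hσ2⟩ := sample_spread (Qset r (ApSet v p) τ y) hQne (fun x i => v i x) s s'
      hspread
    refine ⟨univ.image fun a => (σ a, τ (σ a)), ?_, ?_, ?_⟩
    · refine Finset.card_image_le.trans ?_
      rw [Finset.card_univ, Fintype.card_fin]
      exact hs1
    · intro e he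
      simp only [mem_image, mem_univ, true_and] at he
      obtain ⟨a, rfl⟩ := he
      exact ⟨hσ1 a, rfl⟩
    · intro x
      rw [Finset.image_image]
      exact hσ2 x

/-- The step lemma. -/
theorem step_lemma {v : V → Equiv.Perm (Fin n)} (hv : Function.Injective v) (hn : 0 < n)
    {r r' : Setoid V} (hle : r ≤ r') {p : Equiv.Perm (Fin n)}
    (hp : ∀ i i', v i' = p * v i → r' i i') (s0 s1 h g s s' : ℕ) (hs' : 0 < s') (hg : 1 ≤ g)
    (hns : (n : ℝ) / s' * Real.log (2 * n) ≤ n) (h0 : 0 < s0) (hs01 : s0 ≤ s1) (hs1 : s ≤ s1)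
    (hpairs : h * (Fintype.card V / s0) ^ 2 ≤ s1)
    (hh : (n : ℝ) * (1 - 1 / (g : ℝ)) ^ h < 1) (hspread : n ^ (s' + 1) < 4 ^ s)
    (hne : (ApSet v p).Nonempty)
    (htl : 4 * (univ.filter fun i => csz r i ≤ s0 ∧ s0 < csz r' i).card ≤ (ApSet v p).card) :
    ∃ σ : SInfo V, StepOK r r' v p σ ∧ σ.used.card ≤ s1 ∧ σ.rel.card ≤ s1 ∧
      - Real.log (stepWt r r' v p σ) ≤
        n * (8 * Real.log ((Fintype.card V : ℝ) / (ApSet v p).card) + 8) +
        16 * n / (ApSet v p).card * ∑ i, Real.log ((csz r' i : ℝ) / csz r i) +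
        Real.log (2 * n) * (16 / (ApSet v p).card * ((Phi r v : ℝ) - Phi r' v) + (n : ℝ) / g) := by
  obtain ⟨τ, hτ⟩ := exists_tau v p
  set A1 := (ApSet v p).filter fun y => csz r' y ≤ s0 with hA1
  set A2 := (ApSet v p).filter fun y => s0 < csz r y ∧ s0 < csz r (τ y) with hA2
  set TL := univ.filter fun i => csz r i ≤ s0 ∧ s0 < csz r' i with hTL
  set T1 := (ApSet v p).filter fun y => y ∈ TL with hT1
  set T2 := (ApSet v p).filter fun y => τ y ∈ TL with hT2
  have hcover : ApSet v p ⊆ (A1 ∪ A2) ∪ (T1 ∪ T2) := by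
    intro y hy
    have hc : csz r' y = csz r' (τ y) := csz_congr (hp _ _ (hτ y hy))
    simp only [mem_union, hA1, hA2, hT1, hT2, hTL, mem_filter, mem_univ, true_and]
    by_cases h1 : csz r' y ≤ s0
    · left; left; exact ⟨hy, h1⟩
    · by_cases h2 : s0 < csz r y
      · by_cases h3 : s0 < csz r (τ y)
        · left; right; exact ⟨hy, h2, h3⟩
        · right; right
          exact ⟨hy, not_lt.1 h3, by rw [← hc]; exact not_le.1 h1⟩
      · right; left
        exact ⟨hy, not_lt.1 h2, not_le.1 h1⟩
  have hT1c : T1.card ≤ TL.card := Finset.card_le_card (by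
    intro y hy
    simp only [hT1, mem_filter] at hy
    exact hy.2)
  have hinjτ : Set.InjOn τ (ApSet v p) := by
    intro a ha b hb hab
    have h1 := hτ a ha
    have h2 := hτ b hb
    rw [hab, h2] at h1
    exact hv (mul_left_cancel h1).symm
  have hT2c : T2.card ≤ TL.card := by
    apply Finset.card_le_card_of_injOn τ
    · intro y hy
      simp only [hT2, coe_filter, Set.mem_ofPred_eq] at hy
      exact hy.2
    · intro a ha b hb hab
      simp only [hT2, coe_filter, Set.mem_ofPred_eq] at ha hb
      exact hinjτ ha.1 hb.1 hab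
  have hcards : (ApSet v p).card ≤ (A1.card + A2.card) + (T1.card + T2.card) := by
    refine (Finset.card_le_card hcover).trans ?_
    refine (Finset.card_union_le _ _).trans ?_
    exact Nat.add_le_add (Finset.card_union_le _ _) (Finset.card_union_le _ _)
  have hpos : 0 < (ApSet v p).card := hne.card_pos
  have : (ApSet v p).card ≤ 4 * A1.card ∨ (ApSet v p).card ≤ 4 * A2.card := by omega
  rcases this with h4 | h4
  · have hA1ne : A1.Nonempty := by
      apply Finset.card_pos.1
      omega
    exact step_gamma hv hn hle hp s0 s1 g s' hs' hg hns hs01 τ hτ hA1ne h4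
  · have hA2ne : A2.Nonempty := by
      apply Finset.card_pos.1
      omega
    exact step_delta hv hn hle hp s0 s1 h g s s' hs' hg hns h0 hs1 hpairs hh hspread τ hτ hA2ne h4

end RC
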