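import Pool.Agent.H27.RC.Defs
import Pool.Agent.H27.RC.Seq

/-!
# The weights of a cheap step are sub-probabilities (module RC-WT)

`lcl_inv`: if `U i i' → v i' = p * v i` then every move (`lstep`) preserves `(v i)⁻¹ ℓ`, hence
`lcl` does.

`kap_sum_le`: for each pair `(i, i')` there is at most one `ℓ` with `lcl (i, ℓ) (y0, w)` (the
invariant forces `(v i)⁻¹ ℓ = (v y0)⁻¹ w`) and then at most one `z` with `lcl (i', ℓ) (y1, z)`;
moreover `lcl (i, ℓ) (y0, w)` implies `r' i y0` (both kinds of moves stay in an `r'`-class), and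
`lcl (i', ℓ) (y1, z)` implies `r' i' y1`, i.e. `r' i' y0`. So
`∑ z, kap ... z ≤ N * N / N ^ 2 ≤ 1` with `N = csz r' y0`.

`stepWt_sum_le_one`: apply `seq_weight` with `J = n`, `f x l = p x l` (0 for `l ≥ n`) and
`ω l x = swt ... l` (1 for `l ≥ n`). Let `T` be such that all `p x`, `x ∈ T`, agree on `ℓ < w` and
have distinct values at `w`. Note `v x i' * (v x i)⁻¹` does not depend on `x ∈ S` for `r i i'`
(`hrho`). Hence `lstep r (v x) (p x) U w` does not depend on `x ∈ T` (first kind of move: `hrho`;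
second kind: uses `p x` only on `ℓ < w`), so neither does `lcl`, nor `kap ... w z`; also `orel`
does not depend on `x ∈ S` (for `e ∈ rel`, `r e.1 y0`), nor `isMin`.
Case `w` minimal: the values `p x w`, `x ∈ T`, are distinct so
`∑ x ∈ T, kap' ... w (p x w) ≤ ∑ z, kap' ... w z ≤ 1 / 2 + 1 / 2 * ∑ z, kap ... w z ≤ 1`.
Case `w` not minimal: there is `w' < w` in the orbit of `w`. For `e = (q, q') ∈ rel`, and
`w₂ = v q ((v y0)⁻¹ w₁)`: `p w₂ = p (v q ((v y0)⁻¹ w₁)) = v q' ((v y0)⁻¹ w₁)
= v q' ((v y1)⁻¹ (p w₁))` as `v y1 = p * v y0`; the permutation `v x q' * (v x y1)⁻¹` does not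
depend on `x` (`r q' y1`). So, by induction along the orbit, `p x w'' = p x' w''` for one `w''` in
the orbit implies it for all of them; so all `p x w` are equal, `T` has at most one element, and
the weight is 1.
-/

open Finset
open scoped Classical

namespace RC

variable {V : Type*} [Fintype V] {n : ℕ}

theorem lcl_inv {r : Setoid V} {v : V → Equiv.Perm (Fin n)} {p : Equiv.Perm (Fin n)}
    {U : V → V → Prop} (hU : ∀ i i', U i i' → v i' = p * v i) {w : ℕ} {a b : V × Fin n}
    (h : lcl r v p U w a b) : (v a.1)⁻¹ a.2 = (v b.1)⁻¹ b.2 := by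
  have h' : Relation.EqvGen (lstep r v p U w) a b := h
  induction h' with
  | rel a b hab =>
    rcases hab with ⟨_, h2⟩ | ⟨h1, _, h2⟩
    · rw [h2]; simp
    · rw [h2, hU _ _ h1]; simp
  | refl a => rfl
  | symm a b _ ih => exact (ih (by assumption)).symm
  | trans a b c _ _ ih1 ih2 => exact (ih1 (by assumption)).trans (ih2 (by assumption))

theorem lcl_conn {r r' : Setoid V} (hle : r ≤ r') {v : V → Equiv.Perm (Fin n)}
    {p : Equiv.Perm (Fin n)} {U : V → V → Prop} (hU : ∀ i i', U i i' → r' i i') {w : ℕ}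
    {a b : V × Fin n} (h : lcl r v p U w a b) : r' a.1 b.1 := by
  have h' : Relation.EqvGen (lstep r v p U w) a b := h
  induction h' with
  | rel a b hab =>
    rcases hab with ⟨h1, _⟩ | ⟨h1, _, _⟩
    · exact hle h1
    · exact hU _ _ h1
  | refl a => exact r'.refl _
  | symm a b _ ih => exact r'.symm (ih (by assumption))
  | trans a b c _ _ ih1 ih2 => exact r'.trans (ih1 (by assumption)) (ih2 (by assumption))

theorem kap_nonneg (r : Setoid V) (v : V → Equiv.Perm (Fin n)) (p : Equiv.Perm (Fin n))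
    (U : V → V → Prop) (N : ℕ) (y0 y1 : V) (w z : Fin n) : 0 ≤ kap r v p U N y0 y1 w z := by
  unfold kap
  positivity

theorem sum_card_filter_le {α β : Type*} [Fintype α] [Fintype β] (P : α → β → Prop) (Q : α → Prop)
    (h1 : ∀ i z, P i z → Q i) (h2 : ∀ i z z', P i z → P i z' → z = z') :
    ∑ z : β, (univ.filter fun i => P i z).card ≤ (univ.filter fun i => Q i).card := by
  rw [← Finset.card_biUnion]
  · apply Finset.card_le_card
    intro i hi
    simp only [mem_biUnion, mem_univ, mem_filter, true_and] at hi ⊢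
    obtain ⟨z, hz⟩ := hi
    exact h1 i z hz
  · intro z _ z' _ hzz'
    rw [Function.onFun, Finset.disjoint_left]
    intro i hi hi'
    simp only [mem_filter, mem_univ, true_and] at hi hi'
    exact hzz' (h2 i z z' hi hi')

theorem kap_sum_le {r r' : Setoid V} (hle : r ≤ r') {v : V → Equiv.Perm (Fin n)}
    {p : Equiv.Perm (Fin n)} {U : V → V → Prop} (hU : ∀ i i', U i i' → v i' = p * v i ∧ r' i i')
    {y0 y1 : V} (h01 : r' y0 y1) (w : Fin n) :
    ∑ z : Fin n, kap r v p U (csz r' y0) y0 y1 w z ≤ 1 := by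
  have hU1 : ∀ i i', U i i' → v i' = p * v i := fun i i' h => (hU i i' h).1
  have hU2 : ∀ i i', U i i' → r' i i' := fun i i' h => (hU i i' h).2
  have hA : ∑ ℓ : Fin n, (univ.filter fun i => lcl r v p U w (i, ℓ) (y0, w)).card
      ≤ csz r' y0 := by
    apply sum_card_filter_le
    · intro i ℓ h
      exact r'.symm (lcl_conn hle hU2 h)
    · intro i ℓ ℓ' h h'
      have e1 := lcl_inv hU1 h
      have e2 := lcl_inv hU1 h'
      simp only at e1 e2
      exact (v i)⁻¹.injective (e1.trans e2.symm)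
  have hB : ∀ ℓ : Fin n, ∑ z : Fin n, (univ.filter fun i => lcl r v p U w (i, ℓ) (y1, z)).card
      ≤ csz r' y0 := by
    intro ℓ
    apply sum_card_filter_le
    · intro i z h
      exact r'.trans h01 (r'.symm (lcl_conn hle hU2 h))
    · intro i z z' h h'
      have e1 := lcl_inv hU1 h
      have e2 := lcl_inv hU1 h'
      simp only at e1 e2
      exact (v y1)⁻¹.injective (e1.symm.trans e2)
  unfold kap
  rw [← Finset.sum_div]
  apply div_le_one_of_le₀ _ (by positivity)
  rw [Finset.sum_comm]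
  have : ∀ ℓ : Fin n, ∑ z : Fin n,
      ((univ.filter fun i => lcl r v p U w (i, ℓ) (y0, w)).card : ℝ) *
        ((univ.filter fun i => lcl r v p U w (i, ℓ) (y1, z)).card : ℝ) ≤
      ((univ.filter fun i => lcl r v p U w (i, ℓ) (y0, w)).card : ℝ) * (csz r' y0 : ℝ) := by
    intro ℓ
    rw [← Finset.mul_sum]
    apply mul_le_mul_of_nonneg_left _ (by positivity)
    exact_mod_cast hB ℓ
  refine (Finset.sum_le_sum fun ℓ _ => this ℓ).trans ?_
  rw [← Finset.sum_mul, sq]
  apply mul_le_mul_of_nonneg_right _ (by positivity)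
  exact_mod_cast hA

theorem kap'_pos (r : Setoid V) (v : V → Equiv.Perm (Fin n)) (p : Equiv.Perm (Fin n))
    (U : V → V → Prop) (N : ℕ) (y0 y1 : V) (w z : Fin n) : 0 < kap' r v p U N y0 y1 w z := by
  unfold kap'
  have h1 := kap_nonneg r v p U N y0 y1 w z
  have hn : 0 < n := w.pos
  have : (0 : ℝ) < 1 / (2 * n) := by positivity
  linarith

theorem swt_pos (r : Setoid V) (v : V → Equiv.Perm (Fin n)) (p : Equiv.Perm (Fin n))
    (U : V → V → Prop) (N : ℕ) (y0 y1 : V) (rel : Finset (V × V)) (w : Fin n) :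
    0 < swt r v p U N y0 y1 rel w := by
  unfold swt
  split_ifs
  · exact kap'_pos ..
  · exact one_pos

theorem stepWt_pos (r r' : Setoid V) (v : V → Equiv.Perm (Fin n)) (p : Equiv.Perm (Fin n))
    (σ : SInfo V) : 0 < stepWt r r' v p σ := by
  unfold stepWt
  exact Finset.prod_pos fun w _ => swt_pos ..

theorem kap'_sum_le {r r' : Setoid V} (hle : r ≤ r') {v : V → Equiv.Perm (Fin n)}
    {p : Equiv.Perm (Fin n)} {U : V → V → Prop} (hU : ∀ i i', U i i' → v i' = p * v i ∧ r' i i')
    {y0 y1 : V} (h01 : r' y0 y1) (w : Fin n) :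
    ∑ z : Fin n, kap' r v p U (csz r' y0) y0 y1 w z ≤ 1 := by
  unfold kap'
  rw [Finset.sum_add_distrib, ← Finset.mul_sum]
  have h1 := kap_sum_le hle hU h01 w
  have hn : 0 < n := w.pos
  have hn' : (0 : ℝ) < n := by exact_mod_cast hn
  have h2 : ∑ _z : Fin n, (1 : ℝ) / (2 * n) = 1 / 2 := by
    rw [Finset.sum_const, Finset.card_univ, Fintype.card_fin, nsmul_eq_mul]
    field_simp
  rw [h2]
  linarith

theorem lstep_congr {r : Setoid V} {v v' : V → Equiv.Perm (Fin n)} {p p' : Equiv.Perm (Fin n)}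
    (hrho : ∀ i i', r i i' → v i' * (v i)⁻¹ = v' i' * (v' i)⁻¹) (U : V → V → Prop) (w : ℕ)
    (hp : ∀ l : Fin n, (l : ℕ) < w → p l = p' l) : lstep r v p U w = lstep r v' p' U w := by
  funext a b
  unfold lstep
  apply propext
  apply or_congr
  · apply and_congr_right
    intro h
    have := congrArg (fun q : Equiv.Perm (Fin n) => q a.2) (hrho _ _ h)
    simp only [Equiv.Perm.mul_apply] at this
    rw [this]
  · apply and_congr_right
    intro _
    apply and_congr_right
    intro h
    rw [hp _ h]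

theorem kap_congr {r : Setoid V} {v v' : V → Equiv.Perm (Fin n)} {p p' : Equiv.Perm (Fin n)}
    (hrho : ∀ i i', r i i' → v i' * (v i)⁻¹ = v' i' * (v' i)⁻¹) (U : V → V → Prop) (w : Fin n)
    (hp : ∀ l : Fin n, (l : ℕ) < w → p l = p' l) (N : ℕ) (y0 y1 : V) (z : Fin n) :
    kap r v p U N y0 y1 w z = kap r v' p' U N y0 y1 w z := by
  unfold kap lcl
  rw [lstep_congr hrho U w hp]

theorem orel_congr {r : Setoid V} {v v' : V → Equiv.Perm (Fin n)}
    (hrho : ∀ i i', r i i' → v i' * (v i)⁻¹ = v' i' * (v' i)⁻¹) (y0 : V) (rel : Finset (V × V))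
    (hrel : ∀ e ∈ rel, r e.1 y0) : orel v y0 rel = orel v' y0 rel := by
  unfold orel
  congr 1
  funext w w'
  apply propext
  apply exists_congr
  intro e
  apply and_congr_right
  intro he
  have := congrArg (fun q : Equiv.Perm (Fin n) => q w) (hrho _ _ (r.symm (hrel e he)))
  simp only [Equiv.Perm.mul_apply] at this
  rw [this]

theorem stepWt_sum_le_one {ι : Type*} (S : Finset ι) (p : ι → Equiv.Perm (Fin n))
    (v : ι → V → Equiv.Perm (Fin n)) (r r' : Setoid V) (σ : SInfo V)
    (hok : ∀ x ∈ S, StepOK r r' (v x) (p x) σ)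
    (hrho : ∀ x ∈ S, ∀ y ∈ S, ∀ i i', r i i' → v x i' * (v x i)⁻¹ = v y i' * (v y i)⁻¹)
    (hinj : ∀ x ∈ S, ∀ y ∈ S, p x = p y → x = y) :
    ∑ x ∈ S, stepWt r r' (v x) (p x) σ ≤ 1 := by
  set U : V → V → Prop := fun i i' => (i, i') ∈ σ.used with hUdef
  set N := csz r' σ.y0 with hN
  let f : ι → ℕ → ℕ := fun x l => if h : l < n then (p x ⟨l, h⟩ : ℕ) else 0
  let ω : ℕ → ι → ℝ := fun l x =>
    if h : l < n then swt r (v x) (p x) U N σ.y0 σ.y1 σ.rel ⟨l, h⟩ else 1
  have key := seq_weight n S f ω ?_ ?_ ?_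
  · have e : ∀ x ∈ S, stepWt r r' (v x) (p x) σ = ∏ i ∈ range n, ω i x := by
      intro x _
      rw [Finset.prod_range]
      unfold stepWt
      apply Finset.prod_congr rfl
      intro w _
      simp only [ω, w.isLt, dif_pos, Fin.eta]
      rfl
    rw [Finset.sum_congr rfl e]
    exact key
  · intro i x _
    simp only [ω]
    split_ifs with h
    · exact (swt_pos ..).le
    · exact zero_le_one
  · intro x hx y hy hxy
    apply hinj x hx y hy
    apply Equiv.ext
    intro l
    have := hxy l l.isLt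
    simp only [f, l.isLt, dif_pos, Fin.eta] at this
    exact Fin.ext this
  · intro i hi T hT hag hdist
    have hS : ∀ x ∈ T, x ∈ S := fun x hx => hT hx
    rcases T.eq_empty_or_nonempty with rfl | ⟨x0, hx0⟩
    · simp
    have hpag : ∀ x ∈ T, ∀ y ∈ T, ∀ l : Fin n, (l : ℕ) < i → p x l = p y l := by
      intro x hx y hy l hl
      have := hag x hx y hy l hl
      simp only [f, l.isLt, dif_pos, Fin.eta] at this
      exact Fin.ext this
    have hpdist : ∀ x ∈ T, ∀ y ∈ T, p x ⟨i, hi⟩ = p y ⟨i, hi⟩ → x = y := by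
      intro x hx y hy hxy
      apply hdist x hx y hy
      simp only [f, hi, dif_pos, hxy]
    have horel : ∀ x ∈ T, orel (v x) σ.y0 σ.rel = orel (v x0) σ.y0 σ.rel := by
      intro x hx
      exact orel_congr (hrho x (hS x hx) x0 (hS x0 hx0)) σ.y0 σ.rel (hok x (hS x hx)).rel_0
    have hmin : ∀ x ∈ T, isMin (v x) σ.y0 σ.rel ⟨i, hi⟩ ↔ isMin (v x0) σ.y0 σ.rel ⟨i, hi⟩ := by
      intro x hx
      unfold isMin
      rw [horel x hx]
    have hω : ∀ x ∈ T, ω i x = swt r (v x) (p x) U N σ.y0 σ.y1 σ.rel ⟨i, hi⟩ := by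
      intro x _
      simp only [ω, hi, dif_pos]
    rw [Finset.sum_congr rfl hω]
    by_cases hm : isMin (v x0) σ.y0 σ.rel ⟨i, hi⟩
    · have e : ∀ x ∈ T, swt r (v x) (p x) U N σ.y0 σ.y1 σ.rel ⟨i, hi⟩ =
          kap' r (v x0) (p x0) U N σ.y0 σ.y1 ⟨i, hi⟩ (p x ⟨i, hi⟩) := by
        intro x hx
        unfold swt
        rw [if_pos ((hmin x hx).2 hm)]
        unfold kap'
        rw [kap_congr (hrho x (hS x hx) x0 (hS x0 hx0)) U ⟨i, hi⟩ (hpag x hx x0 hx0)]
      rw [Finset.sum_congr rfl e]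
      have h0 := hok x0 (hS x0 hx0)
      have hsum := kap'_sum_le (p := p x0) (v := v x0) (U := U) h0.le
        (fun a b hab => ⟨h0.used_eq (a, b) hab, h0.used_conn (a, b) hab⟩) h0.conn01 ⟨i, hi⟩
      refine le_trans ?_ hsum
      rw [← Finset.sum_image (s := T) (g := fun x => p x ⟨i, hi⟩)
        (f := fun z => kap' r (v x0) (p x0) U N σ.y0 σ.y1 ⟨i, hi⟩ z)]
      · apply Finset.sum_le_sum_of_subset_of_nonneg (Finset.subset_univ _)
        intro z _ _
        exact (kap'_pos ..).le
      · intro x hx y hy hxy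
        exact hpdist x hx y hy hxy
    · have e : ∀ x ∈ T, swt r (v x) (p x) U N σ.y0 σ.y1 σ.rel ⟨i, hi⟩ = 1 := by
        intro x hx
        unfold swt
        rw [if_neg fun h => hm ((hmin x hx).1 h)]
      rw [Finset.sum_congr rfl e, Finset.sum_const, nsmul_eq_mul, mul_one]
      have hone : T.card ≤ 1 := by
        rw [Finset.card_le_one]
        intro x hx y hy
        apply hpdist x hx y hy
        unfold isMin at hm
        push Not at hm
        obtain ⟨w', hw', hlt⟩ := hm
        have hcl : ∀ w1 w2, orel (v x0) σ.y0 σ.rel w1 w2 → (p x w1 = p y w1 ↔ p x w2 = p y w2) := by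
          intro w1 w2 h
          have h' : Relation.EqvGen (fun w w' => ∃ e ∈ σ.rel, w' = v x0 e.1 ((v x0 σ.y0)⁻¹ w))
            w1 w2 := h
          induction h' with
          | rel w1 w2 h12 =>
            obtain ⟨e, he, h2⟩ := h12
            have gen : ∀ u ∈ T, p u w2 = (v x0 e.2 * (v x0 σ.y1)⁻¹) (p u w1) := by
              intro u hu
              have hu' := hok u (hS u hu)
              have e1 : v x0 e.1 * (v x0 σ.y0)⁻¹ = v u e.1 * (v u σ.y0)⁻¹ :=
                hrho x0 (hS x0 hx0) u (hS u hu) _ _ (r.symm (hu'.rel_0 e he))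
              have e2 : v x0 e.2 * (v x0 σ.y1)⁻¹ = v u e.2 * (v u σ.y1)⁻¹ :=
                hrho x0 (hS x0 hx0) u (hS u hu) _ _ (r.symm (hu'.rel_1 e he))
              have h3 : w2 = (v u e.1 * (v u σ.y0)⁻¹) w1 := by
                rw [← e1, h2]; rfl
              rw [e2, h3, hu'.rel_eq e he, hu'.y1_eq]
              simp [Equiv.Perm.mul_apply]
            rw [gen x hx, gen y hy]
            exact (Equiv.injective _).eq_iff.symm
          | refl a => exact Iff.rfl
          | symm a b _ ih => exact (ih (by assumption)).symm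
          | trans a b c _ _ ih1 ih2 =>
            exact (ih1 (by assumption)).trans (ih2 (by assumption))
        exact (hcl _ _ hw').2 (hpag x hx y hy w' hlt)
      exact_mod_cast hone

end RC
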