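import Pool.Agent.H27.RC.StepLemma2

/-!
# Sum of the costs over all steps
-/

open Finset
open scoped Classical

namespace RC

variable {V : Type*} [Fintype V] {n J : ℕ}

/-- validity of the step part of a code -/
def StepsOK (r : ℕ → Setoid V) (v : V → Equiv.Perm (Fin n)) (a : ℕ → Equiv.Perm (Fin n)) (s1 : ℕ)
    (steps : Fin J → Option (Fin J × SInfo V)) : Prop :=
  ∀ j k σ, steps j = some (k, σ) → k < j ∧
    StepOK (r j) (r (j + 1)) v (a j * (a k)⁻¹) σ ∧ σ.used.card ≤ s1 ∧ σ.rel.card ≤ s1

/-- the weight of a step -/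
noncomputable def wt (r : ℕ → Setoid V) (v : V → Equiv.Perm (Fin n)) (a : ℕ → Equiv.Perm (Fin n))
    (steps : Fin J → Option (Fin J × SInfo V)) (j : Fin J) : ℝ :=
  match steps j with
  | none => 1 / (n.factorial : ℝ)
  | some (k, σ) => stepWt (r j) (r (j + 1)) v (a j * (a k)⁻¹) σ

theorem wt_pos (r : ℕ → Setoid V) (v : V → Equiv.Perm (Fin n)) (a : ℕ → Equiv.Perm (Fin n))
    (steps : Fin J → Option (Fin J × SInfo V)) (j : Fin J) : 0 < wt r v a steps j := by
  unfold wt
  split
  · have : (0 : ℝ) < n.factorial := by exact_mod_cast n.factorial_pos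
    positivity
  · exact stepWt_pos _ _ _ _ _

/-- numeric parameters for the step lemma -/
structure Params (n M s0 s1 h g s s' : ℕ) : Prop where
  hs' : 0 < s'
  hg : 1 ≤ g
  hns : (n : ℝ) / s' * Real.log (2 * n) ≤ n
  h0 : 0 < s0
  hs01 : s0 ≤ s1
  hs1 : s ≤ s1
  hpairs : h * (M / s0) ^ 2 ≤ s1
  hh : (n : ℝ) * (1 - 1 / (g : ℝ)) ^ h < 1
  hspread : n ^ (s' + 1) < 4 ^ s

theorem steps_exist {m : ℕ} (hm : 0 < m) {v : Fin m → Equiv.Perm (Fin n)}
    (hv : Function.Injective v) (hn : 0 < n) (a : ℕ → Equiv.Perm (Fin n)) (r : ℕ → Setoid (Fin m))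
    (hr : ∀ j, r j ≤ r (j + 1))
    (hp : ∀ j < J, ∀ k < j, ∀ i i', v i' = (a j * (a k)⁻¹) * v i → r (j + 1) i i')
    {s0 s1 h g s s' : ℕ} (hP : Params n m s0 s1 h g s s') (K : ℕ) (hK : 1 ≤ K)
    (E : Finset ℕ) (hE : E.card ≤ 128 * K)
    (hA : ∀ j < J, j ∉ E → ∃ k < j, m ≤ 205 * K * (ApSet v (a j * (a k)⁻¹)).card)
    (hJg : J ≤ g) :
    ∃ steps : Fin J → Option (Fin J × SInfo (Fin m)), StepsOK r v a s1 steps ∧
      ∑ j, - Real.log (wt r v a steps j) ≤
        948 * K * Real.log n.factorial + J * (n * (8 * Real.log (205 * K) + 8)) +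
        3280 * K * n * Real.log m + Real.log (2 * n) * (3280 * K * n + n) := by
  have hmR : (0 : ℝ) < m := by exact_mod_cast hm
  have hnR : (0 : ℝ) < n := by exact_mod_cast hn
  have hKR : (0 : ℝ) < K := by exact_mod_cast hK
  have hgR : (0 : ℝ) < g := by exact_mod_cast hP.hg
  have hlog2n : 0 ≤ Real.log (2 * n) := by
    apply Real.log_nonneg
    have : (1 : ℝ) ≤ n := by exact_mod_cast hn
    linarith
  have hlogfac : 0 ≤ Real.log n.factorial := by
    apply Real.log_nonneg
    exact_mod_cast n.factorial_pos
  -- choice of the old seed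
  have hk : ∀ j : Fin J, ∃ k : Fin J, (j : ℕ) ∉ E → (k < j ∧
      m ≤ 205 * K * (ApSet v (a j * (a k)⁻¹)).card) := by
    intro j
    by_cases hj : (j : ℕ) ∈ E
    · exact ⟨j, fun h => absurd hj h⟩
    · obtain ⟨k, hk1, hk2⟩ := hA j j.2 hj
      exact ⟨⟨k, hk1.trans j.2⟩, fun _ => ⟨hk1, hk2⟩⟩
  choose k hk using hk
  set TL : ℕ → ℕ := fun j => (univ.filter fun i => csz (r j) i ≤ s0 ∧ s0 < csz (r (j + 1)) i).card
    with hTL
  -- full steps
  set full : Fin J → Prop := fun j => (j : ℕ) ∈ E ∨
    (ApSet v (a j * (a (k j))⁻¹)).card < 4 * TL j with hfull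
  have hcheap : ∀ j : Fin J, ∃ σ : SInfo (Fin m), ¬ full j →
      StepOK (r j) (r (j + 1)) v (a j * (a (k j))⁻¹) σ ∧ σ.used.card ≤ s1 ∧ σ.rel.card ≤ s1 ∧
      - Real.log (stepWt (r j) (r (j + 1)) v (a j * (a (k j))⁻¹) σ) ≤
        n * (8 * Real.log (205 * K) + 8) +
        3280 * K * n / m * ∑ i, (Real.log (csz (r (j + 1)) i) - Real.log (csz (r j) i)) +
        Real.log (2 * n) * (3280 * K / m * ((Phi (r j) v : ℝ) - Phi (r (j + 1)) v) +
          (n : ℝ) / g) := by
    intro j
    by_cases hj : full j
    · exact ⟨⟨⟨0, hm⟩, ⟨0, hm⟩, ∅, ∅⟩, fun h => absurd hj h⟩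
    · simp only [hfull, not_or, not_lt] at hj
      obtain ⟨hj1, hj2⟩ := hj
      obtain ⟨hkj, hkA⟩ := hk j hj1
      have hAne : (ApSet v (a j * (a (k j))⁻¹)).Nonempty := by
        apply Finset.card_pos.1
        by_contra h0
        have : (ApSet v (a j * (a (k j))⁻¹)).card = 0 := by omega
        rw [this] at hkA
        omega
      obtain ⟨σ, h1, h2, h3, h4⟩ := step_lemma hv hn (hr j) (hp j j.2 (k j) hkj) s0 s1 h g s s'
        hP.hs' hP.hg hP.hns hP.h0 hP.hs01 hP.hs1 (by rw [Fintype.card_fin]; exact hP.hpairs)
        hP.hh hP.hspread hAne hj2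
      refine ⟨σ, fun _ => ⟨h1, h2, h3, h4.trans ?_⟩⟩
      have hAposR : (0 : ℝ) < (ApSet v (a j * (a (k j))⁻¹)).card := by
        exact_mod_cast hAne.card_pos
      have hkAR : (m : ℝ) ≤ 205 * K * (ApSet v (a j * (a (k j))⁻¹)).card := by exact_mod_cast hkA
      have hq1 : ((Fintype.card (Fin m) : ℝ) / (ApSet v (a j * (a (k j))⁻¹)).card) ≤ 205 * K := by
        rw [Fintype.card_fin, div_le_iff₀ hAposR]
        exact hkAR
      have hlog1 : Real.log ((Fintype.card (Fin m) : ℝ) / (ApSet v (a j * (a (k j))⁻¹)).card) ≤
          Real.log (205 * K) := by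
        apply Real.log_le_log _ hq1
        rw [Fintype.card_fin]
        positivity
      have hq2 : 16 / ((ApSet v (a j * (a (k j))⁻¹)).card : ℝ) ≤ 3280 * K / m := by
        rw [div_le_div_iff₀ hAposR hmR]
        nlinarith
      have hq3 : 16 * (n : ℝ) / ((ApSet v (a j * (a (k j))⁻¹)).card : ℝ) ≤ 3280 * K * n / m := by
        have := mul_le_mul_of_nonneg_right hq2 hnR.le
        calc _ = 16 / ((ApSet v (a j * (a (k j))⁻¹)).card : ℝ) * n := by ring
          _ ≤ 3280 * K / m * n := this
          _ = _ := by ring
      have hS : ∑ i, Real.log ((csz (r (j + 1)) i : ℝ) / csz (r j) i) =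
          ∑ i, (Real.log (csz (r (j + 1)) i) - Real.log (csz (r j) i)) := by
        apply Finset.sum_congr rfl
        intro i _
        rw [Real.log_div]
        · exact_mod_cast (csz_pos _ i).ne'
        · exact_mod_cast (csz_pos _ i).ne'
      have hSnn : 0 ≤ ∑ i, Real.log ((csz (r (j + 1)) i : ℝ) / csz (r j) i) := by
        apply Finset.sum_nonneg
        intro i _
        apply Real.log_nonneg
        rw [le_div_iff₀ (by exact_mod_cast csz_pos _ i), one_mul]
        exact_mod_cast csz_mono (hr j) i
      have hPhi : (0 : ℝ) ≤ (Phi (r j) v : ℝ) - Phi (r (j + 1)) v := by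
        have := Phi_anti v (hr j)
        have : (Phi (r (j + 1)) v : ℝ) ≤ Phi (r j) v := by exact_mod_cast this
        linarith
      rw [← hS]
      have e1 := mul_le_mul_of_nonneg_left hlog1 hnR.le
      have e2 := mul_le_mul_of_nonneg_right hq3 hSnn
      have e3 := mul_le_mul_of_nonneg_left (mul_le_mul_of_nonneg_right hq2 hPhi) hlog2n
      nlinarith
  choose σ hσ using hcheap
  -- the code
  refine ⟨fun j => if full j then none else some (k j, σ j), ?_, ?_⟩
  · intro j k' σ' hj
    by_cases hf : full j
    · simp [hf] at hj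
    · simp only [hf, if_false, Option.some.injEq, Prod.mk.injEq] at hj
      obtain ⟨rfl, rfl⟩ := hj
      have hjE : (j : ℕ) ∉ E := fun h => hf (Or.inl h)
      exact ⟨(hk j hjE).1, (hσ j hf).1, (hσ j hf).2.1, (hσ j hf).2.2.1⟩
  · -- costs
    set S : ℕ → ℝ := fun j => ∑ i, Real.log (csz (r j) i) with hS
    have hSmono : ∀ j, S j ≤ S (j + 1) := by
      intro j
      apply Finset.sum_le_sum
      intro i _
      apply Real.log_le_log
      · exact_mod_cast csz_pos _ i
      · exact_mod_cast csz_mono (hr j) i
    have hcost : ∀ j : Fin J, - Real.log (wt r v a (fun j => if full j then none else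
        some (k j, σ j)) j) ≤ (if full j then Real.log n.factorial else 0) +
        (n * (8 * Real.log (205 * K) + 8) +
        3280 * K * n / m * (S (j + 1) - S j) +
        Real.log (2 * n) * (3280 * K / m * ((Phi (r j) v : ℝ) - Phi (r (j + 1)) v) +
          (n : ℝ) / g)) := by
      intro j
      have hPhi : (0 : ℝ) ≤ (Phi (r j) v : ℝ) - Phi (r (j + 1)) v := by
        have := Phi_anti v (hr j)
        have : (Phi (r (j + 1)) v : ℝ) ≤ Phi (r j) v := by exact_mod_cast this
        linarith
      have hSj : 0 ≤ S (j + 1) - S j := sub_nonneg.2 (hSmono j)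
      have hlogK : 0 ≤ Real.log (205 * K) := by
        apply Real.log_nonneg
        have : (1 : ℝ) ≤ K := by exact_mod_cast hK
        linarith
      by_cases hf : full j
      · have : wt r v a (fun j => if full j then none else some (k j, σ j)) j =
            1 / (n.factorial : ℝ) := by
          unfold wt
          simp [hf]
        rw [this, if_pos hf, Real.log_div one_ne_zero (by exact_mod_cast n.factorial_pos.ne'),
          Real.log_one, zero_sub, neg_neg]
        have : 0 ≤ (n * (8 * Real.log (205 * K) + 8) +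
          3280 * K * n / m * (S (j + 1) - S j) +
          Real.log (2 * n) * (3280 * K / m * ((Phi (r j) v : ℝ) - Phi (r (j + 1)) v) +
          (n : ℝ) / g)) := by positivity
        linarith
      · have : wt r v a (fun j => if full j then none else some (k j, σ j)) j =
            stepWt (r j) (r (j + 1)) v (a j * (a (k j))⁻¹) (σ j) := by
          unfold wt
          simp [hf]
        rw [this, if_neg hf, zero_add]
        have h4 := (hσ j hf).2.2.2
        have : S (j + 1) - S j = ∑ i, (Real.log (csz (r (j + 1)) i) - Real.log (csz (r j) i)) := by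
          simp only [hS]
          rw [Finset.sum_sub_distrib]
        rw [this]
        exact h4
    refine (Finset.sum_le_sum fun j _ => hcost j).trans ?_
    rw [Finset.sum_add_distrib]
    -- number of full steps
    have hTLsum : ∑ j : Fin J, TL j ≤ m := by
      have h1 : ∑ j : Fin J, TL j = (univ.biUnion fun j : Fin J =>
          univ.filter fun i => csz (r j) i ≤ s0 ∧ s0 < csz (r (j + 1)) i).card := by
        rw [Finset.card_biUnion]
        have hmono : ∀ i, Monotone fun j => csz (r j) i := by
          intro i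
          exact monotone_nat_of_le_succ fun j => csz_mono (hr j) i
        have key : ∀ (j j' : Fin J) (i : Fin m), j < j' →
            (csz (r j) i ≤ s0 ∧ s0 < csz (r (j + 1)) i) →
            (csz (r j') i ≤ s0 ∧ s0 < csz (r (j' + 1)) i) → False := by
          intro j j' i hjj h1 h2
          have := hmono i (show (j : ℕ) + 1 ≤ j' from hjj)
          simp only at this
          omega
        intro j _ j' _ hjj
        rw [Function.onFun, Finset.disjoint_left]
        intro i hi hi'
        simp only [mem_filter, mem_univ, true_and] at hi hi'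
        rcases lt_or_gt_of_ne hjj with h | h
        · exact key j j' i h hi hi'
        · exact key j' j i h hi' hi
      rw [h1]
      refine (Finset.card_le_univ _).trans ?_
      rw [Fintype.card_fin]
    have hfullcard : ((univ.filter full).card : ℝ) ≤ 948 * K := by
      have h1 : univ.filter full ⊆ (univ.filter fun j : Fin J => (j : ℕ) ∈ E) ∪
          (univ.filter fun j : Fin J => (j : ℕ) ∉ E ∧
            (ApSet v (a j * (a (k j))⁻¹)).card < 4 * TL j) := by
        intro j hj
        simp only [hfull, mem_filter, mem_univ, true_and, mem_union] at hj ⊢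
        by_cases hjE : (j : ℕ) ∈ E
        · left; exact hjE
        · right
          rcases hj with h | h
          · exact absurd h hjE
          · exact ⟨hjE, h⟩
      have h2 : (univ.filter fun j : Fin J => (j : ℕ) ∈ E).card ≤ E.card := by
        apply Finset.card_le_card_of_injOn (fun j : Fin J => (j : ℕ))
        · intro j hj
          simp only [coe_filter, mem_univ, true_and, Set.mem_ofPred_eq] at hj
          exact hj
        · intro j _ j' _ h
          exact Fin.ext h
      have h3 : (univ.filter fun j : Fin J => (j : ℕ) ∉ E ∧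
            (ApSet v (a j * (a (k j))⁻¹)).card < 4 * TL j).card ≤ 820 * K := by
        set F := (univ.filter fun j : Fin J => (j : ℕ) ∉ E ∧
            (ApSet v (a j * (a (k j))⁻¹)).card < 4 * TL j) with hF
        have h4 : F.card * m ≤ 820 * K * m := by
          calc F.card * m = ∑ j ∈ F, m := by rw [Finset.sum_const, smul_eq_mul]
            _ ≤ ∑ j ∈ F, 820 * K * TL j := by
                apply Finset.sum_le_sum
                intro j hj
                simp only [hF, mem_filter, mem_univ, true_and] at hj
                have := (hk j hj.1).2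
                have h5 := hj.2
                nlinarith
            _ = 820 * K * ∑ j ∈ F, TL j := by rw [Finset.mul_sum]
            _ ≤ 820 * K * ∑ j : Fin J, TL j := by
                apply Nat.mul_le_mul_left
                exact Finset.sum_le_sum_of_subset (Finset.subset_univ _)
            _ ≤ 820 * K * m := Nat.mul_le_mul_left _ hTLsum
        exact Nat.le_of_mul_le_mul_right h4 hm
      have h5 : (univ.filter full).card ≤ 948 * K := by
        refine (Finset.card_le_card h1).trans ((Finset.card_union_le _ _).trans ?_)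
        omega
      exact_mod_cast h5
    have hpart1 : ∑ j : Fin J, (if full j then Real.log n.factorial else 0) ≤
        948 * K * Real.log n.factorial := by
      rw [← Finset.sum_filter, Finset.sum_const, nsmul_eq_mul]
      exact mul_le_mul_of_nonneg_right hfullcard hlogfac
    have hpart2 : ∑ j : Fin J, (n * (8 * Real.log (205 * K) + 8) +
        3280 * K * n / m * (S (j + 1) - S j) +
        Real.log (2 * n) * (3280 * K / m * ((Phi (r j) v : ℝ) - Phi (r (j + 1)) v) +
          (n : ℝ) / g)) =
        J * (n * (8 * Real.log (205 * K) + 8)) + 3280 * K * n / m * (S J - S 0) +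
        Real.log (2 * n) * (3280 * K / m * ((Phi (r 0) v : ℝ) - Phi (r J) v) + J * ((n : ℝ) / g)) := by
      have t1 : ∑ j : Fin J, (S (j + 1) - S j) = S J - S 0 := by
        rw [← Finset.sum_range (fun j => S (j + 1) - S j), Finset.sum_range_sub]
      have t2 : ∑ j : Fin J, ((Phi (r j) v : ℝ) - Phi (r (j + 1)) v) =
          (Phi (r 0) v : ℝ) - Phi (r J) v := by
        rw [← Finset.sum_range (fun j => (Phi (r j) v : ℝ) - Phi (r (j + 1)) v),
          Finset.sum_range_sub']
      have t0 : ∀ j : Fin J, (n * (8 * Real.log (205 * K) + 8) +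
          3280 * K * n / m * (S (j + 1) - S j) +
          Real.log (2 * n) * (3280 * K / m * ((Phi (r j) v : ℝ) - Phi (r (j + 1)) v) +
          (n : ℝ) / g)) = (n * (8 * Real.log (205 * K) + 8) + Real.log (2 * n) * ((n : ℝ) / g)) +
          3280 * K * n / m * (S (j + 1) - S j) +
          (Real.log (2 * n) * (3280 * K / m)) * ((Phi (r j) v : ℝ) - Phi (r (j + 1)) v) := by
        intro j
        ring
      rw [Finset.sum_congr rfl fun j _ => t0 j, Finset.sum_add_distrib, Finset.sum_add_distrib,
        ← Finset.mul_sum, ← Finset.mul_sum, t1, t2, Finset.sum_const, Finset.card_univ,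
        Fintype.card_fin, nsmul_eq_mul]
      ring
    rw [hpart2]
    have hSJ : S J ≤ m * Real.log m := by
      simp only [hS]
      calc ∑ i : Fin m, Real.log (csz (r J) i) ≤ ∑ _i : Fin m, Real.log m := by
            apply Finset.sum_le_sum
            intro i _
            apply Real.log_le_log
            · exact_mod_cast csz_pos _ i
            · have := csz_le (r J) i
              rw [Fintype.card_fin] at this
              exact_mod_cast this
        _ = m * Real.log m := by simp
    have hS0 : 0 ≤ S 0 := by
      apply Finset.sum_nonneg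
      intro i _
      apply Real.log_nonneg
      exact_mod_cast csz_pos _ i
    have hPhi0 : (Phi (r 0) v : ℝ) ≤ n * m := by
      have := Phi_bot_le v (r 0)
      rw [Fintype.card_fin] at this
      exact_mod_cast this
    have hPhiJ : (0 : ℝ) ≤ Phi (r J) v := by positivity
    have hJgR : (J : ℝ) ≤ g := by exact_mod_cast hJg
    have b1 : 3280 * K * n / m * (S J - S 0) ≤ 3280 * K * n * Real.log m := by
      calc 3280 * K * n / m * (S J - S 0) ≤ 3280 * K * n / m * (m * Real.log m) := by
            apply mul_le_mul_of_nonneg_left _ (by positivity)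
            linarith
        _ = 3280 * K * n * Real.log m := by field_simp
    have b2 : 3280 * K / m * ((Phi (r 0) v : ℝ) - Phi (r J) v) ≤ 3280 * K * n := by
      calc 3280 * K / m * ((Phi (r 0) v : ℝ) - Phi (r J) v) ≤ 3280 * K / m * (n * m) := by
            apply mul_le_mul_of_nonneg_left _ (by positivity)
            linarith
        _ = 3280 * K * n := by field_simp
    have b3 : J * ((n : ℝ) / g) ≤ n := by
      rw [mul_div_assoc', div_le_iff₀ hgR]
      nlinarith
    have b4 := mul_le_mul_of_nonneg_left (add_le_add b2 b3) hlog2n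
    linarith

end RC
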